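import Pool.Agent.FFG.HE.Defs

/-!
# Hidden-entropy criterion: the Gibbs variational principle
-/

open Finset
open scoped InnerProductSpace

set_option autoImplicit false
set_option linter.unusedSectionVars false
set_option linter.unusedVariables false

namespace Pool.Agent.FFG.HE

open Pool.Agent.FFG Pool.Agent.FFG.EC Pool.Agent.FFG.HPlain

private theorem spec {n : Type} [Fintype n] [DecidableEq n] {A : Matrix n n ℂ}
    (hA : A.IsHermitian) :
    (hA.eigenvectorUnitary : Matrix n n ℂ) *
      Matrix.diagonal (fun i => (hA.eigenvalues i : ℂ)) *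
      star (hA.eigenvectorUnitary : Matrix n n ℂ) = A := by
  conv_rhs => rw [hA.spectral_theorem]
  rfl

private theorem tr_form {n : Type} [Fintype n] [DecidableEq n] (a b : n → ℂ)
    (W : Matrix n n ℂ) :
    (Matrix.diagonal a * (star W * (Matrix.diagonal b * W))).trace =
      ∑ j, ∑ i, a j * (b i * (Complex.normSq (W i j) : ℂ)) := by
  unfold Matrix.trace
  refine Finset.sum_congr rfl fun j _ => ?_
  rw [Matrix.diag_apply, Matrix.diagonal_mul, Matrix.mul_apply, Finset.mul_sum]
  refine Finset.sum_congr rfl fun i _ => ?_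
  rw [Matrix.diagonal_mul, Matrix.star_apply, Complex.normSq_eq_conj_mul_self, Complex.star_def]
  ring

private theorem col_sum {n : Type} [Fintype n] [DecidableEq n] {W : Matrix n n ℂ}
    (h : star W * W = 1) (j : n) : ∑ i, Complex.normSq (W i j) = 1 := by
  have h1 := congrFun (congrFun h j) j
  rw [Matrix.mul_apply, Matrix.one_apply_eq] at h1
  have h2 : ((∑ i, Complex.normSq (W i j) : ℝ) : ℂ) = 1 := by
    rw [← h1, Complex.ofReal_sum]
    refine Finset.sum_congr rfl fun i _ => ?_
    rw [Matrix.star_apply, Complex.normSq_eq_conj_mul_self, Complex.star_def]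
  exact_mod_cast h2

private theorem row_sum {n : Type} [Fintype n] [DecidableEq n] {W : Matrix n n ℂ}
    (h : W * star W = 1) (i : n) : ∑ j, Complex.normSq (W i j) = 1 := by
  have h1 := congrFun (congrFun h i) i
  rw [Matrix.mul_apply, Matrix.one_apply_eq] at h1
  have h2 : ((∑ j, Complex.normSq (W i j) : ℝ) : ℂ) = 1 := by
    rw [← h1, Complex.ofReal_sum]
    refine Finset.sum_congr rfl fun j _ => ?_
    rw [Matrix.star_apply, Complex.normSq_eq_conj_mul_self, Complex.star_def, mul_comm]
  exact_mod_cast h2

private theorem scal (s g κ : ℝ) (hs : 0 ≤ s) :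
    Real.negMulLog s - s * g - κ * s ≤ Real.exp (-g) * Real.exp (-κ) - s := by
  rcases hs.eq_or_lt with h | h
  · rw [← h]
    simp only [Real.negMulLog_zero, zero_mul, mul_zero, sub_zero]
    positivity
  · have h1 := Real.log_le_sub_one_of_pos (x := Real.exp (-g) * Real.exp (-κ) / s)
      (by positivity)
    rw [Real.log_div (by positivity) h.ne', Real.log_mul (Real.exp_ne_zero _)
      (Real.exp_ne_zero _), Real.log_exp, Real.log_exp] at h1
    have h2 := mul_le_mul_of_nonneg_left h1 hs
    have h3 : s * (Real.exp (-g) * Real.exp (-κ) / s - 1) =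
        Real.exp (-g) * Real.exp (-κ) - s := by
      field_simp
    rw [h3] at h2
    unfold Real.negMulLog
    linarith [h2]

/- PROOF (Gibbs variational principle). Let `s j`, `e j` be the eigenvalues and the orthonormal
eigenvectors of `ρ`, `f i`, `v i` those of `A`, and `g j = ⟪e j, A e j⟫ = ∑ i, B i j * f i`,
`B i j = |⟪v i, e j⟫| ^ 2` doubly stochastic. `(ρ * A).trace = ∑ j, s j * g j`. By
`log x ≤ x - 1` (or Jensen), `∑ j, negMulLog (s j) - β ∑ j, s j * g j ≤ log ∑ j, exp (- β g j)`
(`∑ s j = 1`, `s j ≥ 0`), and by the convexity of `exp`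
`exp (- β g j) ≤ ∑ i, B i j * exp (- β f i)`; sum over `j`. -/
theorem ent_le {n : Type} [Fintype n] [DecidableEq n] {ρ A : Matrix n n ℂ} (hρ : IsState ρ)
    (hA : A.IsHermitian) (β κ : ℝ)
    (hZ : ∑ i, Real.exp (-β * hA.eigenvalues i) ≤ Real.exp κ) :
    ent hρ.herm ≤ β * (ρ * A).trace.re + κ := by
  set U : Matrix n n ℂ := (hρ.herm.eigenvectorUnitary : Matrix n n ℂ) with hU
  set V : Matrix n n ℂ := (hA.eigenvectorUnitary : Matrix n n ℂ) with hV
  set s : n → ℝ := hρ.herm.eigenvalues with hs
  set f : n → ℝ := hA.eigenvalues with hf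
  have hU1 : star U * U = 1 := Unitary.coe_star_mul_self hρ.herm.eigenvectorUnitary
  have hU2 : U * star U = 1 := Unitary.coe_mul_star_self hρ.herm.eigenvectorUnitary
  have hV1 : star V * V = 1 := Unitary.coe_star_mul_self hA.eigenvectorUnitary
  have hV2 : V * star V = 1 := Unitary.coe_mul_star_self hA.eigenvectorUnitary
  set W : Matrix n n ℂ := star V * U with hW
  have hW1 : star W * W = 1 := by
    rw [hW, star_mul, star_star]
    calc star U * V * (star V * U) = star U * (V * star V) * U := by noncomm_ring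
      _ = 1 := by rw [hV2, mul_one, hU1]
  have hW2 : W * star W = 1 := by
    rw [hW, star_mul, star_star]
    calc star V * U * (star U * V) = star V * (U * star U) * V := by noncomm_ring
      _ = 1 := by rw [hU2, mul_one, hV1]
  have hρs : U * Matrix.diagonal (fun i => (s i : ℂ)) * star U = ρ := spec hρ.herm
  have hAs : V * Matrix.diagonal (fun i => (f i : ℂ)) * star V = A := spec hA
  -- the trace of the product
  have htr : (ρ * A).trace = ∑ j, ∑ i, (s j : ℂ) * ((f i : ℂ) * (Complex.normSq (W i j) : ℂ)) := by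
    rw [← tr_form, ← hρs, ← hAs]
    rw [show U * Matrix.diagonal (fun i => (s i : ℂ)) * star U *
      (V * Matrix.diagonal (fun i => (f i : ℂ)) * star V) =
      U * (Matrix.diagonal (fun i => (s i : ℂ)) * (star U * V *
        (Matrix.diagonal (fun i => (f i : ℂ)) * star V))) by noncomm_ring,
      Matrix.trace_mul_comm U]
    congr 1
    rw [hW, star_mul, star_star]
    noncomm_ring
  set g : n → ℝ := fun j => ∑ i, f i * Complex.normSq (W i j) with hg
  have htr' : (ρ * A).trace.re = ∑ j, s j * g j := by
    rw [htr]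
    have : (∑ j, ∑ i, (s j : ℂ) * ((f i : ℂ) * (Complex.normSq (W i j) : ℂ))) =
        ((∑ j, s j * g j : ℝ) : ℂ) := by
      rw [Complex.ofReal_sum]
      refine Finset.sum_congr rfl fun j _ => ?_
      rw [← Finset.mul_sum, Complex.ofReal_mul, hg]
      congr 1
      rw [Complex.ofReal_sum]
      exact Finset.sum_congr rfl fun i _ => by rw [Complex.ofReal_mul]
    rw [this, Complex.ofReal_re]
  have hs1 : ∑ j, s j = 1 := by
    have h1 := hρ.herm.trace_eq_sum_eigenvalues
    rw [hρ.tr] at h1
    have h2 : ((∑ j, s j : ℝ) : ℂ) = 1 := by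
      rw [Complex.ofReal_sum]
      exact h1.symm
    exact_mod_cast h2
  have hs0 : ∀ j, 0 ≤ s j := fun j => hρ.pos.eigenvalues_nonneg j
  -- Jensen
  have hJ : ∀ j, Real.exp (-(β * g j)) ≤ ∑ i, Complex.normSq (W i j) * Real.exp (-β * f i) := by
    intro j
    have h1 := convexOn_exp.map_sum_le (t := (Finset.univ : Finset n))
      (w := fun i => Complex.normSq (W i j)) (p := fun i => -β * f i)
      (fun i _ => Complex.normSq_nonneg _) (col_sum hW1 j) (fun i _ => Set.mem_univ _)
    simp only [smul_eq_mul] at h1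
    refine le_trans (le_of_eq ?_) h1
    congr 1
    rw [hg, Finset.mul_sum, ← Finset.sum_neg_distrib]
    exact Finset.sum_congr rfl fun i _ => by ring
  have hJs : ∑ j, Real.exp (-(β * g j)) ≤ Real.exp κ := by
    refine le_trans (Finset.sum_le_sum fun j _ => hJ j) ?_
    rw [Finset.sum_comm]
    refine le_trans (le_of_eq ?_) hZ
    refine Finset.sum_congr rfl fun i _ => ?_
    rw [← Finset.sum_mul, row_sum hW2 i, one_mul]
  have hsum : ∑ j, (Real.negMulLog (s j) - s j * (β * g j) - κ * s j) ≤
      ∑ j, (Real.exp (-(β * g j)) * Real.exp (-κ) - s j) :=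
    Finset.sum_le_sum fun j _ => scal (s j) (β * g j) κ (hs0 j)
  rw [Finset.sum_sub_distrib, Finset.sum_sub_distrib, Finset.sum_sub_distrib, ← Finset.mul_sum,
    ← Finset.sum_mul, hs1] at hsum
  have h5 : (∑ j, Real.exp (-(β * g j))) * Real.exp (-κ) ≤ 1 := by
    calc (∑ j, Real.exp (-(β * g j))) * Real.exp (-κ) ≤ Real.exp κ * Real.exp (-κ) :=
          mul_le_mul_of_nonneg_right hJs (Real.exp_pos _).le
      _ = 1 := by rw [← Real.exp_add, add_neg_cancel, Real.exp_zero]
  have h6 : ∑ j, s j * (β * g j) = β * ∑ j, s j * g j := by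
    rw [Finset.mul_sum]
    exact Finset.sum_congr rfl fun j _ => by ring
  rw [h6] at hsum
  rw [htr']
  unfold ent
  linarith

/- PROOF. `(A * M).trace = ∑ i, a i * ⟪u i, M (u i)⟫` for the spectral decomposition of `A`, and
`‖⟪u, M u⟫‖ ≤ 1` for a projection `M` and a unit vector `u`. -/
theorem trace_mul_le {n : Type} [Fintype n] [DecidableEq n] {A M : Matrix n n ℂ}
    (hA : A.IsHermitian) (hM : M.IsHermitian) (hM2 : M * M = M) :
    (A * M).trace.re ≤ trNorm hA := by
  set V : Matrix n n ℂ := (hA.eigenvectorUnitary : Matrix n n ℂ) with hV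
  set f : n → ℝ := hA.eigenvalues with hf
  have hV2 : V * star V = 1 := Unitary.coe_mul_star_self hA.eigenvectorUnitary
  have hAs : V * Matrix.diagonal (fun i => (f i : ℂ)) * star V = A := spec hA
  set P : Matrix n n ℂ := star V * M * V with hP
  have hPs : star P = P := by
    have : star M = M := hM
    rw [hP, star_mul, star_mul, star_star, this]
    noncomm_ring
  have hPP : P * P = P := by
    rw [hP]
    calc star V * M * V * (star V * M * V) = star V * M * (V * star V) * (M * V) := by
          noncomm_ring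
      _ = star V * (M * M) * V := by rw [hV2]; noncomm_ring
      _ = star V * M * V := by rw [hM2]
  have htr : (A * M).trace = ∑ i, (f i : ℂ) * P i i := by
    rw [← hAs]
    rw [show V * Matrix.diagonal (fun i => (f i : ℂ)) * star V * M =
      V * (Matrix.diagonal (fun i => (f i : ℂ)) * star V * M) by noncomm_ring,
      Matrix.trace_mul_comm V,
      show Matrix.diagonal (fun i => (f i : ℂ)) * star V * M * V =
        Matrix.diagonal (fun i => (f i : ℂ)) * P by rw [hP]; noncomm_ring]
    unfold Matrix.trace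
    exact Finset.sum_congr rfl fun i _ => by rw [Matrix.diag_apply, Matrix.diagonal_mul]
  have hdiag : ∀ i, 0 ≤ (P i i).re ∧ (P i i).re ≤ 1 := by
    intro i
    have h1 : P i i = ((∑ j, Complex.normSq (P i j) : ℝ) : ℂ) := by
      conv_lhs => rw [← hPP, Matrix.mul_apply]
      rw [Complex.ofReal_sum]
      refine Finset.sum_congr rfl fun j _ => ?_
      have h2 : P j i = star (P i j) := by
        conv_lhs => rw [← hPs, Matrix.star_apply]
      rw [h2, Complex.normSq_eq_conj_mul_self, Complex.star_def, mul_comm]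
    have h3 : (P i i).re = ∑ j, Complex.normSq (P i j) := by
      conv_lhs => rw [h1, Complex.ofReal_re]
    have h4 : Complex.normSq (P i i) ≤ (P i i).re := by
      rw [h3]
      exact Finset.single_le_sum (f := fun j => Complex.normSq (P i j))
        (fun j _ => Complex.normSq_nonneg _) (Finset.mem_univ i)
    have h5 : (P i i).re ^ 2 ≤ Complex.normSq (P i i) := by
      rw [Complex.normSq_apply]
      nlinarith [sq_nonneg (P i i).im]
    have h6 : 0 ≤ (P i i).re := le_trans (Complex.normSq_nonneg _) h4
    refine ⟨h6, ?_⟩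
    by_contra h7
    push Not at h7
    nlinarith
  rw [htr, Complex.re_sum]
  unfold trNorm
  refine Finset.sum_le_sum fun i _ => ?_
  rw [Complex.re_ofReal_mul]
  obtain ⟨h1, h2⟩ := hdiag i
  calc f i * (P i i).re ≤ |f i| * (P i i).re :=
        mul_le_mul_of_nonneg_right (le_abs_self _) h1
    _ ≤ |f i| * 1 := mul_le_mul_of_nonneg_left h2 (abs_nonneg _)
    _ = |f i| := mul_one _

end Pool.Agent.FFG.HE
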