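import Pool.Agent.FFG.HE.Parent
import Pool.Agent.FFG.Proj
import Pool.Agent.FFG.GP.KVNorm

/-!
# Hidden-entropy criterion: the parent form in plain terms
-/

open Finset

set_option autoImplicit false
set_option linter.unusedSectionVars false
set_option linter.unusedVariables false

namespace Pool.Agent.FFG.HE

open Pool.Agent.PEPS953.Plain Pool.Agent.FFG.EPlain Pool.Agent.FFG.HPlain

/- PROOF. `parent_one` for `Q v = locOp L (q v) v`: a projection by `pj_translate_mul`
(FFG/Proj.lean) and `gp12_locOp_sa` (GP/KVNorm.lean), local on `boxAt L R v` by `locOp_localOn`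
(FFG/Local.lean), `testSum q = mat (∑ v, Q v)` (`mat_locOp`; the `translate` and `boxPos` of
`PEPS953.Plain` and of `PEPS953` are equal by `rfl`, see PEPS953/Transfer.lean), and
`nrm_eq`, `ip_eq`, `up_ne_zero`, `isPEPS_iff` of PEPS953/Transfer.lean. Compare the proof of
Results/MP_953b23_mp/EntropyCriterion.lean. -/
theorem plain_parent {d : ℕ} (hd : 0 < d) (L : ℕ) [NeZero L] (Ψ : Vec d L) (hΨ : nrm Ψ = 1)
    (R : ℕ) (hR : 0 < R) (hRL : R ≤ L) (q : Site L → Matrix (LConf d R) (LConf d R) ℂ)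
    (hq : ∀ v, (q v).IsHermitian ∧ q v * q v = q v) (β κ : ℝ) (hβ : 0 ≤ β)
    (h : (testSum q).IsHermitian)
    (hZ : ∑ i, Real.exp (-β * h.eigenvalues i) ≤ Real.exp κ) (p : ℕ)
    (hp : 50 * (8 * (R : ℝ) ^ 3 + 1) ^ 2 * β ≤ p)
    (hε : 4 * p * ∑ v, nrm ((translate L (q v) v).mulVec Ψ) ≤ 1) :
    ∃ Φ : Vec d L, IsPEPS ((d ^ (2 * R ^ 2)) ^ (2 * p * R ^ 2)) Φ ∧ Φ ≠ 0 ∧
      Real.exp (-(κ / 2)) / 2 * nrm Φ ≤ ‖ip Ψ Φ‖ := by
  rw [PEPS953.nrm_eq] at hΨ
  have hQ : ∀ v, IsStarProjection (PEPS953.locOp L (q v) v) := by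
    intro v
    refine ⟨?_, GP.gp12_locOp_sa (hq v).1 v⟩
    show PEPS953.locOp L (q v) v * PEPS953.locOp L (q v) v = PEPS953.locOp L (q v) v
    unfold PEPS953.locOp
    rw [← map_mul, ← pj_translate_mul hRL, (hq v).2]
  have hloc : ∀ v, LocalOn (boxAt L R v) (PEPS953.locOp L (q v) v) :=
    fun v => locOp_localOn hRL (q v) v
  have hmat : mat (∑ v, PEPS953.locOp L (q v) v) = testSum q := by
    unfold mat testSum
    rw [map_sum]
    exact Finset.sum_congr rfl fun v _ => mat_locOp (q v) v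
  have hF : (mat (∑ v, PEPS953.locOp L (q v) v)).IsHermitian := by
    rw [hmat]
    exact h
  have key : ∀ (A : Matrix (Conf d L) (Conf d L) ℂ) (hA : A.IsHermitian), A = testSum q →
      ∑ i, Real.exp (-β * hA.eigenvalues i) ≤ Real.exp κ := by
    intro A hA hAq
    subst hAq
    exact hZ
  have hε' : 4 * p * ∑ v, ‖PEPS953.locOp L (q v) v (PEPS953.up Ψ)‖ ≤ 1 := by
    refine le_trans (le_of_eq ?_) hε
    congr 1
    refine Finset.sum_congr rfl fun v _ => ?_
    rw [PEPS953.nrm_eq]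
    rfl
  obtain ⟨Φ, h1, h2, h3⟩ := parent_one hd hR hRL hQ hloc hΨ hβ hF (key _ hF hmat) p hp hε'
  refine ⟨Φ.ofLp, h1, ?_, ?_⟩
  · intro h0
    apply h2
    rw [← PEPS953.up_ofLp Φ, h0]
    rfl
  · rw [PEPS953.nrm_eq, PEPS953.ip_eq, PEPS953.up_ofLp]
    exact h3

/- PROOF. Every term is self-adjoint. -/
theorem testSum_isHermitian {d L R : ℕ} [NeZero L] {q : Site L → Matrix (LConf d R) (LConf d R) ℂ}
    (hq : ∀ v, (q v).IsHermitian) : (testSum q).IsHermitian := by
  unfold testSum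
  have h1 : ∀ v, (translate L (q v) v).IsHermitian := by
    intro v
    show (translate L (q v) v).conjTranspose = translate L (q v) v
    have h2 := PEPS953.translate_conjTranspose (L := L) (q v) v
    rw [(hq v).eq] at h2
    exact h2
  unfold Matrix.IsHermitian
  rw [Matrix.conjTranspose_sum]
  exact Finset.sum_congr rfl fun v _ => h1 v

end Pool.Agent.FFG.HE
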