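import Pool.Agent.FFG.HE.Defs

/-!
# Hidden-entropy criterion: expectations in a mixed state
-/

open Finset
open scoped InnerProductSpace

set_option autoImplicit false
set_option linter.unusedSectionVars false
set_option linter.unusedVariables false

namespace Pool.Agent.FFG.HE

open Pool.Agent.PEPS953 Pool.Agent.FFG Pool.Agent.FFG.EC Pool.Agent.FFG.HPlain

variable {d L : ℕ} [NeZero L]

private lemma split_trace (T : Hil d L →L[ℂ] Hil d L)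
    (b : OrthonormalBasis (Conf d L) ℂ (Hil d L)) :
    (mat T).trace = ∑ i, ⟪b i, T (b i)⟫_ℂ := by
  have h1 := LinearMap.trace_eq_sum_inner (T : Hil d L →ₗ[ℂ] Hil d L) b
  have h2 := LinearMap.trace_eq_sum_inner (T : Hil d L →ₗ[ℂ] Hil d L)
    (EuclideanSpace.basisFun (Conf d L) ℂ)
  have h3 : ∑ i, ⟪b i, T (b i)⟫_ℂ = ∑ i, ⟪EuclideanSpace.basisFun (Conf d L) ℂ i,
      T (EuclideanSpace.basisFun (Conf d L) ℂ i)⟫_ℂ := by
    exact h1.symm.trans h2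
  rw [h3, Matrix.trace]
  refine sum_congr rfl fun s _ => ?_
  rw [EuclideanSpace.basisFun_apply, EuclideanSpace.inner_single_left, map_one, one_mul]
  have h4 := mat_bvec T s
  unfold bvec at h4
  rw [h4]
  rfl

/- PROOF. `ρ = ∑ i, (a i) |u i⟩⟨u i|` with `a i ≥ 0`, `∑ a i = 1`, `u i` an orthonormal basis
(`hρ.herm.spectral_theorem`, `Matrix.PosSemidef.eigenvalues_nonneg`,
`Matrix.IsHermitian.trace_eq_sum_eigenvalues`), and
`(ρ * mat O).trace = ∑ i, a i * ⟪u i, O (u i)⟫`. -/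
theorem exists_mix {ρ : Matrix (Conf d L) (Conf d L) ℂ} (hρ : IsState ρ) :
    ∃ (a : Conf d L → ℝ) (u : Conf d L → Hil d L), (∀ i, 0 ≤ a i) ∧ ∑ i, a i = 1 ∧
      (∀ i, ‖u i‖ = 1) ∧
      ∀ O : Hil d L →L[ℂ] Hil d L, (ρ * mat O).trace = ∑ i, (a i : ℂ) * ⟪u i, O (u i)⟫_ℂ := by
  classical
  refine ⟨hρ.herm.eigenvalues, fun i => hρ.herm.eigenvectorBasis i,
    fun i => hρ.pos.eigenvalues_nonneg i, ?_,
    fun i => hρ.herm.eigenvectorBasis.orthonormal.1 i, ?_⟩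
  · have h1 := hρ.herm.trace_eq_sum_eigenvalues
    rw [hρ.tr] at h1
    have h2 := congrArg Complex.re h1
    simp only [Complex.one_re, Complex.re_sum] at h2
    rw [h2]
    rfl
  · intro O
    set R : Hil d L →L[ℂ] Hil d L := Matrix.toEuclideanCLM (𝕜 := ℂ) (n := Conf d L) ρ with hR
    have hmR : mat R = ρ := (Matrix.toEuclideanCLM (𝕜 := ℂ) (n := Conf d L)).symm_apply_apply ρ
    have h1 : (ρ * mat O).trace = (mat (O * R)).trace := by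
      rw [mat_mul, hmR, Matrix.trace_mul_comm]
    rw [h1, split_trace _ hρ.herm.eigenvectorBasis]
    refine sum_congr rfl fun i _ => ?_
    have h2 : R (hρ.herm.eigenvectorBasis i) =
        ((hρ.herm.eigenvalues i : ℝ) : ℂ) • hρ.herm.eigenvectorBasis i := by
      ext s
      have h3 := congrFun (hρ.herm.mulVec_eigenvectorBasis i) s
      simp only [Pi.smul_apply, Complex.real_smul] at h3
      rw [hR]
      change (ρ.mulVec (hρ.herm.eigenvectorBasis i).ofLp) s = _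
      rw [h3]
      rfl
    rw [mul_apply_eq_comp, h2, map_smul, inner_smul_right]

/- PROOF. `exists_mix`. -/
theorem ex_le {ρ : Matrix (Conf d L) (Conf d L) ℂ} (hρ : IsState ρ) (O : Hil d L →L[ℂ] Hil d L) :
    ex ρ O ≤ ‖O‖ := by
  obtain ⟨a, u, ha, hs, hu, htr⟩ := exists_mix hρ
  rw [ex, htr, Complex.re_sum]
  calc ∑ i, ((a i : ℂ) * ⟪u i, O (u i)⟫_ℂ).re ≤ ∑ i, a i * ‖O‖ := by
        refine sum_le_sum fun i _ => ?_
        rw [Complex.re_ofReal_mul]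
        refine mul_le_mul_of_nonneg_left ?_ (ha i)
        calc (⟪u i, O (u i)⟫_ℂ).re ≤ ‖⟪u i, O (u i)⟫_ℂ‖ := Complex.re_le_norm _
          _ ≤ ‖u i‖ * ‖O (u i)‖ := norm_inner_le_norm _ _
          _ ≤ ‖u i‖ * (‖O‖ * ‖u i‖) := by
            gcongr; exact O.le_opNorm _
          _ = ‖O‖ := by rw [hu]; ring
    _ = ‖O‖ := by rw [← sum_mul, hs, one_mul]

/- PROOF. By `exists_mix` it is enough to show, for a unit vector `u`,
`Re ⟪u, B u⟫ ≤ 2 θ + c ‖Q u‖ ^ 2` (`⟪u, Q u⟫ = ‖Q u‖ ^ 2`). Write `u = (1 - Q) u + Q u`: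
`⟪u, B u⟫ = ⟪u, B (1 - Q) u⟫ + ⟪B (1 - Q) u, Q u⟫ + ⟪Q u, B (Q u)⟫` (`B` is self-adjoint), and the
three terms are at most `θ`, `θ`, `c ‖Q u‖ ^ 2`. -/
theorem ex_split {ρ : Matrix (Conf d L) (Conf d L) ℂ} (hρ : IsState ρ)
    {B Q : Hil d L →L[ℂ] Hil d L} (hB : IsSelfAdjoint B) (hQ : IsStarProjection Q) {θ c : ℝ}
    (hθ : ‖B * (1 - Q)‖ ≤ θ) (hc : ‖B‖ ≤ c) : ex ρ B ≤ 2 * θ + c * ex ρ Q := by
  obtain ⟨a, u, ha, hs, hu, htr⟩ := exists_mix hρ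
  have hsym : ∀ x y : Hil d L, ⟪B x, y⟫_ℂ = ⟪x, B y⟫_ℂ := by
    intro x y
    have h1 : ContinuousLinearMap.adjoint B = B := by
      rw [← ContinuousLinearMap.star_eq_adjoint]; exact hB
    conv_lhs => rw [← h1]
    rw [ContinuousLinearMap.adjoint_inner_left]
  have hQsym : ∀ x y : Hil d L, ⟪Q x, y⟫_ℂ = ⟪x, Q y⟫_ℂ := by
    intro x y
    have h1 : ContinuousLinearMap.adjoint Q = Q := by
      rw [← ContinuousLinearMap.star_eq_adjoint]; exact hQ.isSelfAdjoint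
    conv_lhs => rw [← h1]
    rw [ContinuousLinearMap.adjoint_inner_left]
  have hQQ : ∀ x : Hil d L, Q (Q x) = Q x := by
    intro x
    have h1 : Q * Q = Q := hQ.isIdempotentElem.eq
    conv_rhs => rw [← h1]
    rfl
  rw [ex, ex, htr, htr, Complex.re_sum, Complex.re_sum, mul_sum]
  have hpt : ∀ i, ((a i : ℂ) * ⟪u i, B (u i)⟫_ℂ).re ≤
      a i * (2 * θ) + c * ((a i : ℂ) * ⟪u i, Q (u i)⟫_ℂ).re := by
    intro i
    rw [Complex.re_ofReal_mul, Complex.re_ofReal_mul]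
    set v := u i with hv
    have hv1 : ‖v‖ = 1 := hu i
    set w : Hil d L := (B * (1 - Q)) v with hw
    have hw1 : ‖w‖ ≤ θ := by
      calc ‖w‖ ≤ ‖B * (1 - Q)‖ * ‖v‖ := (B * (1 - Q)).le_opNorm v
        _ ≤ θ := by rw [hv1, mul_one]; exact hθ
    have hθ0 : 0 ≤ θ := (norm_nonneg _).trans hw1
    have hBv : B v = w + B (Q v) := by
      have : w = B (v - Q v) := rfl
      rw [this, map_sub]; abel
    have h1 : ⟪v, B v⟫_ℂ = ⟪v, w⟫_ℂ + (⟪w, Q v⟫_ℂ + ⟪Q v, B (Q v)⟫_ℂ) := by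
      have h2 : ⟪w, Q v⟫_ℂ + ⟪Q v, B (Q v)⟫_ℂ = ⟪v, B (Q v)⟫_ℂ := by
        have h3 : ⟪Q v, B (Q v)⟫_ℂ = ⟪B (Q v), Q v⟫_ℂ := (hsym _ _).symm
        rw [h3, ← inner_add_left, ← hBv, hsym]
      rw [h2, ← inner_add_right, ← hBv]
    have hQn : (⟪v, Q v⟫_ℂ).re = ‖Q v‖ ^ 2 := by
      have h2 : ⟪v, Q v⟫_ℂ = ⟪Q v, Q v⟫_ℂ := by
        rw [hQsym, hQQ]
      rw [h2]
      exact inner_self_eq_norm_sq (𝕜 := ℂ) (Q v)
    have hQ1 : ‖Q v‖ ≤ 1 := by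
      have h2 : ‖Q v‖ ^ 2 ≤ ‖v‖ * ‖Q v‖ := by
        rw [← hQn]
        exact (Complex.re_le_norm _).trans (norm_inner_le_norm _ _)
      rw [hv1, one_mul] at h2
      by_contra h
      rw [not_le] at h
      nlinarith
    have e1 : (⟪v, w⟫_ℂ).re ≤ θ := by
      calc (⟪v, w⟫_ℂ).re ≤ ‖v‖ * ‖w‖ := (Complex.re_le_norm _).trans (norm_inner_le_norm _ _)
        _ ≤ θ := by rw [hv1, one_mul]; exact hw1
    have e2 : (⟪w, Q v⟫_ℂ).re ≤ θ := by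
      calc (⟪w, Q v⟫_ℂ).re ≤ ‖w‖ * ‖Q v‖ := (Complex.re_le_norm _).trans (norm_inner_le_norm _ _)
        _ ≤ θ * 1 := by gcongr
        _ = θ := mul_one _
    have e3 : (⟪Q v, B (Q v)⟫_ℂ).re ≤ c * ‖Q v‖ ^ 2 := by
      calc (⟪Q v, B (Q v)⟫_ℂ).re ≤ ‖Q v‖ * ‖B (Q v)‖ :=
            (Complex.re_le_norm _).trans (norm_inner_le_norm _ _)
        _ ≤ ‖Q v‖ * (‖B‖ * ‖Q v‖) := by gcongr; exact B.le_opNorm _
        _ ≤ ‖Q v‖ * (c * ‖Q v‖) := by gcongr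
        _ = c * ‖Q v‖ ^ 2 := by ring
    have h4 : (⟪v, B v⟫_ℂ).re ≤ 2 * θ + c * (⟪v, Q v⟫_ℂ).re := by
      rw [h1, Complex.add_re, Complex.add_re, hQn]
      linarith
    have h5 := mul_le_mul_of_nonneg_left h4 (ha i)
    calc a i * (⟪v, B v⟫_ℂ).re ≤ a i * (2 * θ + c * (⟪v, Q v⟫_ℂ).re) := h5
      _ = a i * (2 * θ) + c * (a i * (⟪v, Q v⟫_ℂ).re) := by ring
  calc ∑ i, ((a i : ℂ) * ⟪u i, B (u i)⟫_ℂ).re
      ≤ ∑ i, (a i * (2 * θ) + c * ((a i : ℂ) * ⟪u i, Q (u i)⟫_ℂ).re) :=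
        sum_le_sum fun i _ => hpt i
    _ = _ := by rw [sum_add_distrib, ← sum_mul, hs, one_mul]

end Pool.Agent.FFG.HE
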