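import Pool.Agent.FFG.HE.Sign
import Pool.Agent.FFG.HE.Split
import Pool.Agent.FFG.HE.VarP
import Pool.Agent.FFG.HE.PlainParent

/-!
# Hidden-entropy criterion: parent tests imply few defects
-/

open Finset
open scoped InnerProductSpace

set_option autoImplicit false
set_option linter.unusedSectionVars false
set_option linter.unusedVariables false

namespace Pool.Agent.FFG.HE

open Pool.Agent.FFG Pool.Agent.FFG.EC Pool.Agent.FFG.HPlain

open Pool.Agent.FFG.EPlain (glue rdm boxAt)

open Pool.Agent.PEPS953.Plain in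
/-- The box at `v` as a copy of the abstract box. -/
private noncomputable def bkEquiv {L R : ℕ} [NeZero L] (hRL : R ≤ L) (v : Site L) :
    Box R ≃ boxAt L R v :=
  Equiv.ofBijective
    (fun p => (⟨boxPos L R v p, Finset.mem_image_of_mem _ (Finset.mem_univ p)⟩ : boxAt L R v))
    ⟨fun p p' h => Pool.Agent.PEPS953.boxPos_injective hRL v (congrArg Subtype.val h), by
      rintro ⟨u, hu⟩
      obtain ⟨p, -, hp⟩ := Finset.mem_image.1 hu
      exact ⟨p, Subtype.ext hp⟩⟩

open Pool.Agent.PEPS953.Plain in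
/-- Configurations of the box at `v`. -/
private noncomputable def bkConf {d L R : ℕ} [NeZero L] (hRL : R ≤ L) (v : Site L) :
    (boxAt L R v → Fin d) ≃ LConf d R :=
  Equiv.arrowCongr (bkEquiv hRL v).symm (Equiv.refl _)

open Pool.Agent.PEPS953.Plain in
private theorem bkConf_apply {d L R : ℕ} [NeZero L] (hRL : R ≤ L) (v : Site L) (s : Conf d L) :
    bkConf hRL v (fun u : boxAt L R v => s u) = fun p => s (boxPos L R v p) := by
  funext p
  rfl

open Pool.Agent.PEPS953.Plain in
private theorem bk_mat {d L R : ℕ} [NeZero L] (hRL : R ≤ L) (v : Site L)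
    (q : Matrix (LConf d R) (LConf d R) ℂ) :
    translate L q v = mat (emb (boxAt L R v) (q.submatrix (bkConf hRL v) (bkConf hRL v))) := by
  classical
  ext s t
  rw [emb_mat]
  unfold Pool.Agent.PEPS953.Plain.translate
  rw [Matrix.submatrix_apply, bkConf_apply, bkConf_apply]
  have hiff : ∀ u, u ∉ Set.range (boxPos L R v) ↔ u ∉ boxAt L R v := by
    intro u
    rw [not_iff_not]
    constructor
    · rintro ⟨p, rfl⟩
      exact Finset.mem_image_of_mem _ (Finset.mem_univ p)
    · intro hu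
      obtain ⟨p, -, hp⟩ := Finset.mem_image.1 hu
      exact ⟨p, hp⟩
  by_cases h : ∀ u, u ∉ boxAt L R v → s u = t u
  · rw [if_pos h, if_pos fun u hu => h u ((hiff u).1 hu)]
  · rw [if_neg h, if_neg fun h' => h fun u hu => h' u ((hiff u).2 hu)]

open Pool.Agent.PEPS953.Plain in
/- PROOF. `translate L q v = mat (emb (boxAt L R v) M)` with `M a b = q (a ∘ boxPos L R v)
(b ∘ boxPos L R v)`, a projection (`boxPos L R v` is a bijection from `Box R` to `boxAt L R v`, since
`R ≤ L`: `boxPos_injective`). By `trace_red` and `inner_emb`: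
`(ρ * translate L q v).trace = (red ρ X * M).trace`, `‖translate L q v Ψ‖ ^ 2 = (M * rdm Ψ X).trace`
(a projection), and `trace_mul_le` for `red ρ X - rdm Ψ X`. -/
theorem test_le {d L R : ℕ} [NeZero L] (hRL : R ≤ L) (Ψ : Vec d L)
    {ρ : Matrix (Conf d L) (Conf d L) ℂ} (hρ : IsState ρ) (v : Site L)
    {q : Matrix (LConf d R) (LConf d R) ℂ} (hq : q.IsHermitian) (hq2 : q * q = q) :
    (ρ * translate L q v).trace.re ≤
      dev Ψ hρ.herm (boxAt L R v) + nrm ((translate L q v).mulVec Ψ) ^ 2 := by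
  set X := boxAt L R v with hX
  set M : Matrix (X → Fin d) (X → Fin d) ℂ :=
    q.submatrix (bkConf hRL v) (bkConf hRL v) with hM
  have hMh : M.IsHermitian := hq.submatrix _
  have hM2 : M * M = M := by
    rw [hM, Matrix.submatrix_mul_equiv, hq2]
  have hT : translate L q v = mat (emb X M) := bk_mat hRL v q
  have h1 : (ρ * translate L q v).trace = (red ρ X * M).trace := by
    rw [hT, trace_red]
  -- the norm
  have h2 : nrm ((translate L q v).mulVec Ψ) ^ 2 = (M * rdm Ψ X).trace.re := by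
    have e1 : Pool.Agent.PEPS953.up ((translate L q v).mulVec Ψ) =
        emb X M (Pool.Agent.PEPS953.up Ψ) := by
      rw [hT]
      have : emb X M = Matrix.toEuclideanCLM (𝕜 := ℂ) (n := Conf d L) (mat (emb X M)) :=
        (StarAlgEquiv.apply_symm_apply _ _).symm
      conv_rhs => rw [this]
      rfl
    have hs : star (emb X M) = emb X M := by rw [star_emb, hMh.eq]
    have hsq : emb X M * emb X M = emb X M := by rw [← emb_mul, hM2]
    have e2 : ⟪emb X M (Pool.Agent.PEPS953.up Ψ), emb X M (Pool.Agent.PEPS953.up Ψ)⟫_ℂ =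
        ⟪Pool.Agent.PEPS953.up Ψ, emb X M (Pool.Agent.PEPS953.up Ψ)⟫_ℂ := by
      rw [← ContinuousLinearMap.adjoint_inner_right, ← ContinuousLinearMap.star_eq_adjoint, hs,
        ← mul_apply_eq_comp, hsq]
    rw [Pool.Agent.PEPS953.nrm_eq, e1, ← inner_self_eq_norm_sq (𝕜 := ℂ), e2, inner_emb]
    rfl
  have h3 : (red ρ X * M).trace.re - (M * rdm Ψ X).trace.re =
      ((red ρ X - rdm Ψ X) * M).trace.re := by
    rw [Matrix.sub_mul, Matrix.trace_sub, Complex.sub_re, Matrix.trace_mul_comm M]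
  have h4 : ((red ρ X - rdm Ψ X) * M).trace.re ≤ dev Ψ hρ.herm X :=
    trace_mul_le _ hMh hM2
  rw [h1, h2]
  linarith

open Pool.Agent.PEPS953.Plain in
/- PROOF. Let `x = C l ^ k`, `l = log L`; `0 < R ≤ x`, so `x > 0`. By `ent_le` with `A = testSum q`
(`testSum_isHermitian`), `β = κ = x`, and `test_le`: `ent ρ ≤ x ∑ v, (dev v + L ^ (- 6)) + x ≤
2 x (1 + ∑ dev)` (`trNorm` is nonnegative). So `HiddenEntropy` holds with `k` and `2 C`. -/
theorem he_of_parentTests {d : ℕ} {Ψ : ∀ (L : ℕ) [NeZero L], Vec d L} (H : ParentTests Ψ) :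
    HiddenEntropy Ψ := by
  obtain ⟨k, C, L₀, H⟩ := H
  refine ⟨k, 2 * C, L₀, fun L _ hL => ?_⟩
  obtain ⟨R, q, hR, hRL, hRC, hq, hΨ, hZ⟩ := H L hL
  set x : ℝ := C * (Real.log L) ^ k with hx
  have hRpos : (0 : ℝ) < R := by exact_mod_cast hR
  have hx0 : 0 < x := lt_of_lt_of_le hRpos hRC
  refine ⟨R, 2 * x, ?_, ?_, ?_⟩
  · rw [mul_assoc, ← hx]; linarith
  · rw [mul_assoc, ← hx]
  · intro ρ hρ
    have hH : (testSum q).IsHermitian := testSum_isHermitian fun v => (hq v).1
    have h1 : ent hρ.herm ≤ x * (ρ * testSum q).trace.re + x :=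
      ent_le hρ hH x x (hZ hH)
    have h2 : (ρ * testSum q).trace.re = ∑ v, (ρ * translate L (q v) v).trace.re := by
      unfold testSum
      rw [Matrix.mul_sum, Matrix.trace_sum, Complex.re_sum]
    have hL1 : (1 : ℝ) ≤ (L : ℝ) := by exact_mod_cast Nat.one_le_iff_ne_zero.2 (NeZero.ne L)
    have hL0 : (0 : ℝ) < (L : ℝ) := by linarith
    have h3 : ∀ v : Site L, (ρ * translate L (q v) v).trace.re ≤
        dev (Ψ L) hρ.herm (boxAt L R v) + ((L : ℝ) ^ 6)⁻¹ := by
      intro v
      refine (test_le hRL (Ψ L) hρ v (hq v).1 (hq v).2).trans ?_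
      have h4 : nrm ((translate L (q v) v).mulVec (Ψ L)) ^ 2 ≤ ((L : ℝ) ^ 6)⁻¹ := by
        have h5 : ((L : ℝ) ^ (-3 : ℝ)) = ((L : ℝ) ^ 3)⁻¹ := by
          rw [Real.rpow_neg hL0.le]
          norm_num
        have h6 := hΨ v
        rw [h5] at h6
        have h7 : 0 ≤ nrm ((translate L (q v) v).mulVec (Ψ L)) := Real.sqrt_nonneg _
        calc nrm ((translate L (q v) v).mulVec (Ψ L)) ^ 2 ≤ (((L : ℝ) ^ 3)⁻¹) ^ 2 :=
              pow_le_pow_left₀ h7 h6 2
          _ = ((L : ℝ) ^ 6)⁻¹ := by rw [inv_pow]; ring_nf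
      linarith
    have h4 : ∑ v : Site L, (ρ * translate L (q v) v).trace.re ≤
        ∑ v : Site L, dev (Ψ L) hρ.herm (boxAt L R v) + 1 := by
      refine (Finset.sum_le_sum fun v _ => h3 v).trans ?_
      rw [Finset.sum_add_distrib, Finset.sum_const, Finset.card_univ]
      have hc : Fintype.card (Site L) = L * L := by
        rw [Fintype.card_prod, ZMod.card]
      rw [hc, nsmul_eq_mul]
      have : ((L * L : ℕ) : ℝ) * ((L : ℝ) ^ 6)⁻¹ ≤ 1 := by
        push_cast
        rw [← div_eq_mul_inv, div_le_one (by positivity)]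
        calc (L : ℝ) * L = (L : ℝ) ^ 2 := by ring
          _ ≤ (L : ℝ) ^ 6 := pow_le_pow_right₀ hL1 (by norm_num)
      linarith
    have h5 : 0 ≤ ∑ v : Site L, dev (Ψ L) hρ.herm (boxAt L R v) :=
      Finset.sum_nonneg fun v _ => Finset.sum_nonneg fun i _ => abs_nonneg _
    rw [h2] at h1
    have h6 := mul_le_mul_of_nonneg_left h4 hx0.le
    nlinarith [mul_nonneg hx0.le h5]

end Pool.Agent.FFG.HE
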