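import Pool.Agent.FFG.HE.Defs

/-!
# Hidden-entropy criterion: the norm bound for one projection
-/

open Finset
open scoped InnerProductSpace

set_option autoImplicit false
set_option linter.unusedSectionVars false
set_option linter.unusedVariables false

namespace Pool.Agent.FFG.HE

open Pool.Agent.PEPS953 Pool.Agent.FFG Pool.Agent.FFG.EC

variable {E : Type} [NormedAddCommGroup E] [InnerProductSpace ℂ E] [CompleteSpace E] {ι : Type}

private theorem cb_sym {P : E →L[ℂ] E} (hP : IsStarProjection P) (x y : E) :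
    ⟪P x, y⟫_ℂ = ⟪x, P y⟫_ℂ := hP.isSelfAdjoint.isSymmetric x y

private theorem cb_idem {P : E →L[ℂ] E} (hP : IsStarProjection P) (x : E) : P (P x) = P x := by
  have h := hP.isIdempotentElem
  have h1 := congrArg (fun A : E →L[ℂ] E => A x) h
  exact h1

private theorem cb_le {P : E →L[ℂ] E} (hP : IsStarProjection P) (x : E) : ‖P x‖ ≤ ‖x‖ := by
  have h1 : ⟪P x, P x⟫_ℂ = ⟪x, P x⟫_ℂ := by rw [cb_sym hP, cb_idem hP]
  have h2 : ‖P x‖ ^ 2 ≤ ‖x‖ * ‖P x‖ := by
    have h3 : ‖⟪P x, P x⟫_ℂ‖ = ‖P x‖ ^ 2 := by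
      rw [inner_self_eq_norm_sq_to_K]
      simp
    rw [← h3, h1]
    exact norm_inner_le_norm _ _
  rcases eq_or_lt_of_le (norm_nonneg (P x)) with h4 | h4
  · rw [← h4]
    exact norm_nonneg _
  · rw [pow_two] at h2
    exact le_of_mul_le_mul_right h2 h4

private theorem cb_sub_le {P : E →L[ℂ] E} (hP : IsStarProjection P) (x : E) :
    ‖x - P x‖ ≤ ‖x‖ := cb_le hP.one_sub x

private theorem cb_pp (P : E →L[ℂ] E) (t : ℝ) (x : E) :
    pp P t x = x + ((Real.exp (-t) - 1 : ℝ) : ℂ) • P x := rfl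

private theorem cb_pp_sym {P : E →L[ℂ] E} (hP : IsStarProjection P) (t : ℝ) (x y : E) :
    ⟪x, pp P t y⟫_ℂ = ⟪pp P t x, y⟫_ℂ := by
  rw [cb_pp, cb_pp, inner_add_right, inner_add_left, inner_smul_right, inner_smul_left,
    Complex.conj_ofReal, cb_sym hP]

private theorem cb_pp_le {P : E →L[ℂ] E} (hP : IsStarProjection P) {t : ℝ} (ht : 0 ≤ t)
    (x : E) : ‖pp P t x‖ ≤ 1 * ‖x‖ := by
  have h0 : 0 < Real.exp (-t) := Real.exp_pos _
  have h1 : Real.exp (-t) ≤ 1 := Real.exp_le_one_iff.2 (by linarith)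
  have h2 : pp P t x = ((1 - Real.exp (-t) : ℝ) : ℂ) • (x - P x) +
      ((Real.exp (-t) : ℝ) : ℂ) • x := by
    rw [cb_pp]
    push_cast
    module
  rw [h2]
  refine (norm_add_le _ _).trans ?_
  rw [norm_smul, norm_smul, Complex.norm_real, Complex.norm_real, Real.norm_of_nonneg h0.le,
    Real.norm_of_nonneg (by linarith)]
  have h3 := mul_le_mul_of_nonneg_left (cb_sub_le hP x) (by linarith : 0 ≤ 1 - Real.exp (-t))
  linarith

private theorem cb_pp_le' {P : E →L[ℂ] E} (hP : IsStarProjection P) {t : ℝ} (ht : 0 ≤ t)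
    (x : E) : ‖pp P (-t) x‖ ≤ Real.exp t * ‖x‖ := by
  have h1 : 1 ≤ Real.exp t := Real.one_le_exp ht
  rw [cb_pp, neg_neg]
  refine (norm_add_le _ _).trans ?_
  rw [norm_smul, Complex.norm_real, Real.norm_of_nonneg (by linarith)]
  have h3 := mul_le_mul_of_nonneg_left (cb_le hP x) (by linarith : 0 ≤ Real.exp t - 1)
  linarith

private theorem cb_pp_sub (P : E →L[ℂ] E) (t : ℝ) (x : E) :
    ‖pp P t x - x‖ = |Real.exp (-t) - 1| * ‖P x‖ := by
  rw [cb_pp, add_sub_cancel_left, norm_smul, Complex.norm_real, Real.norm_eq_abs]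

/-- the product in the reversed order -/
private noncomputable def rv (Q : ι → E →L[ℂ] E) (t : ℝ) : List ι → (E →L[ℂ] E)
  | [] => 1
  | i :: l => rv Q t l * pp (Q i) t

private theorem rv_le {Q : ι → E →L[ℂ] E} {t K : ℝ} (hK : 1 ≤ K)
    (h : ∀ i x, ‖pp (Q i) t x‖ ≤ K * ‖x‖) (l : List ι) (x : E) :
    ‖rv Q t l x‖ ≤ K ^ l.length * ‖x‖ := by
  induction l generalizing x with
  | nil =>
    rw [List.length_nil, pow_zero, one_mul]
    exact le_refl _
  | cons i l ih =>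
    have h1 : rv Q t (i :: l) x = rv Q t l (pp (Q i) t x) := rfl
    rw [h1, List.length_cons, pow_succ, mul_assoc]
    exact (ih _).trans (mul_le_mul_of_nonneg_left (h i x) (by positivity))

private theorem rv_sub {Q : ι → E →L[ℂ] E} {t K c : ℝ} (hK : 1 ≤ K) (hc : 0 ≤ c)
    (h : ∀ i x, ‖pp (Q i) t x‖ ≤ K * ‖x‖) (h' : ∀ i x, ‖pp (Q i) t x - x‖ ≤ c * ‖Q i x‖)
    (l : List ι) (y : E) :
    ‖rv Q t l y - y‖ ≤ K ^ l.length * c * (l.map fun i => ‖Q i y‖).sum := by
  induction l with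
  | nil =>
    have h1 : rv Q t [] y = y := rfl
    rw [h1]
    simp
  | cons i l ih =>
    have h1 : rv Q t (i :: l) y - y = rv Q t l (pp (Q i) t y - y) + (rv Q t l y - y) := by
      have h2 : rv Q t (i :: l) y = rv Q t l (pp (Q i) t y) := rfl
      rw [h2, map_sub]
      abel
    rw [h1, List.map_cons, List.sum_cons, List.length_cons]
    refine (norm_add_le _ _).trans ?_
    have h2 := rv_le hK h l (pp (Q i) t y - y)
    have h3 := h' i y
    have h4 : 0 ≤ (l.map fun i => ‖Q i y‖).sum := List.sum_nonneg (by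
      intro x hx
      obtain ⟨j, -, rfl⟩ := List.mem_map.1 hx
      exact norm_nonneg _)
    have h5 : K ^ l.length ≤ K ^ (l.length + 1) := pow_le_pow_right₀ hK (by omega)
    have h6 : 0 ≤ K ^ l.length := by positivity
    have h7 : 0 ≤ c * ‖Q i y‖ := by positivity
    calc ‖rv Q t l (pp (Q i) t y - y)‖ + ‖rv Q t l y - y‖
        ≤ K ^ l.length * (c * ‖Q i y‖) + K ^ l.length * c * (l.map fun i => ‖Q i y‖).sum :=
          add_le_add (h2.trans (mul_le_mul_of_nonneg_left h3 h6)) ih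
      _ = K ^ l.length * (c * (‖Q i y‖ + (l.map fun i => ‖Q i y‖).sum)) := by ring
      _ ≤ K ^ (l.length + 1) * (c * (‖Q i y‖ + (l.map fun i => ‖Q i y‖).sum)) :=
          mul_le_mul_of_nonneg_right h5 (by positivity)
      _ = K ^ (l.length + 1) * c * (‖Q i y‖ + (l.map fun i => ‖Q i y‖).sum) := by ring

private theorem cb_cj {Q : ι → E →L[ℂ] E} (hQ : ∀ i, IsStarProjection (Q i)) (s : ℝ)
    (P : E →L[ℂ] E) (l : List ι) (x z : E) :
    ⟪x, cj Q s l P z⟫_ℂ = ⟪rv Q s l x, P (rv Q (-s) l z)⟫_ℂ := by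
  induction l generalizing x z with
  | nil => rfl
  | cons i l ih =>
    have h1 : cj Q s (i :: l) P z = pp (Q i) s (cj Q s l P (pp (Q i) (-s) z)) := rfl
    rw [h1, cb_pp_sym (hQ i), ih]
    rfl

/- PROOF. Put `V = tm Q s l` and `W` = the product of the `pp (Q i) (-s)` in the reversed order, so
that `cj Q s l P = V * P * W` (induction). Let `a = (l.map fun i => ‖Q i y‖).sum`.
(1) `‖star V y - y‖ ≤ s a` by induction on `l = i :: l'`, `V = pp (Q i) s * V'`:
`star V y - y = star V' (pp (Q i) s y - y) + (star V' y - y)`, `‖star V'‖ ≤ 1` since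
`‖pp (Q i) s‖ ≤ 1` (`pp Q s = (1 - Q) + exp (-s) Q`), `‖pp (Q i) s y - y‖ = (1 - exp (-s)) ‖Q i y‖
≤ s ‖Q i y‖`.
(2) `‖W y - y‖ ≤ exp (s * length) (exp s - 1) a ≤ 2 s a` in the same way: `‖pp (Q i) (-s)‖ ≤ exp s`,
`‖pp (Q i) (-s) y - y‖ = (exp s - 1) ‖Q i y‖` (if `l = []` everything is zero, otherwise
`s ≤ 1 / 100`, and `exp (1 / 100) ≤ 1.02`, `exp s - 1 ≤ 1.02 s`).
(3) with `star V y = y + u`, `W y = y + v`: `⟪y, (V P W - P) y⟫ = ⟪u, P y⟫ + ⟪P y, v⟫ + ⟪u, P v⟫`,
and `‖P v‖ ≤ ‖v‖`, so the norm is at most `s a ‖P y‖ + 2 s a ‖P y‖ + (s a) (2 s a)`. -/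
theorem cj_bound {Q : ι → E →L[ℂ] E} (hQ : ∀ i, IsStarProjection (Q i)) {s : ℝ} (hs : 0 ≤ s)
    (l : List ι) (hl : s * l.length ≤ 1 / 100) {P : E →L[ℂ] E} (hP : IsStarProjection P) (y : E) :
    ‖⟪y, (cj Q s l P - P) y⟫_ℂ‖ ≤
      3 * s * (l.map fun i => ‖Q i y‖).sum * ‖P y‖ +
        2 * s ^ 2 * (l.map fun i => ‖Q i y‖).sum ^ 2 := by
  set a : ℝ := (l.map fun i => ‖Q i y‖).sum with ha
  have ha0 : 0 ≤ a := List.sum_nonneg (by
    intro x hx
    obtain ⟨j, -, rfl⟩ := List.mem_map.1 hx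
    exact norm_nonneg _)
  set u : E := rv Q s l y - y with hu
  set v : E := rv Q (-s) l y - y with hv
  have hun : ‖u‖ ≤ s * a := by
    have h1 := rv_sub (Q := Q) (t := s) (K := 1) (c := s) le_rfl hs
      (fun i x => cb_pp_le (hQ i) hs x) (fun i x => by
        rw [cb_pp_sub]
        refine mul_le_mul_of_nonneg_right ?_ (norm_nonneg _)
        have h2 : Real.exp (-s) ≤ 1 := Real.exp_le_one_iff.2 (by linarith)
        have h3 := Real.add_one_le_exp (-s)
        rw [abs_of_nonpos (by linarith)]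
        linarith) l y
    rw [one_pow, one_mul] at h1
    exact h1
  have hvn : ‖v‖ ≤ 2 * s * a := by
    have h0 : 1 ≤ Real.exp s := Real.one_le_exp hs
    have h1 := rv_sub (Q := Q) (t := -s) (K := Real.exp s) (c := Real.exp s - 1) h0
      (by linarith) (fun i x => cb_pp_le' (hQ i) hs x) (fun i x => by
        rw [cb_pp_sub, neg_neg, abs_of_nonneg (by linarith)]) l y
    rcases Nat.eq_zero_or_pos l.length with h2 | h2
    · have hl0 : l = [] := List.length_eq_zero_iff.1 h2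
      have ha1 : a = 0 := by rw [ha, hl0]; rfl
      rw [← ha, ha1, mul_zero] at h1
      rw [ha1, mul_zero]
      exact h1
    · refine h1.trans (mul_le_mul_of_nonneg_right ?_ ha0)
      have h3 : (1 : ℝ) ≤ l.length := by exact_mod_cast h2
      have h4 : s ≤ 1 / 100 := by nlinarith
      have h5 : Real.exp s - 1 ≤ s + s ^ 2 := by
        have := abs_le.1 (Real.abs_exp_sub_one_sub_id_le (x := s) (by
          rw [abs_of_nonneg hs]
          linarith))
        linarith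
      have h6 : Real.exp s ^ l.length ≤ 51 / 50 := by
        rw [← Real.exp_nat_mul]
        have h7 : Real.exp ((l.length : ℝ) * s) ≤ Real.exp (1 / 100) :=
          Real.exp_le_exp.2 (by linarith)
        have h8 := abs_le.1 (Real.abs_exp_sub_one_sub_id_le (x := 1 / 100) (by
          rw [abs_of_nonneg (by norm_num)]
          norm_num))
        linarith
      have h7 : Real.exp s - 1 ≤ 51 / 50 * s := by nlinarith
      calc Real.exp s ^ l.length * (Real.exp s - 1) ≤ 51 / 50 * (51 / 50 * s) :=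
            mul_le_mul h6 h7 (by linarith) (by norm_num)
        _ ≤ 2 * s := by linarith
  have e1 : rv Q s l y = y + u := by rw [hu]; abel
  have e2 : rv Q (-s) l y = y + v := by rw [hv]; abel
  have e3 : ⟪y, (cj Q s l P - P) y⟫_ℂ = ⟪P y, v⟫_ℂ + ⟪u, P y⟫_ℂ + ⟪u, P v⟫_ℂ := by
    rw [ContinuousLinearMap.sub_apply, inner_sub_right, cb_cj hQ, e1, e2, map_add,
      inner_add_left, inner_add_right, inner_add_right, cb_sym hP y v]
    ring
  rw [e3]
  have h1 : ‖⟪P y, v⟫_ℂ‖ ≤ ‖P y‖ * (2 * s * a) :=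
    (norm_inner_le_norm _ _).trans (mul_le_mul_of_nonneg_left hvn (norm_nonneg _))
  have h2 : ‖⟪u, P y⟫_ℂ‖ ≤ (s * a) * ‖P y‖ :=
    (norm_inner_le_norm _ _).trans (mul_le_mul_of_nonneg_right hun (norm_nonneg _))
  have h3 : ‖⟪u, P v⟫_ℂ‖ ≤ (s * a) * (2 * s * a) :=
    (norm_inner_le_norm _ _).trans (mul_le_mul hun ((cb_le hP v).trans hvn) (norm_nonneg _)
      (by positivity))
  have h4 := (norm_add_le (⟪P y, v⟫_ℂ + ⟪u, P y⟫_ℂ) (⟪u, P v⟫_ℂ)).trans
    (add_le_add_left (norm_add_le (⟪P y, v⟫_ℂ) (⟪u, P y⟫_ℂ)) _)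
  refine h4.trans ?_
  nlinarith

end Pool.Agent.FFG.HE
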