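import Pool.Agent.FFG.HE.Defs
import Pool.Agent.FFG.Proj
import Pool.Agent.FFG.LT.Defs

/-!
# Hidden-entropy criterion: local projections on balls as matrices on boxes
-/

open Finset
open scoped InnerProductSpace

set_option autoImplicit false
set_option linter.unusedSectionVars false
set_option linter.unusedVariables false

namespace Pool.Agent.FFG.HE

open Pool.Agent.PEPS953 Pool.Agent.FFG Pool.Agent.FFG.EC

open Pool.Agent.FFG.EPlain (boxAt)

variable {d L : ℕ} [NeZero L]

/- PROOF. `sdist v u ≤ ρ`: with `x = u.1 - v.1`, `x = (x.valMinAbs : ZMod L)` and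
`x.valMinAbs.natAbs ≤ ρ`, so `u.1 = v.1 - ρ + a` with `a = ρ + x.valMinAbs ∈ [0, 2 ρ]`; the same for
the second coordinate. -/
theorem ball_subset_boxAt (ρ : ℕ) (v : Site L) :
    LT.ball ρ {v} ⊆ boxAt L (2 * ρ + 1) (v.1 - (ρ : ZMod L), v.2 - (ρ : ZMod L)) := by
  intro u hu
  unfold LT.ball at hu
  rw [Finset.mem_filter] at hu
  obtain ⟨_, v', hv', h⟩ := hu
  rw [Finset.mem_singleton] at hv'
  subst hv'
  unfold sdist at h
  have key : ∀ x y : ZMod L, cdist x y ≤ ρ →
      ∃ a : Fin (2 * ρ + 1), x - (ρ : ZMod L) + ((a : ℕ) : ZMod L) = y := by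
    intro x y hxy
    unfold cdist at hxy
    have h1 : (((x - y).valMinAbs : ℤ) : ZMod L) = x - y := ZMod.coe_valMinAbs _
    generalize (x - y).valMinAbs = z at hxy h1
    have h2 : 0 ≤ (ρ : ℤ) - z := by omega
    obtain ⟨a, ha⟩ := Int.eq_ofNat_of_zero_le h2
    refine ⟨⟨a, by omega⟩, ?_⟩
    have h3 : ((a : ℕ) : ZMod L) = ((ρ : ℤ) - z : ℤ) := by
      rw [ha]
      push_cast
      rfl
    show x - (ρ : ZMod L) + ((a : ℕ) : ZMod L) = y
    rw [h3]
    push_cast
    rw [h1]
    ring
  obtain ⟨a, ha⟩ := key v'.1 u.1 (le_trans (le_max_left _ _) h)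
  obtain ⟨b, hb⟩ := key v'.2 u.2 (le_trans (le_max_right _ _) h)
  unfold boxAt
  rw [Finset.mem_image]
  exact ⟨(a, b), Finset.mem_univ _, Prod.ext ha hb⟩

/- PROOF. For `d = 0` there is no configuration (`0 < L`) and `q = 0` or `q = 1` works. For `d > 0`
let `t a` be the configuration equal to `a` on the box and to `0` off the box (`boxPos L R v` is
injective: `boxPos_injective`), and `q a b = mat O (t a) (t b)`. By the locality of `O`
(`LocalOn.zero_of_ne`, `LocalOn.piecewise` in FFG/Local.lean) `translate L q v = mat O`.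
`q` is Hermitian since `mat O` is, and `q * q = q` by `pj_translate_mul` (FFG/Proj.lean) and the
injectivity of `q ↦ translate L q v` (evaluate at `t a`, `t b`). -/
theorem exists_boxMat {R : ℕ} (hRL : R ≤ L) (v : Site L) {O : Hil d L →L[ℂ] Hil d L}
    (hO : LocalOn (boxAt L R v) O) (hp : IsStarProjection O) :
    ∃ q : Matrix (LConf d R) (LConf d R) ℂ, q.IsHermitian ∧ q * q = q ∧ locOp L q v = O := by
  classical
  rcases isEmpty_or_nonempty (Conf d L) with hE | ⟨⟨s₀⟩⟩
  · refine ⟨0, Matrix.isHermitian_zero, by rw [mul_zero], ?_⟩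
    apply mat_inj
    ext s
    exact hE.elim s
  · obtain ⟨q, hq⟩ : ∃ q : Matrix (LConf d R) (LConf d R) ℂ,
        ∀ a b, q a b = mat O (ow v a s₀) (ow v b s₀) := ⟨fun a b => mat O (ow v a s₀) (ow v b s₀),
          fun _ _ => rfl⟩
    have hE : ∀ (q' : Matrix (LConf d R) (LConf d R) ℂ) (a b : LConf d R),
        PEPS953.translate L q' v (ow v a s₀) (ow v b s₀) = q' a b := by
      intro q' a b
      unfold PEPS953.translate
      rw [if_pos]
      · congr 1
        · funext p; exact ow_pos hRL v a s₀ p
        · funext p; exact ow_pos hRL v b s₀ p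
      · intro u hu
        rw [ow_neg v a s₀ u (fun ⟨p, hp⟩ => hu ⟨p, hp⟩), ow_neg v b s₀ u (fun ⟨p, hp⟩ => hu ⟨p, hp⟩)]
    have hT : PEPS953.translate L q v = mat O := by
      ext s s'
      by_cases hs : ∀ u, u ∉ Set.range (boxPos L R v) → s u = s' u
      · have h0 : ∀ u, u ∉ boxAt L R v → s u = s' u := by
          intro u hu
          apply hs u
          rintro ⟨p, hp⟩
          apply hu
          unfold boxAt
          exact Finset.mem_image.mpr ⟨p, Finset.mem_univ _, hp⟩
        have e1 : ∀ t : Conf d L, (univ \ boxAt L R v).piecewise s₀ t =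
            ow v (fun p => t (boxPos L R v p)) s₀ := by
          intro t
          funext u
          by_cases hu : ∃ p, boxPos L R v p = u
          · obtain ⟨p, rfl⟩ := hu
            have hmem : boxPos L R v p ∈ boxAt L R v := by
              unfold boxAt
              exact Finset.mem_image_of_mem _ (Finset.mem_univ _)
            rw [Finset.piecewise_eq_of_notMem _ _ _ (fun hu' => (Finset.mem_sdiff.mp hu').2 hmem),
              ow_pos hRL]
          · have hmem : u ∉ boxAt L R v := by
              unfold boxAt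
              intro h1
              obtain ⟨p, _, hp⟩ := Finset.mem_image.mp h1
              exact hu ⟨p, hp⟩
            rw [Finset.piecewise_eq_of_mem _ _ _ (Finset.mem_sdiff.mpr ⟨Finset.mem_univ _, hmem⟩),
              ow_neg v _ s₀ u hu]
        rw [← hO.piecewise h0 s₀ (univ \ boxAt L R v) (fun u hu => (Finset.mem_sdiff.mp hu).2),
          e1, e1, ← hq]
        unfold PEPS953.translate
        rw [if_pos hs]
      · have h1 : PEPS953.translate L q v s s' = 0 := by
          unfold PEPS953.translate
          rw [if_neg hs]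
        rw [h1]
        push Not at hs
        obtain ⟨u, hu, hne⟩ := hs
        symm
        refine hO.zero_of_ne (u := u) ?_ hne
        intro h2
        unfold boxAt at h2
        obtain ⟨p, _, hp⟩ := Finset.mem_image.mp h2
        exact hu ⟨p, hp⟩
    have hH : (mat O).conjTranspose = mat O := by
      have h1 : star (mat O) = mat (star O) := by
        unfold mat
        exact (map_star _ _).symm
      rw [← Matrix.star_eq_conjTranspose, h1, hp.isSelfAdjoint.star_eq]
    refine ⟨q, ?_, ?_, ?_⟩
    · ext a b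
      rw [Matrix.conjTranspose_apply, hq, hq, ← Matrix.conjTranspose_apply, hH]
    · ext a b
      rw [← hE (q * q) a b, pj_translate_mul hRL, hT, ← mat_mul, hp.isIdempotentElem.eq, ← hT, hE]
    · apply mat_inj
      rw [mat_locOp, ← hT]

end Pool.Agent.FFG.HE
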