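import Pool.Agent.FFG.HE.MixRed

/-!
# Hidden-entropy criterion: deviations on smaller sets
-/

open Finset
open scoped InnerProductSpace

set_option autoImplicit false
set_option linter.unusedSectionVars false
set_option linter.unusedVariables false

namespace Pool.Agent.FFG.HE

open Pool.Agent.PEPS953 Pool.Agent.FFG Pool.Agent.FFG.EC Pool.Agent.FFG.HPlain

open Pool.Agent.FFG.EPlain (glue rdm rdm_isHermitian boxAt)

private lemma sq_one_entry {n : Type} [Fintype n] [DecidableEq n] {S : Matrix n n ℂ}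
    (hH : S.IsHermitian) (hS : S * S = 1) (a : n) : ‖S a a‖ ≤ 1 := by
  have h1 := congrFun (congrFun hS a) a
  rw [Matrix.mul_apply, Matrix.one_apply_eq] at h1
  have h2 : ∀ c, S a c * S c a = ((‖S a c‖ ^ 2 : ℝ) : ℂ) := by
    intro c
    rw [← hH.apply c a, Complex.ofReal_pow]
    exact Complex.mul_conj' _
  rw [Finset.sum_congr rfl fun c _ => h2 c, ← Complex.ofReal_sum, Complex.ofReal_eq_one] at h1
  have h3 : ‖S a a‖ ^ 2 ≤ 1 := by
    rw [← h1]
    exact Finset.single_le_sum (f := fun c => ‖S a c‖ ^ 2) (fun c _ => sq_nonneg _)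
      (Finset.mem_univ a)
  exact (sq_le_one_iff₀ (norm_nonneg _)).1 h3

/- PROOF. Spectral decomposition of `A`; `‖⟪u, S u⟫‖ ≤ 1` for a unit vector `u`, since
`‖S u‖ ^ 2 = ⟪u, S * S u⟫ = ‖u‖ ^ 2`. -/
theorem trace_sign_le {n : Type} [Fintype n] [DecidableEq n] {A S : Matrix n n ℂ}
    (hA : A.IsHermitian) (hS : S.IsHermitian) (hS2 : S * S = 1) :
    (A * S).trace.re ≤ trNorm hA := by
  set U : Matrix n n ℂ := (hA.eigenvectorUnitary : Matrix n n ℂ) with hU
  have hUU : star U * U = 1 := Unitary.coe_star_mul_self _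
  have hUU' : U * star U = 1 := Unitary.coe_mul_star_self _
  have h1 : A = U * Matrix.diagonal (fun i => ((hA.eigenvalues i : ℝ) : ℂ)) * star U := by
    conv_lhs => rw [← fnc_id hA]
    rfl
  have hT : (star U * S * U).IsHermitian := by
    change (star U * S * U).conjTranspose = _
    rw [Matrix.conjTranspose_mul, Matrix.conjTranspose_mul, Matrix.star_eq_conjTranspose,
      Matrix.conjTranspose_conjTranspose, hS.eq, Matrix.mul_assoc]
  have hT2 : (star U * S * U) * (star U * S * U) = 1 := by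
    calc (star U * S * U) * (star U * S * U) = star U * S * (U * star U) * S * U := by
          simp only [Matrix.mul_assoc]
      _ = star U * (S * S) * U := by rw [hUU', Matrix.mul_one]; simp only [Matrix.mul_assoc]
      _ = 1 := by rw [hS2, Matrix.mul_one, hUU]
  have h2 : (A * S).trace = ∑ i, ((hA.eigenvalues i : ℝ) : ℂ) * (star U * S * U) i i := by
    have h3 : (A * S).trace =
        (Matrix.diagonal (fun i => ((hA.eigenvalues i : ℝ) : ℂ)) * (star U * S * U)).trace := by
      conv_lhs => rw [h1]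
      rw [show U * Matrix.diagonal (fun i => ((hA.eigenvalues i : ℝ) : ℂ)) * star U * S =
        U * (Matrix.diagonal (fun i => ((hA.eigenvalues i : ℝ) : ℂ)) * star U * S) by
          simp only [Matrix.mul_assoc], Matrix.trace_mul_comm]
      simp only [Matrix.mul_assoc]
    rw [h3, Matrix.trace]
    refine Finset.sum_congr rfl fun i _ => ?_
    rw [Matrix.diag_apply, Matrix.diagonal_mul]
  rw [h2, Complex.re_sum]
  unfold trNorm
  refine Finset.sum_le_sum fun i _ => ?_
  rw [Complex.re_ofReal_mul]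
  have h4 : |((star U * S * U) i i).re| ≤ 1 :=
    (Complex.abs_re_le_norm _).trans (sq_one_entry hT hT2 i)
  calc hA.eigenvalues i * ((star U * S * U) i i).re
      ≤ |hA.eigenvalues i * ((star U * S * U) i i).re| := le_abs_self _
    _ = |hA.eigenvalues i| * |((star U * S * U) i i).re| := abs_mul _ _
    _ ≤ |hA.eigenvalues i| * 1 := mul_le_mul_of_nonneg_left h4 (abs_nonneg _)
    _ = |hA.eigenvalues i| := mul_one _

private def dvmE {d L : ℕ} {X Y : Finset (Site L)} (hXY : X ⊆ Y) :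
    (Y → Fin d) ≃ (X → Fin d) × ({v : Y // v.1 ∉ X} → Fin d) where
  toFun a := (fun v => a ⟨v, hXY v.2⟩, fun v => a v.1)
  invFun p := fun v => if h : v.1 ∈ X then p.1 ⟨v, h⟩ else p.2 ⟨v, h⟩
  left_inv := by
    intro a
    funext v
    by_cases h : v.1 ∈ X
    · simp [h]
    · simp [h]
  right_inv := by
    rintro ⟨p, q⟩
    refine Prod.ext ?_ ?_
    · funext v
      simp
    · funext v
      have h := v.2
      simp [h]

private noncomputable def dvmS {d L : ℕ} {X Y : Finset (Site L)} (hXY : X ⊆ Y)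
    (S : Matrix (X → Fin d) (X → Fin d) ℂ) : Matrix (Y → Fin d) (Y → Fin d) ℂ :=
  (Matrix.kroneckerMap (· * ·) S
    (1 : Matrix ({v : Y // v.1 ∉ X} → Fin d) ({v : Y // v.1 ∉ X} → Fin d) ℂ)).submatrix
      (dvmE hXY) (dvmE hXY)

private lemma dvmS_sq {d L : ℕ} {X Y : Finset (Site L)} (hXY : X ⊆ Y)
    {S : Matrix (X → Fin d) (X → Fin d) ℂ} (h : S * S = 1) : dvmS hXY S * dvmS hXY S = 1 := by
  unfold dvmS
  rw [Matrix.submatrix_mul_equiv, ← Matrix.mul_kronecker_mul, h, Matrix.mul_one,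
    Matrix.one_kronecker_one, Matrix.submatrix_one_equiv]

private lemma dvmS_herm {d L : ℕ} {X Y : Finset (Site L)} (hXY : X ⊆ Y)
    {S : Matrix (X → Fin d) (X → Fin d) ℂ} (h : S.IsHermitian) : (dvmS hXY S).IsHermitian := by
  unfold dvmS
  refine Matrix.IsHermitian.submatrix ?_ _
  change Matrix.conjTranspose _ = _
  rw [Matrix.conjTranspose_kronecker, h.eq, Matrix.conjTranspose_one]

private lemma dvm_emb {d L : ℕ} [NeZero L] {X Y : Finset (Site L)} (hXY : X ⊆ Y)
    (S : Matrix (X → Fin d) (X → Fin d) ℂ) : emb Y (dvmS hXY S) = emb X S := by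
  rw [emb_eq, emb_eq]
  congr 1
  ext s t
  unfold embMat
  have h1 : dvmS hXY S (fun v => s v) (fun v => t v) =
      if ∀ v : {v : Y // v.1 ∉ X}, s v.1 = t v.1 then S (fun v => s v) (fun v => t v) else 0 := by
    unfold dvmS
    rw [Matrix.submatrix_apply, Matrix.kroneckerMap_apply, Matrix.one_apply, mul_ite, mul_one,
      mul_zero]
    refine if_congr ?_ rfl rfl
    exact funext_iff
  rw [h1]
  by_cases h : ∀ v, v ∉ X → s v = t v
  · rw [if_pos h, if_pos (fun v hv => h v (fun hX => hv (hXY hX))), if_pos (fun v => h _ v.2)]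
  · rw [if_neg h]
    split_ifs with h2 h3
    · exfalso
      apply h
      intro v hv
      by_cases hvY : v ∈ Y
      · exact h3 ⟨⟨v, hvY⟩, hv⟩
      · exact h2 v hvY
    · rfl
    · rfl

/- PROOF. Let `S` be the sign matrix of `red ρ X - rdm Ψ X` (`exists_sign`), and let
`S' a b = if a and b agree on Y \ X then S (a on X) (b on X) else 0` on `Y`, Hermitian with square
`1`, and `emb X S = emb Y S'` (both have the same entries, `emb_mat` in EC/Emb.lean). By
`trace_red` and `inner_emb`: `dev X = Re ((ρ * mat (emb X S)).trace - ⟪Ψ, emb X S Ψ⟫) =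
Re ((red ρ Y - rdm Ψ Y) * S').trace`. Use `trace_sign_le`. -/
theorem dev_mono {d L : ℕ} [NeZero L] (Ψ : Hil d L) {ρ : Matrix (Conf d L) (Conf d L) ℂ}
    (h : ρ.IsHermitian) {X Y : Finset (Site L)} (hXY : X ⊆ Y) :
    dev Ψ.ofLp h X ≤ dev Ψ.ofLp h Y := by
  obtain ⟨S, hS, hS2, -, hS4⟩ :=
    exists_sign ((red_isHermitian h X).sub (rdm_isHermitian Ψ.ofLp X))
  have h1 : ∀ (Z : Finset (Site L)) (M : Matrix (Z → Fin d) (Z → Fin d) ℂ),
      ((red ρ Z - rdm Ψ.ofLp Z) * M).trace =
      (ρ * mat (emb Z M)).trace - ⟪Ψ, emb Z M Ψ⟫_ℂ := by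
    intro Z M
    rw [Matrix.sub_mul, Matrix.trace_sub, trace_red, inner_emb, Matrix.trace_mul_comm M]
  unfold dev
  rw [hS4, h1, ← dvm_emb hXY S, ← h1]
  exact trace_sign_le _ (dvmS_herm hXY hS) (dvmS_sq hXY hS2)

end Pool.Agent.FFG.HE
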