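import Pool.Agent.FFG.HE.Defs

/-!
# Hidden-entropy criterion: continuity of the entropy
-/

open Finset
open scoped InnerProductSpace

set_option autoImplicit false
set_option linter.unusedSectionVars false
set_option linter.unusedVariables false

namespace Pool.Agent.FFG.HE

open Pool.Agent.FFG Pool.Agent.FFG.EC Pool.Agent.FFG.HPlain

section Fan

variable {n : Type} [Fintype n] [DecidableEq n]

/-- The diagonal entries of a Hermitian matrix in another orthonormal basis. -/
private theorem fan_diag {A : Matrix n n ℂ} (hA : A.IsHermitian) (V : Matrix n n ℂ)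
    (hV1 : star V * V = 1) (hV2 : V * star V = 1) :
    ∃ B : n → n → ℝ, (∀ i j, 0 ≤ B i j) ∧ (∀ j, ∑ i, B i j = 1) ∧ (∀ i, ∑ j, B i j = 1) ∧
      ∀ j, (star V * A * V) j j = ((∑ i, B i j * hA.eigenvalues i : ℝ) : ℂ) := by
  set U : Matrix n n ℂ := (hA.eigenvectorUnitary : Matrix n n ℂ) with hU
  have hU1 : star U * U = 1 := Unitary.coe_star_mul_self _
  have hU2 : U * star U = 1 := Unitary.coe_mul_star_self _
  have hsp : A = U * Matrix.diagonal (fun i => (hA.eigenvalues i : ℂ)) * star U := by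
    conv_lhs => rw [hA.spectral_theorem]
    rfl
  set W : Matrix n n ℂ := star U * V with hW
  have hW' : star W = star V * U := by rw [hW, star_mul, star_star]
  have hW1 : star W * W = 1 := by
    rw [hW', hW, Matrix.mul_assoc, ← Matrix.mul_assoc U, hU2, Matrix.one_mul, hV1]
  have hW2 : W * star W = 1 := by
    rw [hW', hW, Matrix.mul_assoc, ← Matrix.mul_assoc V, hV2, Matrix.one_mul, hU1]
  have hn : ∀ z : ℂ, star z * z = ((‖z‖ ^ 2 : ℝ) : ℂ) := by
    intro z
    have := Complex.conj_mul' z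
    push_cast
    exact this
  refine ⟨fun i j => ‖W i j‖ ^ 2, fun i j => by positivity, fun j => ?_, fun i => ?_, fun j => ?_⟩
  · have h := congrFun (congrFun hW1 j) j
    rw [Matrix.mul_apply, Matrix.one_apply_eq] at h
    have h2 : ((∑ i, ‖W i j‖ ^ 2 : ℝ) : ℂ) = 1 := by
      rw [← h, Complex.ofReal_sum]
      exact Finset.sum_congr rfl fun i _ => by rw [Matrix.star_apply, hn]
    exact_mod_cast h2
  · have h := congrFun (congrFun hW2 i) i
    rw [Matrix.mul_apply, Matrix.one_apply_eq] at h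
    have h2 : ((∑ j, ‖W i j‖ ^ 2 : ℝ) : ℂ) = 1 := by
      rw [← h, Complex.ofReal_sum]
      exact Finset.sum_congr rfl fun j _ => by rw [Matrix.star_apply, mul_comm, hn]
    exact_mod_cast h2
  · have h : star V * A * V = star W * Matrix.diagonal (fun i => (hA.eigenvalues i : ℂ)) * W := by
      conv_lhs => rw [hsp]
      rw [hW', hW]
      simp only [Matrix.mul_assoc]
    rw [h, Matrix.mul_apply, Complex.ofReal_sum]
    refine Finset.sum_congr rfl fun i _ => ?_
    rw [Matrix.mul_diagonal, Matrix.star_apply, Complex.ofReal_mul, ← hn]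
    ring

private theorem fan_eig {A : Matrix n n ℂ} (hA : A.IsHermitian) (j : n) :
    (star (hA.eigenvectorUnitary : Matrix n n ℂ) * A * (hA.eigenvectorUnitary : Matrix n n ℂ)) j j =
      (hA.eigenvalues j : ℂ) := by
  set U : Matrix n n ℂ := (hA.eigenvectorUnitary : Matrix n n ℂ) with hU
  have hU1 : star U * U = 1 := Unitary.coe_star_mul_self _
  have hsp : A = U * Matrix.diagonal (fun i => (hA.eigenvalues i : ℂ)) * star U := by
    conv_lhs => rw [hA.spectral_theorem]
    rfl
  have h : star U * A * U = Matrix.diagonal (fun i => (hA.eigenvalues i : ℂ)) := by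
    conv_lhs => rw [hsp]
    calc star U * (U * Matrix.diagonal (fun i => (hA.eigenvalues i : ℂ)) * star U) * U =
        (star U * U) * Matrix.diagonal (fun i => (hA.eigenvalues i : ℂ)) * (star U * U) := by
          simp only [Matrix.mul_assoc]
      _ = _ := by rw [hU1, Matrix.one_mul, Matrix.mul_one]
  rw [h, Matrix.diagonal_apply_eq]

private theorem fan_state {ρ : Matrix n n ℂ} (hρ : IsState ρ) :
    (∀ i, 0 ≤ hρ.herm.eigenvalues i) ∧ ∑ i, hρ.herm.eigenvalues i = 1 := by
  refine ⟨fun i => hρ.pos.eigenvalues_nonneg i, ?_⟩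
  have h := hρ.herm.trace_eq_sum_eigenvalues
  rw [hρ.tr] at h
  have h2 : ((∑ i, hρ.herm.eigenvalues i : ℝ) : ℂ) = 1 := by
    rw [h, Complex.ofReal_sum]
    rfl
  exact_mod_cast h2

private theorem fan_klein {a b : ℝ} (ha : 0 ≤ a) (hb : 0 < b) :
    Real.negMulLog a ≤ a * (-Real.log b) - a + b := by
  unfold Real.negMulLog
  rcases ha.eq_or_lt with h | h
  · rw [← h]
    simp
    exact hb.le
  · have h1 : Real.log (b / a) ≤ b / a - 1 := Real.log_le_sub_one_of_pos (by positivity)
    rw [Real.log_div hb.ne' h.ne'] at h1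
    have h2 := mul_le_mul_of_nonneg_left h1 h.le
    have h3 : a * (b / a - 1) = b - a := by field_simp
    rw [h3] at h2
    nlinarith

end Fan

/- PROOF. Let `r i`, `u i` and `s j`, `v j` be the eigenvalues and orthonormal eigenvectors of `ρ`
and `σ`, `D = card n ≥ 1` (`n` is nonempty since the trace is `1`), `B i j = |⟪u i, v j⟫| ^ 2` (doubly
stochastic), `s' j = (1 - ε) s j + ε / D ∈ [ε / D, 1]`, `∑ s' j = 1`. Klein: by
`a log a - a log b ≥ a - b` for `a ≥ 0`, `b > 0`,
`∑ i, ∑ j, B i j (r i log (r i) - r i log (s' j)) ≥ ∑ i, ∑ j, B i j (r i - s' j) = 0`, so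
`ent ρ ≤ ∑ j, p j * (- log (s' j))` with `p j = ∑ i, B i j r i = ⟪v j, ρ (v j)⟫`. Since
`p j = s j + ⟪v j, (ρ - σ) (v j)⟫`, `0 ≤ - log (s' j) ≤ log (D / ε)`,
`- log (s' j) ≤ - log (1 - ε) - log (s j)` when `s j > 0`, `- log (1 - ε) ≤ 2 ε`, and
`∑ j, |⟪v j, (ρ - σ) (v j)⟫| ≤ trNorm (ρ - σ)` (expand in the eigenvectors of `ρ - σ`), the claim
follows. -/
theorem fannes {n : Type} [Fintype n] [DecidableEq n] {ρ σ : Matrix n n ℂ} (hρ : IsState ρ)
    (hσ : IsState σ) {ε : ℝ} (hε : 0 < ε) (hε2 : ε ≤ 1 / 2) :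
    ent hρ.herm ≤ ent hσ.herm +
      Real.log (Fintype.card n / ε) * trNorm (hρ.herm.sub hσ.herm) + 2 * ε := by
  obtain ⟨hr0, hr1⟩ := fan_state hρ
  obtain ⟨hs0, hs1⟩ := fan_state hσ
  set r := hρ.herm.eigenvalues with hr
  set s := hσ.herm.eigenvalues with hs
  set V : Matrix n n ℂ := (hσ.herm.eigenvectorUnitary : Matrix n n ℂ) with hV
  have hV1 : star V * V = 1 := Unitary.coe_star_mul_self _
  have hV2 : V * star V = 1 := Unitary.coe_mul_star_self _
  obtain ⟨B, hB0, hB1, hB2, hB3⟩ := fan_diag hρ.herm V hV1 hV2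
  obtain ⟨C, hC0, hC1, hC2, hC3⟩ := fan_diag (hρ.herm.sub hσ.herm) V hV1 hV2
  set t := (hρ.herm.sub hσ.herm).eigenvalues with ht
  set p : n → ℝ := fun j => ∑ i, B i j * r i with hp
  set δ : n → ℝ := fun j => ∑ i, C i j * t i with hδ
  have hpd : ∀ j, p j = s j + δ j := by
    intro j
    have h1 := hB3 j
    have h2 := hC3 j
    have h3 := fan_eig hσ.herm j
    rw [Matrix.mul_sub, Matrix.sub_mul, Matrix.sub_apply, h1] at h2
    rw [← hV] at h3
    rw [h3] at h2
    have h4 : ((p j - s j : ℝ) : ℂ) = ((δ j : ℝ) : ℂ) := by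
      rw [Complex.ofReal_sub]
      exact h2
    have h5 : p j - s j = δ j := by exact_mod_cast h4
    linarith
  have hδsum : ∑ j, |δ j| ≤ trNorm (hρ.herm.sub hσ.herm) := by
    calc ∑ j, |δ j| ≤ ∑ j, ∑ i, C i j * |t i| := by
          refine Finset.sum_le_sum fun j _ => ?_
          refine (Finset.abs_sum_le_sum_abs _ _).trans ?_
          refine Finset.sum_le_sum fun i _ => ?_
          rw [abs_mul, abs_of_nonneg (hC0 i j)]
      _ = ∑ i, ∑ j, C i j * |t i| := Finset.sum_comm
      _ = ∑ i, |t i| := by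
          refine Finset.sum_congr rfl fun i _ => ?_
          rw [← Finset.sum_mul, hC2 i, one_mul]
      _ = trNorm (hρ.herm.sub hσ.herm) := rfl
  -- the dimension
  have hne : Nonempty n := by
    by_contra h
    rw [not_nonempty_iff] at h
    rw [Finset.univ_eq_empty, Finset.sum_empty] at hr1
    exact zero_ne_one hr1
  set D : ℝ := (Fintype.card n : ℝ) with hD
  have hD1 : 1 ≤ D := by
    rw [hD]
    exact_mod_cast Fintype.card_pos
  have hD0 : 0 < D := by linarith
  set s' : n → ℝ := fun j => (1 - ε) * s j + ε / D with hs'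
  have hs'0 : ∀ j, ε / D ≤ s' j := fun j => by
    have : 0 ≤ (1 - ε) * s j := mul_nonneg (by linarith) (hs0 j)
    simp only [hs']
    linarith
  have hεD : 0 < ε / D := div_pos hε hD0
  have hs'p : ∀ j, 0 < s' j := fun j => lt_of_lt_of_le hεD (hs'0 j)
  have hsle : ∀ j, s j ≤ 1 := fun j => by
    rw [← hs1]
    exact Finset.single_le_sum (fun i _ => hs0 i) (Finset.mem_univ j)
  have hs'1 : ∀ j, s' j ≤ 1 := fun j => by
    have h1 : (1 - ε) * s j ≤ (1 - ε) * 1 := mul_le_mul_of_nonneg_left (hsle j) (by linarith)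
    have h2 : ε / D ≤ ε := div_le_self hε.le hD1
    simp only [hs']
    linarith
  have hs'sum : ∑ j, s' j = 1 := by
    simp only [hs']
    rw [Finset.sum_add_distrib, ← Finset.mul_sum, hs1, Finset.sum_const, Finset.card_univ,
      nsmul_eq_mul, ← hD]
    field_simp
    ring
  have hlog0 : ∀ j, 0 ≤ -Real.log (s' j) := fun j => by
    have := Real.log_nonpos (hs'p j).le (hs'1 j)
    linarith
  have hlog1 : ∀ j, -Real.log (s' j) ≤ Real.log (D / ε) := fun j => by
    have h1 := Real.log_le_log hεD (hs'0 j)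
    have h2 : Real.log (D / ε) = -Real.log (ε / D) := by
      rw [← Real.log_inv, inv_div]
    rw [h2]
    linarith
  -- Klein's inequality
  have hK : ent hρ.herm ≤ ∑ j, p j * (-Real.log (s' j)) := by
    have h1 : ent hρ.herm = ∑ i, ∑ j, B i j * Real.negMulLog (r i) := by
      unfold ent
      refine Finset.sum_congr rfl fun i _ => ?_
      rw [← Finset.sum_mul, hB2 i, one_mul]
    have h2 : ∑ i, ∑ j, B i j * Real.negMulLog (r i) ≤
        ∑ i, ∑ j, B i j * (r i * (-Real.log (s' j)) - r i + s' j) :=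
      Finset.sum_le_sum fun i _ => Finset.sum_le_sum fun j _ =>
        mul_le_mul_of_nonneg_left (fan_klein (hr0 i) (hs'p j)) (hB0 i j)
    have h3 : ∑ i, ∑ j, B i j * (r i * (-Real.log (s' j)) - r i + s' j) =
        ∑ j, p j * (-Real.log (s' j)) - ∑ i, r i + ∑ j, s' j := by
      have e1 : ∑ i, ∑ j, B i j * (r i * (-Real.log (s' j)) - r i + s' j) =
          ∑ i, ∑ j, B i j * r i * (-Real.log (s' j)) - ∑ i, ∑ j, B i j * r i +
            ∑ i, ∑ j, B i j * s' j := by
        rw [← Finset.sum_sub_distrib, ← Finset.sum_add_distrib]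
        refine Finset.sum_congr rfl fun i _ => ?_
        rw [← Finset.sum_sub_distrib, ← Finset.sum_add_distrib]
        exact Finset.sum_congr rfl fun j _ => by ring
      have e2 : ∑ i, ∑ j, B i j * r i * (-Real.log (s' j)) = ∑ j, p j * (-Real.log (s' j)) := by
        rw [Finset.sum_comm]
        refine Finset.sum_congr rfl fun j _ => ?_
        rw [hp, Finset.sum_mul]
      have e3 : ∑ i, ∑ j, B i j * r i = ∑ i, r i := by
        refine Finset.sum_congr rfl fun i _ => ?_
        rw [← Finset.sum_mul, hB2 i, one_mul]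
      have e4 : ∑ i, ∑ j, B i j * s' j = ∑ j, s' j := by
        rw [Finset.sum_comm]
        refine Finset.sum_congr rfl fun j _ => ?_
        rw [← Finset.sum_mul, hB1 j, one_mul]
      rw [e1, e2, e3, e4]
    rw [h1]
    refine h2.trans ?_
    rw [h3, hr1, hs'sum]
    linarith
  -- the logarithm of `1 - ε`
  have hl : -Real.log (1 - ε) ≤ 2 * ε := by
    have h1 := Real.one_sub_inv_le_log_of_pos (show (0 : ℝ) < 1 - ε by linarith)
    have h2 : (1 - ε)⁻¹ ≤ 1 + 2 * ε := by
      rw [inv_le_iff_one_le_mul₀ (by linarith)]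
      nlinarith
    linarith
  have hterm : ∀ j, s j * (-Real.log (s' j)) ≤ s j * (2 * ε) + Real.negMulLog (s j) := by
    intro j
    rcases (hs0 j).eq_or_lt with h | h
    · rw [← h]
      simp
    · have h1 : (1 - ε) * s j ≤ s' j := by
        simp only [hs']
        linarith
      have h2 := Real.log_le_log (mul_pos (by linarith) h) h1
      rw [Real.log_mul (by linarith) h.ne'] at h2
      have h3 : -Real.log (s' j) ≤ 2 * ε - Real.log (s j) := by linarith
      have h4 := mul_le_mul_of_nonneg_left h3 h.le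
      unfold Real.negMulLog
      linarith
  have hlogD : 0 ≤ Real.log (D / ε) := (hlog0 hne.some).trans (hlog1 hne.some)
  calc ent hρ.herm ≤ ∑ j, p j * (-Real.log (s' j)) := hK
    _ = ∑ j, s j * (-Real.log (s' j)) + ∑ j, δ j * (-Real.log (s' j)) := by
        rw [← Finset.sum_add_distrib]
        exact Finset.sum_congr rfl fun j _ => by rw [hpd j, add_mul]
    _ ≤ ∑ j, (s j * (2 * ε) + Real.negMulLog (s j)) + ∑ j, Real.log (D / ε) * |δ j| := by
        refine add_le_add (Finset.sum_le_sum fun j _ => hterm j)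
          (Finset.sum_le_sum fun j _ => ?_)
        calc δ j * (-Real.log (s' j)) ≤ |δ j| * (-Real.log (s' j)) :=
              mul_le_mul_of_nonneg_right (le_abs_self _) (hlog0 j)
          _ ≤ |δ j| * Real.log (D / ε) := mul_le_mul_of_nonneg_left (hlog1 j) (abs_nonneg _)
          _ = _ := mul_comm _ _
    _ = 2 * ε + ent hσ.herm + Real.log (D / ε) * ∑ j, |δ j| := by
        rw [Finset.sum_add_distrib, ← Finset.sum_mul, hs1, one_mul, ← Finset.mul_sum]
        rfl
    _ ≤ 2 * ε + ent hσ.herm + Real.log (D / ε) * trNorm (hρ.herm.sub hσ.herm) := by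
        have := mul_le_mul_of_nonneg_left hδsum hlogD
        linarith
    _ = _ := by ring

end Pool.Agent.FFG.HE
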