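import Pool.Agent.FFG.HE.Defs
import Pool.Agent.FFG.EC.Fnc
import Pool.Agent.FFG.EC.Emb

/-!
# Hidden-entropy criterion: the trace norm and dual forms of the two maps
-/

open Finset
open scoped InnerProductSpace

set_option autoImplicit false
set_option linter.unusedSectionVars false
set_option linter.unusedVariables false

namespace Pool.Agent.FFG.HE

open Pool.Agent.PEPS953 Pool.Agent.FFG Pool.Agent.FFG.EC Pool.Agent.FFG.HPlain

open Pool.Agent.FFG.EPlain (glue rdm boxAt)

/- PROOF. `S = fnc hA (fun x => if x < 0 then -1 else 1)` (EC/Fnc.lean: `fnc_mul`,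
`fnc_conjTranspose`, `fnc_one`, `trace_fnc_mul`). The entries: `1 = (S * S) a a = ∑ b, ‖S a b‖ ^ 2`,
since `S b a = star (S a b)`. -/
theorem exists_sign {n : Type} [Fintype n] [DecidableEq n] {A : Matrix n n ℂ}
    (hA : A.IsHermitian) : ∃ S : Matrix n n ℂ, S.IsHermitian ∧ S * S = 1 ∧
      (∀ a b, ‖S a b‖ ≤ 1) ∧ trNorm hA = (A * S).trace.re := by
  have hH : (fnc hA (fun x => if x < 0 then -1 else 1)).IsHermitian := by
    change (fnc hA (fun x => if x < 0 then -1 else 1)).conjTranspose = _
    rw [fnc_conjTranspose]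
    congr 1
    funext x
    split_ifs <;> simp
  have hS : fnc hA (fun x => if x < 0 then -1 else 1) *
      fnc hA (fun x => if x < 0 then -1 else 1) = 1 := by
    rw [fnc_mul, ← fnc_one hA]
    congr 1
    funext x
    split_ifs <;> simp
  refine ⟨fnc hA (fun x => if x < 0 then -1 else 1), hH, hS, ?_, ?_⟩
  · intro a b
    have h1 := congrFun (congrFun hS a) a
    rw [Matrix.mul_apply, Matrix.one_apply_eq] at h1
    have h2 : ∀ c, fnc hA (fun x => if x < 0 then -1 else 1) a c *
        fnc hA (fun x => if x < 0 then -1 else 1) c a =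
        ((‖fnc hA (fun x => if x < 0 then -1 else 1) a c‖ ^ 2 : ℝ) : ℂ) := by
      intro c
      rw [← hH.apply c a, Complex.ofReal_pow]
      exact Complex.mul_conj' _
    rw [Finset.sum_congr rfl fun c _ => h2 c, ← Complex.ofReal_sum, Complex.ofReal_eq_one] at h1
    have h3 : ‖fnc hA (fun x => if x < 0 then -1 else 1) a b‖ ^ 2 ≤ 1 := by
      rw [← h1]
      exact Finset.single_le_sum
        (f := fun c => ‖fnc hA (fun x => if x < 0 then -1 else 1) a c‖ ^ 2)
        (fun c _ => sq_nonneg _) (Finset.mem_univ b)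
    exact (sq_le_one_iff₀ (norm_nonneg _)).1 h3
  · rw [Matrix.trace_mul_comm, trace_fnc_mul, Complex.re_sum]
    unfold trNorm
    refine Finset.sum_congr rfl fun i _ => ?_
    split_ifs with h
    · rw [abs_of_neg h]
      simp
    · rw [abs_of_nonneg (not_lt.1 h)]
      simp

variable {d L : ℕ} [NeZero L]

private lemma sgn_sum (X : Finset (Site L)) (F : Conf d L → ℂ) :
    ∑ s, F s = ∑ w : {v // v ∉ X} → Fin d, ∑ a : X → Fin d, F (glue X a w) := by
  rw [← (Equiv.piEquivPiSubtypeProd (fun v => v ∈ X) (fun _ => Fin d)).symm.sum_comp,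
    Fintype.sum_prod_type, sum_comm]
  rfl

private lemma sgn_in (X : Finset (Site L)) (a : X → Fin d) (w : {v // v ∉ X} → Fin d) :
    (fun v : X => glue X a w v) = a := by
  funext v
  simp [glue]

private lemma sgn_out (X : Finset (Site L)) (a b : X → Fin d) (w w' : {v // v ∉ X} → Fin d) :
    (∀ v, v ∉ X → glue X a w v = glue X b w' v) ↔ w = w' := by
  constructor
  · intro h
    funext v
    have h1 := h v.1 v.2
    simpa [glue, v.2] using h1
  · rintro rfl v hv
    simp [glue, hv]

/- PROOF. Both sides are `∑ a, ∑ b, ∑ w, ρ (glue X a w) (glue X b w) * S b a`: use `emb_mat`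
(EC/Emb.lean) and the bijection `s ↔ (a, w)`, `s = glue X a w` (compare EC/Marginal.lean, the proof
of `inner_emb`). -/
theorem trace_red (ρ : Matrix (Conf d L) (Conf d L) ℂ) (X : Finset (Site L))
    (S : Matrix (X → Fin d) (X → Fin d) ℂ) : (red ρ X * S).trace = (ρ * mat (emb X S)).trace := by
  have h2 : ∀ (a : X → Fin d) (w : {v // v ∉ X} → Fin d),
      (∑ t, ρ (glue X a w) t * mat (emb X S) t (glue X a w)) =
      ∑ b : X → Fin d, ρ (glue X a w) (glue X b w) * S b a := by
    intro a w
    rw [sgn_sum X, Finset.sum_eq_single w]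
    · refine sum_congr rfl fun b _ => ?_
      rw [emb_mat, if_pos ((sgn_out X b a w w).2 rfl), sgn_in, sgn_in]
    · intro w' _ hw'
      refine sum_eq_zero fun b _ => ?_
      rw [emb_mat, if_neg (fun h => hw' ((sgn_out X b a w' w).1 h)), mul_zero]
    · intro h
      exact absurd (mem_univ w) h
  have h1 : (ρ * mat (emb X S)).trace = ∑ s, ∑ t, ρ s t * mat (emb X S) t s := rfl
  rw [h1, sgn_sum X]
  simp only [h2]
  rw [sum_comm, Matrix.trace]
  refine sum_congr rfl fun a _ => ?_
  rw [Matrix.diag_apply, Matrix.mul_apply, sum_comm]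
  refine sum_congr rfl fun b _ => ?_
  rw [red, sum_mul]

/- PROOF. `mat` is a star algebra isomorphism; cyclicity of the trace (`Matrix.trace_mul_cycle`). -/
theorem trace_chd (w : ℕ → ℝ) (K : ℕ) (U O : Hil d L →L[ℂ] Hil d L)
    (ρ : Matrix (Conf d L) (Conf d L) ℂ) :
    (chd w K (mat U) ρ * mat O).trace = (ρ * mat (ch w K U O)).trace := by
  have h1 : mat (ch w K U O) =
      ∑ k ∈ range K, (w k : ℂ) • ((mat U ^ k).conjTranspose * mat O * mat U ^ k) := by
    unfold mat ch
    rw [map_sum]
    refine sum_congr rfl fun k _ => ?_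
    rw [map_smul, map_mul, map_mul, map_star, map_pow]
    rfl
  rw [h1]
  unfold chd
  rw [Matrix.sum_mul, Matrix.mul_sum, Matrix.trace_sum, Matrix.trace_sum]
  refine sum_congr rfl fun k _ => ?_
  rw [Matrix.smul_mul, Matrix.mul_smul, Matrix.trace_smul, Matrix.trace_smul]
  congr 1
  rw [Matrix.mul_assoc (mat U ^ k), Matrix.mul_assoc (mat U ^ k), Matrix.trace_mul_comm]
  simp only [Matrix.mul_assoc]

end Pool.Agent.FFG.HE
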