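import Pool.Agent.FFG.HE.SSA
import Pool.Agent.FFG.HE.Fannes
import Pool.Agent.FFG.HE.DevMono
import Pool.Agent.FFG.HE.Sign

/-!
# Hidden-entropy criterion: small conditional entropies imply few defects
-/

open Finset
open scoped InnerProductSpace

set_option autoImplicit false
set_option linter.unusedSectionVars false
set_option linter.unusedVariables false

namespace Pool.Agent.FFG.HE

open Pool.Agent.PEPS953 Pool.Agent.FFG Pool.Agent.FFG.EC Pool.Agent.FFG.HPlain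

open Pool.Agent.FFG.EPlain (glue rdm boxAt IsDecomp condSum entropy SmallCondSum)

private theorem trNorm_nonneg' {n : Type} [Fintype n] [DecidableEq n] {A : Matrix n n ℂ}
    (h : A.IsHermitian) : 0 ≤ trNorm h := sum_nonneg fun i _ => abs_nonneg _

private theorem trNorm_swap {n : Type} [Fintype n] [DecidableEq n] {A B : Matrix n n ℂ}
    (h : (A - B).IsHermitian) (h' : (B - A).IsHermitian) : trNorm h' ≤ trNorm h := by
  obtain ⟨S, hS, hS2, _, hSe⟩ := exists_sign h'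
  have h1 : ((B - A) * S).trace.re = ((A - B) * (-S)).trace.re := by
    rw [mul_neg, ← neg_mul, neg_sub]
  rw [hSe, h1]
  refine trace_sign_le h ?_ ?_
  · exact hS.neg
  · rw [neg_mul_neg, hS2]

private theorem ent_diff {d L : ℕ} [NeZero L] (hd : 0 < d) (hL : 2 ≤ L) {Ψ : Hil d L}
    (hΨ : ‖Ψ‖ = 1) {ρ : Matrix (Conf d L) (Conf d L) ℂ} (hρ : IsState ρ) {R : ℕ}
    {X : Finset (Site L)} {c : Site L} (hX : X ⊆ boxAt L R c) :
    ment hρ.herm X ≤ entropy Ψ.ofLp X + (R ^ 2 * Real.log d + 4 * Real.log L) *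
        dev Ψ.ofLp hρ.herm (boxAt L R c) + 2 * ((L : ℝ) ^ 4)⁻¹ ∧
      entropy Ψ.ofLp X ≤ ment hρ.herm X + (R ^ 2 * Real.log d + 4 * Real.log L) *
        dev Ψ.ofLp hρ.herm (boxAt L R c) + 2 * ((L : ℝ) ^ 4)⁻¹ := by
  have hL' : (2 : ℝ) ≤ L := by exact_mod_cast hL
  have hL4 : (16 : ℝ) ≤ (L : ℝ) ^ 4 := by
    calc (16 : ℝ) = 2 ^ 4 := by norm_num
      _ ≤ (L : ℝ) ^ 4 := pow_le_pow_left₀ (by norm_num) hL' 4
  have hε : 0 < ((L : ℝ) ^ 4)⁻¹ := by positivity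
  have hε2 : ((L : ℝ) ^ 4)⁻¹ ≤ 1 / 2 := by
    rw [one_div]
    exact inv_anti₀ (by norm_num) (by linarith)
  have hd1 : (1 : ℝ) ≤ d := by exact_mod_cast hd
  have hlogd : 0 ≤ Real.log d := Real.log_nonneg hd1
  have hlogL : 0 ≤ Real.log L := Real.log_nonneg (by linarith)
  have hcard : (#X : ℝ) ≤ (R : ℝ) ^ 2 := by
    have h1 : #X ≤ R ^ 2 := (card_le_card hX).trans (card_boxAt R c)
    exact_mod_cast h1
  have hlog : Real.log (Fintype.card (X → Fin d) / ((L : ℝ) ^ 4)⁻¹) ≤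
      R ^ 2 * Real.log d + 4 * Real.log L := by
    rw [Fintype.card_fun, Fintype.card_fin, Fintype.card_coe, div_inv_eq_mul]
    push_cast
    rw [Real.log_mul (by positivity) (by positivity), Real.log_pow, Real.log_pow]
    push_cast
    have := mul_le_mul_of_nonneg_right hcard hlogd
    linarith
  have hg : 0 ≤ (R : ℝ) ^ 2 * Real.log d + 4 * Real.log L := by positivity
  have hdm := dev_mono Ψ hρ.herm hX
  have hdn : 0 ≤ dev Ψ.ofLp hρ.herm X := trNorm_nonneg' _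
  have hsw : trNorm ((rdm_state hΨ X).herm.sub (red_state hρ X).herm) ≤
      dev Ψ.ofLp hρ.herm X := trNorm_swap _ _
  have hdn' : 0 ≤ trNorm ((rdm_state hΨ X).herm.sub (red_state hρ X).herm) := trNorm_nonneg' _
  have f1 := fannes (red_state hρ X) (rdm_state hΨ X) hε hε2
  have f2 := fannes (rdm_state hΨ X) (red_state hρ X) hε hε2
  have e1 : trNorm ((red_state hρ X).herm.sub (rdm_state hΨ X).herm) =
      dev Ψ.ofLp hρ.herm X := rfl
  have e2 : ent (red_state hρ X).herm = ment hρ.herm X := rfl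
  have e3 : ent (rdm_state hΨ X).herm = entropy Ψ.ofLp X := rfl
  rw [e1, e2, e3] at f1
  rw [e2, e3] at f2
  constructor
  · have h1 : Real.log (Fintype.card (X → Fin d) / ((L : ℝ) ^ 4)⁻¹) * dev Ψ.ofLp hρ.herm X ≤
        (R ^ 2 * Real.log d + 4 * Real.log L) * dev Ψ.ofLp hρ.herm (boxAt L R c) :=
      (mul_le_mul_of_nonneg_right hlog hdn).trans (mul_le_mul_of_nonneg_left hdm hg)
    linarith
  · have h1 : Real.log (Fintype.card (X → Fin d) / ((L : ℝ) ^ 4)⁻¹) *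
        trNorm ((rdm_state hΨ X).herm.sub (red_state hρ X).herm) ≤
        (R ^ 2 * Real.log d + 4 * Real.log L) * dev Ψ.ofLp hρ.herm (boxAt L R c) :=
      (mul_le_mul_of_nonneg_right hlog hdn').trans
        (mul_le_mul_of_nonneg_left (hsw.trans hdm) hg)
    linarith

/- PROOF. `R > 0` since the boxes cover the torus, and `m ≤ n L ^ 2`, since every box contains its
corner `c j` (`∑ j, 1 ≤ ∑ v, #{j | v ∈ boxAt L R (c j)}`). Let `ε = L ^ (- 4) ≤ 1 / 2` and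
`g = R ^ 2 log d + 4 log L`. For `X ⊆ boxAt L R (c j)`, `log (card (X → Fin d) / ε) ≤ g`
(`card_boxAt`), and by `fannes` (in both directions; `red_state`, `rdm_state`; `entropy Ψ X` is the
`ent` of `rdm Ψ X`, `trNorm (- A) = trNorm A`) and `dev_mono`: `|ment X - entropy Ψ X| ≤
g dev (boxAt L R (c j)) + 2 ε`. By `ent_le_msum`:
`ent ρ ≤ condSum + ∑ j, (2 g dev (boxAt (c j)) + 4 ε) ≤ condSum + 2 n g ∑ v, dev (boxAt v) + 4 n`,
since at most `n` of the `c j` are equal to `v`. (`trNorm` is nonnegative.) -/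
theorem cond_one {d L : ℕ} [NeZero L] (hd : 0 < d) (hL : 2 ≤ L) {Ψ : Hil d L} (hΨ : ‖Ψ‖ = 1)
    {R n m : ℕ} {A B : ℕ → Finset (Site L)} {c : ℕ → Site L} (H : IsDecomp R n m A B c)
    {κ : ℝ} (hκ : condSum Ψ.ofLp m A B ≤ κ) (hκ0 : 0 ≤ κ) :
    FewDefects Ψ.ofLp R (κ + 2 * n * (R ^ 2 * Real.log d + 4 * Real.log L) + 4 * n) := by
  classical
  intro ρ hρ
  have hL' : (2 : ℝ) ≤ L := by exact_mod_cast hL
  have hL4 : (16 : ℝ) ≤ (L : ℝ) ^ 4 := by
    calc (16 : ℝ) = 2 ^ 4 := by norm_num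
      _ ≤ (L : ℝ) ^ 4 := pow_le_pow_left₀ (by norm_num) hL' 4
  have hd1 : (1 : ℝ) ≤ d := by exact_mod_cast hd
  have hlogd : 0 ≤ Real.log d := Real.log_nonneg hd1
  have hlogL : 0 ≤ Real.log L := Real.log_nonneg (by linarith)
  set g : ℝ := R ^ 2 * Real.log d + 4 * Real.log L with hgdef
  have hg : 0 ≤ g := by positivity
  set δ : Site L → ℝ := fun v => dev Ψ.ofLp hρ.herm (boxAt L R v) with hδ
  have hδ0 : ∀ v, 0 ≤ δ v := fun v => trNorm_nonneg' _
  -- every box is nonempty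
  have hR : 0 < R := by
    obtain ⟨j, hj, hv⟩ := H.cover (0 : Site L)
    have h1 := H.box j hj (mem_union_left _ hv)
    unfold boxAt at h1
    obtain ⟨p, _, _⟩ := mem_image.mp h1
    exact lt_of_le_of_lt (Nat.zero_le _) p.1.isLt
  have hc : ∀ v : Site L, v ∈ boxAt L R v := by
    intro v
    unfold boxAt
    refine mem_image.mpr ⟨(⟨0, hR⟩, ⟨0, hR⟩), mem_univ _, ?_⟩
    simp [boxPos, Plain.boxPos]
  have hcn : ∀ v : Site L, #{j ∈ range m | c j = v} ≤ n := by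
    intro v
    refine (card_le_card ?_).trans (H.mult v)
    intro j hj
    rw [mem_filter] at hj ⊢
    refine ⟨hj.1, ?_⟩
    rw [hj.2]
    exact hc v
  have hfib : ∀ f : Site L → ℝ, (∀ v, 0 ≤ f v) →
      ∑ j ∈ range m, f (c j) ≤ n * ∑ v, f v := by
    intro f hf
    rw [← sum_fiberwise_of_maps_to (s := range m) (t := univ) (g := c) (fun _ _ => mem_univ _),
      mul_sum]
    refine sum_le_sum fun v _ => ?_
    have h1 : ∑ j ∈ range m with c j = v, f (c j) = (#{j ∈ range m | c j = v} : ℝ) * f v := by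
      rw [sum_congr rfl (g := fun _ => f v) (fun j hj => by rw [(mem_filter.mp hj).2]), sum_const,
        nsmul_eq_mul]
    rw [h1]
    exact mul_le_mul_of_nonneg_right (by exact_mod_cast hcn v) (hf v)
  have hm : (m : ℝ) ≤ n * (L : ℝ) ^ 2 := by
    have h1 := hfib (fun _ => 1) (fun _ => zero_le_one)
    simp only [sum_const, card_range, nsmul_eq_mul, mul_one, card_univ, Fintype.card_prod,
      ZMod.card] at h1
    push_cast at h1
    rw [sq]
    exact h1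
  have hstep : ∀ j ∈ range m, ment hρ.herm (A j ∪ B j) - ment hρ.herm (B j) ≤
      (entropy Ψ.ofLp (A j ∪ B j) - entropy Ψ.ofLp (B j)) +
        (2 * g * δ (c j) + 4 * ((L : ℝ) ^ 4)⁻¹) := by
    intro j hj
    have h1 := (ent_diff hd hL hΨ hρ (H.box j (mem_range.mp hj))).1
    have h2 := (ent_diff hd hL hΨ hρ (subset_union_right.trans (H.box j (mem_range.mp hj)))).2
    rw [← hgdef] at h1 h2
    have e : dev Ψ.ofLp hρ.herm (boxAt L R (c j)) = δ (c j) := rfl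
    rw [e] at h1 h2
    linarith
  have h1 : ent hρ.herm ≤ msum hρ.herm m A B :=
    ent_le_msum hρ hd H.disj H.past H.cover
  have h2 : msum hρ.herm m A B ≤ κ + 2 * g * (n * ∑ v, δ v) + 4 * n := by
    unfold msum
    refine (sum_le_sum hstep).trans ?_
    rw [sum_add_distrib, sum_add_distrib, ← mul_sum, sum_const, card_range, nsmul_eq_mul]
    have h3 := hfib δ hδ0
    have h4 : (m : ℝ) * (4 * ((L : ℝ) ^ 4)⁻¹) ≤ 4 * n := by
      have h5 : (L : ℝ) ^ 2 * ((L : ℝ) ^ 4)⁻¹ ≤ 1 := by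
        rw [← div_eq_mul_inv, div_le_one (by positivity)]
        exact pow_le_pow_right₀ (by linarith) (by norm_num)
      have h6 : (m : ℝ) * ((L : ℝ) ^ 4)⁻¹ ≤ n * (L : ℝ) ^ 2 * ((L : ℝ) ^ 4)⁻¹ :=
        mul_le_mul_of_nonneg_right hm (by positivity)
      have h7 : (n : ℝ) * ((L : ℝ) ^ 2 * ((L : ℝ) ^ 4)⁻¹) ≤ n * 1 :=
        mul_le_mul_of_nonneg_left h5 (Nat.cast_nonneg n)
      nlinarith
    have h8 : 2 * g * ∑ j ∈ range m, δ (c j) ≤ 2 * g * (n * ∑ v, δ v) :=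
      mul_le_mul_of_nonneg_left h3 (by linarith)
    have h9 : ∑ j ∈ range m, (entropy Ψ.ofLp (A j ∪ B j) - entropy Ψ.ofLp (B j)) ≤ κ := hκ
    linarith
  have hS : 0 ≤ ∑ v, δ v := sum_nonneg fun v _ => hδ0 v
  have hn0 : (0 : ℝ) ≤ n := Nat.cast_nonneg n
  refine h1.trans (h2.trans ?_)
  show κ + 2 * g * (n * ∑ v, δ v) + 4 * n ≤ (κ + 2 * n * g + 4 * n) * (1 + ∑ v, δ v)
  have h3 : (κ + 2 * n * g + 4 * n) * (1 + ∑ v, δ v) =
      (κ + 2 * g * (n * ∑ v, δ v) + 4 * n) + (κ * ∑ v, δ v + 2 * n * g + 4 * n * ∑ v, δ v) := by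
    ring
  rw [h3]
  have h4 : 0 ≤ κ * ∑ v, δ v := mul_nonneg hκ0 hS
  have h5 : 0 ≤ 2 * (n : ℝ) * g := by positivity
  have h6 : 0 ≤ 4 * (n : ℝ) * ∑ v, δ v := by positivity
  linarith

/- PROOF. `cond_one`, `l = log L ≥ 1`; everything is at most `C' l ^ (3 k + 1)`. -/
theorem cond_family {d : ℕ} (hd : 0 < d) {Ψ : ∀ (L : ℕ) [NeZero L], Hil d L}
    (hΨ : ∃ L₁ : ℕ, ∀ (L : ℕ) [NeZero L], L₁ ≤ L → ‖Ψ L‖ = 1)
    (H : SmallCondSum fun L _ => (Ψ L).ofLp) : HiddenEntropy fun L _ => (Ψ L).ofLp := by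
  obtain ⟨L₁, hL₁⟩ := hΨ
  obtain ⟨k, C, L₀, H⟩ := H
  have hd1 : (1 : ℝ) ≤ d := by exact_mod_cast hd
  have hlogd : 0 ≤ Real.log d := Real.log_nonneg hd1
  refine ⟨3 * k + 1, C + 2 * C * (C ^ 2 * Real.log d + 4) + 4 * C, L₀ + L₁ + 3, ?_⟩
  intro L _ hL
  obtain ⟨R, n, m, A, B, c, hdec, hR, hn, hcs⟩ := H L (by omega)
  have hL3 : (3 : ℝ) ≤ L := by
    have : 3 ≤ L := by omega
    exact_mod_cast this
  have hl : 1 ≤ Real.log L := by
    rw [Real.le_log_iff_exp_le (by linarith)]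
    have := Real.exp_one_lt_d9
    linarith
  set l := Real.log L with hldef
  have hlk : 1 ≤ l ^ k := one_le_pow₀ hl
  have hC : 0 ≤ C := by
    by_contra hneg
    push Not at hneg
    have : C * l ^ k < 0 := mul_neg_of_neg_of_pos hneg (by linarith)
    have h0 : (0 : ℝ) ≤ R := Nat.cast_nonneg R
    linarith
  have hle : l ^ k ≤ l ^ (3 * k + 1) := pow_le_pow_right₀ hl (by omega)
  have hle1 : l ^ (k + 1) ≤ l ^ (3 * k + 1) := pow_le_pow_right₀ hl (by omega)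
  have hle3 : l ^ (3 * k) ≤ l ^ (3 * k + 1) := pow_le_pow_right₀ hl (by omega)
  have hR0 : (0 : ℝ) ≤ R := Nat.cast_nonneg R
  have hn0 : (0 : ℝ) ≤ n := Nat.cast_nonneg n
  refine ⟨R, C * l ^ k + 2 * n * (R ^ 2 * Real.log d + 4 * Real.log L) + 4 * n, ?_, ?_,
    cond_one hd (by omega) (hL₁ L (by omega)) hdec hcs (by positivity)⟩
  · refine hR.trans ?_
    calc C * l ^ k ≤ C * l ^ (3 * k + 1) := mul_le_mul_of_nonneg_left hle hC
      _ ≤ (C + 2 * C * (C ^ 2 * Real.log d + 4) + 4 * C) * l ^ (3 * k + 1) := by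
        refine mul_le_mul_of_nonneg_right ?_ (by positivity)
        have : 0 ≤ 2 * C * (C ^ 2 * Real.log d + 4) := by positivity
        linarith
  · rw [← hldef]
    have hR2 : (R : ℝ) ^ 2 ≤ C ^ 2 * l ^ (2 * k) := by
      calc (R : ℝ) ^ 2 ≤ (C * l ^ k) ^ 2 := pow_le_pow_left₀ hR0 hR 2
        _ = C ^ 2 * l ^ (2 * k) := by rw [mul_pow, ← pow_mul, mul_comm k 2]
    have h1 : (R : ℝ) ^ 2 * Real.log d + 4 * l ≤ C ^ 2 * l ^ (2 * k) * Real.log d + 4 * l := by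
      have := mul_le_mul_of_nonneg_right hR2 hlogd
      linarith
    have h2 : 2 * (n : ℝ) * ((R : ℝ) ^ 2 * Real.log d + 4 * l) ≤
        2 * (C * l ^ k) * (C ^ 2 * l ^ (2 * k) * Real.log d + 4 * l) := by
      refine mul_le_mul (by linarith) h1 (by positivity) (by positivity)
    have h3 : 2 * (C * l ^ k) * (C ^ 2 * l ^ (2 * k) * Real.log d + 4 * l) =
        2 * C ^ 3 * Real.log d * l ^ (3 * k) + 8 * C * l ^ (k + 1) := by
      rw [show 3 * k = k + 2 * k by ring, pow_add l k (2 * k), pow_succ]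
      ring
    have h4 : 2 * C ^ 3 * Real.log d * l ^ (3 * k) ≤ 2 * C ^ 3 * Real.log d * l ^ (3 * k + 1) :=
      mul_le_mul_of_nonneg_left hle3 (by positivity)
    have h5 : 8 * C * l ^ (k + 1) ≤ 8 * C * l ^ (3 * k + 1) :=
      mul_le_mul_of_nonneg_left hle1 (by positivity)
    have h6 : C * l ^ k ≤ C * l ^ (3 * k + 1) := mul_le_mul_of_nonneg_left hle hC
    have h7 : (C + 2 * C * (C ^ 2 * Real.log d + 4) + 4 * C) * l ^ (3 * k + 1) =
        C * l ^ (3 * k + 1) + 2 * C ^ 3 * Real.log d * l ^ (3 * k + 1) +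
          8 * C * l ^ (3 * k + 1) + 4 * (C * l ^ (3 * k + 1)) := by ring
    rw [h7]
    linarith

end Pool.Agent.FFG.HE
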