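import Pool.Agent.FFG.EC.Plain

/-!
# Density matrices, their entropies and local deviations in plain terms
-/

open Finset

set_option autoImplicit false

namespace Pool.Agent.FFG.HPlain

open Pool.Agent.PEPS953.Plain Pool.Agent.FFG.EPlain

open scoped ComplexOrder in
/-- `ρ` is a density matrix. -/
structure IsState {n : Type} [Fintype n] (ρ : Matrix n n ℂ) : Prop where
  pos : ρ.PosSemidef
  tr : ρ.trace = 1

open scoped ComplexOrder in
lemma IsState.herm {n : Type} [Fintype n] {ρ : Matrix n n ℂ} (h : IsState ρ) : ρ.IsHermitian :=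
  h.pos.isHermitian

/-- The von Neumann entropy of a density matrix: the sum of `- x log x` over its eigenvalues. -/
noncomputable def ent {n : Type} [Fintype n] [DecidableEq n] {ρ : Matrix n n ℂ}
    (h : ρ.IsHermitian) : ℝ := ∑ i, Real.negMulLog (h.eigenvalues i)

/-- The trace norm of a Hermitian matrix: the sum of the absolute values of its eigenvalues. -/
noncomputable def trNorm {n : Type} [Fintype n] [DecidableEq n] {A : Matrix n n ℂ}
    (h : A.IsHermitian) : ℝ := ∑ i, |h.eigenvalues i|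

/-- The reduced density matrix of `ρ` on the set `X` of sites. -/
noncomputable def red {d L : ℕ} [NeZero L] (ρ : Matrix (Conf d L) (Conf d L) ℂ)
    (X : Finset (Site L)) : Matrix (X → Fin d) (X → Fin d) ℂ := fun a b =>
  ∑ w : {v // v ∉ X} → Fin d, ρ (glue X a w) (glue X b w)

lemma red_isHermitian {d L : ℕ} [NeZero L] {ρ : Matrix (Conf d L) (Conf d L) ℂ}
    (h : ρ.IsHermitian) (X : Finset (Site L)) : (red ρ X).IsHermitian := by
  ext a b
  rw [Matrix.conjTranspose_apply]
  unfold red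
  rw [star_sum]
  exact sum_congr rfl fun w _ => h.apply _ _

/-- The trace distance of the reduced density matrices of `ρ` and of the vector `Ψ` on the set
`X`. -/
noncomputable def dev {d L : ℕ} [NeZero L] (Ψ : Vec d L) {ρ : Matrix (Conf d L) (Conf d L) ℂ}
    (h : ρ.IsHermitian) (X : Finset (Site L)) : ℝ :=
  trNorm ((red_isHermitian h X).sub (rdm_isHermitian Ψ X))

/-- Every density matrix on the torus has entropy at most `κ (1 + D)`, where `D` is the sum over
all boxes of side `R` of its trace distance to `Ψ` on the box. -/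
def FewDefects {d L : ℕ} [NeZero L] (Ψ : Vec d L) (R : ℕ) (κ : ℝ) : Prop :=
  ∀ (ρ : Matrix (Conf d L) (Conf d L) ℂ) (h : IsState ρ),
    ent h.herm ≤ κ * (1 + ∑ v, dev Ψ h.herm (boxAt L R v))

/-- For suitable `k`, `C` and all large `L` the vector `Ψ L` has the property `FewDefects` with `R`
and `κ` at most `C (log L) ^ k`. -/
def HiddenEntropy {d : ℕ} (Ψ : ∀ (L : ℕ) [NeZero L], Vec d L) : Prop :=
  ∃ (k : ℕ) (C : ℝ) (L₀ : ℕ), ∀ (L : ℕ) [NeZero L], L₀ ≤ L →
    ∃ (R : ℕ) (κ : ℝ), (R : ℝ) ≤ C * (Real.log L) ^ k ∧ κ ≤ C * (Real.log L) ^ k ∧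
      FewDefects (Ψ L) R κ

/-- `F`, a sum of orthogonal projections `q v` on the boxes of side `R` at the sites `v`. -/
noncomputable def testSum {d L : ℕ} [NeZero L] {R : ℕ}
    (q : Site L → Matrix (LConf d R) (LConf d R) ℂ) : Matrix (Conf d L) (Conf d L) ℂ :=
  ∑ v, translate L (q v) v

/-- For suitable `k`, `C` and all large `L`, with `x = C (log L) ^ k`, there are `R ≤ x` and
orthogonal projections `q v` on the boxes of side `R` at the sites `v` with `|q v Ψ| ≤ L ^ (- 3)`,
such that `Tr exp (- x F) ≤ exp x` for the sum `F` of the `q v`. -/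
def ParentTests {d : ℕ} (Ψ : ∀ (L : ℕ) [NeZero L], Vec d L) : Prop :=
  ∃ (k : ℕ) (C : ℝ) (L₀ : ℕ), ∀ (L : ℕ) [NeZero L], L₀ ≤ L →
    ∃ (R : ℕ) (q : Site L → Matrix (LConf d R) (LConf d R) ℂ), 0 < R ∧ R ≤ L ∧
      (R : ℝ) ≤ C * (Real.log L) ^ k ∧ (∀ v, (q v).IsHermitian ∧ q v * q v = q v) ∧
      (∀ v, nrm ((translate L (q v) v).mulVec (Ψ L)) ≤ (L : ℝ) ^ (-3 : ℝ)) ∧
      ∀ h : (testSum q).IsHermitian,
        ∑ i, Real.exp (-(C * (Real.log L) ^ k) * h.eigenvalues i) ≤
          Real.exp (C * (Real.log L) ^ k)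

end Pool.Agent.FFG.HPlain
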