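import Pool.Agent.FFG.EC.One
import Pool.Agent.FFG.HE.Plain
import Pool.Agent.FFG.Pos

/-!
# Hidden-entropy criterion: definitions for the proof
-/

open Finset
open scoped InnerProductSpace

set_option autoImplicit false
set_option linter.unusedSectionVars false
set_option linter.unusedVariables false

namespace Pool.Agent.FFG.HE

open Pool.Agent.PEPS953 Pool.Agent.FFG Pool.Agent.FFG.EC

section Abstract

variable {E : Type} [NormedAddCommGroup E] [InnerProductSpace ℂ E] [CompleteSpace E] {ι : Type}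

/-- `exp (- s Q)` for a projection `Q`. -/
noncomputable def pp (Q : E →L[ℂ] E) (s : ℝ) : E →L[ℂ] E :=
  1 + ((Real.exp (-s) - 1 : ℝ) : ℂ) • Q

/-- The product of the `exp (- s Q i)` along a list. -/
noncomputable def tm (Q : ι → E →L[ℂ] E) (s : ℝ) (l : List ι) : E →L[ℂ] E :=
  (l.map fun i => pp (Q i) s).prod

/-- The conjugate of `X` by this product. -/
noncomputable def cj (Q : ι → E →L[ℂ] E) (s : ℝ) : List ι → (E →L[ℂ] E) → (E →L[ℂ] E)
  | [], X => X
  | i :: l, X => pp (Q i) s * cj Q s l X * pp (Q i) (-s)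

/-- The logarithmic derivative of the product, up to the sign. -/
noncomputable def bb (Q : ι → E →L[ℂ] E) (s : ℝ) : List ι → (E →L[ℂ] E)
  | [] => 0
  | i :: l => Q i + pp (Q i) s * bb Q s l * pp (Q i) (-s)

/-- A family of projections `Q i` with colours `c i` and light cones `C i`. -/
structure Cone [Fintype ι] [DecidableEq ι] (Q : ι → E →L[ℂ] E) (c : ι → ℕ) (C : ι → Finset ι)
    (m : ℕ) : Prop where
  proj : ∀ i, IsStarProjection (Q i)
  col : ∀ i j, c i = c j → Q i * Q j = Q j * Q i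
  near : ∀ i j, Q i * Q j ≠ Q j * Q i → i ∈ C j
  step : ∀ i w j, w ∈ C j → c i < c w → Q i * Q w ≠ Q w * Q i → i ∈ C j
  card : ∀ j, (C j).card ≤ m
  dual : ∀ i, (univ.filter fun j => i ∈ C j).card ≤ m

/-- The list is sorted by colours, without repetitions. -/
def Sorted (c : ι → ℕ) (l : List ι) : Prop := l.Pairwise fun a b => c a ≤ c b ∧ a ≠ b

/-- The averaged time evolution of an operator. -/
noncomputable def ch (w : ℕ → ℝ) (K : ℕ) (U X : E →L[ℂ] E) : E →L[ℂ] E :=
  ∑ k ∈ range K, (w k : ℂ) • (star (U ^ k) * X * U ^ k)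

/-- The unitary operator `exp (i t H)`. -/
noncomputable def evo (H : E →L[ℂ] E) (t : ℝ) : E →L[ℂ] E :=
  NormedSpace.exp ((t * Complex.I : ℂ) • H)

/-- Nonnegative weights with sum one. -/
structure Wts (w : ℕ → ℝ) (K : ℕ) : Prop where
  nonneg : ∀ k, 0 ≤ w k
  sum : ∑ k ∈ range K, w k = 1

/-- The weights are a filter: small for the frequencies between `α` and `π`. -/
structure Flt (w : ℕ → ℝ) (K : ℕ) (α δ : ℝ) : Prop extends Wts w K where
  small : ∀ θ : ℝ, α ≤ θ → θ ≤ Real.pi →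
    ‖∑ k ∈ range K, (w k : ℂ) * Complex.exp (-(k * θ * Complex.I))‖ ≤ δ

end Abstract

section Mat

variable {n : Type} [Fintype n] [DecidableEq n]

/-- The averaged time evolution of a density matrix. -/
noncomputable def chd (w : ℕ → ℝ) (K : ℕ) (U ρ : Matrix n n ℂ) : Matrix n n ℂ :=
  ∑ k ∈ range K, (w k : ℂ) • (U ^ k * ρ * (U ^ k).conjTranspose)

/-- The matrix with the eigenvectors of `A` and the eigenvalues `f a`. -/
noncomputable def fnR {A : Matrix n n ℂ} (hA : A.IsHermitian) (f : ℝ → ℝ) : Matrix n n ℂ :=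
  fnc hA fun x => (f x : ℂ)

end Mat

section Torus

variable {d L : ℕ} [NeZero L]

/-- The expectation of the operator `O` in the state `ρ`. -/
noncomputable def ex (ρ : Matrix (Conf d L) (Conf d L) ℂ) (O : Hil d L →L[ℂ] Hil d L) : ℝ :=
  (ρ * mat O).trace.re

end Torus

section Param

/-- The error of the local approximation. -/
noncomputable def eta (L R r n m : ℕ) (J Δ : ℝ) : ℝ :=
  (L : ℝ) ^ 2 * (2 * J * (7 * m / Δ + 1) *
    ((2 * J * ((2 * (R + 2 * r) + 1) ^ 2 : ℕ) * (7 * m / Δ + 1)) ^ n / n.factorial))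

/-- The side of the boxes on which the tests act. -/
def sd (R r n : ℕ) : ℕ := 2 * (n * (R + 2 * r) + r) + 1

/-- The conditions on the parameters `m`, `n` of the proof. -/
structure HParam (d r L R : ℕ) (J Δ : ℝ) (m n : ℕ) : Prop where
  n_pos : 0 < n
  side : sd R r n ≤ L
  loc : 2 * (L : ℝ) ^ 2 * eta L R r n m J Δ ≤ 1
  tests : 4 * ((d : ℝ) ^ (4 * R ^ 2)) * (L : ℝ) ^ 5 * (eta L R r n m J Δ + (1 / 2) ^ m) ≤ 1

end Param

end Pool.Agent.FFG.HE
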