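import Pool.Agent.FFG.HE.Defs

/-!
# Hidden-entropy criterion: derivative of the ordered product
-/

open Finset
open scoped InnerProductSpace

set_option autoImplicit false
set_option linter.unusedSectionVars false
set_option linter.unusedVariables false

namespace Pool.Agent.FFG.HE

open Pool.Agent.PEPS953 Pool.Agent.FFG Pool.Agent.FFG.EC

variable {E : Type} [NormedAddCommGroup E] [InnerProductSpace ℂ E] [CompleteSpace E] {ι : Type}

/- PROOF. Induction on `l = i :: l'`: for the element `i` the list `takeWhile (· ≠ i)` is empty; for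
`j ∈ l'`, `j ≠ i`, it is `i :: l'.takeWhile (· ≠ j)`. (`cj Q s _ X` and conjugation are linear.) -/
theorem bb_eq [DecidableEq ι] (Q : ι → E →L[ℂ] E) (s : ℝ) (l : List ι) (hl : l.Nodup) :
    bb Q s l = (l.map fun j => cj Q s (l.takeWhile fun i => i ≠ j) (Q j)).sum := by
  induction l with
  | nil => rfl
  | cons i l ih =>
    rw [List.nodup_cons] at hl
    rw [List.map_cons, List.sum_cons]
    have h1 : (i :: l).takeWhile (fun k => decide (k ≠ i)) = [] := by
      rw [List.takeWhile_cons]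
      simp
    have h2 : (l.map fun j => cj Q s ((i :: l).takeWhile fun k => k ≠ j) (Q j)) =
        l.map fun j => pp (Q i) s * (cj Q s (l.takeWhile fun k => k ≠ j) (Q j) *
          pp (Q i) (-s)) := by
      refine List.map_congr_left fun j hj => ?_
      have hij : i ≠ j := fun h => hl.1 (h ▸ hj)
      have h3 : (i :: l).takeWhile (fun k => decide (k ≠ j)) =
          i :: l.takeWhile (fun k => decide (k ≠ j)) := by
        rw [List.takeWhile_cons]
        simp [hij]
      rw [h3]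
      show pp (Q i) s * cj Q s (l.takeWhile fun k => k ≠ j) (Q j) * pp (Q i) (-s) = _
      rw [mul_assoc]
    rw [h1, h2, List.sum_map_mul_left, List.sum_map_mul_right, ← ih hl.2, ← mul_assoc]
    rfl

private lemma pp_neg_mul {Q : E →L[ℂ] E} (hQ : IsStarProjection Q) (s : ℝ) :
    pp Q (-s) * pp Q s = 1 := by
  have h : Q * Q = Q := hQ.isIdempotentElem
  have h1 : ((Real.exp (-(-s)) - 1 : ℝ) : ℂ) + ((Real.exp (-s) - 1 : ℝ) : ℂ) +
      ((Real.exp (-(-s)) - 1 : ℝ) : ℂ) * ((Real.exp (-s) - 1 : ℝ) : ℂ) = 0 := by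
    have h2 : Real.exp (-(-s)) * Real.exp (-s) = 1 := by
      rw [← Real.exp_add]
      simp
    have h3 : (Real.exp (-(-s)) - 1) + (Real.exp (-s) - 1) +
      (Real.exp (-(-s)) - 1) * (Real.exp (-s) - 1) = 0 := by linear_combination h2
    exact_mod_cast h3
  unfold pp
  rw [mul_add, add_mul, add_mul, one_mul, mul_one, one_mul, smul_mul_smul_comm, h]
  calc 1 + ((Real.exp (-(-s)) - 1 : ℝ) : ℂ) • Q + (((Real.exp (-s) - 1 : ℝ) : ℂ) • Q +
        (((Real.exp (-(-s)) - 1 : ℝ) : ℂ) * ((Real.exp (-s) - 1 : ℝ) : ℂ)) • Q)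
      = 1 + (((Real.exp (-(-s)) - 1 : ℝ) : ℂ) + ((Real.exp (-s) - 1 : ℝ) : ℂ) +
      ((Real.exp (-(-s)) - 1 : ℝ) : ℂ) * ((Real.exp (-s) - 1 : ℝ) : ℂ)) • Q := by
        module
    _ = 1 := by rw [h1, zero_smul, add_zero]

private lemma mul_pp {Q : E →L[ℂ] E} (hQ : IsStarProjection Q) (s : ℝ) :
    Q * pp Q s = ((Real.exp (-s) : ℝ) : ℂ) • Q := by
  have h : Q * Q = Q := hQ.isIdempotentElem
  unfold pp
  rw [mul_add, mul_one, mul_smul_comm, h]
  push_cast
  module

/- PROOF. `tm Q s l * X * W = cj Q s l X` with `W` the product of the `pp (Q i) (-s)` in the reversed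
order, and `W * tm Q s l = 1`. -/
theorem cj_mul_tm {Q : ι → E →L[ℂ] E} (hQ : ∀ i, IsStarProjection (Q i)) (s : ℝ) (l : List ι)
    (X : E →L[ℂ] E) : cj Q s l X * tm Q s l = tm Q s l * X := by
  induction l with
  | nil => simp [cj, tm]
  | cons i l ih =>
    have h1 : tm Q s (i :: l) = pp (Q i) s * tm Q s l := by
      simp [tm]
    have h2 : cj Q s (i :: l) X = pp (Q i) s * cj Q s l X * pp (Q i) (-s) := rfl
    rw [h1, h2]
    calc pp (Q i) s * cj Q s l X * pp (Q i) (-s) * (pp (Q i) s * tm Q s l)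
        = pp (Q i) s * cj Q s l X * (pp (Q i) (-s) * pp (Q i) s) * tm Q s l := by
          simp only [mul_assoc]
      _ = pp (Q i) s * (cj Q s l X * tm Q s l) := by
          rw [pp_neg_mul (hQ i), mul_one, mul_assoc]
      _ = pp (Q i) s * tm Q s l * X := by rw [ih, mul_assoc]

private lemma hasDerivAt_pp {Q : E →L[ℂ] E} (hQ : IsStarProjection Q) (s : ℝ) :
    HasDerivAt (fun s => pp Q s) (-(Q * pp Q s)) s := by
  have h1 : HasDerivAt (fun s : ℝ => Real.exp (-s) - 1) (-Real.exp (-s)) s := by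
    have h0 := ((hasDerivAt_neg s).exp).sub_const 1
    simpa using h0
  have h2 : HasDerivAt (fun s : ℝ => ((Real.exp (-s) - 1 : ℝ) : ℂ)) ((-Real.exp (-s) : ℝ) : ℂ) s :=
    h1.ofReal_comp
  have h3 : HasDerivAt (fun s : ℝ => ((Real.exp (-s) - 1 : ℝ) : ℂ) • Q)
      (((-Real.exp (-s) : ℝ) : ℂ) • Q) s := h2.smul_const Q
  have h4 := h3.const_add (1 : E →L[ℂ] E)
  rw [mul_pp hQ]
  have h5 : -(((Real.exp (-s) : ℝ) : ℂ) • Q) = ((-Real.exp (-s) : ℝ) : ℂ) • Q := by
    rw [Complex.ofReal_neg, neg_smul]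
  rw [h5]
  exact h4

/- PROOF. `(pp Q s)' = - exp (-s) Q = - Q * pp Q s` for a projection `Q`. Induction on
`l = i :: l'`, `M = tm Q s l = P M'`, `P = pp (Q i) s`:
`(P M')' = - Q i P M' - P (bb l') M' = - (Q i + P (bb l') pp (Q i) (-s)) P M'`. -/
theorem hasDerivAt_tm {Q : ι → E →L[ℂ] E} (hQ : ∀ i, IsStarProjection (Q i)) (l : List ι)
    (s : ℝ) : HasDerivAt (fun s => tm Q s l) (-(bb Q s l * tm Q s l)) s := by
  induction l with
  | nil =>
    have h1 : (fun s : ℝ => tm Q s []) = fun _ => (1 : E →L[ℂ] E) := by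
      funext s
      simp [tm]
    have h2 : -(bb Q s [] * tm Q s []) = 0 := by
      simp [bb]
    rw [h1, h2]
    exact hasDerivAt_const s _
  | cons i l ih =>
    have h1 : (fun s : ℝ => tm Q s (i :: l)) = fun s => pp (Q i) s * tm Q s l := by
      funext s
      simp [tm]
    have h1' : tm Q s (i :: l) = pp (Q i) s * tm Q s l := congrFun h1 s
    have h2 : bb Q s (i :: l) = Q i + pp (Q i) s * bb Q s l * pp (Q i) (-s) := rfl
    have h3 := (hasDerivAt_pp (hQ i) s).mul ih
    rw [h1, h1', h2]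
    refine h3.congr_deriv ?_
    have h4 : pp (Q i) s * bb Q s l * pp (Q i) (-s) * (pp (Q i) s * tm Q s l) =
        pp (Q i) s * (bb Q s l * tm Q s l) := by
      calc pp (Q i) s * bb Q s l * pp (Q i) (-s) * (pp (Q i) s * tm Q s l)
          = pp (Q i) s * bb Q s l * (pp (Q i) (-s) * pp (Q i) s) * tm Q s l := by
            simp only [mul_assoc]
        _ = _ := by rw [pp_neg_mul (hQ i), mul_one, mul_assoc]
    rw [add_mul, h4, neg_mul, mul_neg, mul_assoc]
    abel

end Pool.Agent.FFG.HE
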