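import Pool.Agent.FFG.HE.Sign
import Pool.Agent.FFG.HE.Split

/-!
# Hidden-entropy criterion: the deviation of the averaged state
-/

open Finset
open scoped InnerProductSpace

set_option autoImplicit false
set_option linter.unusedSectionVars false
set_option linter.unusedVariables false

namespace Pool.Agent.FFG.HE

open Pool.Agent.PEPS953 Pool.Agent.FFG Pool.Agent.FFG.EC Pool.Agent.FFG.HPlain

open Pool.Agent.FFG.EPlain (glue rdm boxAt)

section Abstract

variable {E : Type} [NormedAddCommGroup E] [InnerProductSpace ℂ E] [CompleteSpace E]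

private theorem norm_one_leE : ‖(1 : E →L[ℂ] E)‖ ≤ 1 :=
  ContinuousLinearMap.norm_id_le

private theorem norm_le_one_ofE {T : E →L[ℂ] E} (h : ‖star T * T‖ ≤ 1) : ‖T‖ ≤ 1 := by
  rw [CStarRing.norm_star_mul_self] at h
  have h0 := norm_nonneg T
  nlinarith

private theorem norm_le_one_of_proj {T P : E →L[ℂ] E} (h : star T * T = P)
    (hP : star P * P = P) : ‖T‖ ≤ 1 := by
  apply norm_le_one_ofE
  rw [h]
  have h3 : ‖P‖ * ‖P‖ = ‖P‖ := by
    rw [← CStarRing.norm_star_mul_self, hP]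
  have h0 := norm_nonneg P
  nlinarith

private theorem norm_pow_leE {U : E →L[ℂ] E} (hU : star U * U = 1) (k : ℕ) :
    ‖U ^ k‖ ≤ 1 := by
  have h1 : ‖U‖ ≤ 1 := norm_le_one_ofE (by rw [hU]; exact norm_one_leE)
  induction k with
  | zero =>
    rw [pow_zero]
    exact norm_one_leE
  | succ k ih =>
    rw [pow_succ]
    refine (norm_mul_le _ _).trans ?_
    exact mul_le_one₀ ih (norm_nonneg _) h1

private theorem norm_ch_leE {w : ℕ → ℝ} {K : ℕ} (hw : Wts w K) {U : E →L[ℂ] E}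
    (hU : star U * U = 1) (O : E →L[ℂ] E) : ‖ch w K U O‖ ≤ ‖O‖ := by
  unfold ch
  have h1 : ∀ k ∈ range K, ‖(w k : ℂ) • (star (U ^ k) * O * U ^ k)‖ ≤ w k * ‖O‖ := by
    intro k _
    rw [norm_smul, Complex.norm_real, Real.norm_of_nonneg (hw.nonneg k)]
    refine mul_le_mul_of_nonneg_left ?_ (hw.nonneg k)
    have h2 := norm_pow_leE hU k
    calc ‖star (U ^ k) * O * U ^ k‖ ≤ ‖star (U ^ k) * O‖ * ‖U ^ k‖ := norm_mul_le _ _
      _ ≤ ‖star (U ^ k) * O‖ * 1 := mul_le_mul_of_nonneg_left h2 (norm_nonneg _)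
      _ = ‖star (U ^ k) * O‖ := mul_one _
      _ ≤ ‖star (U ^ k)‖ * ‖O‖ := norm_mul_le _ _
      _ ≤ 1 * ‖O‖ := by
          rw [norm_star]
          exact mul_le_mul_of_nonneg_right h2 (norm_nonneg _)
      _ = ‖O‖ := one_mul _
  refine (norm_sum_le _ _).trans ((sum_le_sum h1).trans ?_)
  rw [← sum_mul, hw.sum, one_mul]

private theorem ch_sum {w : ℕ → ℝ} {K : ℕ} {U : E →L[ℂ] E} {ι : Type}
    (s : Finset ι) (O : ι → E →L[ℂ] E) :
    ch w K U (∑ i ∈ s, O i) = ∑ i ∈ s, ch w K U (O i) := by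
  unfold ch
  rw [sum_comm]
  refine sum_congr rfl fun k _ => ?_
  rw [mul_sum, sum_mul, smul_sum]

private theorem ch_smul {w : ℕ → ℝ} {K : ℕ} {U : E →L[ℂ] E} (c : ℂ)
    (O : E →L[ℂ] E) : ch w K U (c • O) = c • ch w K U O := by
  unfold ch
  rw [smul_sum]
  refine sum_congr rfl fun k _ => ?_
  rw [mul_smul_comm, smul_mul_assoc, smul_comm]

private theorem star_ch {w : ℕ → ℝ} {K : ℕ} {U : E →L[ℂ] E}
    (O : E →L[ℂ] E) : star (ch w K U O) = ch w K U (star O) := by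
  unfold ch
  rw [star_sum]
  refine sum_congr rfl fun k _ => ?_
  rw [star_smul, star_mul, star_mul, star_star, mul_assoc]
  congr 1
  exact Complex.conj_ofReal _

private theorem selfAdj_sub {A : E →L[ℂ] E} {c : ℂ} (hA : star A = A) (hc : star c = c) :
    IsSelfAdjoint (A - c • 1) := by
  show star (A - c • 1) = A - c • 1
  rw [star_sub, star_smul, star_one, hc, hA]

private theorem sum_smul_one {κ : Type} [Fintype κ] (c : κ → κ → ℂ) :
    (∑ a, ∑ b, c a b) • (1 : E →L[ℂ] E) = ∑ a, ∑ b, c a b • (1 : E →L[ℂ] E) := by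
  rw [sum_smul]
  exact sum_congr rfl fun a _ => sum_smul

private theorem norm_sub_smul_le {A : E →L[ℂ] E} {c : ℂ} (hA : ‖A‖ ≤ 1) (hc : ‖c‖ ≤ 1) :
    ‖A - c • 1‖ ≤ 2 := by
  refine (norm_sub_le _ _).trans ?_
  have h5 : ‖c • (1 : E →L[ℂ] E)‖ ≤ 1 := by
    rw [norm_smul]
    exact mul_le_one₀ hc (norm_nonneg _) norm_one_leE
  linarith

private theorem inner_self_real {E' : Type} [NormedAddCommGroup E'] [InnerProductSpace ℂ E']
    [CompleteSpace E'] {A : E' →L[ℂ] E'} (hA : star A = A) (x : E') :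
    star ⟪x, A x⟫_ℂ = ⟪x, A x⟫_ℂ := by
  have h4 : (starRingEnd ℂ) ⟪x, A x⟫_ℂ = ⟪A x, x⟫_ℂ := inner_conj_symm _ _
  have h5 : ⟪A x, x⟫_ℂ = ⟪x, A x⟫_ℂ := by
    conv_lhs => rw [← hA]
    rw [ContinuousLinearMap.star_eq_adjoint, ContinuousLinearMap.adjoint_inner_left]
  exact h4.trans h5

private theorem decomp {κ : Type} [Fintype κ] (c : κ → κ → ℂ) (A : κ → κ → E →L[ℂ] E)
    (t : κ → κ → ℂ) (R : E →L[ℂ] E) :
    ((∑ a, ∑ b, c a b • A a b) - (∑ a, ∑ b, c a b * t a b) • 1) * R =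
      ∑ a, ∑ b, c a b • ((A a b - t a b • 1) * R) := by
  rw [sum_smul_one, ← sum_sub_distrib, sum_mul]
  refine sum_congr rfl fun a _ => ?_
  rw [← sum_sub_distrib, sum_mul]
  refine sum_congr rfl fun b _ => ?_
  rw [← smul_mul_assoc, smul_sub, smul_smul]

private theorem norm_sum_sum_le {κ : Type} [Fintype κ] (c : κ → κ → ℂ)
    (A : κ → κ → E →L[ℂ] E) (hc : ∀ a b, ‖c a b‖ ≤ 1) {θ : ℝ} (hA : ∀ a b, ‖A a b‖ ≤ θ) :
    ‖∑ a, ∑ b, c a b • A a b‖ ≤ (Fintype.card κ : ℝ) ^ 2 * θ := by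
  refine (norm_sum_le _ _).trans ?_
  have h4 : ∀ a ∈ (univ : Finset κ), ‖∑ b, c a b • A a b‖ ≤ (Fintype.card κ : ℝ) * θ := by
    intro a _
    refine (norm_sum_le _ _).trans ?_
    have h5 : ∀ b ∈ (univ : Finset κ), ‖c a b • A a b‖ ≤ θ := by
      intro b _
      rw [norm_smul]
      have h6 := hc a b
      have h7 := hA a b
      have h8 := norm_nonneg (A a b)
      have h9 := norm_nonneg (c a b)
      nlinarith
    refine (sum_le_sum h5).trans ?_
    rw [sum_const, nsmul_eq_mul, card_univ]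
  refine (sum_le_sum h4).trans ?_
  rw [sum_const, nsmul_eq_mul, card_univ]
  exact le_of_eq (by ring)

end Abstract

variable {d L : ℕ} [NeZero L]

theorem norm_emb_sign (X : Finset (Site L)) {S : Matrix (X → Fin d) (X → Fin d) ℂ}
    (hS : S.IsHermitian) (hS2 : S * S = 1) : ‖emb X S‖ ≤ 1 := by
  apply norm_le_one_ofE
  rw [star_emb, hS.eq, ← emb_mul, hS2, emb_one]
  exact norm_one_leE

theorem norm_emb_single (X : Finset (Site L)) (a b : X → Fin d) :
    ‖emb X (Matrix.single a b (1 : ℂ))‖ ≤ 1 := by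
  apply norm_le_one_of_proj (P := emb X (Matrix.single b b (1 : ℂ)))
  · rw [star_emb, ← emb_mul, Matrix.conjTranspose_single, star_one,
      Matrix.single_mul_single_same, mul_one]
  · rw [star_emb, ← emb_mul, Matrix.conjTranspose_single, star_one,
      Matrix.single_mul_single_same, mul_one]

theorem norm_ch_le {w : ℕ → ℝ} {K : ℕ} (hw : Wts w K) {U : Hil d L →L[ℂ] Hil d L}
    (hU : star U * U = 1) (O : Hil d L →L[ℂ] Hil d L) : ‖ch w K U O‖ ≤ ‖O‖ :=
  norm_ch_leE hw hU O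

private theorem mat_add' (A B : Hil d L →L[ℂ] Hil d L) : mat (A + B) = mat A + mat B :=
  map_add _ _ _

private theorem mat_sub' (A B : Hil d L →L[ℂ] Hil d L) : mat (A - B) = mat A - mat B :=
  map_sub _ _ _

private theorem ex_add (ρ : Matrix (Conf d L) (Conf d L) ℂ) (A B : Hil d L →L[ℂ] Hil d L) :
    ex ρ (A + B) = ex ρ A + ex ρ B := by
  unfold ex
  rw [mat_add', mul_add, Matrix.trace_add, Complex.add_re]

private theorem mat_smul_one (c : ℂ) :
    mat (c • (1 : Hil d L →L[ℂ] Hil d L)) = c • (1 : Matrix (Conf d L) (Conf d L) ℂ) := by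
  unfold mat
  rw [map_smul, map_one]

theorem dev_le {Ψ : Hil d L} (hΨ : ‖Ψ‖ = 1) (X : Finset (Site L)) {w : ℕ → ℝ} {K : ℕ}
    (hw : Wts w K) {U U' : Hil d L →L[ℂ] Hil d L} (hU : star U * U = 1) (hU' : star U' * U' = 1)
    {η : ℝ} (hη0 : 0 ≤ η)
    (hη : ∀ O : Hil d L →L[ℂ] Hil d L, LocalOn X O → ‖ch w K U O - ch w K U' O‖ ≤ η * ‖O‖)
    {Q : Hil d L →L[ℂ] Hil d L} (hQ : IsStarProjection Q) {θ : ℝ}
    (hθ : ∀ a b : X → Fin d, ‖(ch w K U' (emb X (Matrix.single a b (1 : ℂ))) -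
      ⟪Ψ, emb X (Matrix.single a b (1 : ℂ)) Ψ⟫_ℂ • 1) * (1 - Q)‖ ≤ θ)
    {ρ : Matrix (Conf d L) (Conf d L) ℂ} (hρ : IsState ρ)
    (h : (chd w K (mat U) ρ).IsHermitian) :
    dev Ψ.ofLp h X ≤ η + 2 * ((Fintype.card (X → Fin d) : ℝ) ^ 2 * θ) + 2 * ex ρ Q := by
  obtain ⟨S, hS, hS2, hSe, hSt⟩ :=
    exists_sign ((red_isHermitian h X).sub (Pool.Agent.FFG.EPlain.rdm_isHermitian Ψ.ofLp X))
  set E := emb X S with hE
  set s₀ : ℂ := ⟪Ψ, E Ψ⟫_ℂ with hs₀
  set B : Hil d L →L[ℂ] Hil d L := ch w K U' E - s₀ • 1 with hB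
  have hEn : ‖E‖ ≤ 1 := norm_emb_sign X hS hS2
  have hEs : star E = E := by
    rw [hE, star_emb, hS.eq]
  have hdev : dev Ψ.ofLp h X = (ρ * mat (ch w K U E)).trace.re - s₀.re := by
    unfold dev
    rw [hSt, Matrix.sub_mul, Matrix.trace_sub, Complex.sub_re, trace_red, trace_chd, hs₀, hE,
      inner_emb, Matrix.trace_mul_comm S]
  have h1 : ch w K U E = (ch w K U E - ch w K U' E) + (B + s₀ • 1) := by
    rw [hB]
    abel
  have h2 : dev Ψ.ofLp h X = ex ρ (ch w K U E - ch w K U' E) + ex ρ B := by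
    have h3 : (ρ * mat (ch w K U E)).trace.re = ex ρ (ch w K U E) := rfl
    rw [hdev, h3, h1, ex_add, ex_add]
    have h4 : ex ρ (s₀ • 1) = s₀.re := by
      unfold ex
      rw [mat_smul_one, Matrix.mul_smul, mul_one, Matrix.trace_smul, hρ.tr, smul_eq_mul, mul_one]
    rw [h4]
    have h5 : ch w K U E - ch w K U' E + (B + s₀ • 1) - ch w K U' E =
      ch w K U E - ch w K U' E + (B + s₀ • 1) - ch w K U' E := rfl
    rw [← h1]
    ring
  have h3 : ex ρ (ch w K U E - ch w K U' E) ≤ η := by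
    refine (ex_le hρ _).trans ((hη E (emb_localOn X S)).trans ?_)
    nlinarith [norm_nonneg E]
  have hs₀r : star s₀ = s₀ := inner_self_real hEs Ψ
  have hch : star (ch w K U' E) = ch w K U' E := by
    rw [star_ch, hEs]
  have hBs : IsSelfAdjoint B := selfAdj_sub hch hs₀r
  have hs₀n : ‖s₀‖ ≤ 1 := by
    rw [hs₀]
    refine (norm_inner_le_norm _ _).trans ?_
    rw [hΨ, one_mul]
    refine (E.le_opNorm Ψ).trans ?_
    rw [hΨ, mul_one]
    exact hEn
  have hBn : ‖B‖ ≤ 2 := norm_sub_smul_le ((norm_ch_le hw hU' E).trans hEn) hs₀n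
  have hSsum : S = ∑ a, ∑ b, S a b • Matrix.single a b (1 : ℂ) := by
    conv_lhs => rw [Matrix.matrix_eq_sum_single S]
    refine sum_congr rfl fun a _ => sum_congr rfl fun b _ => ?_
    rw [Matrix.smul_single, smul_eq_mul, mul_one]
  have hEsum : E = ∑ a, ∑ b, S a b • emb X (Matrix.single a b (1 : ℂ)) := by
    rw [hE]
    conv_lhs => rw [hSsum]
    rw [emb_sum]
    refine sum_congr rfl fun a _ => ?_
    rw [emb_sum]
    exact sum_congr rfl fun b _ => emb_smul X _ _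
  have h5 : s₀ = ∑ a, ∑ b, S a b * ⟪Ψ, emb X (Matrix.single a b (1 : ℂ)) Ψ⟫_ℂ := by
    rw [hs₀, hEsum]
    simp only [_root_.sum_apply, _root_.smul_apply, inner_sum, inner_smul_right]
  have h6 : ch w K U' E = ∑ a, ∑ b, S a b • ch w K U' (emb X (Matrix.single a b (1 : ℂ))) := by
    rw [hEsum, ch_sum]
    refine sum_congr rfl fun a _ => ?_
    rw [ch_sum]
    exact sum_congr rfl fun b _ => ch_smul _ _
  have hBQ : ‖B * (1 - Q)‖ ≤ (Fintype.card (X → Fin d) : ℝ) ^ 2 * θ := by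
    rw [hB, h6, h5]
    rw [decomp (fun a b => S a b) (fun a b => ch w K U' (emb X (Matrix.single a b (1 : ℂ))))
      (fun a b => ⟪Ψ, emb X (Matrix.single a b (1 : ℂ)) Ψ⟫_ℂ) (1 - Q)]
    exact norm_sum_sum_le _ _ hSe hθ
  have h4 := ex_split hρ hBs hQ hBQ hBn
  rw [h2]
  linarith

end Pool.Agent.FFG.HE
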