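import Pool.Agent.FFG.HE.Defs
import Pool.Agent.FFG.EC.Fnc

/-!
# Hidden-entropy criterion: entropies of averaged states
-/

open Finset
open scoped InnerProductSpace

set_option autoImplicit false
set_option linter.unusedSectionVars false
set_option linter.unusedVariables false

namespace Pool.Agent.FFG.HE

open Pool.Agent.PEPS953 Pool.Agent.FFG Pool.Agent.FFG.EC Pool.Agent.FFG.HPlain

variable {n : Type} [Fintype n] [DecidableEq n]

/-- the powers of a unitary matrix are unitary -/
private lemma ent_pow {U : Matrix n n ℂ} (hU : U.conjTranspose * U = 1) (k : ℕ) :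
    U ^ k ∈ Matrix.unitaryGroup n ℂ :=
  pow_mem (Matrix.mem_unitaryGroup_iff'.2 hU) k

private lemma ent_row {T : Matrix n n ℂ} (hT : T ∈ Matrix.unitaryGroup n ℂ) (j : n) :
    ∑ i, ‖T j i‖ ^ 2 = 1 := by
  have h1 := congrFun (congrFun (Matrix.mem_unitaryGroup_iff.1 hT) j) j
  rw [Matrix.mul_apply, Matrix.one_apply_eq] at h1
  have h2 : ∀ i, T j i * star T i j = ((‖T j i‖ ^ 2 : ℝ) : ℂ) := by
    intro i
    rw [Matrix.star_apply, Complex.star_def, Complex.mul_conj']
    push_cast
    rfl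
  simp only [h2] at h1
  exact_mod_cast h1

private lemma ent_col {T : Matrix n n ℂ} (hT : T ∈ Matrix.unitaryGroup n ℂ) (i : n) :
    ∑ j, ‖T j i‖ ^ 2 = 1 := by
  have h1 := congrFun (congrFun (Matrix.mem_unitaryGroup_iff'.1 hT) i) i
  rw [Matrix.mul_apply, Matrix.one_apply_eq] at h1
  have h2 : ∀ j, star T i j * T j i = ((‖T j i‖ ^ 2 : ℝ) : ℂ) := by
    intro j
    rw [Matrix.star_apply, Complex.star_def, mul_comm, Complex.mul_conj']
    push_cast
    rfl
  simp only [h2] at h1
  exact_mod_cast h1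

open scoped ComplexOrder in
private lemma ent_pos (V : Matrix n n ℂ) {d : n → ℝ} (hd : ∀ i, 0 ≤ d i) :
    (V * Matrix.diagonal (fun i => (d i : ℂ)) * V.conjTranspose).PosSemidef := by
  have h1 : (Matrix.diagonal fun i => ((d i : ℝ) : ℂ)).PosSemidef := by
    rw [Matrix.posSemidef_diagonal_iff]
    intro i
    exact_mod_cast hd i
  exact h1.mul_mul_conjTranspose_same _

open scoped ComplexOrder in
private lemma ent_pos_sum {w : ℕ → ℝ} {K : ℕ} (hw : ∀ k, 0 ≤ w k) (U : Matrix n n ℂ)
    {ρ : Matrix n n ℂ} (hρ : ρ.PosSemidef) :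
    (∑ k ∈ range K, (w k : ℂ) • (U ^ k * ρ * (U ^ k).conjTranspose)).PosSemidef := by
  refine Matrix.posSemidef_sum _ fun k _ => ?_
  refine Matrix.PosSemidef.smul ?_ ?_
  · exact hρ.mul_mul_conjTranspose_same _
  · exact_mod_cast hw k

private lemma ent_diag (T : Matrix n n ℂ) (d : n → ℝ) (j : n) :
    (T * Matrix.diagonal (fun i => (d i : ℂ)) * star T) j j =
      ((∑ i, ‖T j i‖ ^ 2 * d i : ℝ) : ℂ) := by
  rw [Matrix.mul_apply]
  push_cast
  refine sum_congr rfl fun i _ => ?_
  rw [Matrix.mul_diagonal, Matrix.star_apply, Complex.star_def, ← Complex.mul_conj']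
  ring

/- PROOF. `fnR hA f` is the conjugate of a nonnegative diagonal matrix by a unitary matrix. -/
theorem fnR_state {A : Matrix n n ℂ} (hA : A.IsHermitian) {f : ℝ → ℝ}
    (hf : ∀ i, 0 ≤ f (hA.eigenvalues i)) (hs : ∑ i, f (hA.eigenvalues i) = 1) :
    IsState (fnR hA f) := by
  have hV : (hA.eigenvectorUnitary : Matrix n n ℂ) ∈ Matrix.unitaryGroup n ℂ :=
    hA.eigenvectorUnitary.2
  constructor
  · unfold fnR fnc
    rw [Matrix.star_eq_conjTranspose]
    exact ent_pos _ hf
  · unfold fnR fnc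
    rw [Matrix.trace_mul_comm, ← Matrix.mul_assoc, Matrix.mem_unitaryGroup_iff'.1 hV,
      Matrix.one_mul, Matrix.trace_diagonal]
    change ∑ i, ((f (hA.eigenvalues i) : ℝ) : ℂ) = 1
    exact_mod_cast hs

/- PROOF. Convex combination of unitary conjugates of `ρ`. -/
theorem chd_state {w : ℕ → ℝ} {K : ℕ} (hw : Wts w K) {U : Matrix n n ℂ}
    (hU : U.conjTranspose * U = 1) {ρ : Matrix n n ℂ} (hρ : IsState ρ) :
    IsState (chd w K U ρ) := by
  constructor
  · exact ent_pos_sum hw.nonneg U hρ.pos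
  · unfold chd
    rw [Matrix.trace_sum]
    have h1 : ∀ k ∈ range K, ((w k : ℂ) • (U ^ k * ρ * (U ^ k).conjTranspose)).trace =
        (w k : ℂ) := by
      intro k _
      have h2 := Matrix.mem_unitaryGroup_iff'.1 (ent_pow hU k)
      rw [Matrix.star_eq_conjTranspose] at h2
      rw [Matrix.trace_smul, Matrix.trace_mul_comm, ← Matrix.mul_assoc, h2, Matrix.one_mul,
        hρ.tr, smul_eq_mul, mul_one]
    rw [sum_congr rfl h1]
    exact_mod_cast hw.sum

/- PROOF. Let `μ j`, `e j` be the eigenvalues and the orthonormal eigenvectors of `chd ..`, `v i` the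
eigenvectors of `A`. `μ j = ⟪e j, (chd ..) e j⟫ = ∑ i, B j i * f (a i)` with
`B j i = ∑ k < K, w k * |⟪v i, (U ^ k)^* e j⟫| ^ 2 ≥ 0`, whose rows and columns have the sum `1`
(Parseval; `U ^ k` is unitary, `∑ w k = 1`). By concavity (`Real.concaveOn_negMulLog`,
`ConcaveOn.le_map_sum`) `negMulLog (μ j) ≥ ∑ i, B j i * negMulLog (f (a i))`; sum over `j`. -/
theorem ent_chd_ge {A : Matrix n n ℂ} (hA : A.IsHermitian) {f : ℝ → ℝ}
    (hf : ∀ i, 0 ≤ f (hA.eigenvalues i)) {w : ℕ → ℝ} {K : ℕ} (hw : Wts w K) {U : Matrix n n ℂ}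
    (hU : U.conjTranspose * U = 1) (h : (chd w K U (fnR hA f)).IsHermitian) :
    ∑ i, Real.negMulLog (f (hA.eigenvalues i)) ≤ ent h := by
  have hV : (hA.eigenvectorUnitary : Matrix n n ℂ) ∈ Matrix.unitaryGroup n ℂ :=
    hA.eigenvectorUnitary.2
  have hW : (h.eigenvectorUnitary : Matrix n n ℂ) ∈ Matrix.unitaryGroup n ℂ :=
    h.eigenvectorUnitary.2
  set V : Matrix n n ℂ := (hA.eigenvectorUnitary : Matrix n n ℂ) with hVdef
  set W : Matrix n n ℂ := (h.eigenvectorUnitary : Matrix n n ℂ) with hWdef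
  let T : ℕ → Matrix n n ℂ := fun k => star W * U ^ k * V
  have hT : ∀ k, T k ∈ Matrix.unitaryGroup n ℂ := fun k =>
    mul_mem (mul_mem (Unitary.star_mem hW) (ent_pow hU k)) hV
  let B : n → n → ℝ := fun j i => ∑ k ∈ range K, w k * ‖T k j i‖ ^ 2
  have hB0 : ∀ j i, 0 ≤ B j i := fun j i =>
    sum_nonneg fun k _ => mul_nonneg (hw.nonneg k) (sq_nonneg _)
  have hBrow : ∀ j, ∑ i, B j i = 1 := by
    intro j
    simp only [B]
    rw [sum_comm]
    rw [← hw.sum]
    refine sum_congr rfl fun k _ => ?_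
    rw [← mul_sum, ent_row (hT k), mul_one]
  have hBcol : ∀ i, ∑ j, B j i = 1 := by
    intro i
    simp only [B]
    rw [sum_comm]
    rw [← hw.sum]
    refine sum_congr rfl fun k _ => ?_
    rw [← mul_sum, ent_col (hT k), mul_one]
  -- the eigenvalues
  have hμ : ∀ j, h.eigenvalues j = ∑ i, B j i * f (hA.eigenvalues i) := by
    intro j
    have h1 : Matrix.diagonal (fun i => (h.eigenvalues i : ℂ)) =
        star W * chd w K U (fnR hA f) * W := by
      have h2 : W * Matrix.diagonal (fun i => (h.eigenvalues i : ℂ)) * star W =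
          chd w K U (fnR hA f) := fnc_id h
      have h3 := Matrix.mem_unitaryGroup_iff'.1 hW
      calc Matrix.diagonal (fun i => (h.eigenvalues i : ℂ))
          = (star W * W) * Matrix.diagonal (fun i => (h.eigenvalues i : ℂ)) * (star W * W) := by
            rw [h3, Matrix.one_mul, Matrix.mul_one]
        _ = star W * (W * Matrix.diagonal (fun i => (h.eigenvalues i : ℂ)) * star W) * W := by
            simp only [Matrix.mul_assoc]
        _ = star W * chd w K U (fnR hA f) * W := by rw [h2]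
    have h4 := congrFun (congrFun h1 j) j
    rw [Matrix.diagonal_apply_eq] at h4
    have h5 : star W * chd w K U (fnR hA f) * W = ∑ k ∈ range K, (w k : ℂ) •
        (T k * Matrix.diagonal (fun i => ((f (hA.eigenvalues i) : ℝ) : ℂ)) * star (T k)) := by
      unfold chd fnR fnc
      rw [Matrix.mul_sum, Matrix.sum_mul]
      refine sum_congr rfl fun k _ => ?_
      rw [Matrix.mul_smul, Matrix.smul_mul]
      congr 1
      simp only [T, Matrix.star_eq_conjTranspose, Matrix.conjTranspose_mul,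
        Matrix.conjTranspose_conjTranspose, Matrix.mul_assoc, hVdef]
    rw [h5, Matrix.sum_apply] at h4
    have h6 : ∀ k ∈ range K, ((w k : ℂ) •
        (T k * Matrix.diagonal (fun i => ((f (hA.eigenvalues i) : ℝ) : ℂ)) * star (T k))) j j =
        ((w k * ∑ i, ‖T k j i‖ ^ 2 * f (hA.eigenvalues i) : ℝ) : ℂ) := by
      intro k _
      rw [Matrix.smul_apply, ent_diag, smul_eq_mul]
      push_cast
      rfl
    rw [sum_congr rfl h6, ← Complex.ofReal_sum] at h4
    have h7 := Complex.ofReal_injective h4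
    rw [h7]
    simp only [B, sum_mul, mul_sum]
    rw [sum_comm]
    refine sum_congr rfl fun i _ => sum_congr rfl fun k _ => by ring
  -- Jensen
  have hJ : ∀ j, ∑ i, B j i * Real.negMulLog (f (hA.eigenvalues i)) ≤
      Real.negMulLog (h.eigenvalues j) := by
    intro j
    have h1 := Real.concaveOn_negMulLog.le_map_sum (t := univ) (w := B j)
      (p := fun i => f (hA.eigenvalues i)) (fun i _ => hB0 j i) (hBrow j)
      (fun i _ => hf i)
    simp only [smul_eq_mul] at h1
    rw [hμ j]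
    exact h1
  calc ∑ i, Real.negMulLog (f (hA.eigenvalues i))
      = ∑ i, (∑ j, B j i) * Real.negMulLog (f (hA.eigenvalues i)) := by
        refine sum_congr rfl fun i _ => ?_
        rw [hBcol, one_mul]
    _ = ∑ j, ∑ i, B j i * Real.negMulLog (f (hA.eigenvalues i)) := by
        simp only [sum_mul]
        exact sum_comm
    _ ≤ ∑ j, Real.negMulLog (h.eigenvalues j) := sum_le_sum fun j _ => hJ j
    _ = ent h := rfl

end Pool.Agent.FFG.HE
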