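import Pool.Agent.FFG.HE.Defs

/-!
# Hidden-entropy criterion: the parameters
-/

open Finset

set_option autoImplicit false
set_option linter.unusedSectionVars false
set_option linter.unusedVariables false

namespace Pool.Agent.FFG.HE

/- PROOF. For `y ≥ 1` large: `A y ^ a ≤ exp (B / 2 * y ^ c)` and `A y ^ b ≤ B / 2 * y ^ c`. -/
theorem eventually_param (A : ℝ) (a : ℕ) {B : ℝ} (hB : 0 < B) (b c : ℕ) (hbc : b < c) :
    ∃ y₀ : ℝ, ∀ y : ℝ, y₀ ≤ y → A * y ^ a * Real.exp (A * y ^ b) ≤ Real.exp (B * y ^ c) := by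
  have h1 : ∀ᶠ y : ℝ in Filter.atTop, (|A| + 1) * y ^ a ≤ Real.exp (B / 2 * y) := by
    have h2 := isLittleO_pow_exp_pos_mul_atTop a (half_pos hB)
    have h3 := h2.def (c := 1 / (|A| + 1)) (by positivity)
    filter_upwards [h3, Filter.eventually_ge_atTop (0 : ℝ)] with y hy hy0
    rw [Real.norm_of_nonneg (by positivity), Real.norm_of_nonneg (Real.exp_nonneg _)] at hy
    have hpos : (0 : ℝ) < |A| + 1 := by positivity
    calc (|A| + 1) * y ^ a ≤ (|A| + 1) * (1 / (|A| + 1) * Real.exp (B / 2 * y)) :=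
          mul_le_mul_of_nonneg_left hy hpos.le
      _ = Real.exp (B / 2 * y) := by field_simp
  obtain ⟨y₀, hy₀⟩ := Filter.eventually_atTop.1
    (h1.and (Filter.eventually_ge_atTop (max 1 (2 * |A| / B))))
  refine ⟨y₀, fun y hy => ?_⟩
  obtain ⟨h2, h3⟩ := hy₀ y hy
  have hy1 : 1 ≤ y := (le_max_left _ _).trans h3
  have hy2 : 2 * |A| / B ≤ y := (le_max_right _ _).trans h3
  have hy0 : 0 ≤ y := zero_le_one.trans hy1
  have h4 : A * y ^ a ≤ Real.exp (B / 2 * y ^ c) := by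
    calc A * y ^ a ≤ (|A| + 1) * y ^ a :=
          mul_le_mul_of_nonneg_right (by linarith [le_abs_self A]) (by positivity)
      _ ≤ Real.exp (B / 2 * y) := h2
      _ ≤ Real.exp (B / 2 * y ^ c) := by
          apply Real.exp_le_exp.2
          apply mul_le_mul_of_nonneg_left _ (by positivity)
          calc y = y ^ 1 := (pow_one y).symm
            _ ≤ y ^ c := pow_le_pow_right₀ hy1 (by omega)
  have h5 : A * y ^ b ≤ B / 2 * y ^ c := by
    calc A * y ^ b ≤ |A| * y ^ b := mul_le_mul_of_nonneg_right (le_abs_self A) (by positivity)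
      _ ≤ (B / 2 * y) * y ^ b := by
          apply mul_le_mul_of_nonneg_right _ (by positivity)
          rw [div_le_iff₀ hB] at hy2
          linarith
      _ = B / 2 * y ^ (b + 1) := by ring
      _ ≤ B / 2 * y ^ c :=
          mul_le_mul_of_nonneg_left (pow_le_pow_right₀ hy1 (by omega)) (by positivity)
  calc A * y ^ a * Real.exp (A * y ^ b) ≤ Real.exp (B / 2 * y ^ c) * Real.exp (A * y ^ b) :=
        mul_le_mul_of_nonneg_right h4 (Real.exp_nonneg _)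
    _ ≤ Real.exp (B / 2 * y ^ c) * Real.exp (B / 2 * y ^ c) :=
        mul_le_mul_of_nonneg_left (Real.exp_le_exp.2 h5) (Real.exp_nonneg _)
    _ = Real.exp (B * y ^ c) := by
        rw [← Real.exp_add]
        congr 1
        ring

private lemma param_factorial {x : ℝ} {n : ℕ} (hx0 : 0 ≤ x) (hx : Real.exp 2 * x ≤ n) :
    x ^ n / n.factorial ≤ Real.exp (-n) := by
  have h1 : x ≤ Real.exp (-2) * n := by
    have h2 : Real.exp (-2) * (Real.exp 2 * x) = x := by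
      rw [← mul_assoc, ← Real.exp_add]
      norm_num
    calc x = Real.exp (-2) * (Real.exp 2 * x) := h2.symm
      _ ≤ Real.exp (-2) * n := mul_le_mul_of_nonneg_left hx (Real.exp_nonneg _)
  have h3 : ((n : ℝ) ^ n) / n.factorial ≤ Real.exp n :=
    Real.pow_div_factorial_le_exp n (Nat.cast_nonneg n) n
  calc x ^ n / n.factorial ≤ (Real.exp (-2) * n) ^ n / n.factorial :=
        div_le_div_of_nonneg_right (pow_le_pow_left₀ hx0 h1 n) (by positivity)
    _ = Real.exp (-2) ^ n * ((n : ℝ) ^ n / n.factorial) := by rw [mul_pow, mul_div_assoc]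
    _ ≤ Real.exp (-2) ^ n * Real.exp n :=
        mul_le_mul_of_nonneg_left h3 (by positivity)
    _ = Real.exp (-n) := by
        rw [← Real.exp_nat_mul, ← Real.exp_add]
        congr 1
        ring

/-- The bound for `eta`. -/
private lemma param_eta {L R r n m k : ℕ} {J Δ C Y : ℝ} (hJ : 0 ≤ J) (hΔ : 0 < Δ) (hC : 1 ≤ C)
    (hY : 1 ≤ Y) (hm : (m : ℝ) = Y ^ (2 * k + 2)) (hn : (n : ℝ) = Y ^ (4 * k + 3))
    (hR : (R : ℝ) ≤ C * Y ^ k)
    (hbig : Real.exp 2 * (2 * J * (2 * C + 4 * r + 1) ^ 2 * (7 / Δ + 1)) ≤ Y) :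
    eta L R r n m J Δ ≤ (L : ℝ) ^ 2 * (2 * J * ((7 / Δ + 1) * Y ^ (2 * k + 2)) * Real.exp (-n)) := by
  have hY0 : 0 ≤ Y := zero_le_one.trans hY
  have hm1 : (1 : ℝ) ≤ m := by rw [hm]; exact one_le_pow₀ hY
  have hk1 : (1 : ℝ) ≤ Y ^ k := one_le_pow₀ hY
  have hu0 : (0 : ℝ) ≤ 7 * m / Δ + 1 := by positivity
  have hu : 7 * (m : ℝ) / Δ + 1 ≤ (7 / Δ + 1) * Y ^ (2 * k + 2) := by
    rw [← hm]
    have : (7 / Δ + 1) * (m : ℝ) = 7 * m / Δ + m := by ring
    rw [this]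
    linarith
  have hr0 : (0 : ℝ) ≤ r := Nat.cast_nonneg r
  have hs : (((2 * (R + 2 * r) + 1) ^ 2 : ℕ) : ℝ) ≤ ((2 * C + 4 * r + 1) * Y ^ k) ^ 2 := by
    push_cast
    apply pow_le_pow_left₀ (by positivity)
    have h1 : (4 * (r : ℝ) + 1) * 1 ≤ (4 * r + 1) * Y ^ k :=
      mul_le_mul_of_nonneg_left hk1 (by positivity)
    nlinarith
  have hx0 : (0 : ℝ) ≤ 2 * J * ((2 * (R + 2 * r) + 1) ^ 2 : ℕ) * (7 * m / Δ + 1) := by positivity
  have hx : 2 * J * ((2 * (R + 2 * r) + 1) ^ 2 : ℕ) * (7 * m / Δ + 1) ≤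
      (2 * J * (2 * C + 4 * r + 1) ^ 2 * (7 / Δ + 1)) * Y ^ (4 * k + 2) := by
    calc 2 * J * ((2 * (R + 2 * r) + 1) ^ 2 : ℕ) * (7 * m / Δ + 1) ≤
        2 * J * ((2 * C + 4 * r + 1) * Y ^ k) ^ 2 * ((7 / Δ + 1) * Y ^ (2 * k + 2)) := by
          apply mul_le_mul _ hu hu0 (by positivity)
          exact mul_le_mul_of_nonneg_left hs (by positivity)
      _ = _ := by
          have : Y ^ (4 * k + 2) = (Y ^ k) ^ 2 * Y ^ (2 * k + 2) := by
            rw [← pow_mul, ← pow_add]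
            congr 1
            ring
          rw [this]
          ring
  have hex : Real.exp 2 * (2 * J * ((2 * (R + 2 * r) + 1) ^ 2 : ℕ) * (7 * m / Δ + 1)) ≤ n := by
    calc Real.exp 2 * (2 * J * ((2 * (R + 2 * r) + 1) ^ 2 : ℕ) * (7 * m / Δ + 1)) ≤
        Real.exp 2 * ((2 * J * (2 * C + 4 * r + 1) ^ 2 * (7 / Δ + 1)) * Y ^ (4 * k + 2)) :=
          mul_le_mul_of_nonneg_left hx (Real.exp_nonneg _)
      _ = (Real.exp 2 * (2 * J * (2 * C + 4 * r + 1) ^ 2 * (7 / Δ + 1))) * Y ^ (4 * k + 2) := by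
          ring
      _ ≤ Y * Y ^ (4 * k + 2) := mul_le_mul_of_nonneg_right hbig (by positivity)
      _ = n := by
          rw [hn]
          ring
  have hfac := param_factorial hx0 hex
  unfold eta
  refine mul_le_mul_of_nonneg_left ?_ (by positivity)
  refine mul_le_mul ?_ hfac (by positivity) (by positivity)
  exact mul_le_mul_of_nonneg_left hu (by positivity)

/- PROOF. Let `l = log L`, `y = ⌈l⌉₊`, `1 ≤ l ≤ y ≤ 2 l`, and `m = y ^ (2 k + 2)`,
`n = y ^ (4 k + 3)`. `R ≤ C y ^ k`, `7 m / Δ + 1 ≤ c₁ m` (`c₁ = 7 / Δ + 1`),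
`2 (R + 2 r) + 1 ≤ c₂ y ^ k` (`c₂ = 2 C + 4 r + 1`), so the base `x` of the `n`-th power in `eta` is
at most `A y ^ (4 k + 2)`, and `x ^ n / n! ≤ (e x / n) ^ n` (from `n ^ n / n! ≤ e ^ n`) is at most
`e ^ (- n)` as soon as `y ≥ e ^ 2 A`. So `eta ≤ L ^ 2 * 2 J c₁ m * e ^ (- n)`, where
`L = e ^ l ≤ e ^ y`. `sd R r n ≤ c₃ y ^ (5 k + 3)` with `c₃ = 2 C + 6 r + 1`, which is at most `L` for
large `L` (`isLittleO_pow_log_id_atTop`). `loc`: `4 J c₁ y ^ (2 k + 2) e ^ (4 y) ≤ e ^ (y ^ (4 k + 3))`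
for large `y`. `tests`: `d ^ (4 R ^ 2) ≤ exp (4 log d C ^ 2 y ^ (2 k))`,
`(1 / 2) ^ m = exp (- log 2 * y ^ (2 k + 2))`; two inequalities of the type of `eventually_param`,
for the two summands (each at most `1 / 2`), with `b = 2 k + 1`. -/
theorem exists_param {d r : ℕ} (hd : 0 < d) {J Δ : ℝ} (hJ : 0 ≤ J) (hΔ : 0 < Δ) (k : ℕ)
    {C : ℝ} (hC : 1 ≤ C) : ∃ (k' : ℕ) (C' : ℝ) (L₀ : ℕ), ∀ L : ℕ, L₀ ≤ L →
      ∀ R : ℕ, (R : ℝ) ≤ C * (Real.log L) ^ k → ∃ m n : ℕ, HParam d r L R J Δ m n ∧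
        ((sd R r n : ℕ) : ℝ) ≤ C' * (Real.log L) ^ k' := by
  have hd1 : (1 : ℝ) ≤ d := by exact_mod_cast hd
  have hd0 : (0 : ℝ) < d := by linarith
  have hld : 0 ≤ Real.log d := Real.log_nonneg hd1
  have hr0 : (0 : ℝ) ≤ r := Nat.cast_nonneg r
  have hc1 : 0 < 7 / Δ + 1 := by positivity
  set c₁ : ℝ := 7 / Δ + 1 with hc₁
  set A : ℝ := 16 * J * c₁ + 4 * C ^ 2 * Real.log d + 8 with hA
  have hJc : 0 ≤ J * c₁ := mul_nonneg hJ hc1.le
  have hCd : 0 ≤ C ^ 2 * Real.log d := mul_nonneg (by positivity) hld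
  have hA8 : 8 ≤ A := by rw [hA]; nlinarith
  obtain ⟨y₁, hy₁⟩ := eventually_param A (2 * k + 2) one_pos (2 * k + 1) (4 * k + 3) (by omega)
  obtain ⟨y₂, hy₂⟩ := eventually_param A 0 (Real.log_pos one_lt_two) (2 * k + 1) (2 * k + 2)
    (by omega)
  set y₃ : ℝ := Real.exp 2 * (2 * J * (2 * C + 4 * r + 1) ^ 2 * (7 / Δ + 1)) with hy₃
  have hev1 : ∀ᶠ x : ℝ in Filter.atTop,
      ((2 * C + 6 * r + 1) * 2 ^ (5 * k + 3)) * (Real.log x) ^ (5 * k + 3) ≤ x := by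
    have h2 := Real.isLittleO_pow_log_id_atTop (n := 5 * k + 3)
    have hpos : 0 < (2 * C + 6 * r + 1) * 2 ^ (5 * k + 3) := by positivity
    have h3 := h2.def (c := 1 / ((2 * C + 6 * r + 1) * 2 ^ (5 * k + 3))) (by positivity)
    filter_upwards [h3, Filter.eventually_ge_atTop (1 : ℝ)] with x hx hx1
    have hl : 0 ≤ Real.log x := Real.log_nonneg hx1
    rw [Real.norm_of_nonneg (by positivity), id, Real.norm_of_nonneg (by linarith)] at hx
    calc ((2 * C + 6 * r + 1) * 2 ^ (5 * k + 3)) * (Real.log x) ^ (5 * k + 3) ≤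
        ((2 * C + 6 * r + 1) * 2 ^ (5 * k + 3)) *
          (1 / ((2 * C + 6 * r + 1) * 2 ^ (5 * k + 3)) * x) :=
          mul_le_mul_of_nonneg_left hx hpos.le
      _ = x := by field_simp
  have hev2 : ∀ᶠ x : ℝ in Filter.atTop, max 1 (max y₁ (max y₂ y₃)) ≤ Real.log x :=
    Real.tendsto_log_atTop.eventually (Filter.eventually_ge_atTop _)
  have hev := tendsto_natCast_atTop_atTop (R := ℝ) |>.eventually
    ((hev1.and hev2).and (Filter.eventually_ge_atTop (1 : ℝ)))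
  obtain ⟨L₀, hL₀⟩ := Filter.eventually_atTop.1 hev
  refine ⟨5 * k + 3, (2 * C + 6 * r + 1) * 2 ^ (5 * k + 3), L₀, fun L hL R hR => ?_⟩
  obtain ⟨⟨hL1, hL2⟩, hL3⟩ := hL₀ L hL
  set l : ℝ := Real.log L with hl
  have hl1 : 1 ≤ l := (le_max_left _ _).trans hL2
  have hly₁ : y₁ ≤ l := ((le_max_left _ _).trans (le_max_right _ _)).trans hL2
  have hly₂ : y₂ ≤ l :=
    (((le_max_left _ _).trans (le_max_right _ _)).trans (le_max_right _ _)).trans hL2
  have hly₃ : y₃ ≤ l :=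
    (((le_max_right _ _).trans (le_max_right _ _)).trans (le_max_right _ _)).trans hL2
  set y : ℕ := ⌈l⌉₊ with hy
  set Y : ℝ := (y : ℝ) with hYdef
  have hlY : l ≤ Y := Nat.le_ceil l
  have hY2 : Y ≤ 2 * l := by
    have h1 := Nat.ceil_lt_add_one (show 0 ≤ l by linarith)
    rw [← hy] at h1
    linarith
  have hY : 1 ≤ Y := hl1.trans hlY
  have hY0 : 0 ≤ Y := zero_le_one.trans hY
  set m : ℕ := y ^ (2 * k + 2) with hm
  set n : ℕ := y ^ (4 * k + 3) with hn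
  have hmY : (m : ℝ) = Y ^ (2 * k + 2) := by rw [hm]; push_cast; rfl
  have hnY : (n : ℝ) = Y ^ (4 * k + 3) := by rw [hn]; push_cast; rfl
  have hRY : (R : ℝ) ≤ C * Y ^ k :=
    hR.trans (mul_le_mul_of_nonneg_left (pow_le_pow_left₀ (by linarith) hlY k) (by linarith))
  have heta := param_eta (L := L) (R := R) (r := r) (n := n) (m := m) (k := k) hJ hΔ hC hY hmY hnY
    hRY (hly₃.trans hlY)
  rw [← hc₁] at heta
  have hk1 : (1 : ℝ) ≤ Y ^ k := one_le_pow₀ hY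
  have hn1 : (1 : ℝ) ≤ n := by rw [hnY]; exact one_le_pow₀ hY
  -- the side
  have hsd : ((sd R r n : ℕ) : ℝ) ≤ ((2 * C + 6 * r + 1) * 2 ^ (5 * k + 3)) * l ^ (5 * k + 3) := by
    have h1 : ((sd R r n : ℕ) : ℝ) ≤ (2 * C + 6 * r + 1) * Y ^ (5 * k + 3) := by
      have h2 : Y ^ (5 * k + 3) = n * Y ^ k := by
        rw [hnY, ← pow_add]
        congr 1
        ring
      rw [h2]
      unfold sd
      push_cast
      have h3 : (n : ℝ) * R ≤ n * (C * Y ^ k) := mul_le_mul_of_nonneg_left hRY (by linarith)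
      have h4 : (1 : ℝ) ≤ n * Y ^ k := one_le_mul_of_one_le_of_one_le hn1 hk1
      have h5 : (n : ℝ) * (4 * r) ≤ (n * Y ^ k) * (4 * r) := by
        apply mul_le_mul_of_nonneg_right _ (by positivity)
        exact le_mul_of_one_le_right (by linarith) hk1
      have h6 : (2 * (r : ℝ) + 1) * 1 ≤ (2 * r + 1) * (n * Y ^ k) :=
        mul_le_mul_of_nonneg_left h4 (by positivity)
      nlinarith
    calc ((sd R r n : ℕ) : ℝ) ≤ (2 * C + 6 * r + 1) * Y ^ (5 * k + 3) := h1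
      _ ≤ (2 * C + 6 * r + 1) * (2 * l) ^ (5 * k + 3) :=
          mul_le_mul_of_nonneg_left (pow_le_pow_left₀ hY0 hY2 _) (by positivity)
      _ = _ := by rw [mul_pow]; ring
  have hLpos : (0 : ℝ) < L := by linarith
  have hLY : (L : ℝ) ≤ Real.exp Y := by
    rw [← Real.exp_log hLpos]
    exact Real.exp_le_exp.2 hlY
  have hLp : ∀ j : ℕ, (L : ℝ) ^ j ≤ Real.exp (j * Y) := by
    intro j
    rw [Real.exp_nat_mul]
    exact pow_le_pow_left₀ hLpos.le hLY j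
  have hYb : Y ≤ Y ^ (2 * k + 1) := by
    calc Y = Y ^ 1 := (pow_one Y).symm
      _ ≤ Y ^ (2 * k + 1) := pow_le_pow_right₀ hY (by omega)
  have hY2k : Y ^ (2 * k) ≤ Y ^ (2 * k + 1) := pow_le_pow_right₀ hY (by omega)
  have hYm0 : 0 ≤ Y ^ (2 * k + 2) := by positivity
  have hmain1 : A * Y ^ (2 * k + 2) * Real.exp (A * Y ^ (2 * k + 1)) * Real.exp (-n) ≤ 1 := by
    have h1 := hy₁ Y (hly₁.trans hlY)
    rw [one_mul, ← hnY] at h1
    calc A * Y ^ (2 * k + 2) * Real.exp (A * Y ^ (2 * k + 1)) * Real.exp (-n) ≤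
        Real.exp n * Real.exp (-n) := mul_le_mul_of_nonneg_right h1 (Real.exp_nonneg _)
      _ = 1 := by rw [← Real.exp_add, add_neg_cancel, Real.exp_zero]
  have hmain2 : A * Real.exp (A * Y ^ (2 * k + 1)) * (1 / 2) ^ m ≤ 1 := by
    have h1 := hy₂ Y (hly₂.trans hlY)
    rw [pow_zero, mul_one, ← hmY, mul_comm (Real.log 2), Real.exp_nat_mul,
      Real.exp_log two_pos] at h1
    calc A * Real.exp (A * Y ^ (2 * k + 1)) * (1 / 2) ^ m ≤ 2 ^ m * (1 / 2) ^ m :=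
          mul_le_mul_of_nonneg_right h1 (by positivity)
      _ = 1 := by rw [← mul_pow]; norm_num
  have hdR : (d : ℝ) ^ (4 * R ^ 2) ≤ Real.exp (4 * C ^ 2 * Real.log d * Y ^ (2 * k)) := by
    have h1 : (d : ℝ) ^ (4 * R ^ 2) = Real.exp ((4 * R ^ 2 : ℕ) * Real.log d) := by
      rw [Real.exp_nat_mul, Real.exp_log hd0]
    rw [h1]
    apply Real.exp_le_exp.2
    push_cast
    have h2 : (R : ℝ) ^ 2 ≤ (C * Y ^ k) ^ 2 := pow_le_pow_left₀ (Nat.cast_nonneg R) hRY 2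
    have h3 : (C * Y ^ k) ^ 2 = C ^ 2 * Y ^ (2 * k) := by
      rw [mul_pow, ← pow_mul, mul_comm k 2]
    rw [h3] at h2
    calc 4 * (R : ℝ) ^ 2 * Real.log d ≤ 4 * (C ^ 2 * Y ^ (2 * k)) * Real.log d :=
          mul_le_mul_of_nonneg_right (by linarith) hld
      _ = _ := by ring
  have hdL : ∀ j : ℕ, j ≤ 7 → (d : ℝ) ^ (4 * R ^ 2) * (L : ℝ) ^ j ≤
      Real.exp (A * Y ^ (2 * k + 1)) := by
    intro j hj
    calc (d : ℝ) ^ (4 * R ^ 2) * (L : ℝ) ^ j ≤
        Real.exp (4 * C ^ 2 * Real.log d * Y ^ (2 * k)) * Real.exp (j * Y) :=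
          mul_le_mul hdR (hLp j) (by positivity) (Real.exp_nonneg _)
      _ = Real.exp (4 * C ^ 2 * Real.log d * Y ^ (2 * k) + j * Y) := (Real.exp_add _ _).symm
      _ ≤ Real.exp (A * Y ^ (2 * k + 1)) := by
          apply Real.exp_le_exp.2
          have hj7 : (j : ℝ) ≤ 8 := by
            have : (j : ℝ) ≤ 7 := by exact_mod_cast hj
            linarith
          have h1 : (j : ℝ) * Y ≤ 8 * Y ^ (2 * k + 1) :=
            mul_le_mul hj7 hYb hY0 (by norm_num)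
          have h2 : 4 * C ^ 2 * Real.log d * Y ^ (2 * k) ≤
              4 * C ^ 2 * Real.log d * Y ^ (2 * k + 1) :=
            mul_le_mul_of_nonneg_left hY2k (by nlinarith)
          have h3 : 0 ≤ 16 * J * c₁ * Y ^ (2 * k + 1) := by positivity
          rw [hA]
          nlinarith
  have hd1R : 1 ≤ (d : ℝ) ^ (4 * R ^ 2) := one_le_pow₀ hd1
  refine ⟨m, n, ⟨?_, ?_, ?_, ?_⟩, hsd⟩
  · have : (0 : ℝ) < n := by linarith
    exact_mod_cast this
  · have h1 : ((sd R r n : ℕ) : ℝ) ≤ L := hsd.trans hL1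
    exact_mod_cast h1
  · calc 2 * (L : ℝ) ^ 2 * eta L R r n m J Δ ≤
        2 * (L : ℝ) ^ 2 * ((L : ℝ) ^ 2 * (2 * J * (c₁ * Y ^ (2 * k + 2)) * Real.exp (-n))) :=
          mul_le_mul_of_nonneg_left heta (by positivity)
      _ = (4 * J * c₁) * Y ^ (2 * k + 2) * (L : ℝ) ^ 4 * Real.exp (-n) := by ring
      _ ≤ A * Y ^ (2 * k + 2) * Real.exp (A * Y ^ (2 * k + 1)) * Real.exp (-n) := by
          apply mul_le_mul_of_nonneg_right _ (Real.exp_nonneg _)
          apply mul_le_mul _ _ (by positivity) (by positivity)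
          · apply mul_le_mul_of_nonneg_right _ hYm0
            rw [hA]
            nlinarith
          · calc (L : ℝ) ^ 4 = 1 * (L : ℝ) ^ 4 := (one_mul _).symm
              _ ≤ (d : ℝ) ^ (4 * R ^ 2) * (L : ℝ) ^ 4 :=
                  mul_le_mul_of_nonneg_right hd1R (by positivity)
              _ ≤ _ := hdL 4 (by norm_num)
      _ ≤ 1 := hmain1
  · have h1 : 4 * ((d : ℝ) ^ (4 * R ^ 2)) * (L : ℝ) ^ 5 * eta L R r n m J Δ ≤ 1 / 2 := by
      calc 4 * ((d : ℝ) ^ (4 * R ^ 2)) * (L : ℝ) ^ 5 * eta L R r n m J Δ ≤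
          4 * ((d : ℝ) ^ (4 * R ^ 2)) * (L : ℝ) ^ 5 *
            ((L : ℝ) ^ 2 * (2 * J * (c₁ * Y ^ (2 * k + 2)) * Real.exp (-n))) :=
            mul_le_mul_of_nonneg_left heta (by positivity)
        _ = (8 * J * c₁) * Y ^ (2 * k + 2) * ((d : ℝ) ^ (4 * R ^ 2) * (L : ℝ) ^ 7) *
            Real.exp (-n) := by ring
        _ ≤ (A / 2) * Y ^ (2 * k + 2) * Real.exp (A * Y ^ (2 * k + 1)) * Real.exp (-n) := by
            apply mul_le_mul_of_nonneg_right _ (Real.exp_nonneg _)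
            apply mul_le_mul _ (hdL 7 le_rfl) (by positivity) (by positivity)
            apply mul_le_mul_of_nonneg_right _ hYm0
            rw [hA]
            nlinarith
        _ = (A * Y ^ (2 * k + 2) * Real.exp (A * Y ^ (2 * k + 1)) * Real.exp (-n)) / 2 := by ring
        _ ≤ 1 / 2 := by linarith
    have h2 : 4 * ((d : ℝ) ^ (4 * R ^ 2)) * (L : ℝ) ^ 5 * (1 / 2) ^ m ≤ 1 / 2 := by
      calc 4 * ((d : ℝ) ^ (4 * R ^ 2)) * (L : ℝ) ^ 5 * (1 / 2) ^ m =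
          4 * ((d : ℝ) ^ (4 * R ^ 2) * (L : ℝ) ^ 5) * (1 / 2) ^ m := by ring
        _ ≤ (A / 2) * Real.exp (A * Y ^ (2 * k + 1)) * (1 / 2) ^ m := by
            apply mul_le_mul_of_nonneg_right _ (by positivity)
            exact mul_le_mul (by linarith) (hdL 5 (by norm_num)) (by positivity) (by positivity)
        _ = (A * Real.exp (A * Y ^ (2 * k + 1)) * (1 / 2) ^ m) / 2 := by ring
        _ ≤ 1 / 2 := by linarith
    rw [mul_add]
    linarith

end Pool.Agent.FFG.HE
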