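import Pool.Agent.FFG.HE.OneTorus
import Pool.Agent.FFG.HE.Param
import Pool.Agent.PEPS953.Tfae
import Pool.Agent.PEPS953.Transfer
import Pool.Agent.FFG.Proj

/-!
# Hidden-entropy criterion: gapped families have parent tests
-/

open Finset
open scoped InnerProductSpace

set_option autoImplicit false
set_option linter.unusedSectionVars false
set_option linter.unusedVariables false

namespace Pool.Agent.FFG.HE

open Pool.Agent.PEPS953 Pool.Agent.FFG Pool.Agent.FFG.EC Pool.Agent.FFG.HPlain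

open scoped ComplexOrder in
private lemma testSum_posSemidef {d L R : ℕ} [NeZero L] (hR : R ≤ L)
    {q : Site L → Matrix (LConf d R) (LConf d R) ℂ}
    (hq : ∀ v, (q v).IsHermitian ∧ q v * q v = q v) : (testSum q).PosSemidef := by
  unfold testSum
  refine Matrix.posSemidef_sum _ fun v _ => ?_
  have h1 : Plain.translate L (q v) v =
      (PEPS953.translate L (q v) v).conjTranspose * PEPS953.translate L (q v) v := by
    rw [translate_conjTranspose, ← pj_translate_mul hR, (hq v).1.eq, (hq v).2]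
    rfl
  rw [h1]
  exact Matrix.posSemidef_conjTranspose_mul_self _

private lemma fewDefects_mono {d L : ℕ} [NeZero L] {Ψ : Plain.Vec d L} {R : ℕ} {κ κ' : ℝ}
    (hκ : κ ≤ κ') (h : FewDefects Ψ R κ) : FewDefects Ψ R κ' := by
  intro ρ hρ
  refine (h ρ hρ).trans (mul_le_mul_of_nonneg_right hκ ?_)
  have h1 : 0 ≤ ∑ v, dev Ψ hρ.herm (EPlain.boxAt L R v) :=
    Finset.sum_nonneg fun v _ => Finset.sum_nonneg fun i _ => abs_nonneg _
  linarith

/- PROOF. `HiddenEntropy` with `C` replaced by `max C 1`, and `κ` replaced by `max κ 0`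
(`FewDefects` is monotone in `κ`: `trNorm` is nonnegative, so `1 + ∑ dev ≥ 0`). `exists_param` with
`J = entNorm h` gives `k'`, `C'`, and `he_box` (`r ≤ sd R r n ≤ L`) the tests. Put
`x = C₂ l ^ k₂` with `l = log L ≥ 1`, `k₂ = max k k'`, `C₂ = max C' (2 max C 1)`; then `2 κ ≤ x`,
`∑ exp (- x λ) ≤ ∑ exp (- 2 κ λ) ≤ exp (2 κ) ≤ exp x` (the eigenvalues `λ` of `testSum q` are
nonnegative: a sum of projections). `nrm ((translate L (q v) v).mulVec Ψ) = ‖locOp L (q v) v Ψ‖`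
(`nrm_eq` in PEPS953/Transfer.lean). -/
theorem family_he {d r : ℕ} (hd : 0 < d) (hr : 0 < r) {h : Matrix (LConf d r) (LConf d r) ℂ}
    (hh : h.IsHermitian) {Δ : ℝ} (hΔ : 0 < Δ) {E : ℕ → ℝ} {Ψ : ∀ (L : ℕ) [NeZero L], Hil d L}
    (hgs : ∃ L₁ : ℕ, ∀ (L : ℕ) [NeZero L], L₁ ≤ L → IsGappedGS (ham L h) (E L) Δ (Ψ L))
    (H : HiddenEntropy fun L _ => (Ψ L).ofLp) : ParentTests fun L _ => (Ψ L).ofLp := by
  obtain ⟨L₁, hL₁⟩ := hgs
  obtain ⟨k, C, L₀, hL₀⟩ := H
  obtain ⟨C₁, hC₁⟩ : ∃ C₁ : ℝ, C₁ = max C 1 := ⟨_, rfl⟩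
  have hC₁1 : 1 ≤ C₁ := hC₁ ▸ le_max_right _ _
  have hCC₁ : C ≤ C₁ := hC₁ ▸ le_max_left _ _
  obtain ⟨k', C', L₂, hL₂⟩ := exists_param (r := r) hd (entNorm_nonneg h) hΔ k hC₁1
  have hC₂0 : (0 : ℝ) ≤ max C' (2 * C₁) := le_trans (by linarith) (le_max_right _ _)
  refine ⟨max k k', max C' (2 * C₁), max (max L₀ L₂) (max 3 (max L₁ r)), fun L _ hL => ?_⟩
  have hLL₀ : L₀ ≤ L := le_trans ((le_max_left _ _).trans (le_max_left _ _)) hL
  have hLL₂ : L₂ ≤ L := le_trans ((le_max_right _ _).trans (le_max_left _ _)) hL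
  have hL3 : 3 ≤ L := le_trans ((le_max_left _ _).trans (le_max_right _ _)) hL
  have hLL₁ : L₁ ≤ L :=
    le_trans ((le_max_left _ _).trans ((le_max_right _ _).trans (le_max_right _ _))) hL
  have hrL : r ≤ L :=
    le_trans ((le_max_right _ _).trans ((le_max_right _ _).trans (le_max_right _ _))) hL
  have hlog := one_le_log hL3
  obtain ⟨R, κ, hR, hκ, hfew⟩ := hL₀ L hLL₀
  have hR' : (R : ℝ) ≤ C₁ * (Real.log L) ^ k :=
    hR.trans (mul_le_mul_of_nonneg_right hCC₁ (by positivity))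
  have hκ' : max κ 0 ≤ C₁ * (Real.log L) ^ k :=
    max_le (hκ.trans (mul_le_mul_of_nonneg_right hCC₁ (by positivity))) (by positivity)
  obtain ⟨m, n, hm, hn⟩ := hL₂ L hLL₂ R hR'
  obtain ⟨q, hq, hqΨ, hS⟩ := he_box hd hr hrL hh le_rfl hΔ (hL₁ L hLL₁) (le_max_right κ 0)
    (fewDefects_mono (le_max_left κ 0) hfew) hm
  have hx : 2 * max κ 0 ≤ max C' (2 * C₁) * (Real.log L) ^ max k k' := by
    calc 2 * max κ 0 ≤ 2 * (C₁ * (Real.log L) ^ k) := by linarith
      _ = (2 * C₁) * (Real.log L) ^ k := by ring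
      _ ≤ _ := qp_mono hC₂0 (le_max_right _ _) (le_max_left _ _) hL3
  refine ⟨sd R r n, q, Nat.succ_pos _, hm.side, hn.trans
    (qp_mono hC₂0 (le_max_left _ _) (le_max_right _ _) hL3), hq, fun v => ?_, fun hF => ?_⟩
  · rw [nrm_eq]
    exact hqΨ v
  · refine le_trans (Finset.sum_le_sum fun i _ => Real.exp_le_exp.mpr ?_)
      ((hS hF).trans (Real.exp_le_exp.mpr hx))
    have h1 := (testSum_posSemidef hm.side hq).eigenvalues_nonneg i
    have h2 := mul_le_mul_of_nonneg_right hx h1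
    linarith

end Pool.Agent.FFG.HE
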