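import Pool.Agent.FFG.HE.PlainParent

/-!
# Hidden-entropy criterion: families with parent tests
-/

open Finset

set_option autoImplicit false
set_option linter.unusedSectionVars false
set_option linter.unusedVariables false

namespace Pool.Agent.FFG.HE

open Pool.Agent.PEPS953.Plain Pool.Agent.FFG.EPlain Pool.Agent.FFG.HPlain

private theorem fam_log {L : ℕ} (hL : 3 ≤ L) : 1 ≤ Real.log L := by
  have h3 : (3 : ℝ) ≤ L := by exact_mod_cast hL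
  rw [Real.le_log_iff_exp_le (by linarith)]
  linarith [Real.exp_one_lt_d9]

private theorem fam_large (A : ℝ) (hA : 0 < A) (m : ℕ) : ∃ L₂ : ℕ, ∀ L : ℕ, L₂ ≤ L →
    A * Real.log L ^ m ≤ L := by
  have h1 := (Real.isLittleO_pow_log_id_atTop (n := m)).bound (c := A⁻¹) (by positivity)
  have h2 := tendsto_natCast_atTop_atTop (R := ℝ) |>.eventually h1
  rw [Filter.eventually_atTop] at h2
  obtain ⟨L₂, h3⟩ := h2
  refine ⟨L₂, fun L hL => ?_⟩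
  have h4 := h3 L hL
  rw [Real.norm_eq_abs, id, Real.norm_eq_abs, Nat.abs_cast] at h4
  have h5 : Real.log L ^ m ≤ A⁻¹ * L := le_trans (le_abs_self _) h4
  calc A * Real.log L ^ m ≤ A * (A⁻¹ * L) := mul_le_mul_of_nonneg_left h5 hA.le
    _ = L := by field_simp

/-- the choice of the parameters -/
private theorem fam_num {d R : ℕ} {x C₁ l : ℝ} {k : ℕ} (hd : 0 < d) (hC : 1 ≤ C₁) (hl : 1 ≤ l)
    (hR : 0 < R) (hRx : (R : ℝ) ≤ x) (hx : x ≤ C₁ * l ^ k) (p : ℕ)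
    (hp : p = ⌈50 * (8 * (R : ℝ) ^ 3 + 1) ^ 2 * x⌉₊) :
    (p : ℝ) ≤ 4051 * C₁ ^ 7 * l ^ (7 * k) ∧
    (((d ^ (2 * R ^ 2)) ^ (2 * p * R ^ 2) : ℕ) : ℝ) ≤
      Real.exp ((16204 * Real.log d * C₁ ^ 11 + C₁ + 1) * l ^ (11 * k)) ∧
    Real.exp (-((16204 * Real.log d * C₁ ^ 11 + C₁ + 1) * l ^ (11 * k))) ≤
      Real.exp (-(x / 2)) / 2 := by
  have hR1 : (1 : ℝ) ≤ R := by exact_mod_cast hR
  have hx1 : 1 ≤ x := hR1.trans hRx
  have hx0 : 0 ≤ x := by linarith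
  have hd1 : (1 : ℝ) ≤ d := by exact_mod_cast hd
  have hd0 : (0 : ℝ) < d := by linarith
  have hlog : 0 ≤ Real.log d := Real.log_nonneg hd1
  have hC0 : 0 ≤ C₁ := by linarith
  have hl0 : 0 ≤ l := by linarith
  have hp1 : (p : ℝ) ≤ 4051 * x ^ 7 := by
    have h1 : (p : ℝ) ≤ 50 * (8 * (R : ℝ) ^ 3 + 1) ^ 2 * x + 1 := by
      rw [hp]
      exact (Nat.ceil_lt_add_one (by positivity)).le
    have h2 : (R : ℝ) ^ 3 ≤ x ^ 3 := pow_le_pow_left₀ (by linarith) hRx 3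
    have h3 : (1 : ℝ) ≤ x ^ 3 := one_le_pow₀ hx1
    have h4 : 8 * (R : ℝ) ^ 3 + 1 ≤ 9 * x ^ 3 := by linarith
    have h5 : (8 * (R : ℝ) ^ 3 + 1) ^ 2 ≤ (9 * x ^ 3) ^ 2 :=
      pow_le_pow_left₀ (by positivity) h4 2
    have h6 : (1 : ℝ) ≤ x ^ 7 := one_le_pow₀ hx1
    calc (p : ℝ) ≤ 50 * (8 * (R : ℝ) ^ 3 + 1) ^ 2 * x + 1 := h1
      _ ≤ 50 * (9 * x ^ 3) ^ 2 * x + x ^ 7 := by
          have := mul_le_mul_of_nonneg_right (mul_le_mul_of_nonneg_left h5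
            (by norm_num : (0 : ℝ) ≤ 50)) hx0
          linarith
      _ = 4051 * x ^ 7 := by ring
  have hx7 : x ^ 7 ≤ C₁ ^ 7 * l ^ (7 * k) := by
    calc x ^ 7 ≤ (C₁ * l ^ k) ^ 7 := pow_le_pow_left₀ hx0 hx 7
      _ = C₁ ^ 7 * l ^ (7 * k) := by rw [mul_pow, ← pow_mul, mul_comm k 7]
  have hp2 : (p : ℝ) ≤ 4051 * C₁ ^ 7 * l ^ (7 * k) := by
    calc (p : ℝ) ≤ 4051 * x ^ 7 := hp1
      _ ≤ 4051 * (C₁ ^ 7 * l ^ (7 * k)) := mul_le_mul_of_nonneg_left hx7 (by norm_num)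
      _ = 4051 * C₁ ^ 7 * l ^ (7 * k) := by ring
  have hpR : 4 * (p : ℝ) * (R : ℝ) ^ 4 ≤ 16204 * C₁ ^ 11 * l ^ (11 * k) := by
    have h1 : (R : ℝ) ^ 4 ≤ (C₁ * l ^ k) ^ 4 := pow_le_pow_left₀ (by linarith) (hRx.trans hx) 4
    calc 4 * (p : ℝ) * (R : ℝ) ^ 4 ≤ 4 * (4051 * C₁ ^ 7 * l ^ (7 * k)) * (C₁ * l ^ k) ^ 4 := by
          refine mul_le_mul ?_ h1 (by positivity) (by positivity)
          linarith
      _ = 16204 * C₁ ^ 11 * l ^ (11 * k) := by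
          rw [mul_pow, ← pow_mul, show 11 * k = 7 * k + k * 4 by ring, pow_add]
          ring
  have h11 : 1 ≤ l ^ (11 * k) := one_le_pow₀ hl
  refine ⟨hp2, ?_, ?_⟩
  · have e : (((d ^ (2 * R ^ 2)) ^ (2 * p * R ^ 2) : ℕ) : ℝ) =
        Real.exp (Real.log d * (4 * (p : ℝ) * (R : ℝ) ^ 4)) := by
      rw [← pow_mul, show Real.log d * (4 * (p : ℝ) * (R : ℝ) ^ 4) =
        ((2 * R ^ 2 * (2 * p * R ^ 2) : ℕ) : ℝ) * Real.log d by push_cast; ring,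
        Real.exp_nat_mul, Real.exp_log hd0]
      push_cast
      rfl
    rw [e]
    refine Real.exp_le_exp.mpr ?_
    calc Real.log d * (4 * (p : ℝ) * (R : ℝ) ^ 4) ≤
          Real.log d * (16204 * C₁ ^ 11 * l ^ (11 * k)) := mul_le_mul_of_nonneg_left hpR hlog
      _ ≤ (16204 * Real.log d * C₁ ^ 11 + C₁ + 1) * l ^ (11 * k) := by nlinarith
  · have h1 : Real.exp (-(x / 2) - 1) ≤ Real.exp (-(x / 2)) / 2 := by
      rw [Real.exp_sub]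
      refine div_le_div_of_nonneg_left (Real.exp_pos _).le (by norm_num) ?_
      linarith [Real.exp_one_gt_d9]
    refine le_trans (Real.exp_le_exp.mpr ?_) h1
    have h2 : l ^ k ≤ l ^ (11 * k) := pow_le_pow_right₀ hl (by omega)
    have h3 : C₁ * l ^ k ≤ C₁ * l ^ (11 * k) := mul_le_mul_of_nonneg_left h2 hC0
    have h4 : 0 ≤ 16204 * Real.log d * C₁ ^ 11 * l ^ (11 * k) := by positivity
    nlinarith

/- PROOF. `x = C l ^ k`, `l = log L`; `0 < R ≤ x`, so `x > 0` and `C > 0`. `plain_parent` with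
`β = κ = x` and `p = ⌈50 (8 R ^ 3 + 1) ^ 2 x⌉₊`, which is at most `4051 (C + 1) ^ 7 l ^ (7 k)`
(`l ≥ 1`), so that `4 p ∑ v, nrm .. ≤ 4 p L ^ 2 L ^ (- 3) = 4 p / L ≤ 1` for large `L`
(`(log L) ^ k' / L → 0`: `isLittleO_pow_log_id_atTop`). The bond dimension is
`exp (log d * 4 p R ^ 4) ≤ exp (C' l ^ (11 k))`, and `exp (- (x / 2)) / 2 ≥ exp (- (C' l ^ (11 k)))`
(`1 / 2 ≥ exp (- 1)`). Compare `family_param` in EC/Family.lean. -/
theorem family_parent {d : ℕ} (hd : 0 < d) {Ψ : ∀ (L : ℕ) [NeZero L], Vec d L}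
    (hΨ : ∃ L₁ : ℕ, ∀ (L : ℕ) [NeZero L], L₁ ≤ L → nrm (Ψ L) = 1) (H : ParentTests Ψ) :
    QuasiOverlap Ψ := by
  obtain ⟨L₁, hL₁⟩ := hΨ
  obtain ⟨k, C, L₀, hL₀⟩ := H
  set C₁ : ℝ := max C 1 with hC₁
  have hC1 : 1 ≤ C₁ := le_max_right _ _
  obtain ⟨L₂, hL₂⟩ := fam_large (16204 * C₁ ^ 7) (by positivity) (7 * k)
  refine ⟨11 * k, 16204 * Real.log d * C₁ ^ 11 + C₁ + 1, max (max L₀ L₁) (max L₂ 3),
    fun L _ hL => ?_⟩
  have hLa : L₀ ≤ L := (le_max_left _ _).trans ((le_max_left _ _).trans hL)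
  have hLb : L₁ ≤ L := (le_max_right _ _).trans ((le_max_left _ _).trans hL)
  have hLc : L₂ ≤ L := (le_max_left _ _).trans ((le_max_right _ _).trans hL)
  have hLd : 3 ≤ L := (le_max_right _ _).trans ((le_max_right _ _).trans hL)
  have hl : 1 ≤ Real.log L := fam_log hLd
  obtain ⟨R, q, hR, hRL, hRx, hq, hqΨ, hZ⟩ := hL₀ L hLa
  set x : ℝ := C * Real.log L ^ k with hx
  have hxC : x ≤ C₁ * Real.log L ^ k :=
    mul_le_mul_of_nonneg_right (le_max_left _ _) (by positivity)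
  obtain ⟨e1, e2, e3⟩ := fam_num (d := d) hd hC1 hl hR hRx hxC _ rfl
  set p : ℕ := ⌈50 * (8 * (R : ℝ) ^ 3 + 1) ^ 2 * x⌉₊ with hp
  have hx0 : 0 ≤ x := le_trans (Nat.cast_nonneg R) hRx
  have hL0 : (0 : ℝ) < L := by
    have : (3 : ℝ) ≤ L := by exact_mod_cast hLd
    linarith
  have hsum : ∑ v, nrm ((translate L (q v) v).mulVec (Ψ L)) ≤ (L : ℝ)⁻¹ := by
    refine le_trans (Finset.sum_le_sum fun v _ => hqΨ v) ?_
    rw [Finset.sum_const, nsmul_eq_mul, Finset.card_univ]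
    have hc : Fintype.card (Site L) = L * L := by
      rw [Fintype.card_prod, ZMod.card]
    rw [hc, Nat.cast_mul, show (-3 : ℝ) = ((-3 : ℤ) : ℝ) by norm_num, Real.rpow_intCast]
    refine le_of_eq ?_
    rw [zpow_neg]
    field_simp
  have h4 : 4 * (p : ℝ) ≤ L := by
    refine le_trans ?_ (hL₂ L hLc)
    calc 4 * (p : ℝ) ≤ 4 * (4051 * C₁ ^ 7 * Real.log L ^ (7 * k)) := by linarith
      _ = 16204 * C₁ ^ 7 * Real.log L ^ (7 * k) := by ring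
  have hε : 4 * (p : ℝ) * ∑ v, nrm ((translate L (q v) v).mulVec (Ψ L)) ≤ 1 := by
    calc 4 * (p : ℝ) * ∑ v, nrm ((translate L (q v) v).mulVec (Ψ L)) ≤ L * (L : ℝ)⁻¹ := by
          refine mul_le_mul h4 hsum ?_ hL0.le
          exact Finset.sum_nonneg fun v _ => Real.sqrt_nonneg _
      _ = 1 := mul_inv_cancel₀ hL0.ne'
  have hherm := testSum_isHermitian (fun v => (hq v).1)
  obtain ⟨Φ, f1, f2, f3⟩ := plain_parent hd L (Ψ L) (hL₁ L hLb) R hR hRL q hq x x hx0 hherm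
    (hZ hherm) p (Nat.le_ceil _) hε
  exact ⟨_, Φ, f1, e2, f2, (mul_le_mul_of_nonneg_right e3 (Real.sqrt_nonneg _)).trans f3⟩

end Pool.Agent.FFG.HE
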