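import Pool.Agent.FFG.HE.Defs

/-!
# Hidden-entropy criterion: reduction to the light cone
-/

open Finset
open scoped InnerProductSpace

set_option autoImplicit false
set_option linter.unusedSectionVars false
set_option linter.unusedVariables false

namespace Pool.Agent.FFG.HE

open Pool.Agent.PEPS953 Pool.Agent.FFG Pool.Agent.FFG.EC

variable {E : Type} [NormedAddCommGroup E] [InnerProductSpace ℂ E] [CompleteSpace E] {ι : Type}
  [Fintype ι] [DecidableEq ι]

private theorem pp_mul_neg {P : E →L[ℂ] E} (hP : IsStarProjection P) (s : ℝ) :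
    pp P s * pp P (-s) = 1 := by
  have h : P * P = P := hP.isIdempotentElem
  have e : ((Real.exp (-s) - 1 : ℝ) : ℂ) + ((Real.exp (- -s) - 1 : ℝ) : ℂ) +
      ((Real.exp (-s) - 1 : ℝ) : ℂ) * ((Real.exp (- -s) - 1 : ℝ) : ℂ) = 0 := by
    rw [← Complex.ofReal_mul, ← Complex.ofReal_add, ← Complex.ofReal_add]
    have : Real.exp (-s) * Real.exp (- -s) = 1 := by
      rw [← Real.exp_add]
      simp
    norm_cast
    linarith
  unfold pp
  set a : ℂ := ((Real.exp (-s) - 1 : ℝ) : ℂ) with ha
  set b : ℂ := ((Real.exp (- -s) - 1 : ℝ) : ℂ) with hb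
  have h1 : (1 + a • P) * (1 + b • P) = 1 + (a + b + a * b) • P := by
    rw [add_mul, one_mul, mul_add, mul_one, smul_mul_smul_comm, h, add_smul, add_smul]
    abel
  rw [h1, e, zero_smul, add_zero]

private theorem comm_pp {X P : E →L[ℂ] E} (h : Commute X P) (s : ℝ) : Commute X (pp P s) := by
  unfold pp
  exact (Commute.one_right X).add_right (h.smul_right _)

private theorem comm_cj {Q : ι → E →L[ℂ] E} (s : ℝ) {Z X : E →L[ℂ] E} (hX : Commute Z X) :
    ∀ l : List ι, (∀ w ∈ l, Commute Z (Q w)) → Commute Z (cj Q s l X)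
  | [], _ => hX
  | i :: l, h => by
    have h1 := comm_cj s hX l fun w hw => h w (List.mem_cons_of_mem _ hw)
    have h2 := h i List.mem_cons_self
    exact ((comm_pp h2 s).mul_right h1).mul_right (comm_pp h2 (-s))

theorem cj_filter {Q : ι → E →L[ℂ] E} {c : ι → ℕ} {C : ι → Finset ι} {m : ℕ} (H : Cone Q c C m)
    (s : ℝ) (j : ι) (l : List ι) (hl : Sorted c l) :
    cj Q s l (Q j) = cj Q s (l.filter fun i => i ∈ C j) (Q j) := by
  induction l with
  | nil => rfl
  | cons i l ih =>
    have hp := List.pairwise_cons.1 hl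
    have ih' := ih hp.2
    by_cases h : i ∈ C j
    · rw [List.filter_cons_of_pos (by simpa using h)]
      change pp (Q i) s * cj Q s l (Q j) * pp (Q i) (-s) = pp (Q i) s * _ * pp (Q i) (-s)
      rw [ih']
    · rw [List.filter_cons_of_neg (by simpa using h)]
      change pp (Q i) s * cj Q s l (Q j) * pp (Q i) (-s) = _
      rw [ih']
      have hc : Commute (Q i) (cj Q s (l.filter fun i => i ∈ C j) (Q j)) := by
        refine comm_cj s ?_ _ fun w hw => ?_
        · by_contra hne
          exact h (H.near i j hne)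
        · obtain ⟨hwl, hwC⟩ := List.mem_filter.1 hw
          have hwC' : w ∈ C j := by simpa using hwC
          rcases lt_or_eq_of_le (hp.1 w hwl).1 with hlt | heq
          · by_contra hne
            exact h (H.step i w j hwC' hlt hne)
          · exact H.col i w heq
      have h1 : pp (Q i) s * cj Q s (l.filter fun i => i ∈ C j) (Q j) =
          cj Q s (l.filter fun i => i ∈ C j) (Q j) * pp (Q i) s :=
        ((comm_pp hc.symm s).eq).symm
      rw [h1, mul_assoc, pp_mul_neg (H.proj i), mul_one]

end Pool.Agent.FFG.HE
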