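import Pool.Agent.FFG.HE.Defs

/-!
# Hidden-entropy criterion: colours and light cones on the torus
-/

open Finset
open scoped InnerProductSpace

set_option autoImplicit false
set_option linter.unusedSectionVars false
set_option linter.unusedVariables false

namespace Pool.Agent.FFG.HE

open Pool.Agent.PEPS953 Pool.Agent.FFG Pool.Agent.FFG.EC

open Pool.Agent.FFG.EPlain (boxAt)

variable {d L : ℕ} [NeZero L]

/- PROOF. Sort `univ.toList` by `c` (`List.mergeSort` or `Finset.sort` for the lexicographic order, or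
induction on the number of elements). -/
theorem exists_sorted {ι : Type} [Fintype ι] [DecidableEq ι] (c : ι → ℕ) :
    ∃ l : List ι, Sorted c l ∧ ∀ i, i ∈ l := by
  classical
  let r : ι → ι → Prop := fun a b => c a ≤ c b
  have : Std.Total r := ⟨fun a b => le_total (c a) (c b)⟩
  have : IsTrans ι r := ⟨fun a b c' h1 h2 => le_trans h1 h2⟩
  refine ⟨(univ : Finset ι).toList.insertionSort r, ?_, fun i => ?_⟩
  · have h1 := List.pairwise_insertionSort r (univ : Finset ι).toList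
    have h2 : ((univ : Finset ι).toList.insertionSort r).Nodup :=
      (List.perm_insertionSort r _).nodup_iff.2 (Finset.nodup_toList _)
    exact h1.and h2
  · rw [List.mem_insertionSort, Finset.mem_toList]
    exact mem_univ i

private theorem ball_card (ρ : ℕ) (u : Site L) (s : Finset (Site L))
    (h : ∀ v ∈ s, sdist v u ≤ ρ) : s.card ≤ (2 * ρ + 1) ^ 2 := by
  classical
  let F : Fin (2 * ρ + 1) × Fin (2 * ρ + 1) → Site L := fun a =>
    (u.1 + ((a.1 : ℕ) : ZMod L) - ((ρ : ℕ) : ZMod L),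
      u.2 + ((a.2 : ℕ) : ZMod L) - ((ρ : ℕ) : ZMod L))
  have key : ∀ x y : ZMod L, cdist x y ≤ ρ → ∃ a : Fin (2 * ρ + 1),
      y + ((a : ℕ) : ZMod L) - ((ρ : ℕ) : ZMod L) = x := by
    intro x y hxy
    unfold cdist at hxy
    set k : ℤ := (x - y).valMinAbs with hk
    have hk1 : ((k : ℤ) : ZMod L) = x - y := by
      rw [hk, ZMod.coe_valMinAbs]
    have h0 : 0 ≤ k + ρ := by omega
    refine ⟨⟨(k + ρ).toNat, by omega⟩, ?_⟩
    have h1 : (((k + ρ).toNat : ℕ) : ZMod L) = ((k + ρ : ℤ) : ZMod L) := by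
      have : (((k + ρ).toNat : ℤ)) = k + ρ := Int.toNat_of_nonneg h0
      rw [← this]
      push_cast
      rfl
    show y + (((k + ρ).toNat : ℕ) : ZMod L) - ((ρ : ℕ) : ZMod L) = x
    rw [h1]
    push_cast
    rw [hk1]
    ring
  have hsub : s ⊆ univ.image F := by
    intro v hv
    have h1 := h v hv
    unfold sdist at h1
    obtain ⟨a, ha⟩ := key v.1 u.1 ((le_max_left _ _).trans h1)
    obtain ⟨b, hb⟩ := key v.2 u.2 ((le_max_right _ _).trans h1)
    rw [mem_image]
    exact ⟨(a, b), mem_univ _, Prod.ext ha hb⟩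
  calc s.card ≤ (univ.image F).card := card_le_card hsub
    _ ≤ (univ : Finset (Fin (2 * ρ + 1) × Fin (2 * ρ + 1))).card := card_image_le
    _ = (2 * ρ + 1) ^ 2 := by
      rw [card_univ, Fintype.card_prod, Fintype.card_fin, sq]

/- PROOF. `col` from `ov_col hR hRL` (`FFG/Pos.lean`), `c v = (col v : ℕ) < 4 R ^ 2`,
`C j = {i | sdist i j ≤ R * (4 R ^ 2 - c i)}`. If the boxes at `u` and `v` do not overlap
(`¬ ov R u v`), then `boxAt L R u` and `boxAt L R v` are disjoint, so `Q u`, `Q v` commute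
(`LocalOn.commute`); `ov R u v` implies `sdist u v < R` (`ov_sdist`). `near`: `4 R ^ 2 - c i ≥ 1`.
`step`: `sdist i j ≤ sdist i w + sdist w j ≤ R + R * (4 R ^ 2 - c w) ≤ R * (4 R ^ 2 - c i)`.
`card`, `dual`: both sets are contained in the ball of radius `4 R ^ 3` about a site, which has at
most `(8 R ^ 3 + 1) ^ 2` elements (write `v = (u.1 - ρ + a, u.2 - ρ + b)`, `a, b ≤ 2 ρ`, compare
`ov_deg` in `FFG/Pos.lean`; `x - y = ((x - y).valMinAbs : ZMod L)`). -/
theorem cone_torus {R : ℕ} (hR : 0 < R) (hRL : R ≤ L) {Q : Site L → Hil d L →L[ℂ] Hil d L}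
    (hQ : ∀ v, IsStarProjection (Q v)) (hloc : ∀ v, LocalOn (boxAt L R v) (Q v)) :
    ∃ (c : Site L → ℕ) (C : Site L → Finset (Site L)), Cone Q c C ((8 * R ^ 3 + 1) ^ 2) := by
  classical
  obtain ⟨col, hcol⟩ := ov_col (L := L) hR hRL
  have hcomm : ∀ u v, ¬ ov R u v → Q u * Q v = Q v * Q u := by
    intro u v huv
    refine LocalOn.commute ?_ (hloc u) (hloc v)
    rw [Finset.disjoint_left]
    intro w hw hw'
    unfold boxAt at hw hw'
    rw [Finset.mem_image] at hw hw'
    obtain ⟨p, _, hp⟩ := hw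
    obtain ⟨q, _, hq⟩ := hw'
    exact huv ⟨p, q, hp.trans hq.symm⟩
  have hdist : ∀ u v, Q u * Q v ≠ Q v * Q u → sdist u v < R := by
    intro u v h
    apply ov_sdist
    by_contra hc
    exact h (hcomm u v hc)
  have hlt : ∀ v, (col v : ℕ) < 4 * R ^ 2 := fun v => (col v).2
  have hball : ∀ i : Site L, R * (4 * R ^ 2 - (col i : ℕ)) ≤ 4 * R ^ 3 := by
    intro i
    calc R * (4 * R ^ 2 - (col i : ℕ)) ≤ R * (4 * R ^ 2) := Nat.mul_le_mul_left _ (Nat.sub_le _ _)
      _ = 4 * R ^ 3 := by ring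
  have hm : (2 * (4 * R ^ 3) + 1) ^ 2 = (8 * R ^ 3 + 1) ^ 2 := by ring
  refine ⟨fun v => (col v : ℕ), fun j => univ.filter fun i =>
    sdist i j ≤ R * (4 * R ^ 2 - (col i : ℕ)), ?_⟩
  refine ⟨hQ, ?_, ?_, ?_, ?_, ?_⟩
  · intro i j hij
    by_cases h : i = j
    · rw [h]
    · exact hcomm i j (hcol i j (Fin.ext hij) h)
  · intro i j h
    rw [mem_filter]
    refine ⟨mem_univ _, ?_⟩
    have h1 := hdist i j h
    have h2 := hlt i
    have h3 : 1 ≤ 4 * R ^ 2 - (col i : ℕ) := by omega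
    calc sdist i j ≤ R * 1 := by omega
      _ ≤ _ := Nat.mul_le_mul_left _ h3
  · intro i w j hw hc h
    rw [mem_filter] at hw ⊢
    refine ⟨mem_univ _, ?_⟩
    have h1 := hdist i w h
    have h2 := hlt w
    have h3 := hlt i
    have h4 : (4 * R ^ 2 - (col w : ℕ)) + 1 ≤ 4 * R ^ 2 - (col i : ℕ) := by
      have hc' : (col i : ℕ) < (col w : ℕ) := hc
      omega
    calc sdist i j ≤ sdist i w + sdist w j := sdist_triangle i w j
      _ ≤ R + R * (4 * R ^ 2 - (col w : ℕ)) := Nat.add_le_add h1.le hw.2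
      _ = R * ((4 * R ^ 2 - (col w : ℕ)) + 1) := by ring
      _ ≤ _ := Nat.mul_le_mul_left _ h4
  · intro j
    rw [← hm]
    refine ball_card (4 * R ^ 3) j _ fun v hv => ?_
    rw [mem_filter] at hv
    exact hv.2.trans (hball v)
  · intro i
    rw [← hm]
    refine ball_card (4 * R ^ 3) i _ fun v hv => ?_
    rw [mem_filter, mem_filter] at hv
    rw [sdist_comm]
    exact hv.2.2.trans (hball i)

end Pool.Agent.FFG.HE
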