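import Pool.Agent.FFG.HE.Ent

/-!
# Hidden-entropy criterion: the Gibbs state of the sum of the tests
-/

open Finset
open scoped InnerProductSpace

set_option autoImplicit false
set_option linter.unusedSectionVars false
set_option linter.unusedVariables false

namespace Pool.Agent.FFG.HE

open Pool.Agent.PEPS953 Pool.Agent.FFG Pool.Agent.FFG.EC Pool.Agent.FFG.HPlain

open Pool.Agent.FFG.EPlain (glue rdm boxAt)

variable {d L : ℕ} [NeZero L]

/- PROOF. Let `f i` be the eigenvalues of `mat F`, `Z = ∑ exp (- 2 κ f i) > 0` and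
`g x = exp (- 2 κ x) / Z`. By `fnR_state`, `ρ = fnR hF g` is a state, and so is
`chd w K (mat U) ρ` (`chd_state`). With `T = ex ρ F = ∑ i, g (f i) * f i` (`trace_fnc_mul`):
`∑ negMulLog (g (f i)) = ∑ g (f i) * (2 κ f i + log Z) = 2 κ T + log Z`. By `ent_chd_ge`, `H` and
`hdev`: `2 κ T + log Z ≤ ent (chd ..) ≤ κ (1 + ∑ dev) ≤ κ (2 + 2 T)`. So `log Z ≤ 2 κ`. -/
theorem gibbs {Ψ : Hil d L} {R : ℕ} {κ : ℝ} (hκ : 0 ≤ κ) (H : FewDefects Ψ.ofLp R κ)
    (hd : 0 < d) {w : ℕ → ℝ} {K : ℕ} (hw : Wts w K) {U : Hil d L →L[ℂ] Hil d L}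
    (hU : star U * U = 1) {F : Hil d L →L[ℂ] Hil d L}
    (hdev : ∀ ρ : Matrix (Conf d L) (Conf d L) ℂ, IsState ρ →
      ∀ h : (chd w K (mat U) ρ).IsHermitian,
        ∑ v, dev Ψ.ofLp h (boxAt L R v) ≤ 1 + 2 * ex ρ F)
    (hF : (mat F).IsHermitian) :
    ∑ i, Real.exp (-(2 * κ) * hF.eigenvalues i) ≤ Real.exp (2 * κ) := by
  have hne : Nonempty (Conf d L) := ⟨fun _ => ⟨0, hd⟩⟩
  have hU' : (mat U).conjTranspose * mat U = 1 := by
    have h1 : mat (star U) = star (mat U) :=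
      map_star (Matrix.toEuclideanCLM (𝕜 := ℂ) (n := Conf d L)).symm U
    have h2 : mat (star U * U) = mat (star U) * mat U :=
      map_mul (Matrix.toEuclideanCLM (𝕜 := ℂ) (n := Conf d L)).symm _ _
    have h3 : mat (1 : Hil d L →L[ℂ] Hil d L) = 1 :=
      map_one (Matrix.toEuclideanCLM (𝕜 := ℂ) (n := Conf d L)).symm
    rw [← Matrix.star_eq_conjTranspose, ← h1, ← h2, hU, h3]
  set f : Conf d L → ℝ := hF.eigenvalues with hf
  set Z : ℝ := ∑ i, Real.exp (-(2 * κ) * f i) with hZ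
  have hZ0 : 0 < Z := Finset.sum_pos (fun i _ => Real.exp_pos _) Finset.univ_nonempty
  set g : ℝ → ℝ := fun x => Real.exp (-(2 * κ) * x) / Z with hg
  have hg0 : ∀ x, 0 < g x := fun x => div_pos (Real.exp_pos _) hZ0
  have hg1 : ∑ i, g (f i) = 1 := by
    rw [hg]
    simp only
    rw [← Finset.sum_div, ← hZ, div_self hZ0.ne']
  have hρ : IsState (fnR hF g) := fnR_state hF (fun i => (hg0 _).le) hg1
  have hchd : IsState (chd w K (mat U) (fnR hF g)) := chd_state hw hU' hρ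
  have e1 := ent_chd_ge hF (f := g) (fun i => (hg0 _).le) hw hU' hchd.herm
  have e2 := H _ hchd
  have e3 := hdev _ hρ hchd.herm
  have e4 : ex (fnR hF g) F = ∑ i, g (f i) * f i := by
    unfold ex fnR
    rw [trace_fnc_mul hF (fun x => (g x : ℂ))]
    have : (∑ i, ((g (hF.eigenvalues i) : ℝ) : ℂ) * (hF.eigenvalues i : ℂ)) =
        ((∑ i, g (f i) * f i : ℝ) : ℂ) := by
      rw [Complex.ofReal_sum]
      exact Finset.sum_congr rfl fun i _ => by rw [Complex.ofReal_mul]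
    rw [this, Complex.ofReal_re]
  have e5 : ∑ i, Real.negMulLog (g (f i)) = 2 * κ * (∑ i, g (f i) * f i) + Real.log Z := by
    have h1 : ∀ i, Real.negMulLog (g (f i)) = 2 * κ * (g (f i) * f i) + g (f i) * Real.log Z := by
      intro i
      unfold Real.negMulLog
      have h2 : Real.log (g (f i)) = -(2 * κ) * f i - Real.log Z := by
        rw [hg]
        simp only
        rw [Real.log_div (Real.exp_ne_zero _) hZ0.ne', Real.log_exp]
      rw [h2]
      ring
    rw [Finset.sum_congr rfl fun i _ => h1 i, Finset.sum_add_distrib, ← Finset.mul_sum,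
      ← Finset.sum_mul, hg1, one_mul]
  rw [← Real.log_le_iff_le_exp hZ0]
  rw [e5] at e1
  rw [e4] at e3
  have e6 : κ * (1 + ∑ v, dev Ψ.ofLp hchd.herm (boxAt L R v)) ≤
      κ * (1 + (1 + 2 * ∑ i, g (f i) * f i)) :=
    mul_le_mul_of_nonneg_left (by linarith) hκ
  have e7 : 2 * κ * (∑ i, g (f i) * f i) + Real.log Z ≤
      κ * (1 + (1 + 2 * ∑ i, g (f i) * f i)) := le_trans e1 (le_trans e2 e6)
  linarith

end Pool.Agent.FFG.HE
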