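import Pool.Agent.FFG.HE.Defs

/-!
# Hidden-entropy criterion: the filtered operator on the ground state
-/

open Finset
open scoped InnerProductSpace

set_option autoImplicit false
set_option linter.unusedSectionVars false
set_option linter.unusedVariables false

namespace Pool.Agent.FFG.HE

open Pool.Agent.PEPS953 Pool.Agent.FFG Pool.Agent.FFG.EC

variable {E : Type} [NormedAddCommGroup E] [InnerProductSpace ℂ E] [CompleteSpace E]

/-- The exponential applied to an eigenvector. -/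
private lemma ground_exp_apply {H : E →L[ℂ] E} {φ : E} {l : ℂ} (h : H φ = l • φ) (z : ℂ) :
    NormedSpace.exp (z • H) φ = Complex.exp (z * l) • φ := by
  have h1 := NormedSpace.exp_series_hasSum_exp' (𝕂 := ℂ) (z • H)
  have h2 : HasSum (fun n : ℕ => (((n.factorial : ℂ)⁻¹) • (z • H) ^ n) φ)
      (NormedSpace.exp (z • H) φ) :=
    (ContinuousLinearMap.apply ℂ E φ).hasSum h1
  have h3 : HasSum (fun n : ℕ => (n.factorial : ℂ)⁻¹ * (z * l) ^ n) (Complex.exp (z * l)) := by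
    have h4 := NormedSpace.exp_series_hasSum_exp' (𝕂 := ℂ) (z * l)
    rw [← Complex.exp_eq_exp_ℂ] at h4
    simpa [smul_eq_mul] using h4
  have h5 := h3.smul_const φ
  refine h2.unique ?_
  convert h5 using 1
  funext n
  have h6 : ∀ m : ℕ, ((z • H) ^ m) φ = (z * l) ^ m • φ := by
    intro m
    induction m with
    | zero => simp
    | succ m ih =>
      rw [pow_succ', ContinuousLinearMap.mul_apply, ih, map_smul, ContinuousLinearMap.smul_apply, h,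
        smul_smul, smul_smul]
      congr 1
      ring
  rw [ContinuousLinearMap.smul_apply, h6, smul_smul]

private lemma ground_pow_apply {U : E →L[ℂ] E} {φ : E} {c : ℂ} (h : U φ = c • φ) (k : ℕ) :
    (U ^ k) φ = c ^ k • φ := by
  induction k with
  | zero => simp
  | succ k ih =>
    rw [pow_succ', ContinuousLinearMap.mul_apply, ih, map_smul, h, smul_smul]
    congr 1

/-- The component of the filtered operator on a pair of eigenvectors. -/
private lemma ground_comp {H X : E →L[ℂ] E} {E₀ l : ℝ} {Ψ φ : E}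
    (hΨ : H Ψ = (E₀ : ℂ) • Ψ) (hφ : H φ = (l : ℂ) • φ) (w : ℕ → ℝ) (K : ℕ) (h : ℝ) :
    ⟪φ, ch w K (evo H h) X Ψ⟫_ℂ =
      (∑ k ∈ range K, (w k : ℂ) * Complex.exp (-(k * (h * (l - E₀) : ℝ) * Complex.I))) *
        ⟪φ, X Ψ⟫_ℂ := by
  have hU : evo H h Ψ = Complex.exp ((h * Complex.I) * E₀) • Ψ := ground_exp_apply hΨ _
  have hV : evo H h φ = Complex.exp ((h * Complex.I) * l) • φ := ground_exp_apply hφ _
  unfold ch
  rw [ContinuousLinearMap.sum_apply, inner_sum, Finset.sum_mul]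
  refine Finset.sum_congr rfl fun k _ => ?_
  rw [ContinuousLinearMap.smul_apply, ContinuousLinearMap.mul_apply, ContinuousLinearMap.mul_apply,
    ground_pow_apply hU, map_smul, map_smul, inner_smul_right, inner_smul_right]
  have h2 : ⟪φ, (star (evo H h ^ k)) (X Ψ)⟫_ℂ = ⟪(evo H h ^ k) φ, X Ψ⟫_ℂ := by
    rw [ContinuousLinearMap.star_eq_adjoint, ContinuousLinearMap.adjoint_inner_right]
  have h3 : Complex.exp (h * Complex.I * E₀) ^ k *
      (starRingEnd ℂ) (Complex.exp (h * Complex.I * l) ^ k) =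
      Complex.exp (-(k * (h * (l - E₀) : ℝ) * Complex.I)) := by
    rw [← Complex.exp_nat_mul, ← Complex.exp_nat_mul, ← Complex.exp_conj, ← Complex.exp_add]
    congr 1
    simp only [map_mul, Complex.conj_I, Complex.conj_ofReal, map_natCast]
    push_cast
    ring
  rw [h2, ground_pow_apply hV, inner_smul_left, ← h3]
  ring

/- PROOF. `evo H t` is unitary, `star (evo H t) = evo H (-t)`, `evo H h ^ k = evo H (k h)`. Let `b i` be
an orthonormal eigenbasis of `H` with eigenvalues `e i`. `evo H t (b i) = exp (i t e i) • b i`,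
`evo H t Ψ = exp (i t E₀) • Ψ`. So `ch w K U X Ψ = D (X Ψ)` with
`D = ∑ k, w k exp (i k h E₀) • evo H (- k h)`, and `D (b i) = d i • b i`,
`d i = ∑ k, w k exp (- i k h (e i - E₀))`; `d i = 1` if `e i = E₀` and then `b i` is a multiple of
`Ψ`; otherwise `E₀ + Δ ≤ e i`, `h Δ ≤ h (e i - E₀) ≤ 2 h ‖H‖ ≤ π` (`|e i|, |E₀| ≤ ‖H‖`) and
`‖d i‖ ≤ δ`. The vector `y = X Ψ - ⟪Ψ, X Ψ⟫ Ψ` is orthogonal to `Ψ`, `‖y‖ ≤ ‖X‖`, and the left side
is `‖D y‖ ≤ δ ‖y‖` (`⟪b i, y⟫ = 0` for the `i` with `e i = E₀`; compare `norm_le_of_diag` in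
PEPS953/Spectral.lean, GP/FilterGround.lean). -/
theorem ch_ground [FiniteDimensional ℂ E] {H : E →L[ℂ] E} (hsa : IsSelfAdjoint H) {E₀ Δ : ℝ}
    {Ψ : E} (hgap : IsGappedGS H E₀ Δ Ψ) {h : ℝ} (hh : 0 < h) (hH : 2 * h * ‖H‖ ≤ Real.pi)
    {w : ℕ → ℝ} {K : ℕ} {δ : ℝ} (hδ : 0 ≤ δ) (hw : Flt w K (h * Δ) δ) (X : E →L[ℂ] E) :
    ‖ch w K (evo H h) X Ψ - ⟪Ψ, X Ψ⟫_ℂ • Ψ‖ ≤ δ * ‖X‖ := by
  have hS : (H : E →ₗ[ℂ] E).IsSymmetric := hsa.isSymmetric
  set b := hS.eigenvectorBasis rfl with hb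
  set lam := hS.eigenvalues rfl with hlam
  have happ : ∀ i, H (b i) = (lam i : ℂ) • b i := fun i => hS.apply_eigenvectorBasis rfl i
  have hbn : ∀ i, ‖b i‖ = 1 := fun i => b.orthonormal.1 i
  have hb0 : ∀ i, b i ≠ 0 := fun i => by rw [← norm_ne_zero_iff, hbn i]; norm_num
  set y : E := X Ψ - ⟪Ψ, X Ψ⟫_ℂ • Ψ with hy
  have hΨ1 : ⟪Ψ, Ψ⟫_ℂ = 1 := by
    rw [inner_self_eq_norm_sq_to_K, hgap.norm_eq]
    simp
  have hy0 : ⟪Ψ, y⟫_ℂ = 0 := by
    rw [hy, inner_sub_right, inner_smul_right, hΨ1, mul_one, sub_self]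
  have hyn : ‖y‖ ≤ ‖X‖ := by
    have h1 : X Ψ = y + ⟪Ψ, X Ψ⟫_ℂ • Ψ := by rw [hy]; abel
    have h20 : ⟪y, Ψ⟫_ℂ = 0 := by
      rw [← inner_conj_symm, hy0, map_zero]
    have h2 : ⟪y, ⟪Ψ, X Ψ⟫_ℂ • Ψ⟫_ℂ = 0 := by
      rw [inner_smul_right, h20, mul_zero]
    have h3 := norm_add_sq_eq_norm_sq_add_norm_sq_of_inner_eq_zero y (⟪Ψ, X Ψ⟫_ℂ • Ψ) h2
    rw [← h1] at h3
    have h4 : ‖y‖ ≤ ‖X Ψ‖ := by
      apply abs_le_of_sq_le_sq' _ (norm_nonneg _) |>.2
      nlinarith [mul_self_nonneg ‖⟪Ψ, X Ψ⟫_ℂ • Ψ‖]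
    have h5 := X.le_opNorm Ψ
    rw [hgap.norm_eq, mul_one] at h5
    exact h4.trans h5
  have hE := abs_le.mp hgap.abs_E_le
  have key : ∀ i, ‖⟪b i, ch w K (evo H h) X Ψ - ⟪Ψ, X Ψ⟫_ℂ • Ψ⟫_ℂ‖ ≤ δ * ‖⟪b i, y⟫_ℂ‖ := by
    intro i
    set D : ℂ := ∑ k ∈ range K,
      (w k : ℂ) * Complex.exp (-(k * (h * (lam i - E₀) : ℝ) * Complex.I)) with hD
    have hD1 : (D - 1) * ⟪b i, Ψ⟫_ℂ = 0 := by
      have h4 : ⟪H (b i), Ψ⟫_ℂ = ⟪b i, H Ψ⟫_ℂ := hS (b i) Ψ
      rw [hgap.eigen, happ, inner_smul_left, inner_smul_right, Complex.conj_ofReal] at h4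
      have h5 : ((lam i : ℂ) - E₀) * ⟪b i, Ψ⟫_ℂ = 0 := by rw [sub_mul, h4, sub_self]
      rcases mul_eq_zero.mp h5 with h6 | h6
      · have h7 : lam i = E₀ := by exact_mod_cast sub_eq_zero.mp h6
        have h8 : D = 1 := by
          rw [hD, h7, sub_self, mul_zero]
          simp only [Complex.ofReal_zero, mul_zero, zero_mul, neg_zero, Complex.exp_zero, mul_one]
          rw [← Complex.ofReal_sum, hw.sum, Complex.ofReal_one]
        rw [h8, sub_self, zero_mul]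
      · rw [h6, mul_zero]
    have hcomp : ⟪b i, ch w K (evo H h) X Ψ - ⟪Ψ, X Ψ⟫_ℂ • Ψ⟫_ℂ = D * ⟪b i, y⟫_ℂ := by
      rw [inner_sub_right, ground_comp hgap.eigen (happ i) w K h, ← hD, hy, inner_sub_right,
        inner_smul_right]
      linear_combination ⟪Ψ, X Ψ⟫_ℂ * hD1
    rw [hcomp, norm_mul]
    rcases hgap.gap (lam i) (b i) (hb0 i) (happ i) with ⟨hl, c, hc⟩ | hl
    · have h1 : ⟪b i, y⟫_ℂ = 0 := by rw [hc, inner_smul_left, hy0, mul_zero]
      rw [h1, norm_zero, mul_zero, mul_zero]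
    · refine mul_le_mul_of_nonneg_right ?_ (norm_nonneg _)
      have h2 : |lam i| ≤ ‖H‖ := by
        have h3 := H.le_opNorm (b i)
        rw [happ, norm_smul, hbn i, mul_one, mul_one] at h3
        simpa using h3
      have h3 := abs_le.mp h2
      refine hw.small (h * (lam i - E₀)) ?_ ?_
      · exact mul_le_mul_of_nonneg_left (by linarith) hh.le
      · have h4 : h * (lam i - E₀) ≤ h * (2 * ‖H‖) :=
          mul_le_mul_of_nonneg_left (by linarith [hE.1]) hh.le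
        linarith
  have h3 : ‖ch w K (evo H h) X Ψ - ⟪Ψ, X Ψ⟫_ℂ • Ψ‖ ^ 2 ≤ (δ * ‖y‖) ^ 2 := by
    rw [← b.sum_sq_norm_inner_right (ch w K (evo H h) X Ψ - ⟪Ψ, X Ψ⟫_ℂ • Ψ), mul_pow,
      ← b.sum_sq_norm_inner_right y, Finset.mul_sum]
    refine Finset.sum_le_sum fun i _ => ?_
    rw [← mul_pow]
    exact pow_le_pow_left₀ (norm_nonneg _) (key i) 2
  have h4 := le_of_sq_le_sq h3 (by positivity)
  exact h4.trans (mul_le_mul_of_nonneg_left hyn hδ)

end Pool.Agent.FFG.HE
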