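import Pool.Agent.FFG.HE.Defs
import Pool.Agent.FFG.GP.LRDiff
import Pool.Agent.FFG.GP.KVLocal
import Pool.Agent.FFG.GP.KVDiff
import Pool.Agent.FFG.Exotic

/-!
# Hidden-entropy criterion: local approximation of the time evolution
-/

open Finset
open scoped InnerProductSpace

set_option autoImplicit false
set_option linter.unusedSectionVars false
set_option linter.unusedVariables false

namespace Pool.Agent.FFG.HE

open Pool.Agent.PEPS953 Pool.Agent.FFG Pool.Agent.FFG.EC

variable {d L r : ℕ} [NeZero L]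

private theorem he12_mem_ball {ρ : ℕ} {v u : Site L} :
    u ∈ LT.ball ρ {v} ↔ sdist v u ≤ ρ := by
  unfold LT.ball
  simp

private theorem he12_ball_mono {ρ ρ' : ℕ} (h : ρ ≤ ρ') (v : Site L) :
    LT.ball ρ {v} ⊆ LT.ball ρ' ({v} : Finset (Site L)) := by
  intro u hu
  rw [he12_mem_ball] at hu ⊢
  omega

private theorem he12_disjoint {R : ℕ} {w u : Site L} (h : ¬ sdist w u ≤ R + 2 * r) :
    Disjoint (LT.ball (R + r) {w}) ((univ : Finset (Box r)).image (boxPos L r u)) := by
  rw [Finset.disjoint_left]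
  intro x hx hx'
  rw [he12_mem_ball] at hx
  rw [mem_image] at hx'
  obtain ⟨p, -, rfl⟩ := hx'
  have h1 := GP.gp12_box_dist u p
  have h2 := sdist_triangle w (boxPos L r u p) u
  rw [sdist_comm (boxPos L r u p) u] at h2
  omega

private theorem he12_card (ρ : ℕ) (v : Site L) :
    {w : Site L | sdist v w ≤ ρ}.ncard ≤ (2 * ρ + 1) ^ 2 := by
  have h1 := nbhd_card ρ ({v} : Finset (Site L))
  rw [card_singleton, mul_one] at h1
  have h2 : {w : Site L | sdist v w ≤ ρ} = ((nbhd ρ {v} : Finset (Site L)) :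
      Set (Site L)) := by
    ext w
    unfold nbhd
    simp only [Set.mem_ofPred_eq, coe_filter, mem_univ, true_and, mem_singleton, exists_eq_left]
    rw [sdist_comm]
  rw [h2, Set.ncard_coe_finset]
  exact h1

private theorem he12_lsys (hrL : r ≤ L) {h : Matrix (LConf d r) (LConf d r) ℂ}
    (hh : h.IsHermitian) {J : ℝ} (hJ : entNorm h ≤ J) (R : ℕ) :
    GP.LSys (fun (w : Site L) (_ : ℝ) => locOp L h w)
      (fun w O => LocalOn (LT.ball (R + r) {w}) O) (fun w u => sdist w u ≤ R + 2 * r) J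
      ((2 * (R + 2 * r) + 1) ^ 2) where
  cont v := continuous_const
  sa v t := GP.gp12_locOp_sa hh v
  norm v t := (norm_locOp_le hrL h v).trans hJ
  loc v t := by
    refine (locOp_localOn hrL h v).mono ((GP.gp12_box_ball (ρ := 0) ?_).trans
      (he12_ball_mono (by omega) v))
    rw [he12_mem_ball, sdist_self']
  comm v w t O hO hvw := LocalOn.commute (he12_disjoint hvw) hO (locOp_localOn hrL h w)
  deg v := he12_card (R + 2 * r) v

private theorem he12_reach {ρ : ℕ} (m : ℕ) : ∀ (v w : Site L),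
    GP.reach (fun w u => sdist w u ≤ ρ) m v w → sdist v w ≤ m * ρ := by
  induction m with
  | zero =>
    intro v w h
    have h' : w = v := h
    rw [h', sdist_self']
    exact Nat.zero_le _
  | succ m ih =>
    intro v w h
    have h' : GP.reach (fun w u => sdist w u ≤ ρ) m v w ∨
      ∃ u, sdist v u ≤ ρ ∧ GP.reach (fun w u => sdist w u ≤ ρ) m u w := h
    rcases h' with h' | ⟨u, hu, h'⟩
    · exact (ih v w h').trans (Nat.mul_le_mul_right _ (Nat.le_succ m))
    · have h1 := ih u w h'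
      have h2 := sdist_triangle v u w
      have h3 : (m + 1) * ρ = m * ρ + ρ := by ring
      omega

/- PROOF. `GP.lr_diff` (GP/LRDiff.lean) for the constant family `Z w t = locOp L h w`, with
`Loc w O = LocalOn (LT.ball (R + r) {w}) O`, `nc w u ↔ sdist w u ≤ R + 2 * r`,
`J` and `g = (2 * (R + 2 * r) + 1) ^ 2` (`LSys`: `norm` by the bound of `‖locOp L h w‖` by `entNorm h`,
`loc` and `comm` by `locOp_localOn`, `LocalOn.mono`, `LocalOn.commute`, `GP.gp12_box_ball`,
`GP.gp12_box_dist`; `deg`: a ball of radius `ρ` has at most `(2 ρ + 1) ^ 2` sites).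
`U t = evo H t` satisfies `Propag` (`(exp (t A))' = A exp (t A)`). `hfar`: `reach nc m v w` implies
`sdist v w ≤ m (R + 2 r)`, so `sdist v u > n (R + 2 r)` is far. The number of terms which are
left out is at most `L ^ 2`. -/
theorem evo_diff (hr : 0 < r) (hrL : r ≤ L) {h : Matrix (LConf d r) (LConf d r) ℂ}
    (hh : h.IsHermitian) {J : ℝ} (hJ : entNorm h ≤ J) (R n : ℕ) (v : Site L)
    {O : Hil d L →L[ℂ] Hil d L} (hO : LocalOn (LT.ball R {v}) O) {t : ℝ} (ht : 0 ≤ t) :
    ‖star (evo (ham L h) t) * O * evo (ham L h) t -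
      star (evo (hamOn h (LT.ball (n * (R + 2 * r)) {v})) t) * O *
        evo (hamOn h (LT.ball (n * (R + 2 * r)) {v})) t‖ ≤
      (L : ℝ) ^ 2 * (2 * J * ‖O‖ * t *
        ((2 * J * ((2 * (R + 2 * r) + 1) ^ 2 : ℕ) * t) ^ n / n.factorial)) := by
  have hJ0 : 0 ≤ J := (entNorm_nonneg h).trans hJ
  have hU : GP.Propag (fun t : ℝ => ∑ v ∈ (univ : Finset (Site L)), locOp L h v)
      (fun t => evo (ham L h) t) := GP.gp13_propag (ham L h)
  have hU' : GP.Propag (fun t : ℝ => ∑ v ∈ LT.ball (n * (R + 2 * r)) ({v} : Finset (Site L)),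
      locOp L h v) (fun t => evo (hamOn h (LT.ball (n * (R + 2 * r)) {v})) t) :=
    GP.gp13_propag (hamOn h (LT.ball (n * (R + 2 * r)) {v}))
  have key := GP.lr_diff hJ0 (he12_lsys hrL hh hJ R) (Finset.subset_univ _) hU hU' n v ?_ O
    (hO.mono (he12_ball_mono (by omega) v)) t ht
  · refine key.trans ?_
    apply mul_le_mul_of_nonneg_right
    · have h1 : ((univ : Finset (Site L)) \ LT.ball (n * (R + 2 * r)) {v}).card ≤ L ^ 2 := by
        refine (Finset.card_le_card (Finset.subset_univ _)).trans ?_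
        rw [Finset.card_univ, Fintype.card_prod, ZMod.card, pow_two]
      exact_mod_cast h1
    · positivity
  · intro u hu m hm w hw hwu
    rw [Finset.mem_sdiff, he12_mem_ball] at hu
    have h1 := he12_reach m v w hw
    have h2 := sdist_triangle v w u
    have h3 : (m + 1) * (R + 2 * r) ≤ n * (R + 2 * r) := Nat.mul_le_mul_right _ hm
    have h4 : (m + 1) * (R + 2 * r) = m * (R + 2 * r) + (R + 2 * r) := by ring
    exact hu.2 (by omega)

private theorem he12_evo_pow {E : Type} [NormedAddCommGroup E] [InnerProductSpace ℂ E]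
    [CompleteSpace E] (H : E →L[ℂ] E) (t : ℝ) (k : ℕ) : evo H t ^ k = evo H (k * t) := by
  have : NormedAlgebra ℚ (E →L[ℂ] E) := NormedAlgebra.restrictScalars ℚ ℂ _
  unfold evo
  rw [← NormedSpace.exp_nsmul]
  congr 1
  rw [← Nat.cast_smul_eq_nsmul ℂ, smul_smul]
  congr 1
  push_cast
  ring

/- PROOF. `evo H t ^ k = evo H (k t)`; convex combination of `evo_diff` at the times
`k t₀ ≤ K t₀ ≤ T` (the bound is increasing in `t`). -/
theorem ch_diff (hr : 0 < r) (hrL : r ≤ L) {h : Matrix (LConf d r) (LConf d r) ℂ}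
    (hh : h.IsHermitian) {J : ℝ} (hJ : entNorm h ≤ J) (R n : ℕ) (v : Site L)
    {O : Hil d L →L[ℂ] Hil d L} (hO : LocalOn (LT.ball R {v}) O) {t₀ T : ℝ} (ht : 0 ≤ t₀)
    {w : ℕ → ℝ} {K : ℕ} (hw : Wts w K) (hT : K * t₀ ≤ T) :
    ‖ch w K (evo (ham L h) t₀) O -
      ch w K (evo (hamOn h (LT.ball (n * (R + 2 * r)) {v})) t₀) O‖ ≤
      (L : ℝ) ^ 2 * (2 * J * ‖O‖ * T *
        ((2 * J * ((2 * (R + 2 * r) + 1) ^ 2 : ℕ) * T) ^ n / n.factorial)) := by
  have hJ0 : 0 ≤ J := (entNorm_nonneg h).trans hJ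
  set B : ℝ := (L : ℝ) ^ 2 * (2 * J * ‖O‖ * T *
        ((2 * J * ((2 * (R + 2 * r) + 1) ^ 2 : ℕ) * T) ^ n / n.factorial)) with hB
  unfold ch
  rw [← Finset.sum_sub_distrib]
  refine (norm_sum_le _ _).trans ?_
  have hterm : ∀ k ∈ range K, ‖(w k : ℂ) • (star (evo (ham L h) t₀ ^ k) * O *
      evo (ham L h) t₀ ^ k) - (w k : ℂ) •
      (star (evo (hamOn h (LT.ball (n * (R + 2 * r)) {v})) t₀ ^ k) * O *
        evo (hamOn h (LT.ball (n * (R + 2 * r)) {v})) t₀ ^ k)‖ ≤ w k * B := by
    intro k hk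
    rw [← smul_sub, norm_smul, Complex.norm_real, Real.norm_of_nonneg (hw.nonneg k)]
    apply mul_le_mul_of_nonneg_left _ (hw.nonneg k)
    rw [he12_evo_pow, he12_evo_pow]
    have hkt : 0 ≤ (k : ℝ) * t₀ := by positivity
    have hkT : (k : ℝ) * t₀ ≤ T := by
      refine le_trans ?_ hT
      apply mul_le_mul_of_nonneg_right _ ht
      exact_mod_cast (Finset.mem_range.mp hk).le
    have hT0 : 0 ≤ T := hkt.trans hkT
    refine (evo_diff hr hrL hh hJ R n v hO hkt).trans ?_
    rw [hB]
    gcongr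
  refine (Finset.sum_le_sum hterm).trans ?_
  rw [← Finset.sum_mul, hw.sum, one_mul]

private theorem he12_star {K : Finset (Site L)} {O : Hil d L →L[ℂ] Hil d L}
    (hO : LocalOn K O) : LocalOn K (star O) := by
  intro u hu a b
  have h1 := congrArg star (hO u hu b a)
  rw [star_mul, star_mul, star_su] at h1
  exact h1.symm

private theorem he12_pow {K : Finset (Site L)} {O : Hil d L →L[ℂ] Hil d L}
    (hO : LocalOn K O) (k : ℕ) : LocalOn K (O ^ k) := by
  intro u hu a b
  exact (Commute.pow_right (show Commute (su u a b) O from hO u hu a b) k).eq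

private theorem he12_sum {ι : Type} {K : Finset (Site L)} (s : Finset ι)
    (f : ι → Hil d L →L[ℂ] Hil d L) (hf : ∀ i ∈ s, LocalOn K (f i)) :
    LocalOn K (∑ i ∈ s, f i) := by
  intro u hu a b
  rw [Finset.mul_sum, Finset.sum_mul]
  exact Finset.sum_congr rfl fun i hi => hf i hi u hu a b

/- PROOF. `locOp L h u` with `u` in the ball of radius `n (R + 2 r)` is local on the ball of radius
`n (R + 2 r) + r`; the one-site operators `su` off this ball commute with `O`, with the partial
Hamiltonian, with its exponentials and their adjoints (`Commute.exp_right`; `star (su u a b) =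
su u b a`). -/
theorem ch_localOn (hrL : r ≤ L) {h : Matrix (LConf d r) (LConf d r) ℂ} (hh : h.IsHermitian)
    (R n : ℕ) (hn : 0 < n) (v : Site L) {O : Hil d L →L[ℂ] Hil d L}
    (hO : LocalOn (LT.ball R {v}) O) (t₀ : ℝ) (w : ℕ → ℝ) (K : ℕ) :
    LocalOn (LT.ball (n * (R + 2 * r) + r) {v})
      (ch w K (evo (hamOn h (LT.ball (n * (R + 2 * r)) {v})) t₀) O) := by
  have hO' : LocalOn (LT.ball (n * (R + 2 * r) + r) {v}) O := by
    refine hO.mono (he12_ball_mono ?_ v)
    have : 1 * (R + 2 * r) ≤ n * (R + 2 * r) := Nat.mul_le_mul_right _ hn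
    omega
  have hH : LocalOn (LT.ball (n * (R + 2 * r) + r) {v})
      (hamOn h (LT.ball (n * (R + 2 * r)) {v})) := by
    unfold hamOn
    exact he12_sum _ _ fun x hx => (locOp_localOn hrL h x).mono (GP.gp12_box_ball hx)
  have hU : LocalOn (LT.ball (n * (R + 2 * r) + r) {v})
      (evo (hamOn h (LT.ball (n * (R + 2 * r)) {v})) t₀) := by
    intro u hu a b
    unfold evo
    exact (Commute.exp_right ((show Commute (su u a b) _ from hH u hu a b).smul_right _)).eq
  unfold ch
  apply he12_sum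
  intro k _
  apply LocalOn.smul
  exact ((he12_star (he12_pow hU k)).mul hO').mul (he12_pow hU k)

end Pool.Agent.FFG.HE
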