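import Pool.Agent.FFG.HE.Sign
import Pool.Agent.FFG.HE.Split
import Pool.Agent.FFG.EC.HS
import Pool.Agent.FFG.EC.Lines

/-!
# Hidden-entropy criterion: functions of the reduced density matrices of a mixed state
-/

open Finset
open scoped InnerProductSpace

set_option autoImplicit false
set_option linter.unusedSectionVars false
set_option linter.unusedVariables false

namespace Pool.Agent.FFG.HE

open Pool.Agent.PEPS953 Pool.Agent.FFG Pool.Agent.FFG.EC Pool.Agent.FFG.HPlain

variable {d L : ℕ} [NeZero L] {ρ : Matrix (Conf d L) (Conf d L) ℂ}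

/-- The operator `f(ρ_X)`, where `ρ_X` is the reduced density matrix of `ρ` on `X`. -/
noncomputable def mrf (h : ρ.IsHermitian) (X : Finset (Site L)) (f : ℝ → ℂ) :
    Hil d L →L[ℂ] Hil d L := emb X (fnc (red_isHermitian h X) f)

/-- The operator `ρ_{A ∪ B} ^ (z / 2) ρ_B ^ (- z / 2)`. -/
noncomputable def mfac (h : ρ.IsHermitian) (A B : Finset (Site L)) (z : ℂ) :
    Hil d L →L[ℂ] Hil d L := mrf h (A ∪ B) (pw (z / 2)) * mrf h B (pw (-z / 2))

/-- The product of the first `m` factors, the last one to the left. -/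
noncomputable def mprod (h : ρ.IsHermitian) (A B : ℕ → Finset (Site L)) (z : ℂ) :
    ℕ → (Hil d L →L[ℂ] Hil d L)
  | 0 => 1
  | m + 1 => mfac h (A m) (B m) z * mprod h A B z m

/-- The entropy of the reduced density matrix. -/
noncomputable def ment (h : ρ.IsHermitian) (X : Finset (Site L)) : ℝ := ent (red_isHermitian h X)

/-- The sum of the conditional entropies. -/
noncomputable def msum (h : ρ.IsHermitian) (m : ℕ) (A B : ℕ → Finset (Site L)) : ℝ :=
  ∑ j ∈ range m, (ment h (A j ∪ B j) - ment h (B j))

end Pool.Agent.FFG.HE
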