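import Pool.Agent.FFG.HE.MixPower

/-!
# Hidden-entropy criterion: the product for a mixed state at and near `0`
-/

open Finset
open scoped InnerProductSpace

set_option autoImplicit false
set_option linter.unusedSectionVars false
set_option linter.unusedVariables false

namespace Pool.Agent.FFG.HE

open Pool.Agent.PEPS953 Pool.Agent.FFG Pool.Agent.FFG.EC Pool.Agent.FFG.HPlain

variable {d L : ℕ} [NeZero L] {ρ : Matrix (Conf d L) (Conf d L) ℂ}

private lemma mx_star (O : Hil d L →L[ℂ] Hil d L) : mat (star O) = star (mat O) :=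
  map_star _ _

private lemma mx_add (O O' : Hil d L →L[ℂ] Hil d L) : mat (O + O') = mat O + mat O' :=
  map_add _ _ _

private lemma mx_smul (c : ℂ) (O : Hil d L →L[ℂ] Hil d L) : mat (c • O) = c • mat O :=
  map_smul _ _ _

private lemma mx_zero : mat (0 : Hil d L →L[ℂ] Hil d L) = 0 := map_zero _

private lemma mx_one : mat (1 : Hil d L →L[ℂ] Hil d L) = 1 := map_one _

private lemma mfac_eq (h : ρ.IsHermitian) (A B : Finset (Site L)) (z : ℂ) :
    mfac h A B z = mrf h (A ∪ B) (pw ((1 / 2 : ℂ) * z)) * mrf h B (pw ((-1 / 2 : ℂ) * z)) := by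
  unfold mfac
  congr 3
  · ring
  · ring

private lemma supp_right (hρ : IsState ρ) (X : Finset (Site L)) :
    ρ * mat (mrf hρ.herm X (pw 0)) = ρ := by
  have h1 : star (mrf hρ.herm X (pw 0)) = mrf hρ.herm X (pw 0) := by
    rw [star_mrf]
    congr 1
    funext x
    rw [star_pw, star_zero]
  have h2 := congrArg Matrix.conjTranspose (mrf_supp hρ X)
  rw [Matrix.conjTranspose_mul, hρ.herm.eq, ← Matrix.star_eq_conjTranspose, ← mx_star, h1] at h2
  exact h2

private lemma mfac_left (hρ : IsState ρ) (A B : Finset (Site L)) :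
    mat (mfac hρ.herm A B 0) * ρ = ρ := by
  rw [mfac_eq, mul_zero, mul_zero, mat_mul, Matrix.mul_assoc, mrf_supp hρ, mrf_supp hρ]

private lemma mfac_right (hρ : IsState ρ) (A B : Finset (Site L)) :
    ρ * mat (mfac hρ.herm A B 0) = ρ := by
  rw [mfac_eq, mul_zero, mul_zero, mat_mul, ← Matrix.mul_assoc, supp_right hρ, supp_right hρ]

private lemma trace_right {P : Hil d L →L[ℂ] Hil d L} (h : ρ * mat P = ρ)
    (O : Hil d L →L[ℂ] Hil d L) : (mat (P * O) * ρ).trace = (mat O * ρ).trace := by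
  rw [mat_mul, Matrix.mul_assoc, Matrix.trace_mul_comm, Matrix.mul_assoc, h]

private lemma trace_left {P : Hil d L →L[ℂ] Hil d L} (h : mat P * ρ = ρ)
    (O : Hil d L →L[ℂ] Hil d L) : (mat (O * P) * ρ).trace = (mat O * ρ).trace := by
  rw [mat_mul, Matrix.mul_assoc, h]

private lemma mfac_deriv (hρ : IsState ρ) (A B : Finset (Site L)) :
    ∃ D : Hil d L →L[ℂ] Hil d L, HasDerivAt (fun z => mfac hρ.herm A B z) D 0 ∧
      (mat D * ρ).trace = -(((ment hρ.herm (A ∪ B) - ment hρ.herm B) / 2 : ℝ) : ℂ) := by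
  have h1 := mrf_hasDerivAt hρ.herm (A ∪ B) (1 / 2)
  have h2 := mrf_hasDerivAt hρ.herm B (-1 / 2)
  have h3 := h1.mul h2
  refine ⟨_, h3.congr_of_eventuallyEq (Filter.Eventually.of_forall fun z => ?_), ?_⟩
  · exact mfac_eq hρ.herm A B z
  · rw [mul_zero, mul_zero, mx_add, Matrix.add_mul, Matrix.trace_add,
      trace_left (mrf_supp hρ B), trace_right (supp_right hρ (A ∪ B)), mx_smul, mx_smul,
      Matrix.smul_mul, Matrix.smul_mul, Matrix.trace_smul, Matrix.trace_smul, mrf_log, mrf_log]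
    simp only [smul_eq_mul]
    push_cast
    ring

theorem mprod_zero (hρ : IsState ρ) (A B : ℕ → Finset (Site L)) (m : ℕ) :
    mat (mprod hρ.herm A B 0 m) * ρ = ρ := by
  induction m with
  | zero => rw [mprod, mx_one, one_mul]
  | succ m ih => rw [mprod, mat_mul, Matrix.mul_assoc, ih, mfac_left hρ]

theorem mprod_hasDerivAt (hρ : IsState ρ) (A B : ℕ → Finset (Site L)) (m : ℕ) :
    ∃ D : Hil d L →L[ℂ] Hil d L, HasDerivAt (fun z => mprod hρ.herm A B z m) D 0 ∧
      (mat D * ρ).trace = -((msum hρ.herm m A B / 2 : ℝ) : ℂ) := by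
  induction m with
  | zero =>
    refine ⟨0, hasDerivAt_const _ _, ?_⟩
    rw [mx_zero, zero_mul, Matrix.trace_zero]
    simp [msum]
  | succ m ih =>
    obtain ⟨D, hD, hD'⟩ := ih
    obtain ⟨E, hE, hE'⟩ := mfac_deriv hρ (A m) (B m)
    refine ⟨_, hE.mul hD, ?_⟩
    rw [mx_add, Matrix.add_mul, Matrix.trace_add, trace_left (mprod_zero hρ A B m),
      trace_right (mfac_right hρ (A m) (B m)), hE', hD']
    unfold msum
    rw [sum_range_succ]
    push_cast
    ring

theorem mprod_differentiable (h : ρ.IsHermitian) (A B : ℕ → Finset (Site L)) (m : ℕ) :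
    Differentiable ℂ (fun z : ℂ => mprod h A B z m) := by
  induction m with
  | zero => exact differentiable_const _
  | succ m ih =>
    have h1 : (fun z : ℂ => mprod h A B z (m + 1)) = fun z : ℂ =>
        (mrf h (A m ∪ B m) (pw ((1 / 2 : ℂ) * z)) * mrf h (B m) (pw ((-1 / 2 : ℂ) * z))) *
          mprod h A B z m := by
      funext z
      rw [mprod, mfac_eq]
    rw [h1]
    exact ((mrf_differentiable h _ _).mul (mrf_differentiable h _ _)).mul ih

theorem mprod_bounded (h : ρ.IsHermitian) (A B : ℕ → Finset (Site L)) (m : ℕ) :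
    ∃ C : ℝ, ∀ z : ℂ, 0 ≤ z.re → z.re ≤ 1 → ‖mprod h A B z m‖ ≤ C := by
  induction m with
  | zero => exact ⟨‖(1 : Hil d L →L[ℂ] Hil d L)‖, fun z _ _ => le_refl _⟩
  | succ m ih =>
    obtain ⟨C, hC⟩ := ih
    obtain ⟨C₁, h₁⟩ := mrf_bounded h (A m ∪ B m) (1 / 2)
    obtain ⟨C₂, h₂⟩ := mrf_bounded h (B m) (-1 / 2)
    refine ⟨C₁ * C₂ * C, fun z h0 h1 => ?_⟩
    rw [mprod, mfac_eq]
    have e₁ : ((1 / 2 : ℂ)) = ((1 / 2 : ℝ) : ℂ) := by push_cast; ring
    have e₂ : ((-1 / 2 : ℂ)) = ((-1 / 2 : ℝ) : ℂ) := by push_cast; ring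
    rw [e₁, e₂]
    have a₁ := h₁ z h0 h1
    have a₂ := h₂ z h0 h1
    have a₃ := hC z h0 h1
    have b₁ : 0 ≤ C₁ := (norm_nonneg _).trans a₁
    have b₂ : 0 ≤ C₂ := (norm_nonneg _).trans a₂
    refine (norm_mul_le _ _).trans (mul_le_mul ((norm_mul_le _ _).trans
      (mul_le_mul a₁ a₂ (norm_nonneg _) b₁)) a₃ (norm_nonneg _) (mul_nonneg b₁ b₂))

theorem norm_mprod_le (h : ρ.IsHermitian) (A B : ℕ → Finset (Site L)) (m : ℕ) (t : ℝ)
    (x : Hil d L) : ‖mprod h A B ((t : ℂ) * Complex.I) m x‖ ≤ ‖x‖ := by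
  induction m with
  | zero => exact le_refl _
  | succ m ih =>
    rw [mprod, mul_apply_eq_comp, mfac_eq, mul_apply_eq_comp]
    refine (norm_mrf_le _ _ (norm_pw_le ?_) _).trans ((norm_mrf_le _ _ (norm_pw_le ?_) _).trans ih)
    · simp
    · simp

end Pool.Agent.FFG.HE
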