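import Pool.Agent.FFG.HE.MixRed

/-!
# Hidden-entropy criterion: the operators `f(ρ_X)` for a mixed state
-/

open Finset
open scoped InnerProductSpace

set_option autoImplicit false
set_option linter.unusedSectionVars false
set_option linter.unusedVariables false

namespace Pool.Agent.FFG.HE

open Pool.Agent.PEPS953 Pool.Agent.FFG Pool.Agent.FFG.EC Pool.Agent.FFG.HPlain

variable {d L : ℕ} [NeZero L] {ρ : Matrix (Conf d L) (Conf d L) ℂ}

theorem mrf_mul (h : ρ.IsHermitian) (X : Finset (Site L)) (f g : ℝ → ℂ) :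
    mrf h X f * mrf h X g = mrf h X (fun x => f x * g x) := by
  unfold mrf
  rw [← emb_mul, fnc_mul]

theorem star_mrf (h : ρ.IsHermitian) (X : Finset (Site L)) (f : ℝ → ℂ) :
    star (mrf h X f) = mrf h X (fun x => star (f x)) := by
  unfold mrf
  rw [star_emb, fnc_conjTranspose]

theorem mrf_localOn (h : ρ.IsHermitian) (X : Finset (Site L)) (f : ℝ → ℂ) :
    LocalOn X (mrf h X f) :=
  emb_localOn X _

theorem mrf_congr (hρ : IsState ρ) (X : Finset (Site L)) {f g : ℝ → ℂ}
    (h : ∀ x, 0 ≤ x → f x = g x) : mrf hρ.herm X f = mrf hρ.herm X g := by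
  unfold mrf
  rw [fnc_congr (red_isHermitian hρ.herm X) fun i => h _ (red_nonneg hρ X i)]

theorem mrf_id (h : ρ.IsHermitian) (X : Finset (Site L)) :
    mrf h X (fun x => (x : ℂ)) = emb X (red ρ X) := by
  unfold mrf
  rw [fnc_id]

private lemma mpower_one (h : ρ.IsHermitian) (X : Finset (Site L)) :
    mrf h X (fun _ => 1) = 1 := by
  unfold mrf
  rw [fnc_one, emb_one]

private lemma mpower_sub (h : ρ.IsHermitian) (X : Finset (Site L)) (f g : ℝ → ℂ) :
    mrf h X (fun x => f x - g x) = mrf h X f - mrf h X g := by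
  unfold mrf
  rw [fnc_sub, emb_sub]

private lemma mpower_norm_sq (h : ρ.IsHermitian) (X : Finset (Site L)) (f : ℝ → ℂ)
    (x : Hil d L) :
    ((‖mrf h X f x‖ ^ 2 : ℝ) : ℂ) = ⟪x, mrf h X (fun x => star (f x) * f x) x⟫_ℂ := by
  rw [← mrf_mul, ← star_mrf, ContinuousLinearMap.mul_apply, ContinuousLinearMap.star_eq_adjoint,
    ContinuousLinearMap.adjoint_inner_right, inner_self_eq_norm_sq_to_K]
  norm_cast

theorem norm_mrf_le (h : ρ.IsHermitian) (X : Finset (Site L)) {f : ℝ → ℂ}
    (hf : ∀ x, ‖f x‖ ≤ 1) (x : Hil d L) : ‖mrf h X f x‖ ≤ ‖x‖ := by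
  set g : ℝ → ℂ := fun x => ((Real.sqrt (1 - ‖f x‖ ^ 2) : ℝ) : ℂ) with hg
  have h1 : (fun x => star (g x) * g x) =
      fun x => (fun _ => (1 : ℂ)) x - (fun x => star (f x) * f x) x := by
    funext y
    have h2 : 0 ≤ 1 - ‖f y‖ ^ 2 := by
      have := hf y
      have := norm_nonneg (f y)
      nlinarith
    have h3 : star (f y) * f y = ((‖f y‖ ^ 2 : ℝ) : ℂ) := by
      rw [mul_comm, Complex.star_def, Complex.mul_conj, Complex.normSq_eq_norm_sq]
    simp only [hg]
    rw [h3, Complex.star_def, Complex.conj_ofReal, ← Complex.ofReal_mul, Real.mul_self_sqrt h2]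
    push_cast
    ring
  have h2 := mpower_norm_sq h X g x
  rw [h1, mpower_sub, mpower_one, ContinuousLinearMap.sub_apply, inner_sub_right,
    ← mpower_norm_sq h X f x, ContinuousLinearMap.one_apply, inner_self_eq_norm_sq_to_K] at h2
  have h3 : ‖mrf h X g x‖ ^ 2 = ‖x‖ ^ 2 - ‖mrf h X f x‖ ^ 2 := by
    have h4 : ((‖mrf h X g x‖ ^ 2 : ℝ) : ℂ) = ((‖x‖ ^ 2 - ‖mrf h X f x‖ ^ 2 : ℝ) : ℂ) := by
      rw [h2]
      push_cast
      rfl
    exact_mod_cast h4
  have h4 := sq_nonneg ‖mrf h X g x‖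
  exact le_of_sq_le_sq (by linarith) (norm_nonneg _)

/- PROOF. Let `P = mrf (pw 0)`, a projection, and `P' = 1 - P = mrf g`, `g = 1` at `0` and `0`
elsewhere. By `trace_red` and `trace_fnc_mul` the trace of `ρ * mat P'` is zero. With `exists_mix`:
`∑ i, a i * ‖P' (u i)‖ ^ 2 = 0`, so `P' (u i) = 0` when `a i ≠ 0`, and `mat P' * ρ = 0` (the trace of
`mat P' * ρ * M` is `∑ i, a i * ⟪u i, M P' (u i)⟫ = 0` for every `M`). -/
theorem mrf_supp (hρ : IsState ρ) (X : Finset (Site L)) :
    mat (mrf hρ.herm X (pw 0)) * ρ = ρ := by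
  set g : ℝ → ℂ := fun x => if x = 0 then 1 else 0 with hg
  have h1 : g = fun x => (fun _ => (1 : ℂ)) x - pw 0 x := by
    funext y
    simp only [hg, pw]
    split_ifs with h <;> simp
  have h2 : mrf hρ.herm X g = 1 - mrf hρ.herm X (pw 0) := by
    rw [h1, mpower_sub, mpower_one]
  have h4 : (fun x => star (g x) * g x) = g := by
    funext y
    simp only [hg]
    split_ifs with h <;> simp
  obtain ⟨a, u, ha, -, -, hau⟩ := exists_mix hρ
  have h5 : (ρ * mat (mrf hρ.herm X g)).trace = 0 := by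
    unfold mrf
    rw [← trace_red, Matrix.trace_mul_comm, trace_fnc_mul]
    refine sum_eq_zero fun i _ => ?_
    simp only [hg]
    split_ifs with h
    · rw [h]; simp
    · simp
  have h6 : ∀ i, (a i : ℂ) * ((‖mrf hρ.herm X g (u i)‖ ^ 2 : ℝ) : ℂ) =
      (a i : ℂ) * ⟪u i, mrf hρ.herm X g (u i)⟫_ℂ := by
    intro i
    rw [mpower_norm_sq hρ.herm X g (u i), h4]
  have h7 : ∑ i, a i * ‖mrf hρ.herm X g (u i)‖ ^ 2 = 0 := by
    rw [hau] at h5
    have h8 : ((∑ i, a i * ‖mrf hρ.herm X g (u i)‖ ^ 2 : ℝ) : ℂ) = 0 := by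
      rw [← h5]
      push_cast
      refine sum_congr rfl fun i _ => ?_
      have := h6 i
      push_cast at this
      exact this
    exact_mod_cast h8
  have h9 : ∀ i, (a i : ℂ) • mrf hρ.herm X g (u i) = 0 := by
    intro i
    have h10 := (Finset.sum_eq_zero_iff_of_nonneg
      (fun i _ => mul_nonneg (ha i) (sq_nonneg ‖mrf hρ.herm X g (u i)‖))).mp h7 i (mem_univ i)
    rcases mul_eq_zero.mp h10 with h | h
    · rw [h]; simp
    · rw [pow_eq_zero_iff two_ne_zero, norm_eq_zero] at h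
      rw [h, smul_zero]
  have h11 : mat (mrf hρ.herm X g) * ρ = 0 := by
    have h12 : ∀ M : Matrix (Conf d L) (Conf d L) ℂ,
        (mat (mrf hρ.herm X g) * ρ * M).trace = 0 := by
      intro M
      set O : Hil d L →L[ℂ] Hil d L := Matrix.toEuclideanCLM (𝕜 := ℂ) (n := Conf d L) M with hO
      have hM : mat O = M := StarAlgEquiv.symm_apply_apply _ _
      have h13 : (mat (mrf hρ.herm X g) * ρ * M).trace =
          (ρ * mat (O * mrf hρ.herm X g)).trace := by
        rw [mat_mul, hM, Matrix.mul_assoc, Matrix.trace_mul_comm, ← Matrix.mul_assoc]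
      rw [h13, hau]
      refine sum_eq_zero fun i _ => ?_
      have h14 : (a i : ℂ) * ⟪u i, (O * mrf hρ.herm X g) (u i)⟫_ℂ =
          ⟪u i, O ((a i : ℂ) • mrf hρ.herm X g (u i))⟫_ℂ := by
        rw [map_smul, inner_smul_right]
        rfl
      rw [h14, h9 i, map_zero, inner_zero_right]
    ext s t
    have h15 := h12 (Matrix.single t s 1)
    rw [Matrix.trace_mul_single] at h15
    simpa using h15
  have h16 : mat (mrf hρ.herm X g) = 1 - mat (mrf hρ.herm X (pw 0)) := by
    rw [h2]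
    exact (map_sub _ _ _).trans (by rw [map_one]; rfl)
  rw [h16, Matrix.sub_mul, Matrix.one_mul, sub_eq_zero] at h11
  exact h11.symm

/- PROOF. `trace_red`, `trace_fnc_mul`. -/
theorem mrf_log (h : ρ.IsHermitian) (X : Finset (Site L)) :
    (mat (mrf h X (fun x => (Real.log x : ℂ))) * ρ).trace = -(ment h X : ℂ) := by
  unfold mrf ment ent
  rw [Matrix.trace_mul_comm, ← trace_red, Matrix.trace_mul_comm, trace_fnc_mul]
  push_cast
  rw [← sum_neg_distrib]
  refine sum_congr rfl fun i _ => ?_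
  rw [Real.negMulLog]
  push_cast
  ring

private lemma mpower_sum (h : ρ.IsHermitian) (X : Finset (Site L)) (f : ℝ → ℂ) :
    mrf h X f = ∑ i, f ((red_isHermitian h X).eigenvalues i) •
      emb X (eproj (red_isHermitian h X) i) := by
  unfold mrf
  rw [fnc_eq_sum, emb_sum]
  refine sum_congr rfl fun i _ => emb_smul _ _ _

private lemma mpower_pw_deriv (c : ℂ) (x : ℝ) (z : ℂ) :
    HasDerivAt (fun z : ℂ => pw (c * z) x) (c * (Real.log x : ℂ) * pw (c * z) x) z := by
  unfold pw
  split_ifs with h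
  · simpa using hasDerivAt_const z (0 : ℂ)
  · have h1 : HasDerivAt (fun z : ℂ => c * z * (Real.log x : ℂ)) (c * (Real.log x : ℂ)) z := by
      have := ((hasDerivAt_id z).const_mul c).mul_const (Real.log x : ℂ)
      simpa using this
    have := h1.cexp
    rwa [mul_comm] at this

theorem mrf_hasDerivAt (h : ρ.IsHermitian) (X : Finset (Site L)) (c : ℂ) :
    HasDerivAt (fun z : ℂ => mrf h X (pw (c * z)))
      (c • mrf h X (fun x => (Real.log x : ℂ))) 0 := by
  have h1 : (fun z : ℂ => mrf h X (pw (c * z))) = fun z : ℂ =>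
      ∑ i, pw (c * z) ((red_isHermitian h X).eigenvalues i) •
      emb X (eproj (red_isHermitian h X) i) := funext fun z => mpower_sum h X _
  rw [h1, mpower_sum, smul_sum]
  refine HasDerivAt.fun_sum fun i _ => ?_
  have h2 := (mpower_pw_deriv c ((red_isHermitian h X).eigenvalues i) 0).smul_const
    (emb X (eproj (red_isHermitian h X) i))
  refine h2.congr_deriv ?_
  rw [smul_smul]
  congr 1
  rw [mul_zero, pw]
  split_ifs with h
  · rw [h]; simp
  · simp

theorem mrf_differentiable (h : ρ.IsHermitian) (X : Finset (Site L)) (c : ℂ) :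
    Differentiable ℂ (fun z : ℂ => mrf h X (pw (c * z))) := by
  have h1 : (fun z : ℂ => mrf h X (pw (c * z))) = fun z : ℂ =>
      ∑ i, pw (c * z) ((red_isHermitian h X).eigenvalues i) •
      emb X (eproj (red_isHermitian h X) i) := funext fun z => mpower_sum h X _
  rw [h1]
  intro z
  exact (HasDerivAt.fun_sum fun i _ =>
    (mpower_pw_deriv c ((red_isHermitian h X).eigenvalues i) z).smul_const
    (emb X (eproj (red_isHermitian h X) i))).differentiableAt

theorem mrf_bounded (h : ρ.IsHermitian) (X : Finset (Site L)) (c : ℝ) :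
    ∃ C : ℝ, ∀ z : ℂ, 0 ≤ z.re → z.re ≤ 1 → ‖mrf h X (pw ((c : ℂ) * z))‖ ≤ C := by
  refine ⟨∑ i, Real.exp (|c| * |Real.log ((red_isHermitian h X).eigenvalues i)|) *
    ‖emb X (eproj (red_isHermitian h X) i)‖, fun z h0 h1 => ?_⟩
  rw [mpower_sum]
  refine (norm_sum_le _ _).trans (sum_le_sum fun i _ => ?_)
  rw [norm_smul]
  refine mul_le_mul_of_nonneg_right ?_ (norm_nonneg _)
  unfold pw
  split_ifs with hx
  · rw [norm_zero]; exact (Real.exp_pos _).le
  · rw [Complex.norm_exp, Real.exp_le_exp]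
    set l := Real.log ((red_isHermitian h X).eigenvalues i)
    have h2 : ((c : ℂ) * z * (l : ℂ)).re = c * z.re * l := by
      simp
    rw [h2]
    refine (le_abs_self _).trans ?_
    rw [abs_mul, abs_mul, abs_of_nonneg h0]
    have h3 : |c| * z.re ≤ |c| := by nlinarith [abs_nonneg c]
    exact mul_le_mul_of_nonneg_right h3 (abs_nonneg _)

end Pool.Agent.FFG.HE
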