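import Pool.Agent.FFG.HE.MixDefs
import Pool.Agent.FFG.EC.PTrace
import Pool.Agent.FFG.EC.Marginal

/-!
# Hidden-entropy criterion: reduced density matrices of a mixed state
-/

open Finset
open scoped InnerProductSpace

set_option autoImplicit false
set_option linter.unusedSectionVars false
set_option linter.unusedVariables false

namespace Pool.Agent.FFG.HE

open Pool.Agent.PEPS953 Pool.Agent.FFG Pool.Agent.FFG.EC Pool.Agent.FFG.HPlain

open Pool.Agent.FFG.EPlain (glue rdm boxAt)

variable {d L : ℕ} [NeZero L] {ρ : Matrix (Conf d L) (Conf d L) ℂ}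

private lemma mr_sum (X : Finset (Site L)) (F : Conf d L → ℂ) :
    ∑ s, F s = ∑ a : X → Fin d, ∑ w : {v // v ∉ X} → Fin d, F (glue X a w) := by
  rw [← (Equiv.piEquivPiSubtypeProd (fun v => v ∈ X) (fun _ => Fin d)).symm.sum_comp,
    Fintype.sum_prod_type]
  rfl

open scoped ComplexOrder in
/- PROOF. Every `w`-summand of `red` is a submatrix of the positive semidefinite matrix `ρ`
(`Matrix.PosSemidef.submatrix`), and the trace of `red ρ X` is the trace of `ρ` (the bijection
`s ↔ (a, w)`, see `mgl_sum` in EC/Marginal.lean). -/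
theorem red_state (hρ : IsState ρ) (X : Finset (Site L)) : IsState (red ρ X) := by
  refine ⟨?_, ?_⟩
  · have h1 : red ρ X = ∑ w : {v // v ∉ X} → Fin d,
        ρ.submatrix (fun a : X → Fin d => glue X a w) (fun a : X → Fin d => glue X a w) := by
      ext a b
      rw [Matrix.sum_apply]
      rfl
    rw [h1]
    exact Matrix.posSemidef_sum _ fun w _ => hρ.pos.submatrix _
  · rw [← hρ.tr]
    unfold Matrix.trace
    rw [mr_sum X]
    rfl

open scoped ComplexOrder in
/- PROOF. `rdm Ψ X` is a Gram matrix (see `rdm_nonneg` in EC/Marginal.lean), of trace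
`∑ ‖Ψ s‖ ^ 2 = 1`. -/
theorem rdm_state {Ψ : Hil d L} (hΨ : ‖Ψ‖ = 1) (X : Finset (Site L)) :
    IsState (rdm Ψ.ofLp X) := by
  refine ⟨?_, ?_⟩
  · have h1 : rdm Ψ.ofLp X =
        (Matrix.of fun (a : X → Fin d) (w : {v // v ∉ X} → Fin d) => Ψ.ofLp (glue X a w)) *
        (Matrix.of fun (a : X → Fin d) (w : {v // v ∉ X} → Fin d) =>
          Ψ.ofLp (glue X a w)).conjTranspose := by
      ext a b
      rfl
    rw [h1]
    exact Matrix.posSemidef_self_mul_conjTranspose _
  · have h1 : (rdm Ψ.ofLp X).trace = ∑ s : Conf d L, Ψ.ofLp s * star (Ψ.ofLp s) := by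
      rw [mr_sum X]
      rfl
    rw [h1]
    have h2 : (⟪Ψ, Ψ⟫_ℂ) = ∑ s : Conf d L, Ψ.ofLp s * star (Ψ.ofLp s) := by
      rw [PiLp.inner_apply]
      rfl
    rw [← h2, inner_self_eq_norm_sq_to_K, hΨ]
    simp

/- PROOF. `red_state` and `Matrix.PosSemidef.eigenvalues_nonneg`. -/
theorem red_nonneg (hρ : IsState ρ) (X : Finset (Site L)) (i : X → Fin d) :
    0 ≤ (red_isHermitian hρ.herm X).eigenvalues i :=
  (red_state hρ X).pos.eigenvalues_nonneg i

private lemma mix_entries (hρ : IsState ρ) : ∃ (a : Conf d L → ℝ) (u : Conf d L → Hil d L),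
    ∀ s t, ρ s t = ∑ i, (a i : ℂ) * ((u i).ofLp s * star ((u i).ofLp t)) := by
  classical
  obtain ⟨a, u, -, -, -, htr⟩ := exists_mix hρ
  refine ⟨a, u, fun s t => ?_⟩
  set O : Hil d L →L[ℂ] Hil d L := Matrix.toEuclideanCLM (𝕜 := ℂ) (n := Conf d L)
    (Matrix.single t s 1) with hO
  have hmO : mat O = Matrix.single t s 1 :=
    (Matrix.toEuclideanCLM (𝕜 := ℂ) (n := Conf d L)).symm_apply_apply _
  have h1 : (ρ * mat O).trace = ρ s t := by
    rw [hmO]
    unfold Matrix.trace
    rw [Finset.sum_eq_single s]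
    · rw [Matrix.diag_apply, Matrix.mul_apply, Finset.sum_eq_single t]
      · simp [Matrix.single_apply]
      · intro r _ hr
        simp [Matrix.single_apply, hr.symm]
      · intro h
        exact absurd (mem_univ t) h
    · intro r _ hr
      rw [Matrix.diag_apply, Matrix.mul_apply]
      refine Finset.sum_eq_zero fun q _ => ?_
      simp [Matrix.single_apply, hr.symm]
    · intro h
      exact absurd (mem_univ s) h
  rw [← h1, htr]
  refine sum_congr rfl fun i _ => ?_
  congr 1
  rw [PiLp.inner_apply, Finset.sum_eq_single t]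
  · have h2 : (O (u i)) t = (u i).ofLp s := by
      rw [hO]
      change ((Matrix.single t s (1 : ℂ)).mulVec (u i).ofLp) t = _
      simp [Matrix.mulVec, dotProduct, Matrix.single_apply]
    rw [h2]
    rfl
  · intro r _ hr
    have h2 : (O (u i)) r = 0 := by
      rw [hO]
      change ((Matrix.single t s (1 : ℂ)).mulVec (u i).ofLp) r = _
      simp [Matrix.mulVec, dotProduct, Matrix.single_apply, hr.symm]
    rw [h2]
    simp
  · intro h
    exact absurd (mem_univ t) h

/- PROOF. With `a`, `u` of `exists_mix`, `ρ s t = ∑ i, a i * u i s * star (u i t)` (take for `O` the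
matrix units, or use the spectral theorem again), so `red ρ X = ∑ i, (a i) • rdm (u i) X`; use
`EC.trp_rdm` (EC/PTrace.lean) for every `u i`, `emb_sum`, `emb_smul` and the linearity of `trp` in
the first argument. -/
theorem trp_red (hρ : IsState ρ) {A B : Finset (Site L)} (hAB : Disjoint A B)
    {Y : Hil d L →L[ℂ] Hil d L} (hY : LocalOn (univ \ A) Y) :
    (d : ℂ) ^ (#A) * trp (emb (A ∪ B) (red ρ (A ∪ B))) Y = trp (emb B (red ρ B)) Y := by
  classical
  obtain ⟨a, u, hau⟩ := mix_entries hρ
  have key : ∀ X : Finset (Site L), trp (emb X (red ρ X)) Y =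
      ∑ i, (a i : ℂ) * trp (emb X (rdm (u i).ofLp X)) Y := by
    intro X
    have h1 : red ρ X = ∑ i, (a i : ℂ) • rdm (u i).ofLp X := by
      ext p q
      rw [Matrix.sum_apply]
      simp only [Matrix.smul_apply, smul_eq_mul, red, rdm, mul_sum]
      rw [sum_comm]
      exact sum_congr rfl fun w _ => hau _ _
    have h2 : emb X (red ρ X) = ∑ i, (a i : ℂ) • emb X (rdm (u i).ofLp X) := by
      rw [h1, emb_sum]
      exact sum_congr rfl fun i _ => emb_smul _ _ _
    rw [h2]
    unfold trp
    simp only [mul_sum]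
    rw [sum_comm]
    refine sum_congr rfl fun s _ => ?_
    rw [ContinuousLinearMap.sum_apply, inner_sum]
    refine sum_congr rfl fun i _ => ?_
    rw [ContinuousLinearMap.smul_apply, inner_smul_right]
  rw [key, key, mul_sum]
  refine sum_congr rfl fun i _ => ?_
  rw [← trp_rdm (u i) hAB hY]
  ring

end Pool.Agent.FFG.HE
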