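import Pool.Agent.FFG.HE.Defs

/-!
# Hidden-entropy criterion: existence of the filter
-/

open Finset
open scoped InnerProductSpace

set_option autoImplicit false
set_option linter.unusedSectionVars false
set_option linter.unusedVariables false

namespace Pool.Agent.FFG.HE

open Pool.Agent.PEPS953 Pool.Agent.FFG Pool.Agent.FFG.EC

private theorem coeff_pow_nonneg (p : Polynomial ℝ) (hp : ∀ k, 0 ≤ p.coeff k) (m : ℕ) :
    ∀ k, 0 ≤ (p ^ m).coeff k := by
  induction m with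
  | zero =>
    intro k
    rw [pow_zero, Polynomial.coeff_one]
    split_ifs
    · exact zero_le_one
    · exact le_rfl
  | succ m ih =>
    intro k
    rw [pow_succ, Polynomial.coeff_mul]
    exact Finset.sum_nonneg fun x _ => mul_nonneg (ih _) (hp _)

private theorem norm_geom_le (N : ℕ) (θ : ℝ) (h0 : 0 < θ) (h1 : θ ≤ Real.pi) :
    ‖∑ k ∈ range N, Complex.exp (-(θ * Complex.I)) ^ k‖ ≤ Real.pi / θ := by
  obtain ⟨z, hz⟩ : ∃ z : ℂ, z = Complex.exp (-(θ * Complex.I)) := ⟨_, rfl⟩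
  have hn : ‖z‖ = 1 := by
    have h2 : (-(θ * Complex.I) : ℂ) = ((-θ : ℝ) : ℂ) * Complex.I := by
      push_cast
      ring
    rw [hz, h2, Complex.norm_exp_ofReal_mul_I]
  have h3 : ‖z - 1‖ = 2 * Real.sin (θ / 2) := by
    have h2 : (-(θ * Complex.I) : ℂ) = Complex.I * ((-θ : ℝ) : ℂ) := by
      push_cast
      ring
    have h4 : 0 ≤ Real.sin (θ / 2) :=
      Real.sin_nonneg_of_nonneg_of_le_pi (by linarith) (by linarith)
    rw [hz, h2, Complex.norm_exp_I_mul_ofReal_sub_one, neg_div, Real.sin_neg, Real.norm_eq_abs,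
      mul_neg, abs_neg, abs_of_nonneg (by linarith)]
  have h4 : 2 / Real.pi * (θ / 2) ≤ Real.sin (θ / 2) :=
    Real.mul_le_sin (by linarith) (by linarith)
  have hpi := Real.pi_pos
  have h5 : 2 * θ / Real.pi ≤ ‖z - 1‖ := by
    rw [h3]
    have : 2 * θ / Real.pi = 2 * (2 / Real.pi * (θ / 2)) := by ring
    rw [this]
    linarith
  have h6 : ‖∑ k ∈ range N, z ^ k‖ * ‖z - 1‖ ≤ 2 := by
    rw [← norm_mul, geom_sum_mul]
    refine (norm_sub_le _ _).trans ?_
    rw [norm_pow, hn, one_pow, norm_one]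
    norm_num
  have h7 : 0 < 2 * θ / Real.pi := by positivity
  rw [← hz, le_div_iff₀ h0]
  have h8 : ‖∑ k ∈ range N, z ^ k‖ * (2 * θ / Real.pi) ≤ 2 :=
    (mul_le_mul_of_nonneg_left h5 (norm_nonneg _)).trans h6
  have h9 : ‖∑ k ∈ range N, z ^ k‖ * (2 * θ / Real.pi) =
      ‖∑ k ∈ range N, z ^ k‖ * θ * 2 / Real.pi := by ring
  rw [h9, div_le_iff₀ hpi] at h8
  linarith

/- PROOF. `N = ⌈2 π / α⌉₊ ≥ 1`; for `α ≤ θ ≤ π` and `z = exp (- θ I)`:
`‖∑ k < N, z ^ k‖ = ‖z ^ N - 1‖ / ‖z - 1‖ ≤ 2 / (2 sin (θ / 2)) ≤ π / θ ≤ N / 2`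
(`Real.mul_le_sin`: `2 / π * x ≤ sin x` on `[0, π / 2]`). Let
`P = (∑ k < N, X ^ k) ^ m / N ^ m ∈ ℝ[X]`, `w k = P.coeff k` (nonnegative), `K = m * (N - 1) + 1`
(`P.natDegree < K`); `∑ w k = P.eval 1 = 1`, `∑ w k z ^ k = P(z)`, so its norm is at most
`(1 / 2) ^ m`. `N - 1 ≤ 2 π / α ≤ 7 / α`. (Or induct on `m` with convolutions.) -/
theorem exists_flt (m : ℕ) {α : ℝ} (hα : 0 < α) : ∃ (K : ℕ) (w : ℕ → ℝ),
    Flt w K α ((1 / 2) ^ m) ∧ (K : ℝ) ≤ m * (7 / α) + 1 := by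
  have hpi := Real.pi_pos
  obtain ⟨N, hN⟩ : ∃ N : ℕ, N = ⌈2 * Real.pi / α⌉₊ := ⟨_, rfl⟩
  have hN1 : 2 * Real.pi / α ≤ N := by
    rw [hN]
    exact Nat.le_ceil _
  have hN2 : (N : ℝ) < 2 * Real.pi / α + 1 := by
    rw [hN]
    exact Nat.ceil_lt_add_one (by positivity)
  have hN0 : (0 : ℝ) < N := lt_of_lt_of_le (by positivity) hN1
  have hNpos : 0 < N := by exact_mod_cast hN0
  obtain ⟨p, hp⟩ : ∃ p : Polynomial ℝ, p = Polynomial.C ((N : ℝ)⁻¹) *
    ∑ k ∈ range N, Polynomial.X ^ k := ⟨_, rfl⟩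
  have hpc : ∀ k, 0 ≤ p.coeff k := by
    intro k
    rw [hp, Polynomial.coeff_C_mul, Polynomial.finsetSum_coeff]
    apply mul_nonneg (by positivity)
    apply Finset.sum_nonneg
    intro i _
    rw [Polynomial.coeff_X_pow]
    split_ifs
    · exact zero_le_one
    · exact le_rfl
  have hpd : p.natDegree ≤ N - 1 := by
    rw [hp]
    refine Polynomial.natDegree_C_mul_le _ _ |>.trans ?_
    apply Polynomial.natDegree_sum_le_of_forall_le
    intro i hi
    rw [Polynomial.natDegree_X_pow]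
    have := Finset.mem_range.1 hi
    omega
  have hPd : (p ^ m).natDegree < m * (N - 1) + 1 :=
    Nat.lt_succ_of_le (Polynomial.natDegree_pow_le_of_le m hpd)
  refine ⟨m * (N - 1) + 1, fun k => (p ^ m).coeff k, ⟨⟨coeff_pow_nonneg p hpc m, ?_⟩, ?_⟩, ?_⟩
  · have h1 : (p ^ m).eval 1 = 1 := by
      rw [Polynomial.eval_pow, hp, Polynomial.eval_mul, Polynomial.eval_C,
        Polynomial.eval_finsetSum]
      simp only [Polynomial.eval_pow, Polynomial.eval_X, one_pow, Finset.sum_const,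
        Finset.card_range, nsmul_eq_mul, mul_one]
      rw [inv_mul_cancel₀ hN0.ne', one_pow]
    rw [Polynomial.eval_eq_sum_range' hPd] at h1
    simpa using h1
  · intro θ hθ1 hθ2
    have hθ0 : 0 < θ := lt_of_lt_of_le hα hθ1
    have h1 : ∀ k : ℕ, Complex.exp (-(k * θ * Complex.I)) =
        Complex.exp (-(θ * Complex.I)) ^ k := by
      intro k
      rw [← Complex.exp_nat_mul]
      congr 1
      ring
    have h2 : ∑ k ∈ range (m * (N - 1) + 1), (((p ^ m).coeff k : ℝ) : ℂ) *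
        Complex.exp (-(k * θ * Complex.I)) =
        (p ^ m).eval₂ Complex.ofRealHom (Complex.exp (-(θ * Complex.I))) := by
      rw [Polynomial.eval₂_eq_sum_range' _ hPd]
      apply Finset.sum_congr rfl
      intro k _
      rw [h1]
      rfl
    have h3 : p.eval₂ Complex.ofRealHom (Complex.exp (-(θ * Complex.I))) =
        ((N : ℝ)⁻¹ : ℝ) * ∑ k ∈ range N, Complex.exp (-(θ * Complex.I)) ^ k := by
      rw [hp, Polynomial.eval₂_mul, Polynomial.eval₂_C, Polynomial.eval₂_finsetSum]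
      simp only [Polynomial.eval₂_pow, Polynomial.eval₂_X]
      rfl
    rw [h2, Polynomial.eval₂_pow, norm_pow]
    apply pow_le_pow_left₀ (norm_nonneg _)
    rw [h3, norm_mul, Complex.norm_real, Real.norm_eq_abs, abs_of_nonneg (by positivity)]
    have h4 := norm_geom_le N θ hθ0 hθ2
    have h5 : Real.pi / θ ≤ N / 2 := by
      have h6 : Real.pi / θ ≤ Real.pi / α := div_le_div_of_nonneg_left hpi.le hα hθ1
      have h7 : 2 * Real.pi / α = 2 * (Real.pi / α) := by ring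
      rw [h7] at hN1
      linarith
    calc (N : ℝ)⁻¹ * ‖∑ k ∈ range N, Complex.exp (-(θ * Complex.I)) ^ k‖
        ≤ (N : ℝ)⁻¹ * (N / 2) := mul_le_mul_of_nonneg_left (h4.trans h5) (by positivity)
      _ = 1 / 2 := by field_simp
  · have h1 : ((m * (N - 1) + 1 : ℕ) : ℝ) = m * ((N : ℝ) - 1) + 1 := by
      rw [Nat.cast_add, Nat.cast_mul, Nat.cast_sub (by omega)]
      norm_num
    rw [h1]
    have h2 : (N : ℝ) - 1 ≤ 7 / α := by
      have h3 : 2 * Real.pi / α ≤ 7 / α := by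
        apply div_le_div_of_nonneg_right _ hα.le
        have := Real.pi_lt_d2
        linarith
      linarith
    have h3 : (m : ℝ) * ((N : ℝ) - 1) ≤ m * (7 / α) :=
      mul_le_mul_of_nonneg_left h2 (Nat.cast_nonneg _)
    linarith

end Pool.Agent.FFG.HE
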