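import Pool.Agent.FFG.HE.Tests
import Pool.Agent.FFG.HE.Gibbs
import Pool.Agent.FFG.HE.Weights
import Pool.Agent.FFG.HE.Box

/-!
# Hidden-entropy criterion: the tests on one torus
-/

open Finset
open scoped InnerProductSpace

set_option autoImplicit false
set_option linter.unusedSectionVars false
set_option linter.unusedVariables false

namespace Pool.Agent.FFG.HE

open Pool.Agent.PEPS953 Pool.Agent.FFG Pool.Agent.FFG.EC Pool.Agent.FFG.HPlain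

open Pool.Agent.FFG.EPlain (glue rdm boxAt)

variable {d L r : ℕ} [NeZero L]

private lemma OneTorus_sa {h : Matrix (LConf d r) (LConf d r) ℂ} (hh : h.IsHermitian)
    (A : Finset (Site L)) : IsSelfAdjoint (hamOn (L := L) h A) := by
  unfold hamOn
  exact GP.gp12_sum_sa A _ fun v _ => GP.gp12_locOp_sa hh v

private lemma OneTorus_mat_sum {ι : Type} (s : Finset ι) (Q : ι → Hil d L →L[ℂ] Hil d L) :
    mat (∑ v ∈ s, Q v) = ∑ v ∈ s, mat (Q v) := by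
  unfold mat
  exact map_sum _ _ _

private lemma OneTorus_ex_sum {ι : Type} (s : Finset ι) (ρ : Matrix (Conf d L) (Conf d L) ℂ)
    (Q : ι → Hil d L →L[ℂ] Hil d L) : ex ρ (∑ v ∈ s, Q v) = ∑ v ∈ s, ex ρ (Q v) := by
  unfold ex
  rw [OneTorus_mat_sum, Matrix.mul_sum, Matrix.trace_sum, Complex.re_sum]

/- PROOF. `t₀ = 1 / (‖H‖ + 1)`, `H = ham L h` (self-adjoint), `α = t₀ Δ`, `exists_flt m` gives `w`,
`K` with `K t₀ ≤ 7 m / Δ + t₀ ≤ T = 7 m / Δ + 1`. `η = eta L R r n m J Δ ≥ 0`: `ch_diff` for the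
balls of radius `R` (rearranged: its bound is `η * ‖O‖`). `δ = (1 / 2) ^ m`: `ch_ground`.
`N = (d ^ (R ^ 2)) ^ 2`, `θ = 1 / (4 N L ^ 2)`, `exists_tests` gives `Q`. For every state `ρ` and
every `v`: `dev_le` with `X = boxAt L R v` (contained in the ball of radius `R`),
`card (X → Fin d) ≤ d ^ (R ^ 2)` (`card_boxAt`): the sum over the `L ^ 2` sites is at most
`L ^ 2 η + L ^ 2 * 2 * N * θ + 2 ex ρ (∑ v, Q v) ≤ 1 + 2 ex ρ (∑ v, Q v)` (`H.loc`). `gibbs` gives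
the last claim. `‖Q v Ψ‖ ≤ 4 N ^ 2 L ^ 2 (η + δ) ≤ L ^ (- 3)` (`H.tests`,
`N ^ 2 = d ^ (4 R ^ 2)`). -/
theorem he_tests (hd : 0 < d) (hr : 0 < r) (hrL : r ≤ L)
    {h : Matrix (LConf d r) (LConf d r) ℂ} (hh : h.IsHermitian) {J : ℝ} (hJ : entNorm h ≤ J)
    {E₀ Δ : ℝ} (hΔ : 0 < Δ) {Ψ : Hil d L} (hgap : IsGappedGS (ham L h) E₀ Δ Ψ) {R : ℕ} {κ : ℝ}
    (hκ : 0 ≤ κ) (hfew : FewDefects Ψ.ofLp R κ) {m n : ℕ} (H : HParam d r L R J Δ m n) :
    ∃ Q : Site L → Hil d L →L[ℂ] Hil d L, (∀ v, IsStarProjection (Q v)) ∧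
      (∀ v, LocalOn (LT.ball (n * (R + 2 * r) + r) {v}) (Q v)) ∧
      (∀ v, ‖Q v Ψ‖ ≤ (L : ℝ) ^ (-3 : ℝ)) ∧
      ∀ hF : (mat (∑ v, Q v)).IsHermitian,
        ∑ i, Real.exp (-(2 * κ) * hF.eigenvalues i) ≤ Real.exp (2 * κ) := by
  have hLpos : (0 : ℝ) < L := by exact_mod_cast Nat.pos_of_ne_zero (NeZero.ne L)
  have hJ0 : 0 ≤ J := (entNorm_nonneg h).trans hJ
  have hsa : IsSelfAdjoint (ham L h) := OneTorus_sa hh univ
  set nH : ℝ := ‖ham L h‖ with hnH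
  have hnH0 : 0 ≤ nH := norm_nonneg _
  set t₀ : ℝ := 1 / (nH + 1) with ht₀
  have ht₀pos : 0 < t₀ := by positivity
  have ht₀1 : t₀ ≤ 1 := by
    rw [ht₀, div_le_one (by positivity)]
    linarith
  obtain ⟨K, w, hw, hK⟩ := exists_flt m (mul_pos ht₀pos hΔ)
  have hT : (K : ℝ) * t₀ ≤ 7 * m / Δ + 1 := by
    have h1 : (K : ℝ) * t₀ ≤ (m * (7 / (t₀ * Δ)) + 1) * t₀ :=
      mul_le_mul_of_nonneg_right hK ht₀pos.le
    have h2 : ((m : ℝ) * (7 / (t₀ * Δ)) + 1) * t₀ = 7 * m / Δ + t₀ := by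
      field_simp
    linarith
  set η : ℝ := eta L R r n m J Δ with hη
  have hη0 : 0 ≤ η := by
    rw [hη]
    unfold eta
    positivity
  have hη1 : ∀ (v : Site L) (O : Hil d L →L[ℂ] Hil d L), LocalOn (LT.ball R {v}) O →
      ‖ch w K (evo (ham L h) t₀) O -
        ch w K (evo (hamOn h (LT.ball (n * (R + 2 * r)) {v})) t₀) O‖ ≤ η * ‖O‖ := by
    intro v O hO
    refine (ch_diff hr hrL hh hJ R n v hO ht₀pos.le hw.toWts hT).trans (le_of_eq ?_)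
    rw [hη]
    unfold eta
    ring
  set δ : ℝ := (1 / 2) ^ m with hδ
  have hδ0 : 0 ≤ δ := by positivity
  have hH : 2 * t₀ * ‖ham L h‖ ≤ Real.pi := by
    have h1 : 2 * t₀ * nH ≤ 2 := by
      rw [ht₀]
      rw [mul_one_div, div_mul_eq_mul_div, div_le_iff₀ (by positivity)]
      linarith
    have h2 := Real.pi_gt_three
    linarith
  have hδ1 : ∀ O : Hil d L →L[ℂ] Hil d L,
      ‖ch w K (evo (ham L h) t₀) O Ψ - ⟪Ψ, O Ψ⟫_ℂ • Ψ‖ ≤ δ * ‖O‖ :=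
    fun O => ch_ground hsa hgap ht₀pos hH hδ0 hw O
  set N : ℝ := ((d : ℝ) ^ R ^ 2) ^ 2 with hN
  have hd' : (0 : ℝ) < d := by exact_mod_cast hd
  have hNpos : 0 < N := by positivity
  set θ : ℝ := 1 / (4 * N * (L : ℝ) ^ 2) with hθ
  have hθpos : 0 < θ := by positivity
  obtain ⟨Q, hQ1, hQ2, hQ3, hQ4⟩ := exists_tests hd hrL hh hgap.norm_eq R n H.n_pos t₀ hη0 hδ0
    hθpos hη1 hδ1
  refine ⟨Q, hQ1, hQ2, fun v => ?_, ?_⟩
  · have h1 := hQ4 v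
    have h2 : ‖Q v Ψ‖ ≤ 4 * N ^ 2 * (L : ℝ) ^ 2 * (η + δ) := by
      have h3 : ‖Q v Ψ‖ = 4 * N * (L : ℝ) ^ 2 * (θ * ‖Q v Ψ‖) := by
        rw [hθ]
        field_simp
      rw [h3]
      calc 4 * N * (L : ℝ) ^ 2 * (θ * ‖Q v Ψ‖) ≤ 4 * N * (L : ℝ) ^ 2 * (N * (η + δ)) :=
            mul_le_mul_of_nonneg_left h1 (by positivity)
        _ = 4 * N ^ 2 * (L : ℝ) ^ 2 * (η + δ) := by ring
    have h4 : N ^ 2 = (d : ℝ) ^ (4 * R ^ 2) := by
      rw [hN, ← pow_mul, ← pow_mul]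
      congr 1
      ring
    have h5 := H.tests
    rw [← h4] at h5
    have h6 : (L : ℝ) ^ (-3 : ℝ) = 1 / (L : ℝ) ^ 3 := by
      rw [show (-3 : ℝ) = -((3 : ℕ) : ℝ) by norm_num, Real.rpow_neg hLpos.le, Real.rpow_natCast,
        one_div]
    rw [h6, le_div_iff₀ (by positivity)]
    calc ‖Q v Ψ‖ * (L : ℝ) ^ 3 ≤ 4 * N ^ 2 * (L : ℝ) ^ 2 * (η + δ) * (L : ℝ) ^ 3 :=
          mul_le_mul_of_nonneg_right h2 (by positivity)
      _ = 4 * N ^ 2 * (L : ℝ) ^ 5 * (η + δ) := by ring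
      _ ≤ 1 := h5
  · intro hF
    refine gibbs hκ hfew hd hw.toWts (evo_unitary hsa t₀) (F := ∑ v, Q v) ?_ hF
    intro ρ hρ h'
    have hcard : ∀ v : Site L, ((Fintype.card (boxAt L R v → Fin d) : ℕ) : ℝ) ^ 2 ≤ N := by
      intro v
      rw [hN]
      refine pow_le_pow_left₀ (by positivity) ?_ 2
      rw [Fintype.card_fun, Fintype.card_fin, Fintype.card_coe]
      push_cast
      exact pow_le_pow_right₀ (by exact_mod_cast hd) (card_boxAt R v)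
    have hdev : ∀ v : Site L, dev Ψ.ofLp h' (boxAt L R v) ≤
        η + 2 * (N * θ) + 2 * ex ρ (Q v) := by
      intro v
      refine (dev_le hgap.norm_eq (boxAt L R v) hw.toWts (evo_unitary hsa t₀)
        (evo_unitary (OneTorus_sa hh (LT.ball (n * (R + 2 * r)) {v})) t₀) hη0
        (fun O hO => hη1 v O (hO.mono (boxAt_subset_ball R v))) (hQ1 v) (hQ3 v) hρ h').trans ?_
      have h1 := mul_le_mul_of_nonneg_right (hcard v) hθpos.le
      linarith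
    have hsum : ∑ v : Site L, dev Ψ.ofLp h' (boxAt L R v) ≤
        ∑ v : Site L, (η + 2 * (N * θ) + 2 * ex ρ (Q v)) := sum_le_sum fun v _ => hdev v
    have hcardS : ((univ : Finset (Site L)).card : ℝ) = (L : ℝ) ^ 2 := by
      rw [card_univ, Fintype.card_prod, ZMod.card]
      push_cast
      ring
    have hsum2 : ∑ v : Site L, (η + 2 * (N * θ) + 2 * ex ρ (Q v)) =
        (L : ℝ) ^ 2 * (η + 2 * (N * θ)) + 2 * ex ρ (∑ v, Q v) := by
      rw [sum_add_distrib, sum_const, nsmul_eq_mul, hcardS, ← mul_sum, OneTorus_ex_sum]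
    have h7 : (L : ℝ) ^ 2 * (2 * (N * θ)) = 1 / 2 := by
      rw [hθ]
      field_simp
      norm_num
    have h8 := H.loc
    rw [← hη] at h8
    linarith

/- PROOF. `he_tests`, and for the site `u` the matrix `q u` of `Q (u.1 + ρ, u.2 + ρ)`,
`ρ = n (R + 2 r) + r`, `sd R r n = 2 ρ + 1`, given by `exists_boxMat` and `ball_subset_boxAt`.
`testSum q = mat (∑ u, locOp L (q u) u) = mat (∑ v, Q v)`: `mat_locOp` (FFG/Local.lean; the
`translate` of `PEPS953.Plain` and of `PEPS953` agree by `rfl`, `translate_eq` in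
PEPS953/Transfer.lean) and reindexing by the bijection `u ↦ (u.1 + ρ, u.2 + ρ)`. -/
theorem he_box (hd : 0 < d) (hr : 0 < r) (hrL : r ≤ L)
    {h : Matrix (LConf d r) (LConf d r) ℂ} (hh : h.IsHermitian) {J : ℝ} (hJ : entNorm h ≤ J)
    {E₀ Δ : ℝ} (hΔ : 0 < Δ) {Ψ : Hil d L} (hgap : IsGappedGS (ham L h) E₀ Δ Ψ) {R : ℕ} {κ : ℝ}
    (hκ : 0 ≤ κ) (hfew : FewDefects Ψ.ofLp R κ) {m n : ℕ} (H : HParam d r L R J Δ m n) :
    ∃ q : Site L → Matrix (LConf d (sd R r n)) (LConf d (sd R r n)) ℂ,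
      (∀ v, (q v).IsHermitian ∧ q v * q v = q v) ∧
      (∀ v, ‖locOp L (q v) v Ψ‖ ≤ (L : ℝ) ^ (-3 : ℝ)) ∧
      ∀ hF : (testSum q).IsHermitian,
        ∑ i, Real.exp (-(2 * κ) * hF.eigenvalues i) ≤ Real.exp (2 * κ) := by
  obtain ⟨Q, hQ1, hQ2, hQ3, hQ4⟩ := he_tests hd hr hrL hh hJ hΔ hgap hκ hfew H
  set ρ : ℕ := n * (R + 2 * r) + r with hρ
  have hsd : sd R r n = 2 * ρ + 1 := rfl
  let φ : Site L ≃ Site L := Equiv.addRight ((ρ : ZMod L), (ρ : ZMod L))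
  have hex : ∀ u : Site L, ∃ q : Matrix (LConf d (sd R r n)) (LConf d (sd R r n)) ℂ,
      q.IsHermitian ∧ q * q = q ∧ locOp L q u = Q (φ u) := by
    intro u
    have h1 := ball_subset_boxAt ρ (φ u)
    have h2 : ((φ u).1 - (ρ : ZMod L), (φ u).2 - (ρ : ZMod L)) = u :=
      Prod.ext (add_sub_cancel_right _ _) (add_sub_cancel_right _ _)
    rw [h2] at h1
    exact exists_boxMat H.side u ((hQ2 (φ u)).mono h1) (hQ1 (φ u))
  choose q hq1 hq2 hq3 using hex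
  refine ⟨q, fun v => ⟨hq1 v, hq2 v⟩, fun v => ?_, ?_⟩
  · rw [hq3]
    exact hQ3 (φ v)
  · have hts : testSum q = mat (∑ v, Q v) := by
      rw [OneTorus_mat_sum, ← Equiv.sum_comp φ]
      unfold testSum
      refine sum_congr rfl fun u _ => ?_
      rw [← hq3 u, mat_locOp]
      rfl
    have key : ∀ A : Matrix (Conf d L) (Conf d L) ℂ, A = mat (∑ v, Q v) →
        ∀ hF : A.IsHermitian,
          ∑ i, Real.exp (-(2 * κ) * hF.eigenvalues i) ≤ Real.exp (2 * κ) := by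
      rintro A rfl hF
      exact hQ4 hF
    exact key _ hts

end Pool.Agent.FFG.HE
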