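import Pool.Agent.FFG.HE.Defs

/-!
# Hidden-entropy criterion: the operator as a PEPO
-/

open Finset
open scoped InnerProductSpace

set_option autoImplicit false
set_option linter.unusedSectionVars false
set_option linter.unusedVariables false

namespace Pool.Agent.FFG.HE

open Pool.Agent.PEPS953 Pool.Agent.FFG Pool.Agent.FFG.EC

open Pool.Agent.FFG.EPlain (boxAt)

variable {d L : ℕ} [NeZero L]

private lemma pow_star_pp {E : Type} [NormedAddCommGroup E] [InnerProductSpace ℂ E]
    [CompleteSpace E] {Q : E →L[ℂ] E} (hQ : IsStarProjection Q) (s : ℝ) :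
    star (pp Q s) = pp Q s := by
  unfold pp
  rw [star_add, star_one, star_smul, hQ.isSelfAdjoint.star_eq, Complex.star_def,
    Complex.conj_ofReal]

private lemma pow_star_tm {E ι : Type} [NormedAddCommGroup E] [InnerProductSpace ℂ E]
    [CompleteSpace E] {Q : ι → E →L[ℂ] E} (hQ : ∀ i, IsStarProjection (Q i)) (s : ℝ)
    (l : List ι) : star (tm Q s l) = tm Q s l.reverse := by
  induction l with
  | nil => simp [tm]
  | cons i l ih =>
    unfold tm at ih ⊢
    rw [List.map_cons, List.prod_cons, star_mul, ih, pow_star_pp (hQ i), List.reverse_cons,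
      List.map_append, List.prod_append]
    simp

private lemma pow_tm_append {E ι : Type} [NormedAddCommGroup E] [InnerProductSpace ℂ E]
    [CompleteSpace E] (Q : ι → E →L[ℂ] E) (s : ℝ) (l l' : List ι) :
    tm Q s (l ++ l') = tm Q s l * tm Q s l' := by
  unfold tm
  rw [List.map_append, List.prod_append]

private lemma pow_tm_flatten {E ι : Type} [NormedAddCommGroup E] [InnerProductSpace ℂ E]
    [CompleteSpace E] (Q : ι → E →L[ℂ] E) (s : ℝ) (l : List ι) (p : ℕ) :
    tm Q s (List.replicate p l).flatten = tm Q s l ^ p := by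
  induction p with
  | zero => simp [tm]
  | succ p ih => rw [List.replicate_succ, List.flatten_cons, pow_tm_append, ih, pow_succ']

private lemma pow_filter_flatten {ι : Type} (P : ι → Prop) [DecidablePred P] (l : List ι)
    (p : ℕ) : ((List.replicate p l).flatten.filter fun i => P i).length =
      p * (l.filter fun i => P i).length := by
  induction p with
  | zero => simp
  | succ p ih =>
    rw [List.replicate_succ, List.flatten_cons, List.filter_append, List.length_append, ih]
    ring

private lemma pow_count (R : ℕ) (u : Site L) (l : List (Site L)) (hl : l.Nodup) :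
    (l.filter fun i => u ∈ boxAt L R i).length ≤ R ^ 2 := by
  classical
  have h1 : (l.filter fun i => u ∈ boxAt L R i).toFinset ⊆
      (univ : Finset (Fin R × Fin R)).image fun p =>
        ((u.1 - ((p.1 : ℕ) : ZMod L), u.2 - ((p.2 : ℕ) : ZMod L)) : Site L) := by
    intro i hi
    rw [List.mem_toFinset, List.mem_filter] at hi
    have h2 := of_decide_eq_true hi.2
    unfold boxAt at h2
    rw [mem_image] at h2
    obtain ⟨p, -, hp⟩ := h2
    rw [mem_image]
    refine ⟨p, mem_univ _, ?_⟩
    rw [← hp]
    unfold Plain.boxPos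
    ext <;> simp
  rw [← List.toFinset_card_of_nodup (hl.filter _)]
  refine (card_le_card h1).trans (card_image_le.trans ?_)
  rw [card_univ, Fintype.card_prod, Fintype.card_fin, sq]

theorem pepo_pow (hd : 0 < d) {R : ℕ} (hR : 0 < R) {Q : Site L → Hil d L →L[ℂ] Hil d L}
    (hQ : ∀ v, IsStarProjection (Q v)) (hloc : ∀ v, LocalOn (boxAt L R v) (Q v)) (t : ℝ)
    (l : List (Site L)) (hl : l.Nodup) (p : ℕ) :
    IsPEPO ((d ^ (2 * R ^ 2)) ^ (2 * p * R ^ 2))
      (mat ((star (tm Q t l) * tm Q t l) ^ p)) := by
  classical
  have h1 : (star (tm Q t l) * tm Q t l) ^ p =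
      ((List.replicate p (l.reverse ++ l)).flatten.map fun i => pp (Q i) t).prod := by
    rw [pow_star_tm hQ, ← pow_tm_append, ← pow_tm_flatten]
    rfl
  rw [h1]
  refine pepo_prod_mult hd _ (fun i => boxAt L R i) (N := 2 * p * R ^ 2) ?_
    (fun i => boxAt_nonempty hR i) (fun i => conn_boxAt R i) (R ^ 2)
    (fun i => card_boxAt R i) (fun i => pp (Q i) t) fun i => ?_
  · intro u
    rw [pow_filter_flatten (fun i => u ∈ boxAt L R i), List.filter_append, List.length_append,
      List.filter_reverse, List.length_reverse]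
    have h2 := pow_count R u l hl
    calc p * ((l.filter fun i => u ∈ boxAt L R i).length +
        (l.filter fun i => u ∈ boxAt L R i).length) ≤ p * (R ^ 2 + R ^ 2) :=
          Nat.mul_le_mul_left _ (Nat.add_le_add h2 h2)
      _ = 2 * p * R ^ 2 := by ring
  · unfold pp
    exact (localOn_one _).add ((hloc i).smul _)

end Pool.Agent.FFG.HE
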