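import Pool.Agent.FFG.HE.Defs

/-!
# Hidden-entropy criterion: traces of powers
-/

open Finset
open scoped InnerProductSpace

set_option autoImplicit false
set_option linter.unusedSectionVars false
set_option linter.unusedVariables false

namespace Pool.Agent.FFG.HE

open Pool.Agent.PEPS953 Pool.Agent.FFG Pool.Agent.FFG.EC

/- PROOF. `N` is self-adjoint and positive; let `u j` be an orthonormal eigenbasis with eigenvalues
`a j ≥ 0`. Then `∑ s, ‖N ^ p e_s‖ ^ 2 = ∑ j, a j ^ (2 p)` (the Hilbert-Schmidt norm does not depend on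
the orthonormal basis: `∑ s, ‖T e_s‖ ^ 2 = ∑ s, ∑ j, |⟪u j, T e_s⟫| ^ 2 = ∑ j, ‖star T (u j)‖ ^ 2`).
`a j = ⟪u j, N u j⟫ ≤ ∑ i, g i * B i j` with `B i j = |⟪v i, u j⟫| ^ 2`, a doubly stochastic matrix.
`g i ≥ 0` (take `x = v i` in `h`). By Jensen (convexity of `x ^ (2 p)` on `[0, ∞)`,
`inner_le_nnorm_mul_nnorm`-type or `Real.inner_le..`: use `ConvexOn.map_sum_le` with
`convexOn_pow`), `a j ^ (2 p) ≤ ∑ i, B i j * g i ^ (2 p)`; sum over `j`. -/
theorem trace_pow_le {X : Type} [Fintype X] [DecidableEq X]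
    {N : EuclideanSpace ℂ X →L[ℂ] EuclideanSpace ℂ X} (hN : IsSelfAdjoint N)
    (hN0 : ∀ x, 0 ≤ (⟪x, N x⟫_ℂ).re) (v : OrthonormalBasis X ℂ (EuclideanSpace ℂ X)) (g : X → ℝ)
    (h : ∀ x, (⟪x, N x⟫_ℂ).re ≤ ∑ i, g i * ‖⟪v i, x⟫_ℂ‖ ^ 2) (p : ℕ) :
    ∑ s, ‖(N ^ p) (EuclideanSpace.single s (1 : ℂ))‖ ^ 2 ≤ ∑ i, g i ^ (2 * p) := by
  have hsym : (N : EuclideanSpace ℂ X →ₗ[ℂ] EuclideanSpace ℂ X).IsSymmetric := hN.isSymmetric
  have hNp : IsSelfAdjoint (N ^ p) := hN.pow p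
  set n := Module.finrank ℂ (EuclideanSpace ℂ X) with hn
  set u := hsym.eigenvectorBasis (n := n) rfl with hu
  set a := hsym.eigenvalues (n := n) rfl with ha
  have hNu : ∀ j, N (u j) = (a j : ℂ) • u j := fun j => hsym.apply_eigenvectorBasis rfl j
  have hNpu : ∀ j, (N ^ p) (u j) = ((a j : ℂ) ^ p) • u j := by
    intro j
    induction p with
    | zero => simp
    | succ p ih =>
      rw [pow_succ', ContinuousLinearMap.mul_apply, ih (hN.pow p), map_smul, hNu, smul_smul,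
        pow_succ]
  have hun : ∀ j, ‖u j‖ = 1 := fun j => u.orthonormal.1 j
  have haj : ∀ j, (⟪u j, N (u j)⟫_ℂ).re = a j := by
    intro j
    rw [hNu, inner_smul_right, inner_self_eq_norm_sq_to_K, hun]
    simp
  have ha0 : ∀ j, 0 ≤ a j := fun j => by
    rw [← haj]
    exact hN0 _
  have hg0 : ∀ i, 0 ≤ g i := by
    intro i
    have h1 := (hN0 (v i)).trans (h (v i))
    rw [Finset.sum_eq_single i] at h1
    · rw [inner_self_eq_norm_sq_to_K, v.orthonormal.1 i] at h1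
      simpa using h1
    · intro k _ hk
      rw [v.orthonormal.2 hk]
      simp
    · intro hi
      exact absurd (Finset.mem_univ i) hi
  have hsum : ∑ s, ‖(N ^ p) (EuclideanSpace.single s (1 : ℂ))‖ ^ 2 = ∑ j, a j ^ (2 * p) := by
    calc ∑ s, ‖(N ^ p) (EuclideanSpace.single s (1 : ℂ))‖ ^ 2
        = ∑ s, ∑ j, ‖⟪u j, (N ^ p) (EuclideanSpace.single s (1 : ℂ))⟫_ℂ‖ ^ 2 :=
          Finset.sum_congr rfl fun s _ => (u.sum_sq_norm_inner_right _).symm
      _ = ∑ j, ∑ s, ‖⟪u j, (N ^ p) (EuclideanSpace.single s (1 : ℂ))⟫_ℂ‖ ^ 2 := Finset.sum_comm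
      _ = ∑ j, a j ^ (2 * p) := by
        refine Finset.sum_congr rfl fun j _ => ?_
        have h2 : ∀ s, ‖⟪u j, (N ^ p) (EuclideanSpace.single s (1 : ℂ))⟫_ℂ‖ ^ 2 =
            ‖⟪(N ^ p) (u j), (EuclideanSpace.basisFun X ℂ) s⟫_ℂ‖ ^ 2 := by
          intro s
          rw [EuclideanSpace.basisFun_apply]
          congr 2
          exact (hNp.isSymmetric (u j) _).symm
        rw [Finset.sum_congr rfl fun s _ => h2 s, OrthonormalBasis.sum_sq_norm_inner_left, hNpu,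
          norm_smul, hun, mul_one, norm_pow, Complex.norm_real, Real.norm_of_nonneg (ha0 j),
          ← pow_mul, mul_comm]
  rw [hsum]
  calc ∑ j, a j ^ (2 * p) ≤ ∑ j, ∑ i, ‖⟪v i, u j⟫_ℂ‖ ^ 2 * g i ^ (2 * p) := by
        refine Finset.sum_le_sum fun j _ => ?_
        have h1 : a j ≤ ∑ i, ‖⟪v i, u j⟫_ℂ‖ ^ 2 * g i := by
          rw [← haj]
          refine (h (u j)).trans (le_of_eq ?_)
          exact Finset.sum_congr rfl fun i _ => mul_comm _ _
        refine (pow_le_pow_left₀ (ha0 j) h1 _).trans ?_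
        refine Real.pow_arith_mean_le_arith_mean_pow univ _ _ (fun i _ => by positivity) ?_
          (fun i _ => hg0 i) _
        rw [v.sum_sq_norm_inner_right, hun, one_pow]
    _ = ∑ i, ∑ j, ‖⟪v i, u j⟫_ℂ‖ ^ 2 * g i ^ (2 * p) := Finset.sum_comm
    _ = ∑ i, g i ^ (2 * p) := by
        refine Finset.sum_congr rfl fun i _ => ?_
        rw [← Finset.sum_mul, u.sum_sq_norm_inner_left, v.orthonormal.1 i, one_pow, one_mul]

end Pool.Agent.FFG.HE
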