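import Pool.Agent.FFG.HE.Trotter
import Pool.Agent.FFG.HE.TracePow
import Pool.Agent.FFG.HE.Geo
import Pool.Agent.FFG.HE.PepoPow

/-!
# Hidden-entropy criterion: the parent form on one torus
-/

open Finset
open scoped InnerProductSpace

set_option autoImplicit false
set_option linter.unusedSectionVars false
set_option linter.unusedVariables false

namespace Pool.Agent.FFG.HE

open Pool.Agent.PEPS953 Pool.Agent.FFG Pool.Agent.FFG.EC

open Pool.Agent.FFG.EPlain (boxAt)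

section Abs

variable {E : Type} [NormedAddCommGroup E] [InnerProductSpace ℂ E] [CompleteSpace E] {ι : Type}

private lemma star_pp {Q : E →L[ℂ] E} (hQ : IsStarProjection Q) (s : ℝ) :
    star (pp Q s) = pp Q s := by
  unfold pp
  have h1 : star ((Real.exp (-s) - 1 : ℝ) : ℂ) = ((Real.exp (-s) - 1 : ℝ) : ℂ) :=
    Complex.conj_ofReal _
  rw [star_add, star_one, star_smul, hQ.isSelfAdjoint.star_eq, h1]

private lemma inner_proj {Q : E →L[ℂ] E} (hQ : IsStarProjection Q) (x : E) :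
    ⟪x, Q x⟫_ℂ = ((‖Q x‖ ^ 2 : ℝ) : ℂ) := by
  have h1 : Q (Q x) = Q x := by
    have := congrArg (fun T : E →L[ℂ] E => T x) hQ.isIdempotentElem.eq
    simpa using this
  have h2 : ⟪x, Q (Q x)⟫_ℂ = ⟪Q x, Q x⟫_ℂ := by
    rw [← ContinuousLinearMap.adjoint_inner_left, ← ContinuousLinearMap.star_eq_adjoint,
      hQ.isSelfAdjoint.star_eq]
  rw [h1] at h2
  rw [h2, inner_self_eq_norm_sq_to_K]
  push_cast
  rfl

private lemma norm_pp_le {Q : E →L[ℂ] E} (hQ : IsStarProjection Q) {s : ℝ} (hs : 0 ≤ s) (x : E) :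
    ‖pp Q s x‖ ≤ ‖x‖ := by
  refine le_of_sq_le_sq ?_ (norm_nonneg _)
  have h1 : pp Q s x = x + ((Real.exp (-s) - 1 : ℝ) : ℂ) • Q x := by
    unfold pp; simp
  rw [h1, norm_add_sq (𝕜 := ℂ), inner_smul_right, inner_proj hQ, norm_smul, mul_pow]
  have h3 : (0 : ℝ) < Real.exp (-s) := Real.exp_pos _
  have h4 : Real.exp (-s) ≤ 1 := Real.exp_le_one_iff.mpr (by linarith)
  have h5 : ‖((Real.exp (-s) - 1 : ℝ) : ℂ)‖ ^ 2 = (Real.exp (-s) - 1) ^ 2 := by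
    rw [Complex.norm_real, Real.norm_eq_abs, sq_abs]
  rw [h5]
  have h6 : RCLike.re (((Real.exp (-s) - 1 : ℝ) : ℂ) * ((‖Q x‖ ^ 2 : ℝ) : ℂ)) =
      (Real.exp (-s) - 1) * ‖Q x‖ ^ 2 := by
    rw [← Complex.ofReal_mul]
    exact Complex.ofReal_re _
  rw [h6]
  have h7 : 0 ≤ ‖Q x‖ ^ 2 := sq_nonneg _
  have h8 : 2 * ((Real.exp (-s) - 1) * ‖Q x‖ ^ 2) + (Real.exp (-s) - 1) ^ 2 * ‖Q x‖ ^ 2 =
      (Real.exp (-s) ^ 2 - 1) * ‖Q x‖ ^ 2 := by ring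
  have h9 : (Real.exp (-s) ^ 2 - 1) * ‖Q x‖ ^ 2 ≤ 0 := by
    refine mul_nonpos_of_nonpos_of_nonneg ?_ h7
    nlinarith
  linarith

private lemma norm_pp_sub_le {Q : E →L[ℂ] E} {s : ℝ} (hs : 0 ≤ s) (x : E) :
    ‖pp Q s x - x‖ ≤ ‖Q x‖ := by
  have h1 : pp Q s x - x = ((Real.exp (-s) - 1 : ℝ) : ℂ) • Q x := by
    unfold pp; simp
  have h3 : (0 : ℝ) < Real.exp (-s) := Real.exp_pos _
  have h4 : Real.exp (-s) ≤ 1 := Real.exp_le_one_iff.mpr (by linarith)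
  rw [h1, norm_smul, Complex.norm_real, Real.norm_eq_abs]
  have h5 : |Real.exp (-s) - 1| ≤ 1 := by rw [abs_le]; constructor <;> linarith
  calc |Real.exp (-s) - 1| * ‖Q x‖ ≤ 1 * ‖Q x‖ :=
        mul_le_mul_of_nonneg_right h5 (norm_nonneg _)
    _ = ‖Q x‖ := one_mul _

private lemma tm_cons (Q : ι → E →L[ℂ] E) (s : ℝ) (i : ι) (l : List ι) :
    tm Q s (i :: l) = pp (Q i) s * tm Q s l := by
  unfold tm; simp

private lemma norm_tm_le {Q : ι → E →L[ℂ] E} (hQ : ∀ i, IsStarProjection (Q i)) {s : ℝ}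
    (hs : 0 ≤ s) (l : List ι) (x : E) : ‖tm Q s l x‖ ≤ ‖x‖ := by
  induction l with
  | nil => simp [tm]
  | cons i l ih =>
    rw [tm_cons, mul_apply_eq_comp]
    exact (norm_pp_le (hQ i) hs _).trans ih

private lemma norm_tm_sub_le {Q : ι → E →L[ℂ] E} (hQ : ∀ i, IsStarProjection (Q i)) {s : ℝ}
    (hs : 0 ≤ s) (l : List ι) (x : E) :
    ‖tm Q s l x - x‖ ≤ (l.map fun i => ‖Q i x‖).sum := by
  induction l with
  | nil => simp [tm]
  | cons i l ih =>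
    rw [tm_cons, mul_apply_eq_comp, List.map_cons, List.sum_cons]
    have h1 : pp (Q i) s (tm Q s l x) - x =
        pp (Q i) s (tm Q s l x - x) + (pp (Q i) s x - x) := by
      rw [map_sub]; abel
    rw [h1]
    refine (norm_add_le _ _).trans ?_
    have h2 := (norm_pp_le (hQ i) hs (tm Q s l x - x)).trans ih
    have h3 := norm_pp_sub_le (Q := Q i) hs x
    linarith

private lemma star_tm {Q : ι → E →L[ℂ] E} (hQ : ∀ i, IsStarProjection (Q i)) (s : ℝ)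
    (l : List ι) : star (tm Q s l) = tm Q s l.reverse := by
  induction l with
  | nil => simp [tm]
  | cons i l ih =>
    rw [tm_cons, star_mul, ih, star_pp (hQ i)]
    unfold tm
    simp

private lemma norm_pow_apply_le {N : E →L[ℂ] E} (hN : ∀ x, ‖N x‖ ≤ ‖x‖) (p : ℕ) (x : E) :
    ‖(N ^ p) x‖ ≤ ‖x‖ := by
  induction p with
  | zero => simp
  | succ p ih =>
    rw [pow_succ', mul_apply_eq_comp]
    exact (hN _).trans ih

private lemma norm_pow_sub_le {N : E →L[ℂ] E} (hN : ∀ x, ‖N x‖ ≤ ‖x‖) (p : ℕ) (x : E) :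
    ‖(N ^ p) x - x‖ ≤ p * ‖N x - x‖ := by
  induction p with
  | zero => simp
  | succ p ih =>
    rw [pow_succ', mul_apply_eq_comp]
    have h1 : N ((N ^ p) x) - x = N ((N ^ p) x - x) + (N x - x) := by
      rw [map_sub]; abel
    rw [h1]
    refine (norm_add_le _ _).trans ?_
    have h2 := (hN ((N ^ p) x - x)).trans ih
    rw [Nat.cast_succ, add_mul, one_mul]
    exact add_le_add h2 le_rfl

private lemma pow_eig {T : E →L[ℂ] E} {v : E} {μ : ℂ} (h : T v = μ • v) (n : ℕ) :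
    (T ^ n) v = μ ^ n • v := by
  induction n with
  | zero => simp
  | succ n ih =>
    rw [pow_succ, mul_apply_eq_comp, h, map_smul, ih, smul_smul, pow_succ, mul_comm]

private lemma exp_eig {T : E →L[ℂ] E} {v : E} {μ : ℂ} (h : T v = μ • v) :
    NormedSpace.exp T v = Complex.exp μ • v := by
  have h1 : HasSum (fun n : ℕ => ((n.factorial : ℂ)⁻¹ • T ^ n)) (NormedSpace.exp T) :=
    NormedSpace.exp_series_hasSum_exp' (𝕂 := ℂ) T
  have h2 : HasSum (fun n : ℕ => (n.factorial : ℂ)⁻¹ • (T ^ n) v) (NormedSpace.exp T v) :=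
    h1.mapL (ContinuousLinearMap.apply ℂ E v)
  have h3 : HasSum (fun n : ℕ => ((n.factorial : ℂ)⁻¹ • μ ^ n)) (NormedSpace.exp μ) :=
    NormedSpace.exp_series_hasSum_exp' (𝕂 := ℂ) μ
  have h4 := h3.smul_const v
  have h5 : (fun n : ℕ => (n.factorial : ℂ)⁻¹ • (T ^ n) v) =
      fun n : ℕ => ((n.factorial : ℂ)⁻¹ • μ ^ n) • v := by
    funext n
    rw [pow_eig h, smul_assoc]
  rw [h5] at h2
  have h6 := h2.unique h4
  rw [h6, Complex.exp_eq_exp_ℂ]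

end Abs

variable {d L : ℕ} [NeZero L]

/- PROOF. `m = (8 R ^ 3 + 1) ^ 2`, `t = 1 / (100 m)`, `cone_torus`, `exists_sorted`,
`M = tm Q t l`, `F = ∑ v, Q v`, `N = star M * M`. Let `v i` be the orthonormal eigenbasis of
`mat F` (`hF.eigenvectorBasis`), `f i = hF.eigenvalues i ≥ 0`, `F (v i) = f i • v i`. By `trotter`
applied to `exp (- (t / 2) F) x`: `⟪x, N x⟫ = ‖M x‖ ^ 2 ≤ ‖exp (- (t / 2) F) x‖ ^ 2
= ∑ i, exp (- t f i) |⟪v i, x⟫| ^ 2`. `trace_pow_le` with `g i = exp (- t f i)`: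
`∑ s, ‖N ^ p e_s‖ ^ 2 ≤ ∑ i, exp (- 2 p t f i) ≤ ∑ i, exp (- β f i) ≤ exp κ`, since `2 p t ≥ β` by
`hp` and `f i ≥ 0`. Next `‖M Ψ - Ψ‖ ≤ ∑ v, ‖Q v Ψ‖` and the same for `star M` (telescoping, all
factors `pp (Q v) t` are contractions and `‖pp (Q v) t Ψ - Ψ‖ ≤ ‖Q v Ψ‖`), so
`‖N ^ p Ψ - Ψ‖ ≤ 2 p ∑ v, ‖Q v Ψ‖ ≤ 1 / 2` and `‖⟪Ψ, N ^ p Ψ⟫‖ ≥ 1 / 2`. Apply `EC.select` to
`T = exp (- κ / 2) • N ^ p` with `μ = exp (- κ / 2) / 2`: for some `s` the vector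
`Φ = N ^ p (bvec s)` is not zero and `μ ‖Φ‖ ≤ ‖⟪Ψ, Φ⟫‖`. It is a PEPS by `pepo_pow`,
`IsPEPO.col` and `EC.mat_bvec`. -/
theorem parent_one (hd : 0 < d) {R : ℕ} (hR : 0 < R) (hRL : R ≤ L)
    {Q : Site L → Hil d L →L[ℂ] Hil d L} (hQ : ∀ v, IsStarProjection (Q v))
    (hloc : ∀ v, LocalOn (boxAt L R v) (Q v)) {Ψ : Hil d L} (hΨ : ‖Ψ‖ = 1) {β κ : ℝ}
    (hβ : 0 ≤ β) (hF : (mat (∑ v, Q v)).IsHermitian)
    (hZ : ∑ i, Real.exp (-β * hF.eigenvalues i) ≤ Real.exp κ) (p : ℕ)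
    (hp : 50 * (8 * (R : ℝ) ^ 3 + 1) ^ 2 * β ≤ p) (hε : 4 * p * ∑ v, ‖Q v Ψ‖ ≤ 1) :
    ∃ Φ : Hil d L, IsPEPS ((d ^ (2 * R ^ 2)) ^ (2 * p * R ^ 2)) Φ ∧ Φ ≠ 0 ∧
      Real.exp (-(κ / 2)) / 2 * ‖Φ‖ ≤ ‖⟪Ψ, Φ⟫_ℂ‖ := by
  classical
  set m : ℕ := (8 * R ^ 3 + 1) ^ 2 with hm
  have hm0 : (0 : ℝ) < (m : ℝ) := by
    have : 0 < m := by rw [hm]; positivity
    exact_mod_cast this
  set t : ℝ := 1 / (100 * (m : ℝ)) with ht
  have ht0 : 0 ≤ t := by rw [ht]; positivity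
  have htm : t * m ≤ 1 / 100 := by
    rw [ht]
    apply le_of_eq
    field_simp
  obtain ⟨c, C, H⟩ := cone_torus hR hRL hQ hloc
  obtain ⟨l, hl, hmem⟩ := exists_sorted c
  have hnd : l.Nodup := List.Pairwise.imp (fun h => h.2) hl
  have huniv : l.toFinset = univ :=
    Finset.eq_univ_iff_forall.mpr fun i => List.mem_toFinset.mpr (hmem i)
  set M : Hil d L →L[ℂ] Hil d L := tm Q t l with hM
  set N : Hil d L →L[ℂ] Hil d L := star M * M with hN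
  have hMc : ∀ x, ‖M x‖ ≤ ‖x‖ := fun x => norm_tm_le hQ ht0 l x
  have hMsc : ∀ x, ‖(star M) x‖ ≤ ‖x‖ := fun x => by
    rw [hM, star_tm hQ]
    exact norm_tm_le hQ ht0 _ x
  have hNc : ∀ x, ‖N x‖ ≤ ‖x‖ := fun x => by
    rw [hN, mul_apply_eq_comp]
    exact (hMsc _).trans (hMc x)
  -- the energy of the vector
  have hS1 : ‖M Ψ - Ψ‖ ≤ ∑ v, ‖Q v Ψ‖ := by
    refine (norm_tm_sub_le hQ ht0 l Ψ).trans (le_of_eq ?_)
    rw [← List.sum_toFinset (fun i => ‖Q i Ψ‖) hnd, huniv]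
  have hS2 : ‖(star M) Ψ - Ψ‖ ≤ ∑ v, ‖Q v Ψ‖ := by
    rw [hM, star_tm hQ]
    refine (norm_tm_sub_le hQ ht0 l.reverse Ψ).trans (le_of_eq ?_)
    rw [List.map_reverse, List.sum_reverse, ← List.sum_toFinset (fun i => ‖Q i Ψ‖) hnd, huniv]
  have hS3 : ‖N Ψ - Ψ‖ ≤ 2 * ∑ v, ‖Q v Ψ‖ := by
    have h1 : N Ψ - Ψ = (star M) (M Ψ - Ψ) + ((star M) Ψ - Ψ) := by
      rw [hN, mul_apply_eq_comp, map_sub]; abel
    rw [h1]
    refine (norm_add_le _ _).trans ?_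
    have h2 := (hMsc (M Ψ - Ψ)).trans hS1
    linarith
  have hS4 : ‖(N ^ p) Ψ - Ψ‖ ≤ 1 / 2 := by
    refine (norm_pow_sub_le hNc p Ψ).trans ?_
    have h2 : (p : ℝ) * ‖N Ψ - Ψ‖ ≤ p * (2 * ∑ v, ‖Q v Ψ‖) :=
      mul_le_mul_of_nonneg_left hS3 (Nat.cast_nonneg p)
    linarith
  have hS5 : 1 / 2 ≤ ‖⟪Ψ, (N ^ p) Ψ⟫_ℂ‖ := by
    have h1 : ⟪Ψ, (N ^ p) Ψ⟫_ℂ = ⟪Ψ, Ψ⟫_ℂ + ⟪Ψ, (N ^ p) Ψ - Ψ⟫_ℂ := by
      rw [← inner_add_right]; congr 1; abel
    have h2 : ‖⟪Ψ, Ψ⟫_ℂ‖ = 1 := by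
      rw [inner_self_eq_norm_sq_to_K, hΨ]; simp
    have h3 : ‖⟪Ψ, (N ^ p) Ψ - Ψ⟫_ℂ‖ ≤ 1 / 2 := by
      refine (norm_inner_le_norm _ _).trans ?_
      rw [hΨ, one_mul]
      exact hS4
    have h4 : ‖⟪Ψ, Ψ⟫_ℂ‖ ≤ ‖⟪Ψ, (N ^ p) Ψ⟫_ℂ‖ + ‖⟪Ψ, (N ^ p) Ψ - Ψ⟫_ℂ‖ := by
      have h5 : ⟪Ψ, Ψ⟫_ℂ = ⟪Ψ, (N ^ p) Ψ⟫_ℂ - ⟪Ψ, (N ^ p) Ψ - Ψ⟫_ℂ := by
        rw [h1]; ring
      rw [h5]
      exact norm_sub_le _ _
    linarith
  -- the eigenbasis of the parent form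
  have hFv : ∀ i, (∑ v, Q v) (hF.eigenvectorBasis i) =
      ((hF.eigenvalues i : ℝ) : ℂ) • hF.eigenvectorBasis i := by
    intro i
    have h1 : ∀ (G : Hil d L →L[ℂ] Hil d L) (y : Hil d L) (s : Conf d L),
        (G y).ofLp s = ((mat G).mulVec y.ofLp) s := by
      intro G y s
      have h3 : G = Matrix.toEuclideanCLM (𝕜 := ℂ) (n := Conf d L) (mat G) :=
        (StarAlgEquiv.apply_symm_apply _ _).symm
      conv_lhs => rw [h3]
      rfl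
    have h2 := hF.mulVec_eigenvectorBasis i
    ext s
    refine (h1 (∑ v, Q v) (hF.eigenvectorBasis i) s).trans ?_
    rw [h2]
    simp
  have hf0 : ∀ i, 0 ≤ hF.eigenvalues i := by
    intro i
    have h1 : ⟪hF.eigenvectorBasis i, (∑ v, Q v) (hF.eigenvectorBasis i)⟫_ℂ =
        ((hF.eigenvalues i : ℝ) : ℂ) := by
      rw [hFv i, inner_smul_right, inner_self_eq_norm_sq_to_K, hF.eigenvectorBasis.norm_eq_one]
      simp
    have h2 : ⟪hF.eigenvectorBasis i, (∑ v, Q v) (hF.eigenvectorBasis i)⟫_ℂ =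
        ((∑ v, ‖Q v (hF.eigenvectorBasis i)‖ ^ 2 : ℝ) : ℂ) := by
      rw [_root_.sum_apply, inner_sum, Complex.ofReal_sum]
      exact sum_congr rfl fun v _ => inner_proj (hQ v) _
    rw [h1] at h2
    have h3 : hF.eigenvalues i = ∑ v, ‖Q v (hF.eigenvectorBasis i)‖ ^ 2 := by exact_mod_cast h2
    rw [h3]
    exact sum_nonneg fun v _ => sq_nonneg _
  -- the bound for the operator `N`
  have hNin : ∀ x, (⟪x, N x⟫_ℂ).re = ‖M x‖ ^ 2 := by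
    intro x
    rw [hN, mul_apply_eq_comp, ContinuousLinearMap.star_eq_adjoint,
      ContinuousLinearMap.adjoint_inner_right, inner_self_eq_norm_sq_to_K]
    have h1 : (((‖M x‖ : ℝ) : ℂ)) ^ 2 = ((‖M x‖ ^ 2 : ℝ) : ℂ) := (Complex.ofReal_pow _ _).symm
    exact (congrArg Complex.re h1).trans (Complex.ofReal_re _)
  have hNb : ∀ x, (⟪x, N x⟫_ℂ).re ≤
      ∑ i, Real.exp (-t * hF.eigenvalues i) * ‖⟪hF.eigenvectorBasis i, x⟫_ℂ‖ ^ 2 := by
    intro x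
    rw [hNin x]
    set a : Conf d L → ℂ := fun i =>
      ((Real.exp (-(t / 2) * hF.eigenvalues i) : ℝ) : ℂ) * ⟪hF.eigenvectorBasis i, x⟫_ℂ with ha
    set y : Hil d L := ∑ i, a i • hF.eigenvectorBasis i with hy
    have h1 : NormedSpace.exp (((t / 2 : ℝ) : ℂ) • ∑ v, Q v) y = x := by
      rw [hy, map_sum]
      conv_rhs => rw [← hF.eigenvectorBasis.sum_repr' x]
      refine sum_congr rfl fun i _ => ?_
      have h2 : (((t / 2 : ℝ) : ℂ) • ∑ v, Q v) (hF.eigenvectorBasis i) =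
          (((t / 2 * hF.eigenvalues i : ℝ)) : ℂ) • hF.eigenvectorBasis i := by
        rw [smul_apply, hFv i, smul_smul, ← Complex.ofReal_mul]
      rw [map_smul, exp_eig h2, smul_smul]
      congr 1
      rw [ha, ← Complex.ofReal_exp]
      simp only
      rw [mul_right_comm, ← Complex.ofReal_mul, ← Real.exp_add]
      have h3 : -(t / 2) * hF.eigenvalues i + t / 2 * hF.eigenvalues i = 0 := by ring
      rw [h3]
      simp
    have h2 := trotter H ht0 htm l hl hmem y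
    rw [h1] at h2
    have h3 : ‖M x‖ ^ 2 ≤ ‖y‖ ^ 2 := pow_le_pow_left₀ (norm_nonneg _) h2 2
    refine h3.trans (le_of_eq ?_)
    rw [← hF.eigenvectorBasis.sum_sq_norm_inner_right y]
    refine sum_congr rfl fun i _ => ?_
    have h4 : ⟪hF.eigenvectorBasis i, y⟫_ℂ = a i :=
      hF.eigenvectorBasis.orthonormal.inner_right_fintype a i
    rw [h4, ha]
    simp only
    rw [norm_mul, mul_pow, Complex.norm_real, Real.norm_eq_abs, sq_abs, ← Real.exp_nat_mul]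
    congr 2
    push_cast
    ring
  have hN0 : ∀ x, 0 ≤ (⟪x, N x⟫_ℂ).re := fun x => by rw [hNin x]; positivity
  have hHS := trace_pow_le (IsSelfAdjoint.star_mul_self M) hN0 hF.eigenvectorBasis
    (fun i => Real.exp (-t * hF.eigenvalues i)) hNb p
  have hβt : β ≤ 2 * p * t := by
    have h1 : 50 * (m : ℝ) * β ≤ p := by
      rw [hm]; push_cast; exact hp
    rw [ht]
    have h2 : β = 2 * (50 * (m : ℝ) * β) * (1 / (100 * (m : ℝ))) := by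
      field_simp
      ring
    calc β = 2 * (50 * (m : ℝ) * β) * (1 / (100 * (m : ℝ))) := h2
      _ ≤ 2 * p * (1 / (100 * (m : ℝ))) := by
        refine mul_le_mul_of_nonneg_right ?_ (by positivity)
        linarith
  have hHS2 : ∑ s : Conf d L, ‖(N ^ p) (bvec s)‖ ^ 2 ≤ Real.exp κ := by
    refine le_trans hHS (le_trans (sum_le_sum fun i _ => ?_) hZ)
    rw [← Real.exp_nat_mul]
    apply Real.exp_le_exp.mpr
    push_cast
    have h1 := mul_le_mul_of_nonneg_right hβt (hf0 i)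
    linarith
  -- the choice of the column
  set e : ℝ := Real.exp (-(κ / 2)) with he
  have he0 : 0 < e := Real.exp_pos _
  have hT1 : ∑ s : Conf d L, ‖(((e : ℝ) : ℂ) • N ^ p) (bvec s)‖ ^ 2 ≤ 1 := by
    have h1 : ∀ s : Conf d L, ‖(((e : ℝ) : ℂ) • N ^ p) (bvec s)‖ ^ 2 =
        e ^ 2 * ‖(N ^ p) (bvec s)‖ ^ 2 := by
      intro s
      rw [smul_apply, norm_smul, mul_pow, Complex.norm_real, Real.norm_eq_abs, sq_abs]
    rw [sum_congr rfl fun s _ => h1 s, ← mul_sum]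
    have h2 : e ^ 2 * Real.exp κ = 1 := by
      rw [he, ← Real.exp_nat_mul, ← Real.exp_add]
      have h3 : ((2 : ℕ) : ℝ) * -(κ / 2) + κ = 0 := by push_cast; ring
      rw [h3, Real.exp_zero]
    calc e ^ 2 * ∑ s : Conf d L, ‖(N ^ p) (bvec s)‖ ^ 2 ≤ e ^ 2 * Real.exp κ :=
          mul_le_mul_of_nonneg_left hHS2 (sq_nonneg e)
      _ = 1 := h2
  have hT2 : e / 2 ≤ ‖⟪Ψ, (((e : ℝ) : ℂ) • N ^ p) Ψ⟫_ℂ‖ := by
    rw [smul_apply, inner_smul_right, norm_mul, Complex.norm_real, Real.norm_eq_abs,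
      abs_of_pos he0]
    have h1 := mul_le_mul_of_nonneg_left hS5 he0.le
    linarith
  obtain ⟨s, hs1, hs2⟩ := select hΨ hT1 (by positivity : 0 < e / 2) hT2
  refine ⟨(N ^ p) (bvec s), ?_, ?_, ?_⟩
  · have h3 := (pepo_pow hd hR hQ hloc t l hnd p).col s
    rw [← mat_bvec] at h3
    exact h3
  · intro h0
    apply hs1
    rw [smul_apply, h0, smul_zero]
  · rw [smul_apply, norm_smul, inner_smul_right, norm_mul, Complex.norm_real, Real.norm_eq_abs,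
      abs_of_pos he0] at hs2
    have h5 : e * (e / 2 * ‖(N ^ p) (bvec s)‖) ≤ e * ‖⟪Ψ, (N ^ p) (bvec s)⟫_ℂ‖ := by
      calc e * (e / 2 * ‖(N ^ p) (bvec s)‖) = e / 2 * (e * ‖(N ^ p) (bvec s)‖) := by ring
        _ ≤ _ := hs2
    exact le_of_mul_le_mul_left h5 he0

end Pool.Agent.FFG.HE
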