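import Pool.Agent.FFG.HE.MixHS
import Pool.Agent.FFG.HE.MixDeriv

/-!
# Hidden-entropy criterion: the entropy is at most the sum of the conditional entropies
-/

open Finset
open scoped InnerProductSpace

set_option autoImplicit false
set_option linter.unusedSectionVars false
set_option linter.unusedVariables false

namespace Pool.Agent.FFG.HE

open Pool.Agent.PEPS953 Pool.Agent.FFG Pool.Agent.FFG.EC Pool.Agent.FFG.HPlain

variable {d L : ℕ} [NeZero L] {ρ : Matrix (Conf d L) (Conf d L) ℂ}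

private lemma ssa_trace (h : ρ.IsHermitian) (O : Hil d L →L[ℂ] Hil d L) (f : ℝ → ℂ) :
    (mat O * fnc h f).trace =
      ∑ i, f (h.eigenvalues i) * ⟪h.eigenvectorBasis i, O (h.eigenvectorBasis i)⟫_ℂ := by
  have hO : ∀ x : Hil d L, (O x).ofLp = Matrix.mulVec (mat O) x.ofLp := by
    intro x
    have h2 : Matrix.toEuclideanCLM (𝕜 := ℂ) (n := Conf d L) (mat O) = O :=
      StarAlgEquiv.apply_symm_apply _ _
    conv_lhs => rw [← h2]
    rfl
  have h1 : ∀ i, ⟪h.eigenvectorBasis i, O (h.eigenvectorBasis i)⟫_ℂ =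
      (star (h.eigenvectorUnitary : Matrix (Conf d L) (Conf d L) ℂ) * mat O *
        (h.eigenvectorUnitary : Matrix (Conf d L) (Conf d L) ℂ)) i i := by
    intro i
    rw [PiLp.inner_apply, Matrix.mul_assoc, Matrix.mul_apply]
    refine sum_congr rfl fun a _ => ?_
    rw [hO, Matrix.star_apply, Matrix.mul_apply]
    rw [RCLike.inner_apply, mul_comm]
    rfl
  have h3 : (mat O * fnc h f).trace = (star (h.eigenvectorUnitary : Matrix (Conf d L) (Conf d L) ℂ) *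
      mat O * (h.eigenvectorUnitary : Matrix (Conf d L) (Conf d L) ℂ) *
        Matrix.diagonal (fun i => f (h.eigenvalues i))).trace := by
    unfold fnc
    rw [← Matrix.mul_assoc, Matrix.trace_mul_comm]
    simp only [Matrix.mul_assoc]
  rw [h3, Matrix.trace]
  refine sum_congr rfl fun i _ => ?_
  rw [Matrix.diag_apply, Matrix.mul_diagonal, h1 i, mul_comm]

private lemma ssa_mat_one : mat (1 : Hil d L →L[ℂ] Hil d L) = 1 := by
  unfold mat
  exact map_one _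

private lemma ssa_norm (h : ρ.IsHermitian) (i : Conf d L) : ‖h.eigenvectorBasis i‖ = 1 :=
  h.eigenvectorBasis.orthonormal.1 i

private lemma ssa_trace_fnc (h : ρ.IsHermitian) (f : ℝ → ℂ) :
    (fnc h f).trace = ∑ i, f (h.eigenvalues i) := by
  have h1 := ssa_trace h 1 f
  rw [ssa_mat_one, Matrix.one_mul] at h1
  rw [h1]
  refine sum_congr rfl fun i _ => ?_
  have h2 : (1 : Hil d L →L[ℂ] Hil d L) (h.eigenvectorBasis i) = h.eigenvectorBasis i := rfl
  rw [h2, inner_self_eq_norm_sq_to_K, ssa_norm]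
  norm_num

private lemma ssa_basis (O : Hil d L →L[ℂ] Hil d L)
    (u b : OrthonormalBasis (Conf d L) ℂ (Hil d L)) :
    ∑ i, ‖O (u i)‖ ^ 2 = ∑ i, ‖(ContinuousLinearMap.adjoint O) (b i)‖ ^ 2 := by
  have h1 : ∀ i, ‖O (u i)‖ ^ 2 = ∑ j, ‖⟪b j, O (u i)⟫_ℂ‖ ^ 2 := fun i =>
    (b.sum_sq_norm_inner_right _).symm
  have h2 : ∀ j, ‖(ContinuousLinearMap.adjoint O) (b j)‖ ^ 2 =
      ∑ i, ‖⟪(ContinuousLinearMap.adjoint O) (b j), u i⟫_ℂ‖ ^ 2 := fun j =>
    (u.sum_sq_norm_inner_left _).symm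
  simp only [h1, h2]
  rw [sum_comm]
  refine sum_congr rfl fun j _ => sum_congr rfl fun i _ => ?_
  rw [ContinuousLinearMap.adjoint_inner_left]

private lemma ssa_hs (h : ρ.IsHermitian) (O : Hil d L →L[ℂ] Hil d L) :
    ∑ i, ‖O (h.eigenvectorBasis i)‖ ^ 2 = ∑ s : Conf d L, ‖O (bvec s)‖ ^ 2 := by
  have h1 := ssa_basis O h.eigenvectorBasis (EuclideanSpace.basisFun (Conf d L) ℂ)
  have h2 := ssa_basis O (EuclideanSpace.basisFun (Conf d L) ℂ)
    (EuclideanSpace.basisFun (Conf d L) ℂ)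
  rw [h1, ← h2]
  refine sum_congr rfl fun s _ => ?_
  rw [EuclideanSpace.basisFun_apply]
  rfl

private lemma ssa_eig_nonneg (hρ : IsState ρ) (i : Conf d L) : 0 ≤ hρ.herm.eigenvalues i :=
  hρ.pos.eigenvalues_nonneg i

private lemma ssa_eig_sum (hρ : IsState ρ) : ∑ i, hρ.herm.eigenvalues i = 1 := by
  have h1 := hρ.herm.trace_eq_sum_eigenvalues
  rw [hρ.tr] at h1
  have h2 : (((∑ i, hρ.herm.eigenvalues i : ℝ)) : ℂ) = 1 := by
    rw [h1]; push_cast; rfl
  exact_mod_cast h2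

private lemma ssa_eig_le (hρ : IsState ρ) (i : Conf d L) : hρ.herm.eigenvalues i ≤ 1 := by
  rw [← ssa_eig_sum hρ]
  exact single_le_sum (f := fun i => hρ.herm.eigenvalues i) (fun j _ => ssa_eig_nonneg hρ j)
    (mem_univ i)

private lemma ssa_norm_pw {x : ℝ} (hx : 0 ≤ x) (w : ℂ) :
    ‖pw w x‖ = if x = 0 then 0 else Real.exp (w.re * Real.log x) := by
  unfold pw
  split_ifs with h
  · simp
  · rw [Complex.norm_exp]
    simp

private lemma ssa_pw_le {x : ℝ} (hx : 0 ≤ x) (hx1 : x ≤ 1) {w : ℂ} (hw : 0 ≤ w.re) :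
    ‖pw w x‖ ≤ 1 := by
  rw [ssa_norm_pw hx]
  split_ifs with h
  · exact zero_le_one
  · rw [Real.exp_le_one_iff]
    exact mul_nonpos_of_nonneg_of_nonpos hw (Real.log_nonpos hx hx1)

private lemma ssa_pw_one {x : ℝ} (hx : 0 ≤ x) {w : ℂ} (hw : w.re = 1) : ‖pw w x‖ = x := by
  rw [ssa_norm_pw hx]
  split_ifs with h
  · exact h.symm
  · rw [hw, one_mul, Real.exp_log (lt_of_le_of_ne hx (Ne.symm h))]

private lemma ssa_pw_half {x : ℝ} (hx : 0 ≤ x) {w : ℂ} (hw : w.re = 1 / 2) :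
    ‖pw w x‖ = Real.sqrt x := by
  rw [ssa_norm_pw hx]
  split_ifs with h
  · rw [h, Real.sqrt_zero]
  · have hx0 : 0 < x := lt_of_le_of_ne hx (Ne.symm h)
    rw [hw, Real.sqrt_eq_rpow, Real.rpow_def_of_pos hx0, mul_comm]

private lemma ssa_pw_self {x : ℝ} (hx : 0 ≤ x) : pw 1 x = (x : ℂ) := by
  unfold pw
  split_ifs with h
  · rw [h]; simp
  · have hx0 : 0 < x := lt_of_le_of_ne hx (Ne.symm h)
    rw [one_mul, ← Complex.ofReal_exp, Real.exp_log hx0]

private lemma ssa_pw_deriv (x : ℝ) (z : ℂ) :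
    HasDerivAt (fun z : ℂ => pw (1 - z / 2) x)
      (-(1 / 2) * (Real.log x : ℂ) * pw (1 - z / 2) x) z := by
  unfold pw
  split_ifs with h
  · simpa using hasDerivAt_const z (0 : ℂ)
  · have h1 : HasDerivAt (fun z : ℂ => (1 - z / 2) * (Real.log x : ℂ))
        (-(1 / 2) * (Real.log x : ℂ)) z := by
      have h2 : HasDerivAt (fun z : ℂ => 1 - z / 2) (-(1 / 2)) z := by
        simpa using ((hasDerivAt_id z).div_const 2).const_sub 1
      exact h2.mul_const _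
    have h3 := h1.cexp
    convert! h3 using 1
    ring

/-- The functional `T ↦ ⟪u, T u⟫`. -/
private noncomputable def ssaF (u : Hil d L) : (Hil d L →L[ℂ] Hil d L) →L[ℂ] ℂ :=
  (innerSL ℂ u).comp (ContinuousLinearMap.apply ℂ (Hil d L) u)

private lemma ssaF_apply (u : Hil d L) (T : Hil d L →L[ℂ] Hil d L) : ssaF u T = ⟪u, T u⟫_ℂ := rfl

/- PROOF. Let `T z = mprod hρ.herm A B z m`, `s i ≥ 0`, `u i` the eigenvalues and the orthonormal
eigenvectors of `ρ`, `∑ s i = 1`, and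
`g z = (mat (T z) * fnc hρ.herm (pw (1 - z / 2))).trace = ∑ i, pw (1 - z / 2) (s i) * ⟪u i, T z (u i)⟫`.
Apply `EC.three_lines` (EC/Lines.lean) to `g`:
`g` is entire and bounded on the strip (`mprod_differentiable`, `mprod_bounded`;
`|pw (1 - z / 2) x| = x ^ (1 - Re z / 2) ≤ 1` for `0 < x ≤ 1`).
`g 0 = (mat (T 0) * ρ).trace = 1` (`pw_one`, `fnc_id`, `mprod_zero`).
`g' 0 = (mat D * ρ).trace - (1 / 2) (mat (T 0) * fnc (x log x)).trace`, where
`fnc (x log x) = ρ * fnc log`, so that `mat (T 0)` drops out (`mprod_zero`):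
`g' 0 = - (msum - ent ρ) / 2`.
`|g (i t)| ≤ ∑ s i ‖T (i t) (u i)‖ ≤ ∑ s i = 1` (`norm_mprod_le`).
`|g (1 + i t)| ≤ ∑ sqrt (s i) ‖T (1 + i t) (u i)‖ ≤ (∑ s i) ^ (1 / 2) (∑ ‖T (u i)‖ ^ 2) ^ (1 / 2) ≤ 1`
by Cauchy-Schwarz and `mhs_le` (`∑ i, ‖T (u i)‖ ^ 2` is the same for all orthonormal bases).
So `exp (- (msum - ent ρ) / 2 - η) ≤ 1` for every `η > 0`, that is `ent ρ ≤ msum`. -/
theorem ent_le_msum (hρ : IsState ρ) {A B : ℕ → Finset (Site L)} {m : ℕ} (hd : 0 < d)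
    (hA : ∀ i < m, ∀ j < m, i ≠ j → Disjoint (A i) (A j))
    (hB : ∀ j < m, ∀ v ∈ B j, ∃ i < j, v ∈ A i) (hcov : ∀ v, ∃ j < m, v ∈ A j) :
    ent hρ.herm ≤ msum hρ.herm m A B := by
  set h := hρ.herm with hh
  set T : ℂ → (Hil d L →L[ℂ] Hil d L) := fun z => mprod h A B z m with hT
  set u : Conf d L → Hil d L := fun i => h.eigenvectorBasis i with hu
  set σ : Conf d L → ℝ := fun i => h.eigenvalues i with hσ
  have hσ0 : ∀ i, 0 ≤ σ i := ssa_eig_nonneg hρ
  have hσ1 : ∀ i, σ i ≤ 1 := ssa_eig_le hρ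
  have hσs : ∑ i, σ i = 1 := ssa_eig_sum hρ
  have hu1 : ∀ i, ‖u i‖ = 1 := ssa_norm h
  set g : ℂ → ℂ := fun z => ∑ i, pw (1 - z / 2) (σ i) * ssaF (u i) (T z) with hg
  obtain ⟨D, hD, hDtr⟩ := mprod_hasDerivAt hρ A B m
  have hTd : Differentiable ℂ T := mprod_differentiable h A B m
  have hgd : ∀ z : ℂ, ∀ E, HasDerivAt T E z → HasDerivAt g
      (∑ i, (-(1 / 2) * (Real.log (σ i) : ℂ) * pw (1 - z / 2) (σ i) * ssaF (u i) (T z) +
        pw (1 - z / 2) (σ i) * ssaF (u i) E)) z := by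
    intro z E hE
    apply HasDerivAt.fun_sum
    intro i _
    exact (ssa_pw_deriv (σ i) z).mul ((ssaF (u i)).hasFDerivAt.comp_hasDerivAt z hE)
  have hgdiff : Differentiable ℂ g := fun z =>
    (hgd z _ (hTd z).hasDerivAt).differentiableAt
  have hpw1 : fnc h (pw 1) = ρ := by
    conv_rhs => rw [← fnc_id h]
    exact fnc_congr h fun i => ssa_pw_self (hσ0 i)
  have hg0 : g 0 = 1 := by
    have h1 : g 0 = (mat (T 0) * fnc h (pw 1)).trace := by
      rw [ssa_trace, hg]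
      refine sum_congr rfl fun i _ => ?_
      rw [zero_div, sub_zero]
      rfl
    rw [h1, hpw1]
    change (mat (mprod hρ.herm A B 0 m) * ρ).trace = 1
    rw [mprod_zero hρ, hρ.tr]
  -- the derivative at zero
  have hgd0 : HasDerivAt g (-((((msum h m A B - ent h) / 2 : ℝ)) : ℂ)) 0 := by
    have h1 := hgd 0 D hD
    have e1 : ∑ i, pw (1 - 0 / 2) (σ i) * ssaF (u i) D = -((msum h m A B / 2 : ℝ) : ℂ) := by
      rw [← hDtr]
      have : (mat D * ρ).trace = (mat D * fnc h (pw 1)).trace := by rw [hpw1]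
      rw [this, ssa_trace]
      refine sum_congr rfl fun i _ => ?_
      rw [zero_div, sub_zero]
      rfl
    have e2 : ∑ i, (Real.log (σ i) : ℂ) * pw (1 - 0 / 2) (σ i) * ssaF (u i) (T 0) =
        -(ent h : ℂ) := by
      have h2 : ∑ i, (Real.log (σ i) : ℂ) * pw (1 - 0 / 2) (σ i) * ssaF (u i) (T 0) =
          (mat (T 0) * fnc h (fun x => (Real.log x : ℂ) * pw 1 x)).trace := by
        rw [ssa_trace]
        refine sum_congr rfl fun i _ => ?_
        rw [zero_div, sub_zero]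
        rfl
      have h3 : fnc h (fun x => (Real.log x : ℂ) * pw 1 x) =
          ρ * fnc h (fun x => (Real.log x : ℂ)) := by
        have h4 : ρ * fnc h (fun x => (Real.log x : ℂ)) =
            fnc h (pw 1) * fnc h (fun x => (Real.log x : ℂ)) := by rw [hpw1]
        rw [h4, fnc_mul]
        congr 1
        funext x
        ring
      have h5 : mat (T 0) * (ρ * fnc h (fun x => (Real.log x : ℂ))) =
          fnc h (fun x => (Real.log x : ℂ) * pw 1 x) := by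
        rw [← Matrix.mul_assoc]
        change mat (mprod hρ.herm A B 0 m) * ρ * _ = _
        rw [mprod_zero hρ, h3]
      rw [h2]
      conv_lhs => rw [h3]
      rw [h5, ssa_trace_fnc]
      unfold ent
      rw [Complex.ofReal_sum, ← sum_neg_distrib]
      refine sum_congr rfl fun i _ => ?_
      rw [ssa_pw_self (hσ0 i), Real.negMulLog]
      push_cast
      ring
    have e3 : ∑ i, (-(1 / 2) * (Real.log (σ i) : ℂ) * pw (1 - 0 / 2) (σ i) * ssaF (u i) (T 0) +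
        pw (1 - 0 / 2) (σ i) * ssaF (u i) D) = -((((msum h m A B - ent h) / 2 : ℝ)) : ℂ) := by
      rw [sum_add_distrib, e1]
      have : ∑ i, -(1 / 2) * (Real.log (σ i) : ℂ) * pw (1 - 0 / 2) (σ i) * ssaF (u i) (T 0) =
          -(1 / 2) * ∑ i, (Real.log (σ i) : ℂ) * pw (1 - 0 / 2) (σ i) * ssaF (u i) (T 0) := by
        rw [mul_sum]
        refine sum_congr rfl fun i _ => ?_
        ring
      rw [this, e2]
      push_cast
      ring
    rw [e3] at h1
    exact h1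
  -- bounds
  have hterm : ∀ z i, ‖ssaF (u i) (T z)‖ ≤ ‖T z (u i)‖ := by
    intro z i
    rw [ssaF_apply]
    refine (norm_inner_le_norm _ _).trans ?_
    rw [hu1, one_mul]
  obtain ⟨C, hC⟩ := mprod_bounded h A B m
  have hbd : ∀ z : ℂ, 0 ≤ z.re → z.re ≤ 1 → ‖g z‖ ≤ ∑ _i : Conf d L, C := by
    intro z hz hz1
    refine (norm_sum_le _ _).trans (sum_le_sum fun i _ => ?_)
    rw [norm_mul]
    have h1 : ‖pw (1 - z / 2) (σ i)‖ ≤ 1 := by
      apply ssa_pw_le (hσ0 i) (hσ1 i)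
      have : (1 - z / 2).re = 1 - z.re / 2 := by simp
      rw [this]; linarith
    have h2 : ‖ssaF (u i) (T z)‖ ≤ C := by
      refine (hterm z i).trans (((T z).le_opNorm (u i)).trans ?_)
      rw [hu1, mul_one]
      exact hC z hz hz1
    calc ‖pw (1 - z / 2) (σ i)‖ * ‖ssaF (u i) (T z)‖ ≤ 1 * ‖ssaF (u i) (T z)‖ := by gcongr
      _ ≤ C := by rw [one_mul]; exact h2
  have hl0 : ∀ t : ℝ, ‖g ((t : ℂ) * Complex.I)‖ ≤ 1 := by
    intro t
    rw [← hσs]
    refine (norm_sum_le _ _).trans (sum_le_sum fun i _ => ?_)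
    rw [norm_mul, ssa_pw_one (hσ0 i) (by simp)]
    have h2 : ‖ssaF (u i) (T ((t : ℂ) * Complex.I))‖ ≤ 1 := by
      refine (hterm _ i).trans ((norm_mprod_le h A B m t (u i)).trans ?_)
      rw [hu1]
    calc σ i * ‖ssaF (u i) (T ((t : ℂ) * Complex.I))‖ ≤ σ i * 1 :=
          mul_le_mul_of_nonneg_left h2 (hσ0 i)
      _ = σ i := mul_one _
  have hl1 : ∀ t : ℝ, ‖g (1 + (t : ℂ) * Complex.I)‖ ≤ 1 := by
    intro t
    have h1 : ‖g (1 + (t : ℂ) * Complex.I)‖ ≤
        ∑ i, Real.sqrt (σ i) * ‖T (1 + (t : ℂ) * Complex.I) (u i)‖ := by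
      refine (norm_sum_le _ _).trans (sum_le_sum fun i _ => ?_)
      rw [norm_mul, ssa_pw_half (hσ0 i) (by simp; norm_num)]
      exact mul_le_mul_of_nonneg_left (hterm _ i) (Real.sqrt_nonneg _)
    have h2 : ∑ i, Real.sqrt (σ i) * ‖T (1 + (t : ℂ) * Complex.I) (u i)‖ ≤
        Real.sqrt (∑ i, Real.sqrt (σ i) ^ 2) *
          Real.sqrt (∑ i, ‖T (1 + (t : ℂ) * Complex.I) (u i)‖ ^ 2) :=
      Real.sum_mul_le_sqrt_mul_sqrt _ _ _
    have h3 : ∑ i, Real.sqrt (σ i) ^ 2 = 1 := by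
      rw [← hσs]
      exact sum_congr rfl fun i _ => Real.sq_sqrt (hσ0 i)
    have h4 : ∑ i, ‖T (1 + (t : ℂ) * Complex.I) (u i)‖ ^ 2 ≤ 1 := by
      rw [hu]
      rw [ssa_hs h]
      exact mhs_le hρ hd hA hB hcov t
    refine h1.trans (h2.trans ?_)
    rw [h3, Real.sqrt_one, one_mul]
    exact Real.sqrt_le_one.mpr h4
  by_contra hcon
  push Not at hcon
  set κ : ℝ := (msum h m A B - ent h) / 2 with hκ
  have hκ0 : κ < 0 := by rw [hκ]; linarith
  obtain ⟨t, ht⟩ := three_lines hgdiff hbd hl0 hgd0 hg0 (η := -κ / 2) (by linarith)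
  have h5 := ht.trans (hl1 t)
  rw [Real.exp_le_one_iff] at h5
  linarith

end Pool.Agent.FFG.HE
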