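import Pool.Agent.FFG.HE.Filter
import Pool.Agent.FFG.HE.Bound

/-!
# Hidden-entropy criterion: the sum over all projections
-/

open Finset
open scoped InnerProductSpace

set_option autoImplicit false
set_option linter.unusedSectionVars false
set_option linter.unusedVariables false

namespace Pool.Agent.FFG.HE

open Pool.Agent.PEPS953 Pool.Agent.FFG Pool.Agent.FFG.EC

variable {E : Type} [NormedAddCommGroup E] [InnerProductSpace ℂ E] [CompleteSpace E] {ι : Type}
  [Fintype ι] [DecidableEq ι]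

/- PROOF. By `cj_filter` replace `Lj j` by its filter `l_j`, whose elements are in `C j` and which is
duplicate-free, so `l_j.length ≤ (C j).card ≤ m` and `s * l_j.length ≤ 1 / 100`. Let `q i = ‖Q i y‖`,
`a_j = (l_j.map q).sum ≤ ∑ i ∈ C j, q i`. By `cj_bound` the `j`-th term is at most
`3 s a_j q_j + 2 s ^ 2 a_j ^ 2`. Cauchy-Schwarz: `a_j ^ 2 ≤ m ∑ i ∈ C j, q i ^ 2`, and
`a_j q_j ≤ ∑ i ∈ C j, (q i ^ 2 + q j ^ 2) / 2`. Sum over `j`, using
`∑ j, ∑ i ∈ C j, q i ^ 2 = ∑ i, #{j | i ∈ C j} q i ^ 2 ≤ m ∑ i, q i ^ 2` (`H.dual`) and `H.card`: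
the total is at most `(3 s m + 2 (s m) ^ 2) ∑ q i ^ 2 ≤ 0.0302 ∑ q i ^ 2`. -/
theorem sum_bound {Q : ι → E →L[ℂ] E} {c : ι → ℕ} {C : ι → Finset ι} {m : ℕ} (H : Cone Q c C m)
    {s : ℝ} (hs : 0 ≤ s) (hsm : s * m ≤ 1 / 100) (Lj : ι → List ι) (hL : ∀ j, Sorted c (Lj j))
    (y : E) :
    ∑ j, ‖⟪y, (cj Q s (Lj j) (Q j) - Q j) y⟫_ℂ‖ ≤ 1 / 10 * ∑ j, ‖Q j y‖ ^ 2 := by
  classical
  set q : ι → ℝ := fun i => ‖Q i y‖ with hq
  have hq0 : ∀ i, 0 ≤ q i := fun i => norm_nonneg _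
  set l : ι → List ι := fun j => (Lj j).filter fun i => i ∈ C j with hl
  have hnd : ∀ j, (l j).Nodup := by
    intro j
    refine List.Nodup.filter _ ?_
    exact (hL j).imp fun h => h.2
  have hsub : ∀ j, (l j).toFinset ⊆ C j := by
    intro j i hi
    rw [List.mem_toFinset] at hi
    have := (List.mem_filter.1 hi).2
    simpa using this
  have hlen : ∀ j, (l j).length ≤ m := by
    intro j
    rw [← List.toFinset_card_of_nodup (hnd j)]
    exact (Finset.card_le_card (hsub j)).trans (H.card j)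
  set A : ι → ℝ := fun j => ∑ i ∈ C j, q i with hA
  have hA0 : ∀ j, 0 ≤ A j := fun j => Finset.sum_nonneg fun i _ => hq0 i
  have ha : ∀ j, ((l j).map q).sum ≤ A j := by
    intro j
    rw [← List.sum_toFinset _ (hnd j)]
    exact Finset.sum_le_sum_of_subset_of_nonneg (hsub j) fun i _ _ => hq0 i
  have ha0 : ∀ j, 0 ≤ ((l j).map q).sum := by
    intro j
    apply List.sum_nonneg
    intro x hx
    obtain ⟨i, -, rfl⟩ := List.mem_map.1 hx
    exact hq0 i
  -- the term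
  have hterm : ∀ j, ‖⟪y, (cj Q s (Lj j) (Q j) - Q j) y⟫_ℂ‖ ≤
      3 * s * (A j * q j) + 2 * s ^ 2 * A j ^ 2 := by
    intro j
    rw [cj_filter H s j (Lj j) (hL j)]
    have h1 := cj_bound H.proj hs (l j) (by
      have h2 : ((l j).length : ℝ) ≤ m := by exact_mod_cast hlen j
      exact (mul_le_mul_of_nonneg_left h2 hs).trans hsm) (H.proj j) y
    refine h1.trans ?_
    have h3 : ((l j).map q).sum * q j ≤ A j * q j :=
      mul_le_mul_of_nonneg_right (ha j) (hq0 j)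
    have h4 : ((l j).map q).sum ^ 2 ≤ A j ^ 2 := pow_le_pow_left₀ (ha0 j) (ha j) 2
    have h5 : 3 * s * (((l j).map q).sum * q j) ≤ 3 * s * (A j * q j) :=
      mul_le_mul_of_nonneg_left h3 (by positivity)
    have h6 : 2 * s ^ 2 * ((l j).map q).sum ^ 2 ≤ 2 * s ^ 2 * A j ^ 2 :=
      mul_le_mul_of_nonneg_left h4 (by positivity)
    calc 3 * s * ((l j).map q).sum * q j + 2 * s ^ 2 * ((l j).map q).sum ^ 2
        = 3 * s * (((l j).map q).sum * q j) + 2 * s ^ 2 * ((l j).map q).sum ^ 2 := by ring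
      _ ≤ _ := add_le_add h5 h6
  -- squares
  set S : ℝ := ∑ i, q i ^ 2 with hS
  have hS0 : 0 ≤ S := Finset.sum_nonneg fun i _ => sq_nonneg _
  have hB : ∑ j, ∑ i ∈ C j, q i ^ 2 ≤ m * S := by
    have h1 : ∑ j, ∑ i ∈ C j, q i ^ 2 = ∑ j, ∑ i, if i ∈ C j then q i ^ 2 else 0 := by
      refine Finset.sum_congr rfl fun j _ => ?_
      rw [Finset.sum_ite_mem, Finset.univ_inter]
    rw [h1, Finset.sum_comm, hS, Finset.mul_sum]
    refine Finset.sum_le_sum fun i _ => ?_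
    rw [← Finset.sum_filter, Finset.sum_const, nsmul_eq_mul]
    refine mul_le_mul_of_nonneg_right ?_ (sq_nonneg _)
    exact_mod_cast H.dual i
  have hC : ∑ j, ∑ i ∈ C j, q j ^ 2 ≤ m * S := by
    rw [hS, Finset.mul_sum]
    refine Finset.sum_le_sum fun j _ => ?_
    rw [Finset.sum_const, nsmul_eq_mul]
    refine mul_le_mul_of_nonneg_right ?_ (sq_nonneg _)
    exact_mod_cast H.card j
  have hA2 : ∀ j, A j ^ 2 ≤ m * ∑ i ∈ C j, q i ^ 2 := by
    intro j
    have h1 := sq_sum_le_card_mul_sum_sq (s := C j) (f := q)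
    refine h1.trans ?_
    refine mul_le_mul_of_nonneg_right ?_ (Finset.sum_nonneg fun i _ => sq_nonneg _)
    exact_mod_cast H.card j
  have hAq : ∀ j, A j * q j ≤ (∑ i ∈ C j, q i ^ 2 + ∑ i ∈ C j, q j ^ 2) / 2 := by
    intro j
    rw [hA, ← Finset.sum_add_distrib, Finset.sum_div, Finset.sum_mul]
    refine Finset.sum_le_sum fun i _ => ?_
    nlinarith [sq_nonneg (q i - q j)]
  have hsumAq : ∑ j, A j * q j ≤ m * S := by
    refine (Finset.sum_le_sum fun j _ => hAq j).trans ?_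
    rw [← Finset.sum_div, Finset.sum_add_distrib]
    linarith
  have hsumA2 : ∑ j, A j ^ 2 ≤ m * (m * S) := by
    refine (Finset.sum_le_sum fun j _ => hA2 j).trans ?_
    rw [← Finset.mul_sum]
    exact mul_le_mul_of_nonneg_left hB (by positivity)
  calc ∑ j, ‖⟪y, (cj Q s (Lj j) (Q j) - Q j) y⟫_ℂ‖
      ≤ ∑ j, (3 * s * (A j * q j) + 2 * s ^ 2 * A j ^ 2) :=
        Finset.sum_le_sum fun j _ => hterm j
    _ = 3 * s * ∑ j, A j * q j + 2 * s ^ 2 * ∑ j, A j ^ 2 := by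
        rw [Finset.sum_add_distrib, Finset.mul_sum, Finset.mul_sum]
    _ ≤ 3 * s * (m * S) + 2 * s ^ 2 * (m * (m * S)) :=
        add_le_add (mul_le_mul_of_nonneg_left hsumAq (by positivity))
          (mul_le_mul_of_nonneg_left hsumA2 (by positivity))
    _ = (3 * (s * m) + 2 * (s * m) ^ 2) * S := by ring
    _ ≤ 1 / 10 * S := by
        refine mul_le_mul_of_nonneg_right ?_ hS0
        have h0 : 0 ≤ s * m := by positivity
        nlinarith

end Pool.Agent.FFG.HE
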