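import Pool.Agent.FFG.HE.Defs

/-!
# Hidden-entropy criterion: local tests
-/

open Finset
open scoped InnerProductSpace

set_option autoImplicit false
set_option linter.unusedSectionVars false
set_option linter.unusedVariables false

namespace Pool.Agent.FFG.HE

open Pool.Agent.PEPS953 Pool.Agent.FFG Pool.Agent.FFG.EC

variable {d L : ℕ} [NeZero L]

private lemma fin_spec (G : Hil d L →L[ℂ] Hil d L) : (spectrum ℝ G).Finite := by
  have h1 : (spectrum ℂ G).Finite := by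
    have h2 : G = (Matrix.toEuclideanCLM (𝕜 := ℂ) (n := Conf d L)) (mat G) :=
      (StarAlgEquiv.apply_symm_apply _ G).symm
    rw [h2, AlgEquiv.spectrum_eq (R := ℂ) (Matrix.toEuclideanCLM (𝕜 := ℂ) (n := Conf d L)) (mat G)]
    exact Matrix.finite_spectrum _
  rw [← spectrum.preimage_algebraMap ℂ]
  exact h1.preimage (FaithfulSMul.algebraMap_injective ℝ ℂ).injOn

/- PROOF. `G = ∑ i, star (b i) * b i` is self-adjoint and positive; `Q = 1_{G > θ ^ 2}`, the spectral
projection: for example `Q = cfc (fun x : ℝ => if θ ^ 2 < x then 1 else 0) G` (the spectrum is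
finite, so every function is continuous on it), or the sum of the eigenprojections. Locality:
`su u a b` and its adjoint `su u b a` commute with every `b i` and `star (b i)` for `u ∉ K`
(`star_su`), so with `G` and with `Q` (`Commute.cfc`). For every `x`:
`‖b i (1 - Q) x‖ ^ 2 ≤ ⟪(1 - Q) x, G (1 - Q) x⟫ ≤ θ ^ 2 ‖x‖ ^ 2`. `θ ^ 2 Q ≤ G`, so
`θ ^ 2 ‖Q Ψ‖ ^ 2 ≤ ⟪Ψ, G Ψ⟫ = ∑ ‖b i Ψ‖ ^ 2 ≤ card η ^ 2 ≤ (card η) ^ 2`. -/
theorem exists_test {K : Finset (Site L)} {κ : Type} [Fintype κ]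
    (b : κ → Hil d L →L[ℂ] Hil d L) (hloc : ∀ i, LocalOn K (b i)) {Ψ : Hil d L} {θ η : ℝ}
    (hθ : 0 < θ) (hη : ∀ i, ‖b i Ψ‖ ≤ η) :
    ∃ Q : Hil d L →L[ℂ] Hil d L, IsStarProjection Q ∧ LocalOn K Q ∧
      (∀ i, ‖b i * (1 - Q)‖ ≤ θ) ∧ θ * ‖Q Ψ‖ ≤ Fintype.card κ * η := by
  classical
  set G : Hil d L →L[ℂ] Hil d L := ∑ i, star (b i) * b i with hG
  have hG0 : 0 ≤ G := Finset.sum_nonneg fun i _ => star_mul_self_nonneg (b i)
  have hGs : IsSelfAdjoint G := IsSelfAdjoint.of_nonneg hG0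
  have hc : ∀ f : ℝ → ℝ, ContinuousOn f (spectrum ℝ G) := fun f => (fin_spec G).continuousOn f
  set f : ℝ → ℝ := fun x => if θ ^ 2 < x then 1 else 0 with hf
  set Q := cfc f G with hQ
  have hff : (fun x => f x * f x) = f := by
    funext x
    simp only [hf]
    split_ifs <;> norm_num
  have hQs : IsSelfAdjoint Q := cfc_predicate f G
  have hQi : Q * Q = Q := by
    rw [hQ, ← cfc_mul f f G (hc _) (hc _), hff]
  have h1Q : 1 - Q = cfc (fun x => 1 - f x) G := by
    rw [cfc_sub (fun _ => (1 : ℝ)) f G (hc _) (hc _), cfc_const_one ℝ G]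
  have hGid : cfc (fun x : ℝ => x) G = G := cfc_id' ℝ G
  have hconj : (1 - Q) * G * (1 - Q) ≤ algebraMap ℝ _ (θ ^ 2) := by
    have e1 : (1 - Q) * G * (1 - Q) = cfc (fun x => (1 - f x) * x * (1 - f x)) G := by
      rw [cfc_mul (fun x => (1 - f x) * x) (fun x => 1 - f x) G (hc _) (hc _),
        cfc_mul (fun x => 1 - f x) (fun x => x) G (hc _) (hc _), hGid, ← h1Q]
    rw [e1]
    refine cfc_le_algebraMap _ _ G (fun x _ => ?_) (hc _) hGs
    simp only [hf]
    split_ifs with h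
    · norm_num
      positivity
    · push Not at h
      simpa using h
  have h1Qs : IsSelfAdjoint (1 - Q) := by
    rw [h1Q]
    exact cfc_predicate _ G
  refine ⟨Q, ⟨hQi, hQs⟩, ?_, ?_, ?_⟩
  · -- locality
    intro u hu a c
    have hcb : ∀ i, ∀ a c : Fin d, star (b i) * su u a c = su u a c * star (b i) := by
      intro i a c
      have h := congrArg star (hloc i u hu c a)
      rw [star_mul, star_mul, star_su] at h
      exact h
    have hcomm : Commute G (su u a c) := by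
      rw [hG]
      refine Commute.sum_left _ _ _ fun i _ => ?_
      refine Commute.mul_left ?_ ?_
      · exact hcb i a c
      · exact (hloc i u hu a c).symm
    exact (hcomm.cfc_real f).symm
  · -- the norm
    intro i
    have h1 : star (b i) * b i ≤ G :=
      Finset.single_le_sum (f := fun i => star (b i) * b i)
        (fun j _ => star_mul_self_nonneg (b j)) (Finset.mem_univ i)
    have h2 : (1 - Q) * (star (b i) * b i) * (1 - Q) ≤ (1 - Q) * G * (1 - Q) :=
      h1Qs.conjugate_le_conjugate h1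
    have h3 : star (b i * (1 - Q)) * (b i * (1 - Q)) = (1 - Q) * (star (b i) * b i) * (1 - Q) := by
      rw [star_mul, h1Qs.star_eq]
      simp only [mul_assoc]
    have h4 : star (b i * (1 - Q)) * (b i * (1 - Q)) ≤ algebraMap ℝ _ (θ ^ 2) := by
      rw [h3]
      exact h2.trans hconj
    have h5 := (CStarAlgebra.norm_le_iff_le_algebraMap _ (sq_nonneg θ)
      (star_mul_self_nonneg (b i * (1 - Q)))).2 h4
    rw [CStarRing.norm_star_mul_self] at h5
    nlinarith [norm_nonneg (b i * (1 - Q))]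
  · -- the value
    have h1 : cfc (fun x => θ ^ 2 * f x) G ≤ cfc (fun x : ℝ => x) G := by
      refine cfc_mono (fun x hx => ?_) (hc _) (hc _)
      have hx0 : 0 ≤ x := spectrum_nonneg_of_nonneg hG0 hx
      simp only [hf]
      split_ifs with h
      · rw [mul_one]
        exact h.le
      · rw [mul_zero]
        exact hx0
    have h2 : cfc (fun x => θ ^ 2 * f x) G = θ ^ 2 • Q := by
      rw [hQ, ← cfc_smul (θ ^ 2) f G (hc _)]
      rfl
    rw [h2, hGid, ContinuousLinearMap.le_def] at h1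
    have h3 := h1.re_inner_nonneg_left Ψ
    have h4 : RCLike.re ⟪(G - θ ^ 2 • Q) Ψ, Ψ⟫_ℂ =
        (∑ i, ‖b i Ψ‖ ^ 2) - θ ^ 2 * ‖Q Ψ‖ ^ 2 := by
      have e1 : (G - θ ^ 2 • Q) Ψ = G Ψ - θ ^ 2 • Q Ψ := rfl
      have e2 : ⟪G Ψ, Ψ⟫_ℂ = ((∑ i, ‖b i Ψ‖ ^ 2 : ℝ) : ℂ) := by
        have e3 : G Ψ = ∑ i, (star (b i) * b i) Ψ := by
          rw [hG, _root_.sum_apply]
        rw [e3, sum_inner]
        push_cast
        refine Finset.sum_congr rfl fun i _ => ?_
        change ⟪star (b i) (b i Ψ), Ψ⟫_ℂ = _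
        rw [ContinuousLinearMap.star_eq_adjoint, ContinuousLinearMap.adjoint_inner_left,
          inner_self_eq_norm_sq_to_K]
        rfl
      have e4 : ⟪Q Ψ, Ψ⟫_ℂ = ((‖Q Ψ‖ ^ 2 : ℝ) : ℂ) := by
        have e5 : Q Ψ = star Q (Q Ψ) := by
          rw [hQs.star_eq]
          exact (congrArg (fun T : Hil d L →L[ℂ] Hil d L => T Ψ) hQi).symm
        conv_lhs => rw [e5]
        rw [ContinuousLinearMap.star_eq_adjoint, ContinuousLinearMap.adjoint_inner_left,
          inner_self_eq_norm_sq_to_K]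
        push_cast
        rfl
      rw [e1, inner_sub_left, e2, map_sub]
      have e6 : ⟪θ ^ 2 • Q Ψ, Ψ⟫_ℂ = ((θ ^ 2 * ‖Q Ψ‖ ^ 2 : ℝ) : ℂ) := by
        rw [← Complex.coe_smul, inner_smul_left, e4]
        simp
      rw [e6]
      simp only [RCLike.re_to_complex, Complex.ofReal_re]
    rw [h4] at h3
    have h5 : ∑ i, ‖b i Ψ‖ ^ 2 ≤ (∑ i, ‖b i Ψ‖) ^ 2 :=
      Finset.sum_sq_le_sq_sum_of_nonneg (fun i _ => norm_nonneg _)
    have h6 : ∑ i, ‖b i Ψ‖ ≤ Fintype.card κ * η := by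
      have := Finset.sum_le_card_nsmul Finset.univ (fun i => ‖b i Ψ‖) η (fun i _ => hη i)
      rwa [nsmul_eq_mul, Finset.card_univ] at this
    have h7 : (0 : ℝ) ≤ ∑ i, ‖b i Ψ‖ := Finset.sum_nonneg fun i _ => norm_nonneg _
    have h8 : (θ * ‖Q Ψ‖) ^ 2 ≤ (∑ i, ‖b i Ψ‖) ^ 2 := by
      rw [mul_pow]
      linarith
    have h9 : θ * ‖Q Ψ‖ ≤ ∑ i, ‖b i Ψ‖ :=
      (pow_le_pow_iff_left₀ (by positivity) h7 two_ne_zero).1 h8
    exact h9.trans h6

end Pool.Agent.FFG.HE
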