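import Pool.Agent.FFG.HE.Test
import Pool.Agent.FFG.HE.Ground
import Pool.Agent.FFG.HE.LocApp
import Pool.Agent.FFG.HE.DevLe
import Pool.Agent.FFG.EC.BoxConn

/-!
# Hidden-entropy criterion: the family of the tests
-/

open Finset
open scoped InnerProductSpace

set_option autoImplicit false
set_option linter.unusedSectionVars false
set_option linter.unusedVariables false

namespace Pool.Agent.FFG.HE

open Pool.Agent.PEPS953 Pool.Agent.FFG Pool.Agent.FFG.EC Pool.Agent.FFG.HPlain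

open Pool.Agent.FFG.EPlain (glue rdm boxAt)

variable {d L r : ℕ} [NeZero L]

/- PROOF. `u = v + (a, b)` with `a, b < R`; compare `GP.gp12_box_dist` (GP/KVLocal.lean). -/
theorem boxAt_subset_ball (R : ℕ) (v : Site L) : boxAt L R v ⊆ LT.ball R {v} := by
  intro x hx
  unfold boxAt at hx
  rw [mem_image] at hx
  obtain ⟨p, _, rfl⟩ := hx
  unfold LT.ball
  rw [mem_filter]
  exact ⟨mem_univ _, v, mem_singleton_self v, (GP.gp12_box_dist v p).le⟩

/- PROOF. `(evo H t)` is unitary (`evo H t * evo H s = evo H (t + s)`, `star (evo H t) = evo H (-t)`;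
compare `GP/KVNorm.lean`, `GP/Unitary.lean`). -/
theorem evo_unitary {H : Hil d L →L[ℂ] Hil d L} (hH : IsSelfAdjoint H) (t : ℝ) :
    star (evo H t) * evo H t = 1 := by
  unfold evo
  rw [GP.gp12_star_exp hH, GP.gp12_exp_neg_mul]

/- PROOF. For `X = boxAt L R v`, which is contained in the ball of radius `R` about `v`, and for
`O = emb X (single a b 1)` (local on `X` by `emb_localOn`, `‖O‖ ≤ 1` by `norm_emb_single`) let
`b₀ = ch w K U' O - ⟪Ψ, O Ψ⟫ • 1`, `U' = evo (hamOn h (ball (n (R + 2 r)) {v})) t₀`. It is local on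
the ball of radius `n (R + 2 r) + r` (`ch_localOn`, `localOn_one`, `LocalOn.smul`, `LocalOn.add`),
and `‖b₀ Ψ‖ ≤ η + δ` by `hη` and `hδ`. Apply `exists_test` for every `v` with the index set
`(X → Fin d) × (X → Fin d)`, whose cardinality is at most `(d ^ (R ^ 2)) ^ 2` (`card_boxAt`,
`0 < d`). -/
theorem exists_tests (hd : 0 < d) (hrL : r ≤ L) {h : Matrix (LConf d r) (LConf d r) ℂ}
    (hh : h.IsHermitian) {Ψ : Hil d L} (hΨ : ‖Ψ‖ = 1) (R n : ℕ) (hn : 0 < n) (t₀ : ℝ)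
    {w : ℕ → ℝ} {K : ℕ} {η δ θ : ℝ} (hη0 : 0 ≤ η) (hδ0 : 0 ≤ δ) (hθ : 0 < θ)
    (hη : ∀ (v : Site L) (O : Hil d L →L[ℂ] Hil d L), LocalOn (LT.ball R {v}) O →
      ‖ch w K (evo (ham L h) t₀) O -
        ch w K (evo (hamOn h (LT.ball (n * (R + 2 * r)) {v})) t₀) O‖ ≤ η * ‖O‖)
    (hδ : ∀ O : Hil d L →L[ℂ] Hil d L,
      ‖ch w K (evo (ham L h) t₀) O Ψ - ⟪Ψ, O Ψ⟫_ℂ • Ψ‖ ≤ δ * ‖O‖) :
    ∃ Q : Site L → Hil d L →L[ℂ] Hil d L, (∀ v, IsStarProjection (Q v)) ∧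
      (∀ v, LocalOn (LT.ball (n * (R + 2 * r) + r) {v}) (Q v)) ∧
      (∀ v, ∀ a b : boxAt L R v → Fin d,
        ‖(ch w K (evo (hamOn h (LT.ball (n * (R + 2 * r)) {v})) t₀)
            (emb (boxAt L R v) (Matrix.single a b (1 : ℂ))) -
          ⟪Ψ, emb (boxAt L R v) (Matrix.single a b (1 : ℂ)) Ψ⟫_ℂ • 1) * (1 - Q v)‖ ≤ θ) ∧
      ∀ v, θ * ‖Q v Ψ‖ ≤ ((d : ℝ) ^ R ^ 2) ^ 2 * (η + δ) := by
  have key : ∀ v : Site L, ∃ Q : Hil d L →L[ℂ] Hil d L, IsStarProjection Q ∧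
      LocalOn (LT.ball (n * (R + 2 * r) + r) {v}) Q ∧
      (∀ p : (boxAt L R v → Fin d) × (boxAt L R v → Fin d),
        ‖(ch w K (evo (hamOn h (LT.ball (n * (R + 2 * r)) {v})) t₀)
            (emb (boxAt L R v) (Matrix.single p.1 p.2 (1 : ℂ))) -
          ⟪Ψ, emb (boxAt L R v) (Matrix.single p.1 p.2 (1 : ℂ)) Ψ⟫_ℂ • 1) * (1 - Q)‖ ≤ θ) ∧
      θ * ‖Q Ψ‖ ≤ Fintype.card ((boxAt L R v → Fin d) × (boxAt L R v → Fin d)) * (η + δ) := by
    intro v
    refine exists_test (K := LT.ball (n * (R + 2 * r) + r) {v}) (Ψ := Ψ) (θ := θ) (η := η + δ)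
      (fun p : (boxAt L R v → Fin d) × (boxAt L R v → Fin d) =>
        ch w K (evo (hamOn h (LT.ball (n * (R + 2 * r)) {v})) t₀)
            (emb (boxAt L R v) (Matrix.single p.1 p.2 (1 : ℂ))) -
          ⟪Ψ, emb (boxAt L R v) (Matrix.single p.1 p.2 (1 : ℂ)) Ψ⟫_ℂ • 1) ?_ hθ ?_
    · intro p
      have h1 : LocalOn (LT.ball R {v}) (emb (boxAt L R v) (Matrix.single p.1 p.2 (1 : ℂ))) :=
        (emb_localOn _ _).mono (boxAt_subset_ball R v)
      have h2 := ch_localOn hrL hh R n hn v h1 t₀ w K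
      have h3 := (localOn_one (d := d) (LT.ball (n * (R + 2 * r) + r) {v})).smul
        (-⟪Ψ, emb (boxAt L R v) (Matrix.single p.1 p.2 (1 : ℂ)) Ψ⟫_ℂ)
      have h4 := h2.add h3
      have e : ∀ (A : Hil d L →L[ℂ] Hil d L) (c : ℂ),
          A - c • (1 : Hil d L →L[ℂ] Hil d L) = A + (-c) • (1 : Hil d L →L[ℂ] Hil d L) := by
        intro A c
        module
      rw [e]
      exact h4
    · intro p
      set O := emb (boxAt L R v) (Matrix.single p.1 p.2 (1 : ℂ)) with hO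
      have h1 : LocalOn (LT.ball R {v}) O := (emb_localOn _ _).mono (boxAt_subset_ball R v)
      have hO1 : ‖O‖ ≤ 1 := norm_emb_single _ _ _
      have e : (ch w K (evo (hamOn h (LT.ball (n * (R + 2 * r)) {v})) t₀) O -
          ⟪Ψ, O Ψ⟫_ℂ • 1) Ψ =
          (ch w K (evo (ham L h) t₀) O Ψ - ⟪Ψ, O Ψ⟫_ℂ • Ψ) -
          (ch w K (evo (ham L h) t₀) O -
            ch w K (evo (hamOn h (LT.ball (n * (R + 2 * r)) {v})) t₀) O) Ψ := by
        simp only [_root_.sub_apply, _root_.smul_apply, one_apply_eq_self]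
        abel
      rw [e]
      refine (norm_sub_le _ _).trans ?_
      have h2 := hδ O
      have h3 := ((ch w K (evo (ham L h) t₀) O -
            ch w K (evo (hamOn h (LT.ball (n * (R + 2 * r)) {v})) t₀) O)).le_opNorm Ψ
      rw [hΨ, mul_one] at h3
      have h4 := hη v O h1
      have h5 : η * ‖O‖ ≤ η := by nlinarith
      have h6 : δ * ‖O‖ ≤ δ := by nlinarith
      linarith
  choose Q hQ1 hQ2 hQ3 hQ4 using key
  refine ⟨Q, hQ1, hQ2, fun v a b => hQ3 v (a, b), fun v => (hQ4 v).trans ?_⟩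
  apply mul_le_mul_of_nonneg_right _ (add_nonneg hη0 hδ0)
  have hc : Fintype.card ((boxAt L R v → Fin d) × (boxAt L R v → Fin d)) ≤
      (d ^ R ^ 2) ^ 2 := by
    rw [Fintype.card_prod, ← sq, Fintype.card_fun, Fintype.card_fin, Fintype.card_coe]
    exact Nat.pow_le_pow_left (Nat.pow_le_pow_right hd (card_boxAt R v)) 2
  exact_mod_cast hc

end Pool.Agent.FFG.HE
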