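import Pool.Agent.FFG.HE.SumBound
import Pool.Agent.FFG.HE.Deriv

/-!
# Hidden-entropy criterion: the projection Trotter inequality
-/

open Finset
open scoped InnerProductSpace

set_option autoImplicit false
set_option linter.unusedSectionVars false
set_option linter.unusedVariables false

namespace Pool.Agent.FFG.HE

open Pool.Agent.PEPS953 Pool.Agent.FFG Pool.Agent.FFG.EC

variable {E : Type} [NormedAddCommGroup E] [InnerProductSpace ℂ E] [CompleteSpace E] {ι : Type}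
  [Fintype ι] [DecidableEq ι]

private theorem tm_zero (Q : ι → E →L[ℂ] E) (l : List ι) : tm Q 0 l = 1 := by
  unfold tm
  induction l with
  | nil => simp
  | cons i l ih =>
    rw [List.map_cons, List.prod_cons, ih, mul_one]
    simp [pp]

private theorem re_proj {P : E →L[ℂ] E} (hP : IsStarProjection P) (y : E) :
    (⟪y, P y⟫_ℂ).re = ‖P y‖ ^ 2 := by
  have h1 : P y = star P (P y) := by
    rw [hP.isSelfAdjoint.star_eq, ← mul_apply_eq_comp, hP.isIdempotentElem.eq]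
  rw [h1, ContinuousLinearMap.star_eq_adjoint, ContinuousLinearMap.adjoint_inner_right,
    ← ContinuousLinearMap.star_eq_adjoint, ← h1]
  have h2 := inner_self_eq_norm_sq (𝕜 := ℂ) (P y)
  exact h2

private theorem sum_re {Q : ι → E →L[ℂ] E} {c : ι → ℕ} {C : ι → Finset ι} {m : ℕ}
    (H : Cone Q c C m) {s : ℝ} (hs : 0 ≤ s) (hsm : s * m ≤ 1 / 100) (Lj : ι → List ι)
    (hL : ∀ j, Sorted c (Lj j)) (y : E) :
    |(⟪y, (∑ j, cj Q s (Lj j) (Q j)) y⟫_ℂ).re - ∑ j, ‖Q j y‖ ^ 2| ≤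
      1 / 10 * ∑ j, ‖Q j y‖ ^ 2 := by
  have h1 : (⟪y, (∑ j, cj Q s (Lj j) (Q j)) y⟫_ℂ).re - ∑ j, ‖Q j y‖ ^ 2 =
      ∑ j, (⟪y, (cj Q s (Lj j) (Q j) - Q j) y⟫_ℂ).re := by
    rw [_root_.sum_apply, inner_sum, Complex.re_sum, ← Finset.sum_sub_distrib]
    refine Finset.sum_congr rfl fun j _ => ?_
    rw [_root_.sub_apply, inner_sub_right, Complex.sub_re, re_proj (H.proj j)]
  rw [h1]
  refine (Finset.abs_sum_le_sum_abs _ _).trans ((Finset.sum_le_sum fun j _ => ?_).trans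
    (sum_bound H hs hsm Lj hL y))
  exact Complex.abs_re_le_norm _

theorem trotter {Q : ι → E →L[ℂ] E} {c : ι → ℕ} {C : ι → Finset ι} {m : ℕ} (H : Cone Q c C m)
    {t : ℝ} (ht : 0 ≤ t) (htm : t * m ≤ 1 / 100) (l : List ι) (hl : Sorted c l)
    (hmem : ∀ i, i ∈ l) (x : E) :
    ‖tm Q t l (NormedSpace.exp (((t / 2 : ℝ) : ℂ) • ∑ i, Q i) x)‖ ≤ ‖x‖ := by
  classical
  have hnodup : l.Nodup := hl.imp fun h => h.2
  set F : E →L[ℂ] E := ∑ i, Q i with hF
  set Y : ℝ → E →L[ℂ] E := fun s => NormedSpace.exp (((s / 2 : ℝ) : ℂ) • F) with hY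
  set B : ℝ → E →L[ℂ] E := fun s => bb Q s l - (1 / 2 : ℂ) • ∑ j, cj Q s l (Q j) with hB
  have hYd : ∀ s, HasDerivAt Y (((1 / 2 : ℂ) • F) * Y s) s := by
    intro s
    have h1 := hasDerivAt_exp_smul_const' (𝕂 := ℝ) ((1 / 2 : ℂ) • F) s
    have h2 : ∀ u : ℝ, u • ((1 / 2 : ℂ) • F) = ((u / 2 : ℝ) : ℂ) • F := by
      intro u
      rw [← Complex.coe_smul, smul_smul]
      congr 1
      push_cast
      ring
    simp only [h2] at h1
    exact h1
  have hNd : ∀ s, HasDerivAt (fun s => tm Q s l * Y s) (-(B s * (tm Q s l * Y s))) s := by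
    intro s
    refine HasDerivAt.congr_deriv ((hasDerivAt_tm H.proj l s).mul (hYd s)) ?_
    have h2 : (∑ j, cj Q s l (Q j)) * tm Q s l = tm Q s l * F := by
      rw [hF, Finset.sum_mul, Finset.mul_sum]
      exact Finset.sum_congr rfl fun j _ => cj_mul_tm H.proj s l (Q j)
    rw [hB]
    simp only [sub_mul, smul_mul_assoc, mul_smul_comm, neg_mul, neg_sub]
    rw [← mul_assoc (∑ j, cj Q s l (Q j)), h2]
    simp only [mul_assoc]
    abel
  have hyd : ∀ s, HasDerivAt (fun s => (tm Q s l * Y s) x) (-(B s ((tm Q s l * Y s) x))) s := by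
    intro s
    have h1 := ((ContinuousLinearMap.apply ℂ E x).restrictScalars ℝ).hasFDerivAt.comp_hasDerivAt s
      (hNd s)
    exact h1
  have hgd : ∀ s, HasDerivAt (fun s => ‖(tm Q s l * Y s) x‖ ^ 2)
      (-(2 * (⟪(tm Q s l * Y s) x, B s ((tm Q s l * Y s) x)⟫_ℂ).re)) s := by
    intro s
    have h1 := ((hyd s).inner ℂ (hyd s))
    have h2 := (Complex.reCLM.hasFDerivAt.comp_hasDerivAt s h1)
    have h3 : (fun s => ‖(tm Q s l * Y s) x‖ ^ 2) = (⇑Complex.reCLM ∘ fun s =>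
        ⟪(tm Q s l * Y s) x, (tm Q s l * Y s) x⟫_ℂ) := by
      funext s
      exact (inner_self_eq_norm_sq (𝕜 := ℂ) _).symm
    rw [h3]
    refine HasDerivAt.congr_deriv h2 ?_
    rw [inner_neg_right, inner_neg_left]
    change (-⟪(tm Q s l * Y s) x, B s ((tm Q s l * Y s) x)⟫_ℂ +
      -⟪B s ((tm Q s l * Y s) x), (tm Q s l * Y s) x⟫_ℂ).re = _
    rw [← inner_conj_symm (B s ((tm Q s l * Y s) x)), Complex.add_re, Complex.neg_re,
      Complex.neg_re, Complex.conj_re]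
    ring
  have hpos : ∀ s ∈ Set.Icc 0 t, ∀ y : E, 0 ≤ (⟪y, B s y⟫_ℂ).re := by
    intro s hs y
    have hsm : s * m ≤ 1 / 100 :=
      (mul_le_mul_of_nonneg_right hs.2 (Nat.cast_nonneg m)).trans htm
    have h1 := sum_re H hs.1 hsm (fun j => l.takeWhile fun i => i ≠ j)
      (fun j => hl.sublist (List.takeWhile_sublist _)) y
    have h2 := sum_re H hs.1 hsm (fun _ => l) (fun _ => hl) y
    have h3 : bb Q s l = ∑ j, cj Q s (l.takeWhile fun i => i ≠ j) (Q j) := by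
      rw [bb_eq Q s l hnodup, ← List.sum_toFinset _ hnodup]
      refine Finset.sum_congr ?_ fun _ _ => rfl
      ext i
      simp [hmem i]
    have h4 : (⟪y, B s y⟫_ℂ).re = (⟪y, (bb Q s l) y⟫_ℂ).re -
        1 / 2 * (⟪y, (∑ j, cj Q s l (Q j)) y⟫_ℂ).re := by
      rw [hB]
      simp only [_root_.sub_apply, _root_.smul_apply, inner_sub_right,
        inner_smul_right, Complex.sub_re]
      congr 1
      have h5 : (1 / 2 : ℂ) = ((1 / 2 : ℝ) : ℂ) := by push_cast; rfl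
      rw [h5, Complex.re_ofReal_mul]
    rw [h4, h3]
    have h6 := (abs_le.1 h1).1
    have h7 := (abs_le.1 h2).2
    have h8 : 0 ≤ ∑ j, ‖Q j y‖ ^ 2 := Finset.sum_nonneg fun j _ => by positivity
    linarith
  have hanti : AntitoneOn (fun s => ‖(tm Q s l * Y s) x‖ ^ 2) (Set.Icc 0 t) := by
    refine antitoneOn_of_deriv_nonpos (convex_Icc 0 t)
      (fun s _ => (hgd s).continuousAt.continuousWithinAt)
      (fun s _ => (hgd s).differentiableAt.differentiableWithinAt) fun s hs => ?_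
    rw [(hgd s).deriv]
    rw [interior_Icc] at hs
    have := hpos s (Set.Ioo_subset_Icc_self hs) ((tm Q s l * Y s) x)
    linarith
  have h1 := hanti (Set.left_mem_Icc.2 ht) (Set.right_mem_Icc.2 ht) ht
  have h2 : (tm Q 0 l * Y 0) x = x := by
    rw [tm_zero, one_mul, hY]
    simp
  simp only [h2] at h1
  exact (pow_le_pow_iff_left₀ (norm_nonneg _) (norm_nonneg _) two_ne_zero).1 h1

end Pool.Agent.FFG.HE
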